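import Mathlib

/-! # Auxiliary polynomials and resultants for the curve `s z ^ e = f (t)` -/

set_option autoImplicit false

namespace Pool.Agent.N445.VW

open Polynomial

/-- If all maximal minors of the matrix of the monomials `t ^ α x ^ β`, `α ≤ R`, `β < e`, vanish,
the points lie on a curve of degree less than `e` in the second variable. -/
theorem aux_gen (R e : ℕ) (he : 1 ≤ e) {ι : Type} (t x : ι → ℤ)
    (hdet : ∀ u : (Fin (R + 1) × Fin e) → ι,
      (Matrix.of fun i j : Fin (R + 1) × Fin e =>
        t (u i) ^ (j.1 : ℕ) * x (u i) ^ (j.2 : ℕ)).det = 0) :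
    ∃ G : ℚ[X][X], G ≠ 0 ∧ G.natDegree < e ∧ (∀ j, (G.coeff j).natDegree ≤ R) ∧
      ∀ i, G.evalEval (t i : ℚ) (x i : ℚ) = 0 := by
  classical
  let v : ι → ((Fin (R + 1) × Fin e) → ℚ) :=
    fun i j => ((t i ^ (j.1 : ℕ) * x i ^ (j.2 : ℕ) : ℤ) : ℚ)
  by_cases hspan : Submodule.span ℚ (Set.range v) = ⊤
  · exfalso
    obtain ⟨κ, a, ha, hsp, hli⟩ := exists_linearIndependent' ℚ v
    have hb := Module.Basis.mk hli (by rw [hsp, hspan])
    let e' := hb.indexEquiv (Pi.basisFun ℚ (Fin (R + 1) × Fin e))
    have h1 := hli.comp e'.symm e'.symm.injective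
    have h2 := hdet (fun i => a (e'.symm i))
    set M : Matrix (Fin (R + 1) × Fin e) (Fin (R + 1) × Fin e) ℤ :=
      Matrix.of fun i j : Fin (R + 1) × Fin e =>
        t (a (e'.symm i)) ^ (j.1 : ℕ) * x (a (e'.symm i)) ^ (j.2 : ℕ) with hM
    have h3 : IsUnit (M.map (Int.castRingHom ℚ)) := by
      rw [← Matrix.linearIndependent_rows_iff_isUnit]
      exact h1
    rw [Matrix.isUnit_iff_isUnit_det] at h3
    have h4 : (M.map (Int.castRingHom ℚ)).det = 0 := by
      have := RingHom.map_det (Int.castRingHom ℚ) M
      rw [h2, map_zero] at this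
      exact this.symm
    rw [h4] at h3
    exact not_isUnit_zero h3
  · obtain ⟨f, hf, hker⟩ := Submodule.exists_le_ker_of_lt_top _ (lt_top_iff_ne_top.2 hspan)
    let Gc : Fin e → ℚ[X] := fun β => ∑ α : Fin (R + 1), C (f (Pi.single (α, β) 1)) * X ^ (α : ℕ)
    have hGcdeg : ∀ β, (Gc β).natDegree ≤ R := by
      intro β
      apply natDegree_sum_le_of_forall_le
      intro α _
      refine (natDegree_C_mul_X_pow_le _ _).trans (Nat.lt_succ_iff.1 α.2)
    have hGcc : ∀ β (α : Fin (R + 1)), (Gc β).coeff α = f (Pi.single (α, β) 1) := by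
      intro β α
      simp only [Gc, finsetSum_coeff, coeff_C_mul, coeff_X_pow]
      rw [Finset.sum_eq_single α]
      · simp
      · intro α' _ hne
        rw [if_neg, mul_zero]
        intro h
        exact hne (Fin.ext h.symm)
      · simp
    let G : ℚ[X][X] := ∑ β : Fin e, C (Gc β) * X ^ (β : ℕ)
    have hcoeff : ∀ β : Fin e, G.coeff β = Gc β := by
      intro β
      simp only [G, finsetSum_coeff, coeff_C_mul, coeff_X_pow]
      rw [Finset.sum_eq_single β]
      · simp
      · intro α' _ hne
        rw [if_neg, mul_zero]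
        intro h
        exact hne (Fin.ext h.symm)
      · simp
    have hdeg : G.natDegree < e := by
      refine lt_of_le_of_lt (b := e - 1) ?_ (by omega)
      apply natDegree_sum_le_of_forall_le
      intro β _
      refine (natDegree_C_mul_X_pow_le _ _).trans ?_
      have := β.2
      omega
    refine ⟨G, ?_, hdeg, ?_, ?_⟩
    · intro hG0
      apply hf
      apply LinearMap.pi_ext
      intro j r
      have h2 : f (Pi.single j 1) = 0 := by
        rcases j with ⟨α, β⟩
        rw [← hGcc, ← hcoeff, hG0]
        simp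
      have h3 : (Pi.single j r : (Fin (R + 1) × Fin e) → ℚ) = r • Pi.single j 1 := by
        rw [← Pi.single_smul, smul_eq_mul, mul_one]
      rw [h3, map_smul, h2, smul_zero, LinearMap.zero_apply]
    · intro j
      by_cases hj : j < e
      · have := hcoeff ⟨j, hj⟩
        simp only at this
        rw [this]
        exact hGcdeg _
      · rw [coeff_eq_zero_of_natDegree_lt (by omega)]
        simp
    · intro i
      have h1 : f (v i) = 0 := hker (Submodule.subset_span ⟨i, rfl⟩)
      have h2 : v i = ∑ j, v i j • (Pi.single j 1 : (Fin (R + 1) × Fin e) → ℚ) := by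
        ext k
        simp [Finset.sum_apply, Pi.single_apply]
      rw [h2, map_sum] at h1
      simp only [map_smul, smul_eq_mul] at h1
      rw [← h1]
      simp only [G, Gc, Polynomial.evalEval, eval_finsetSum, eval_mul, eval_C, eval_pow, eval_X]
      rw [Fintype.sum_prod_type, Finset.sum_comm]
      refine Finset.sum_congr rfl fun β _ => ?_
      rw [Finset.sum_mul]
      refine Finset.sum_congr rfl fun α _ => ?_
      simp only [v]
      push_cast
      ring

/-- The degree of a determinant of polynomials. -/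
theorem natDegree_det_le' {m : ℕ} (M : Matrix (Fin m) (Fin m) ℚ[X]) (D : ℕ)
    (hM : ∀ i j, (M i j).natDegree ≤ D) : M.det.natDegree ≤ m * D := by
  classical
  rw [Matrix.det_apply]
  refine natDegree_sum_le_of_forall_le _ _ fun σ _ => ?_
  have h1 : (Equiv.Perm.sign σ • ∏ i, M (σ i) i).natDegree ≤ (∏ i, M (σ i) i).natDegree := by
    rcases Int.units_eq_one_or (Equiv.Perm.sign σ) with h | h <;> rw [h] <;> simp
  refine h1.trans ((natDegree_prod_le _ _).trans ?_)
  refine (Finset.sum_le_sum fun i _ => hM (σ i) i).trans ?_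
  simp

theorem irreducible_pow_sub (f : ℚ[X]) (hf : f.Separable) (hk : 1 ≤ f.natDegree) (e : ℕ)
    (he : 1 ≤ e) : Irreducible (X ^ e - C f : ℚ[X][X]) := by
  classical
  have hf0 : f ≠ 0 := by rintro rfl; simp at hk
  have hfu : ¬ IsUnit f := by
    intro h
    have := natDegree_eq_zero_of_isUnit h
    omega
  obtain ⟨π, hπ, hπf⟩ := WfDvdMonoid.exists_irreducible_factor hfu hf0
  have hprime : (Ideal.span {π}).IsPrime :=
    (Ideal.span_singleton_prime hπ.ne_zero).mpr hπ.prime
  have hmonic : (X ^ e - C f : ℚ[X][X]).Monic := monic_X_pow_sub_C _ (by omega)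
  have hdeg : (X ^ e - C f : ℚ[X][X]).degree = e := degree_X_pow_sub_C (by omega) _
  refine irreducible_of_eisenstein_criterion hprime ?_ ?_ ?_ ?_ hmonic.isPrimitive
  · rw [hmonic.leadingCoeff]
    exact fun h => hprime.ne_top ((Ideal.eq_top_iff_one _).mpr h)
  · intro n hn
    rw [hdeg] at hn
    have hn' : n < e := by exact_mod_cast hn
    rw [coeff_sub, coeff_X_pow, if_neg (by omega), zero_sub, coeff_C]
    split_ifs with h0
    · exact neg_mem (Ideal.mem_span_singleton.mpr hπf)
    · simp
  · rw [hdeg]; exact_mod_cast he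
  · rw [coeff_sub, coeff_X_pow, if_neg (by omega), zero_sub, coeff_C, if_pos rfl]
    intro h
    rw [Ideal.span_singleton_pow, Ideal.mem_span_singleton, dvd_neg] at h
    have h1 := hf.squarefree π (by rw [← pow_two]; exact h)
    exact hπ.not_isUnit h1

theorem res_bound (f : ℚ[X]) (hf : f.Separable) (hk : 1 ≤ f.natDegree) (s : ℚ) (hs : s ≠ 0)
    (e : ℕ) (he : 1 ≤ e) (G : ℚ[X][X]) (hG0 : G ≠ 0) (hGe : G.natDegree < e) (R : ℕ)
    (hR : ∀ j, (G.coeff j).natDegree ≤ R) :
    ∃ H : ℚ[X], H ≠ 0 ∧ H.natDegree ≤ (2 * e) * (f.natDegree + R) ∧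
      ∀ t z : ℚ, s * z ^ e = f.eval t → G.evalEval t z = 0 → H.eval t = 0 := by
  classical
  set f' : ℚ[X] := C s⁻¹ * f with hf'
  have hsu : IsUnit (C s⁻¹ : ℚ[X]) := isUnit_C.mpr (isUnit_iff_ne_zero.mpr (inv_ne_zero hs))
  have hf's : f'.Separable := Separable.unit_mul hsu hf
  have hf'd : f'.natDegree = f.natDegree := natDegree_C_mul (inv_ne_zero hs)
  set h : ℚ[X][X] := X ^ e - C f' with hh
  have hmonic : h.Monic := monic_X_pow_sub_C _ (by omega)
  have hdeg : h.natDegree = e := natDegree_X_pow_sub_C
  have hirr : Irreducible h := irreducible_pow_sub f' hf's (by omega) e he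
  refine ⟨h.resultant G, ?_, ?_, ?_⟩
  · set K := FractionRing ℚ[X]
    have hinj : Function.Injective (algebraMap ℚ[X] K) := IsFractionRing.injective _ _
    have hirrK : Irreducible (h.map (algebraMap ℚ[X] K)) :=
      (hmonic.irreducible_iff_irreducible_map_fraction_map).mp hirr
    have hcop : IsCoprime (h.map (algebraMap ℚ[X] K)) (G.map (algebraMap ℚ[X] K)) := by
      rw [hirrK.coprime_iff_not_dvd]
      intro hdvd
      have h1 := natDegree_le_of_dvd hdvd ((Polynomial.map_ne_zero_iff hinj).mpr hG0)
      rw [natDegree_map_eq_of_injective hinj, natDegree_map_eq_of_injective hinj, hdeg] at h1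
      omega
    intro h0
    have h1 := resultant_map_map h G h.natDegree G.natDegree (algebraMap ℚ[X] K)
    rw [h0, map_zero] at h1
    have h2 := resultant_ne_zero _ _ hcop
    rw [natDegree_map_eq_of_injective hinj, natDegree_map_eq_of_injective hinj] at h2
    exact h2 h1
  · unfold resultant
    refine (natDegree_det_le' _ (f.natDegree + R) ?_).trans ?_
    · intro i j
      unfold sylvester
      rw [Matrix.of_apply]
      have hcG : ∀ n, (G.coeff n).natDegree ≤ f.natDegree + R := fun n => (hR n).trans (by omega)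
      have hch : ∀ n, (h.coeff n).natDegree ≤ f.natDegree + R := by
        intro n
        rw [hh, coeff_sub, coeff_X_pow, coeff_C]
        refine (natDegree_sub_le _ _).trans (max_le ?_ ?_)
        · split_ifs <;> simp
        · split_ifs
          · rw [hf'd]; omega
          · simp
      induction j using Fin.addCases with
      | left j =>
        rw [Fin.addCases_left]
        split_ifs
        · exact hcG _
        · simp
      | right j =>
        rw [Fin.addCases_right]
        split_ifs
        · exact hch _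
        · simp
    · rw [hdeg]
      exact Nat.mul_le_mul_right _ (by omega)
  · intro t z htz hG
    obtain ⟨p, q, -, -, hpq⟩ := exists_mul_add_mul_eq_C_resultant h G le_rfl le_rfl
      (Or.inl (by rw [hdeg]; omega))
    have h1 := congrArg (Polynomial.evalEval t z) hpq
    rw [evalEval_add, evalEval_mul, evalEval_mul, hG, zero_mul, add_zero, evalEval_C] at h1
    rw [← h1]
    have h2 : h.evalEval t z = 0 := by
      rw [hh, evalEval_sub, evalEval_pow, evalEval_X, evalEval_C, hf', eval_mul, eval_C, ← htz]
      field_simp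
      ring
    rw [h2, zero_mul]

end Pool.Agent.N445.VW
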