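import Mathlib
import Pool.Agent.N445.VW.Alg
import Pool.Agent.H391R2.HitOne

/-! # The determinant method in a residue class -/

set_option autoImplicit false

namespace Pool.Agent.N445.VW

open Polynomial Pool.Agent.H391R2

/-- The number of points of the curve `s z ^ e = f (t)` in one residue class modulo `q`. -/
theorem class_card (f : ℤ[X]) (hk : 1 ≤ f.natDegree)
    (hsep : (f.map (Int.castRingHom ℚ)).Separable) (s : ℤ) (hs : s ≠ 0) (e : ℕ) (he : 1 ≤ e)
    (R B Z q : ℕ) (hq : q.Prime) (hqs : ¬ (q : ℤ) ∣ s) (hqe : ¬ q ∣ e) (t0 z0 : ℤ)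
    (hz0 : ¬ (q : ℤ) ∣ z0)
    (hsize : (e * (R + 1)).factorial * (B ^ (e * (R * (R + 1) / 2)) *
      Z ^ ((R + 1) * (e * (e - 1) / 2))) < q ^ ((e * (R + 1)) * (e * (R + 1) - 1) / 2))
    (T : Finset ℤ) (hT : ∀ t ∈ T, |t| ≤ B ∧ (q : ℤ) ∣ t - t0 ∧
      ∃ z : ℤ, (q : ℤ) ∣ z - z0 ∧ |z| ≤ Z ∧ s * z ^ e = f.eval t) :
    T.card ≤ 2 * e * (f.natDegree + R) := by
  classical
  rcases T.eq_empty_or_nonempty with rfl | ⟨t1, ht1⟩
  · simp
  have hqZ : Prime (q : ℤ) := Nat.prime_iff_prime_int.1 hq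
  set h : ℤ[X][X] := C (C s) * X ^ e - C f with hh
  have heval : ∀ t z : ℤ, h.evalEval t z = s * z ^ e - f.eval t := by
    intro t z
    rw [hh, evalEval_sub, evalEval_mul, evalEval_pow, evalEval_X, evalEval_C, evalEval_C, eval_C]
  have hder : ∀ t z : ℤ, (derivative h).evalEval t z = s * (e * z ^ (e - 1)) := by
    intro t z
    rw [hh, derivative_sub, derivative_C, sub_zero, derivative_C_mul, derivative_X_pow,
      evalEval_mul, evalEval_mul, evalEval_pow, evalEval_X, evalEval_C, eval_C]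
    congr 1
    congr 1
    have : (C (e : ℤ[X]) : ℤ[X][X]) = C (C (e : ℤ)) := by simp
    rw [this, evalEval_C, eval_C]
  have hd1 : ¬ (q : ℤ) ∣ (derivative h).evalEval t0 z0 := by
    rw [hder]
    intro h1
    rcases hqZ.dvd_or_dvd h1 with h2 | h2
    · exact hqs h2
    · rcases hqZ.dvd_or_dvd h2 with h3 | h3
      · exact hqe (by exact_mod_cast h3)
      · exact hz0 (hqZ.dvd_of_dvd_pow h3)
  have hX : ∀ t : T, ∃ z : ℤ, (q : ℤ) ∣ z - z0 ∧ |z| ≤ Z ∧ s * z ^ e = f.eval (t : ℤ) :=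
    fun t => (hT t t.2).2.2
  choose X0 hX0 hX1 hX2 using hX
  have hroot0 : ∀ t : T, h.evalEval (t : ℤ) (X0 t) = 0 := by
    intro t
    rw [heval, hX2 t, sub_self]
  have hroot : ∀ t : T, h.evalEval (t0 + ((t : ℤ) - t0)) (X0 t) = 0 := by
    intro t
    rw [add_sub_cancel]
    exact hroot0 t
  have hd0 : (q : ℤ) ∣ h.evalEval t0 z0 := by
    have h1 := evalEval_congr h q t0 z0 (t1 - t0) (X0 ⟨t1, ht1⟩) (hT t1 ht1).2.1 (hX0 ⟨t1, ht1⟩)
    have h2 := hroot ⟨t1, ht1⟩
    simp only at h2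
    rw [h2, zero_sub, dvd_neg] at h1
    exact h1
  let J := Fin (R + 1) × Fin e
  have hcardJ : Fintype.card J = e * (R + 1) := by
    simp [J, mul_comm]
  set n : ℕ := (e * (R + 1)) * (e * (R + 1) - 1) / 2 with hn
  obtain ⟨P, hP⟩ := root_congr h q hqZ t0 z0 hd1 hd0 n
  obtain ⟨G, hG0, hGe, hGR, hGx⟩ := aux_gen R e he (ι := T) (fun t => (t : ℤ)) X0 (by
    intro u
    set M : Matrix J J ℤ := Matrix.of fun i j : J =>
      ((u i : T) : ℤ) ^ (j.1 : ℕ) * X0 (u i) ^ (j.2 : ℕ) with hM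
    let g : J → ℤ[X] := fun j => (C t0 + X) ^ (j.1 : ℕ) * P ^ (j.2 : ℕ)
    set M' : Matrix J J ℤ := Matrix.of fun i j : J => (g j).eval (((u i : T) : ℤ) - t0) with hM'
    have h1 : (q : ℤ) ^ n ∣ M'.det := by
      have := pow_dvd_det g (fun i => ((u i : T) : ℤ) - t0) q (fun i => (hT _ (u i).2).2.1)
      rw [hcardJ] at this
      exact this
    have h2 : (q : ℤ) ^ n ∣ M.det - M'.det := by
      apply dvd_det_sub
      intro i j
      simp only [hM, hM', Matrix.of_apply, g, eval_mul, eval_pow, eval_add, eval_C, eval_X]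
      rw [add_sub_cancel, ← mul_sub]
      apply Dvd.dvd.mul_left
      have h3 := hP (((u i : T) : ℤ) - t0) (X0 (u i)) (hT _ (u i).2).2.1 (hX0 (u i)) (hroot (u i))
      exact h3.trans (sub_dvd_pow_sub_pow _ _ _)
    have h3 : (q : ℤ) ^ n ∣ M.det := by
      have := dvd_add h2 h1
      simpa using this
    let Bd : J → ℤ := fun j => (B : ℤ) ^ (j.1 : ℕ) * (Z : ℤ) ^ (j.2 : ℕ)
    have h4 : |M.det| ≤ (Fintype.card J).factorial * ∏ j, Bd j := by
      apply abs_det_le
      intro i j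
      simp only [hM, Matrix.of_apply, Bd]
      rw [abs_mul, abs_pow, abs_pow]
      apply mul_le_mul
      · exact pow_le_pow_left₀ (abs_nonneg _) (hT _ (u i).2).1 _
      · exact pow_le_pow_left₀ (abs_nonneg _) (hX1 (u i)) _
      · positivity
      · positivity
    have hsum : ∀ m : ℕ, ∑ i : Fin (m + 1), (i : ℕ) = m * (m + 1) / 2 := by
      intro m
      rw [Fin.sum_univ_eq_sum_range (fun i => i) (m + 1), Finset.sum_range_id]
      rw [Nat.add_sub_cancel, mul_comm]
    have hsume : ∑ i : Fin e, (i : ℕ) = e * (e - 1) / 2 := by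
      rw [Fin.sum_univ_eq_sum_range (fun i => i) e, Finset.sum_range_id]
    have h5 : ∏ j, Bd j = (B : ℤ) ^ (e * (R * (R + 1) / 2)) *
        (Z : ℤ) ^ ((R + 1) * (e * (e - 1) / 2)) := by
      simp only [Bd]
      rw [Finset.prod_mul_distrib, Finset.prod_pow_eq_pow_sum, Finset.prod_pow_eq_pow_sum]
      congr 2
      · rw [Fintype.sum_prod_type]
        simp only [Finset.sum_const, Finset.card_univ, Fintype.card_fin, smul_eq_mul]
        rw [← Finset.mul_sum, hsum]
      · rw [Fintype.sum_prod_type]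
        simp only [hsume, Finset.sum_const, Finset.card_univ, Fintype.card_fin, smul_eq_mul]
    have h6 : |M.det| < (q : ℤ) ^ n := by
      refine h4.trans_lt ?_
      rw [h5, hcardJ]
      exact_mod_cast hsize
    exact Int.eq_zero_of_abs_lt_dvd h3 h6)
  have hdegf : (f.map (Int.castRingHom ℚ)).natDegree = f.natDegree :=
    natDegree_map_eq_of_injective (RingHom.injective_int _) _
  obtain ⟨H, hH0, hHd, hH⟩ := res_bound (f.map (Int.castRingHom ℚ)) hsep (by rw [hdegf]; exact hk)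
    (s : ℚ) (by exact_mod_cast hs) e he G hG0 hGe R hGR
  have hsub : T.image (fun t : ℤ => (t : ℚ)) ⊆ H.roots.toFinset := by
    intro t ht
    obtain ⟨u, hu, rfl⟩ := Finset.mem_image.1 ht
    rw [Multiset.mem_toFinset, mem_roots hH0]
    refine hH _ (X0 ⟨u, hu⟩) ?_ (hGx ⟨u, hu⟩)
    have h1 := hX2 ⟨u, hu⟩
    simp only at h1
    have h2 : (f.map (Int.castRingHom ℚ)).eval (u : ℚ) = ((f.eval u : ℤ) : ℚ) := by
      have := Polynomial.eval_map_apply (Int.castRingHom ℚ) (p := f) u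
      simpa using this
    rw [h2, ← h1]
    push_cast
    ring
  calc T.card = (T.image (fun t : ℤ => (t : ℚ))).card :=
        (Finset.card_image_of_injective _ Int.cast_injective).symm
    _ ≤ H.roots.toFinset.card := Finset.card_le_card hsub
    _ ≤ Multiset.card H.roots := Multiset.toFinset_card_le _
    _ ≤ H.natDegree := H.card_roots'
    _ ≤ (2 * e) * ((f.map (Int.castRingHom ℚ)).natDegree + R) := hHd
    _ = _ := by rw [hdegf]

end Pool.Agent.N445.VW
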