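import Mathlib
import Pool.Agent.N445.VW.Cls

/-! # The number of integral points of `s z ^ e = f (t)`, with an auxiliary prime -/

set_option autoImplicit false

namespace Pool.Agent.N445.VW

open Polynomial Pool.Agent.H391R2

/-- Two roots of a polynomial modulo `D` which agree modulo the primes dividing `D`, at which the
derivative is not zero, agree modulo `D`. -/
theorem lift_congr (f : ℤ[X]) (D : ℤ) (t t' : ℤ) (h1 : D ∣ f.eval t) (h2 : D ∣ f.eval t')
    (h3 : ∀ p : ℕ, p.Prime → (p : ℤ) ∣ D → (p : ℤ) ∣ t' - t ∧ ¬ (p : ℤ) ∣ (derivative f).eval t) :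
    D ∣ t' - t := by
  obtain ⟨c, hc⟩ := Polynomial.binomExpansion f t (t' - t)
  rw [add_sub_cancel] at hc
  have h4 : f.eval t' - f.eval t = (t' - t) * ((derivative f).eval t + c * (t' - t)) := by
    rw [hc]; ring
  have h5 : D ∣ (t' - t) * ((derivative f).eval t + c * (t' - t)) := by
    rw [← h4]; exact dvd_sub h2 h1
  refine IsCoprime.dvd_of_dvd_mul_right ?_ h5
  rw [Int.isCoprime_iff_nat_coprime]
  refine Nat.Coprime.symm (Nat.Coprime.symm ?_)
  rw [Nat.coprime_iff_gcd_eq_one]
  by_contra hne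
  obtain ⟨p, hp, hpd⟩ := Nat.exists_prime_and_dvd hne
  have hp1 : (p : ℤ) ∣ D := Int.natCast_dvd.mpr (hpd.trans (Nat.gcd_dvd_left _ _))
  have hp2 : (p : ℤ) ∣ (derivative f).eval t + c * (t' - t) :=
    Int.natCast_dvd.mpr (hpd.trans (Nat.gcd_dvd_right _ _))
  obtain ⟨h6, h7⟩ := h3 p hp hp1
  apply h7
  have := dvd_sub hp2 (h6.mul_left c)
  simpa using this

/-- The number of integers in an interval which agree modulo `m`. -/
theorem card_interval (B m : ℕ) (hm : 1 ≤ m) (T : Finset ℤ) (hT : ∀ t ∈ T, |t| ≤ B)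
    (hc : ∀ t ∈ T, ∀ t' ∈ T, (m : ℤ) ∣ t' - t) : T.card ≤ 2 * B / m + 1 := by
  classical
  have hm0 : (0 : ℤ) < m := by exact_mod_cast hm
  have h1 : ∀ t ∈ T, ((t + B) / m) ∈ Finset.Icc (0 : ℤ) ((2 * B / m : ℕ) : ℤ) := by
    intro t ht
    have := abs_le.1 (hT t ht)
    rw [Finset.mem_Icc]
    refine ⟨Int.ediv_nonneg (by omega) hm0.le, ?_⟩
    push_cast
    exact Int.ediv_le_ediv hm0 (by omega)
  have h2 := Finset.card_le_card_of_injOn (s := T) (fun t : ℤ => (t + B) / m) h1 (by
    intro t ht t' ht' heq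
    simp only at heq
    obtain ⟨c, hc'⟩ := hc t ht t' ht'
    have h3 : t' + B = t + B + m * c := by linarith
    rw [h3, Int.add_mul_ediv_left _ _ hm0.ne'] at heq
    have h4 : c = 0 := by omega
    rw [h4, mul_zero] at hc'
    omega)
  rw [Int.card_Icc] at h2
  refine h2.trans (le_of_eq ?_)
  generalize 2 * B / m = N
  omega

theorem card_pairs (q : ℕ) [Fact q.Prime] (f : ℤ[X]) (s : ℤ) (hs : ¬ (q : ℤ) ∣ s) (e : ℕ)
    (he : 1 ≤ e) : ((Finset.univ : Finset (ZMod q × ZMod q)).filter fun ab =>
      (s : ZMod q) * ab.2 ^ e = (f.map (Int.castRingHom (ZMod q))).eval ab.1).card ≤ q * e := by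
  classical
  have h0 : (s : ZMod q) ≠ 0 := by
    intro h
    exact hs ((ZMod.intCast_zmod_eq_zero_iff_dvd s q).1 h)
  have h1 := Finset.card_le_mul_card_image_of_maps_to
    (s := (Finset.univ : Finset (ZMod q × ZMod q)).filter fun ab =>
      (s : ZMod q) * ab.2 ^ e = (f.map (Int.castRingHom (ZMod q))).eval ab.1)
    (t := (Finset.univ : Finset (ZMod q))) (f := fun ab => ab.1) (fun _ _ => Finset.mem_univ _) e
    (by
      intro a _
      set P : (ZMod q)[X] := C (s : ZMod q) * X ^ e -
        C ((f.map (Int.castRingHom (ZMod q))).eval a) with hP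
      have hPd : P.natDegree ≤ e := by
        rw [hP]
        refine (natDegree_sub_le _ _).trans (max_le (natDegree_C_mul_X_pow_le _ _) ?_)
        rw [natDegree_C]; omega
      have hP0 : P ≠ 0 := by
        intro h
        have h2 : P.coeff e = s := by
          rw [hP, coeff_sub, coeff_C_mul, coeff_X_pow, if_pos rfl, coeff_C, if_neg (by omega)]
          simp
        rw [h, coeff_zero] at h2
        exact h0 h2.symm
      refine le_trans ?_ ((Multiset.toFinset_card_le P.roots).trans ((P.card_roots').trans hPd))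
      refine Finset.card_le_card_of_injOn (fun ab => ab.2) ?_ ?_
      · intro ab hab
        rw [Finset.mem_coe, Finset.mem_filter, Finset.mem_filter] at hab
        rw [Finset.mem_coe, Multiset.mem_toFinset, mem_roots hP0]
        obtain ⟨⟨-, h3⟩, rfl⟩ := hab
        rw [IsRoot, hP, eval_sub, eval_mul, eval_C, eval_pow, eval_X, eval_C, h3, sub_self]
      · intro ab hab ab' hab' heq
        rw [Finset.mem_coe, Finset.mem_filter] at hab hab'
        exact Prod.ext (hab.2.trans hab'.2.symm) heq)
  rw [Finset.card_univ, ZMod.card] at h1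
  rw [mul_comm]
  exact h1

/-- The number of integral points of `s z ^ e = f (t)`. -/
theorem bp_prime (f : ℤ[X]) (hk : 1 ≤ f.natDegree)
    (hsep : (f.map (Int.castRingHom ℚ)).Separable) (s : ℤ) (hs : s ≠ 0) (e : ℕ) (he : 1 ≤ e)
    (R B Z q : ℕ) (hq : q.Prime) (hqs : ¬ (q : ℤ) ∣ s) (hqe : ¬ q ∣ e)
    (hql : ¬ (q : ℤ) ∣ f.leadingCoeff)
    (hsize : (e * (R + 1)).factorial * (B ^ (e * (R * (R + 1) / 2)) *
      Z ^ ((R + 1) * (e * (e - 1) / 2))) < q ^ ((e * (R + 1)) * (e * (R + 1) - 1) / 2))
    (T : Finset ℤ) (hT : ∀ t ∈ T, |t| ≤ B ∧ ∃ z : ℤ, |z| ≤ Z ∧ s * z ^ e = f.eval t)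
    (hsing : ∀ t ∈ T, (q : ℤ) ∣ f.eval t → ¬ (q : ℤ) ∣ (derivative f).eval t) :
    T.card ≤ f.natDegree * (2 * B / q ^ e + 1) + (q * e) * (2 * e * (f.natDegree + R)) := by
  classical
  have : Fact q.Prime := ⟨hq⟩
  have hqZ : Prime (q : ℤ) := Nat.prime_iff_prime_int.1 hq
  set T1 := T.filter fun t => (q : ℤ) ∣ f.eval t with hT1
  set T2 := T.filter fun t => ¬ (q : ℤ) ∣ f.eval t with hT2
  have hsplit : T.card = T1.card + T2.card := by
    rw [hT1, hT2, Finset.card_filter_add_card_filter_not]
  rw [hsplit]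
  refine Nat.add_le_add ?_ ?_
  · -- `q` divides `z`
    have hq2 : ∀ t ∈ T1, ((q ^ e : ℕ) : ℤ) ∣ f.eval t := by
      intro t ht
      rw [hT1, Finset.mem_filter] at ht
      obtain ⟨z, -, hz⟩ := (hT t ht.1).2
      have h1 : (q : ℤ) ∣ z := by
        have h2 := ht.2
        rw [← hz] at h2
        rcases hqZ.dvd_or_dvd h2 with h3 | h3
        · exact absurd h3 hqs
        · exact hqZ.dvd_of_dvd_pow h3
      rw [← hz]
      push_cast
      exact (pow_dvd_pow_of_dvd h1 e).mul_left s
    set P : (ZMod q)[X] := f.map (Int.castRingHom (ZMod q)) with hP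
    have hP0 : P ≠ 0 := by
      intro h
      apply hql
      have h2 : P.coeff f.natDegree = (f.leadingCoeff : ZMod q) := by
        rw [hP, coeff_map]; rfl
      rw [h, coeff_zero] at h2
      exact (ZMod.intCast_zmod_eq_zero_iff_dvd _ q).1 h2.symm
    have h1 := Finset.card_le_mul_card_image_of_maps_to (s := T1) (t := P.roots.toFinset)
      (f := fun t : ℤ => (t : ZMod q)) (by
        intro t ht
        rw [Multiset.mem_toFinset, mem_roots hP0, IsRoot]
        rw [hT1, Finset.mem_filter] at ht
        have h2 : P.eval (t : ZMod q) = ((f.eval t : ℤ) : ZMod q) := by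
          have := Polynomial.eval_map_apply (Int.castRingHom (ZMod q)) (p := f) t
          exact this
        rw [h2]
        exact (ZMod.intCast_zmod_eq_zero_iff_dvd _ q).2 ht.2) (2 * B / q ^ e + 1) (by
        intro a _
        refine card_interval B (q ^ e) (Nat.pos_of_ne_zero (pow_ne_zero _ hq.ne_zero)) _ ?_ ?_
        · intro t ht
          rw [Finset.mem_filter, hT1, Finset.mem_filter] at ht
          exact (hT t ht.1.1).1
        · intro t ht t' ht'
          rw [Finset.mem_filter] at ht ht'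
          refine lift_congr f _ t t' (hq2 t ht.1) (hq2 t' ht'.1) ?_
          intro p hp hpd
          have hpq : p = q := by
            have h3 : p ∣ q ^ e := by exact_mod_cast hpd
            exact (Nat.prime_dvd_prime_iff_eq hp hq).1 (hp.dvd_of_dvd_pow h3)
          subst hpq
          refine ⟨?_, ?_⟩
          · rw [← ZMod.intCast_zmod_eq_zero_iff_dvd, Int.cast_sub, ht.2, ht'.2, sub_self]
          · rw [hT1, Finset.mem_filter] at ht
            exact hsing t ht.1.1 ht.1.2)
    refine h1.trans ?_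
    rw [mul_comm]
    refine Nat.mul_le_mul_right _ ?_
    refine (Multiset.toFinset_card_le _).trans ((card_roots' _).trans ?_)
    exact natDegree_map_le
  · -- `q` does not divide `z`
    have hz : ∀ t : ℤ, ∃ z : ℤ, t ∈ T → |z| ≤ Z ∧ s * z ^ e = f.eval t := by
      intro t
      by_cases ht : t ∈ T
      · obtain ⟨z, hz⟩ := (hT t ht).2
        exact ⟨z, fun _ => hz⟩
      · exact ⟨0, fun h => absurd h ht⟩
    choose z hz using hz
    have h1 := Finset.card_le_mul_card_image_of_maps_to (s := T2)
      (t := (Finset.univ : Finset (ZMod q × ZMod q)).filter fun ab =>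
        (s : ZMod q) * ab.2 ^ e = (f.map (Int.castRingHom (ZMod q))).eval ab.1)
      (f := fun t : ℤ => ((t : ZMod q), (z t : ZMod q))) (by
        intro t ht
        rw [hT2, Finset.mem_filter] at ht
        rw [Finset.mem_filter]
        refine ⟨Finset.mem_univ _, ?_⟩
        have h2 : (f.map (Int.castRingHom (ZMod q))).eval (t : ZMod q) =
            ((f.eval t : ℤ) : ZMod q) := by
          have := Polynomial.eval_map_apply (Int.castRingHom (ZMod q)) (p := f) t
          exact this
        simp only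
        rw [h2, ← (hz t ht.1).2]
        push_cast
        rfl) (2 * e * (f.natDegree + R)) (by
        rintro ⟨a, b⟩ -
        rcases ((T2.filter fun t : ℤ => ((t : ZMod q), (z t : ZMod q)) = (a, b))).eq_empty_or_nonempty
          with hemp | ⟨t1, ht1⟩
        · rw [hemp]; simp
        · rw [Finset.mem_filter, hT2, Finset.mem_filter] at ht1
          have hz1 : ¬ (q : ℤ) ∣ z t1 := by
            intro h
            apply ht1.1.2
            rw [← (hz t1 ht1.1.1).2]
            exact (h.trans (dvd_pow_self _ (by omega))).mul_left s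
          refine class_card f hk hsep s hs e he R B Z q hq hqs hqe t1 (z t1) hz1 hsize _ ?_
          intro t ht
          rw [Finset.mem_filter, hT2, Finset.mem_filter] at ht
          have h3 := ht.2.trans ht1.2.symm
          rw [Prod.mk.injEq] at h3
          refine ⟨(hT t ht.1.1).1, ?_, z t, ?_, (hz t ht.1.1).1, (hz t ht.1.1).2⟩
          · rw [← ZMod.intCast_zmod_eq_zero_iff_dvd, Int.cast_sub, h3.1, sub_self]
          · rw [← ZMod.intCast_zmod_eq_zero_iff_dvd, Int.cast_sub, h3.2, sub_self])
    refine h1.trans ?_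
    rw [mul_comm]
    exact Nat.mul_le_mul_right _ (card_pairs q f s hqs e he)

end Pool.Agent.N445.VW
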