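import Mathlib
import Pool.Agent.N445.VW.Bp

/-! # The number of integral points of `s z ^ e = f (t)` -/

set_option autoImplicit false

namespace Pool.Agent.N445.VW

open Polynomial

theorem exists_primes (Q : ℕ) (hQ : 1 ≤ Q) (j : ℕ) :
    ∃ S : Finset ℕ, S.card = j ∧ ∀ p ∈ S, p.Prime ∧ Q < p ∧ p ≤ 2 ^ j * Q := by
  classical
  induction j with
  | zero => exact ⟨∅, by simp, by simp⟩
  | succ j ih =>
    obtain ⟨S, hS, hp⟩ := ih
    have h0 : 2 ^ j * Q ≠ 0 := by positivity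
    obtain ⟨p, hpp, h1, h2⟩ := Nat.exists_prime_lt_and_le_two_mul (2 ^ j * Q) h0
    have hnot : p ∉ S := fun h => absurd (hp p h).2.2 (by omega)
    refine ⟨insert p S, by rw [Finset.card_insert_of_notMem hnot, hS], ?_⟩
    intro r hr
    have h3 : 2 ^ (j + 1) * Q = 2 * (2 ^ j * Q) := by ring
    have h4 : Q ≤ 2 ^ j * Q := Nat.le_mul_of_pos_left _ (by positivity)
    rcases Finset.mem_insert.1 hr with rfl | hr
    · exact ⟨hpp, by omega, by omega⟩
    · obtain ⟨h5, h6, h7⟩ := hp r hr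
      exact ⟨h5, h6, by omega⟩

theorem exists_prime_not_dvd (Q N A : ℕ) (hQ : 1 ≤ Q) (hN : 1 ≤ N) (hNQ : N ≤ Q ^ A) :
    ∃ q : ℕ, q.Prime ∧ Q < q ∧ q ≤ 2 ^ (A + 1) * Q ∧ ¬ q ∣ N := by
  classical
  obtain ⟨S, hS, hp⟩ := exists_primes Q hQ (A + 1)
  by_contra hcon
  push Not at hcon
  have h1 : ∏ p ∈ S, p ∣ N :=
    Finset.prod_primes_dvd N (fun p h => Nat.prime_iff.1 (hp p h).1)
      (fun p h => hcon p (hp p h).1 (hp p h).2.1 (hp p h).2.2)
  have h2 := Nat.le_of_dvd hN h1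
  have h3 : (Q + 1) ^ (A + 1) ≤ ∏ p ∈ S, p := by
    rw [← hS]
    exact Finset.pow_card_le_prod _ _ _ fun p h => (hp p h).2.1
  have h4 : Q ^ A < (Q + 1) ^ (A + 1) := by
    calc Q ^ A ≤ Q ^ (A + 1) := Nat.pow_le_pow_right hQ (by omega)
      _ < (Q + 1) ^ (A + 1) := Nat.pow_lt_pow_left (by omega) (by omega)
  omega

theorem key_ineq (A e R n n1 n2 α ε : ℝ) (he : 1 ≤ e) (hR0 : 0 ≤ R) (hA : 0 ≤ A)
    (hε : 0 < ε) (hα : α * e = 1 + e * ε)
    (e1 : 2 * n = (e * (R + 1)) * (e * (R + 1) - 1)) (e2 : 2 * n1 = R * (R + 1))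
    (e3 : 2 * n2 = e * (e - 1)) (hRe : A * e * (e - 1) + 2 ≤ (e * ε) * R) :
    e * n1 + A * ((R + 1) * n2) + 1 ≤ α * n := by
  have h1 : 2 * (e * n1 + A * ((R + 1) * n2) + 1) =
      e * (R * (R + 1)) + A * (R + 1) * (e * (e - 1)) + 2 := by
    rw [← e2, ← e3]; ring
  have h2 : 2 * (α * n) = (1 + e * ε) * ((R + 1) * (e * (R + 1) - 1)) := by
    calc 2 * (α * n) = α * (2 * n) := by ring
      _ = (α * e) * ((R + 1) * (e * (R + 1) - 1)) := by rw [e1]; ring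
      _ = _ := by rw [hα]
  have h4 : R ≤ e * (R + 1) - 1 := by nlinarith
  have h5 : (e * ε) * R ≤ (e * ε) * (e * (R + 1) - 1) :=
    mul_le_mul_of_nonneg_left h4 (by positivity)
  have h3 : e * R + A * (e * (e - 1)) + 2 ≤ (1 + e * ε) * (e * (R + 1) - 1) := by
    nlinarith
  have h6 : (R + 1) * (e * R + A * (e * (e - 1)) + 2) ≤
      (R + 1) * ((1 + e * ε) * (e * (R + 1) - 1)) :=
    mul_le_mul_of_nonneg_left h3 (by positivity)
  nlinarith

theorem card_real (A e R M n n1 n2 B q : ℕ) (α : ℝ) (hB : 1 ≤ B) (hMB : M.factorial < B)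
    (hqα : (B : ℝ) ^ α ≤ q) (hkey : (e : ℝ) * n1 + A * ((R + 1) * n2) + 1 ≤ α * n) :
    M.factorial * (B ^ (e * n1) * (B ^ A) ^ ((R + 1) * n2)) < q ^ n := by
  have hB1 : (1 : ℝ) ≤ B := by exact_mod_cast hB
  have hBpos : (0 : ℝ) < B := by linarith
  have h8 : ((M.factorial * (B ^ (e * n1) * (B ^ A) ^ ((R + 1) * n2)) : ℕ) : ℝ) <
      (B : ℝ) ^ (α * n) := by
    calc ((M.factorial * (B ^ (e * n1) * (B ^ A) ^ ((R + 1) * n2)) : ℕ) : ℝ)
        = M.factorial * (B : ℝ) ^ ((e : ℝ) * n1 + A * ((R + 1) * n2)) := by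
          push_cast
          rw [← pow_mul, ← pow_add, ← Real.rpow_natCast]
          push_cast
          ring_nf
      _ < B * (B : ℝ) ^ ((e : ℝ) * n1 + A * ((R + 1) * n2)) := by
          refine mul_lt_mul_of_pos_right ?_ (by positivity)
          exact_mod_cast hMB
      _ = (B : ℝ) ^ ((e : ℝ) * n1 + A * ((R + 1) * n2) + 1) := by
          rw [Real.rpow_add hBpos _ 1, Real.rpow_one]; ring
      _ ≤ (B : ℝ) ^ (α * n) := Real.rpow_le_rpow_of_exponent_le hB1 hkey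
  have h9 : (B : ℝ) ^ (α * n) ≤ ((q ^ n : ℕ) : ℝ) := by
    push_cast
    rw [Real.rpow_mul hBpos.le, Real.rpow_natCast]
    exact pow_le_pow_left₀ (by positivity) hqα n
  exact_mod_cast h8.trans_le h9

/-- **The number of integral points of `s z ^ e = f (t)`**, by the determinant method. -/
theorem bp (e : ℕ) (he : 1 ≤ e) (k : ℕ) (hk : 1 ≤ k) (A : ℕ) (ε : ℝ) (hε : 0 < ε) :
    ∃ C : ℝ, 0 < C ∧ ∀ B : ℕ, 1 ≤ B → ∀ f : ℤ[X], f.natDegree = k →
      (f.map (Int.castRingHom ℚ)).Separable → ∀ s : ℤ, s ≠ 0 → ∀ N : ℕ, 1 ≤ N →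
      (N : ℝ) ≤ (B : ℝ) ^ (A : ℝ) → ∀ T : Finset ℤ,
      (∀ t ∈ T, |t| ≤ B ∧ ∃ z : ℤ, |z| ≤ (B : ℤ) ^ A ∧ s * z ^ e = f.eval t) →
      (∀ q : ℕ, q.Prime → ¬ q ∣ N → ¬ (q : ℤ) ∣ s ∧ ¬ q ∣ e ∧ ¬ (q : ℤ) ∣ f.leadingCoeff ∧
        ∀ t ∈ T, (q : ℤ) ∣ f.eval t → ¬ (q : ℤ) ∣ (derivative f).eval t) →
      (T.card : ℝ) ≤ C * (B : ℝ) ^ (1 / (e : ℝ) + ε) := by
  classical
  have he0 : (0 : ℝ) < e := by exact_mod_cast he
  obtain ⟨R, hR⟩ := exists_nat_ge ((A * e * (e - 1 : ℝ) + 2) / (e * ε))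
  set M := e * (R + 1) with hM
  have hM1 : 1 ≤ M := by rw [hM]; exact Nat.one_le_iff_ne_zero.mpr (by positivity)
  set B₀ := M.factorial + 1 with hB₀
  set c : ℝ := 2 ^ (A * e + 1) * 2 with hc
  set C₁ : ℝ := k * 3 + (c * e) * (2 * e * (k + R)) with hC₁
  have hC₁0 : 0 < C₁ := by
    have : (1 : ℝ) ≤ k := by exact_mod_cast hk
    positivity
  refine ⟨C₁ + 3 * B₀, by positivity, fun B hB f hf hsep s hs N hN hNB T hT hgood => ?_⟩
  have hB1 : (1 : ℝ) ≤ B := by exact_mod_cast hB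
  have hBpos : (0 : ℝ) < B := by linarith
  set α : ℝ := 1 / (e : ℝ) + ε with hα
  have hα0 : 0 < α := by positivity
  have hBα : 1 ≤ (B : ℝ) ^ α := Real.one_le_rpow hB1 hα0.le
  by_cases hBB : B < B₀
  · have h1 : T.card ≤ 2 * B + 1 := by
      have h2 : T ⊆ Finset.Icc (-(B : ℤ)) B := fun t ht => Finset.mem_Icc.2 (abs_le.1 (hT t ht).1)
      have h3 := Finset.card_le_card h2
      rw [Int.card_Icc] at h3
      omega
    have h2 : (T.card : ℝ) ≤ 3 * B₀ := by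
      have h3 : T.card ≤ 3 * B₀ := by omega
      exact_mod_cast h3
    calc (T.card : ℝ) ≤ 3 * B₀ * 1 := by linarith
      _ ≤ (C₁ + 3 * B₀) * (B : ℝ) ^ α := by
          apply mul_le_mul _ hBα zero_le_one (by positivity)
          linarith
  push Not at hBB
  -- the prime
  set Q := ⌊(B : ℝ) ^ α⌋₊ + 1 with hQ
  have hQ1 : (B : ℝ) ^ α < Q := by
    rw [hQ]; push_cast; exact Nat.lt_floor_add_one _
  have hQ2 : (Q : ℝ) ≤ 2 * (B : ℝ) ^ α := by
    rw [hQ]; push_cast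
    have := Nat.floor_le (show 0 ≤ (B : ℝ) ^ α by positivity)
    linarith
  have hNQ : N ≤ Q ^ (A * e) := by
    have h1 : (N : ℝ) ≤ (Q : ℝ) ^ (A * e) := by
      refine hNB.trans ?_
      calc (B : ℝ) ^ (A : ℝ) ≤ ((B : ℝ) ^ α) ^ (A * e) := by
            rw [← Real.rpow_natCast, ← Real.rpow_mul hBpos.le]
            refine Real.rpow_le_rpow_of_exponent_le hB1 ?_
            push_cast
            rw [hα]
            have h2 : (1 / (e : ℝ) + ε) * (A * e) = A + ε * A * e := by field_simp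
            rw [h2]
            have : 0 ≤ ε * A * e := by positivity
            linarith
        _ ≤ (Q : ℝ) ^ (A * e) := pow_le_pow_left₀ (by positivity) hQ1.le _
    exact_mod_cast h1
  obtain ⟨q, hq, hqQ, hqle, hqN⟩ := exists_prime_not_dvd Q N (A * e) (by omega) hN hNQ
  obtain ⟨g1, g2, g3, g4⟩ := hgood q hq hqN
  have hqα : (B : ℝ) ^ α ≤ q := hQ1.le.trans (by exact_mod_cast hqQ.le)
  have hqc : (q : ℝ) ≤ c * (B : ℝ) ^ α := by
    have h1 : (q : ℝ) ≤ 2 ^ (A * e + 1) * Q := by exact_mod_cast hqle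
    calc (q : ℝ) ≤ 2 ^ (A * e + 1) * Q := h1
      _ ≤ 2 ^ (A * e + 1) * (2 * (B : ℝ) ^ α) := by gcongr
      _ = c * (B : ℝ) ^ α := by rw [hc]; ring
  have hsize : (e * (R + 1)).factorial * (B ^ (e * (R * (R + 1) / 2)) *
      (B ^ A) ^ ((R + 1) * (e * (e - 1) / 2))) < q ^ ((e * (R + 1)) * (e * (R + 1) - 1) / 2) := by
    rw [← hM]
    obtain ⟨n, hn⟩ : 2 ∣ M * (M - 1) := (Nat.even_mul_pred_self M).two_dvd
    obtain ⟨n1, hn1⟩ : 2 ∣ R * (R + 1) := (Nat.even_mul_succ_self R).two_dvd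
    obtain ⟨n2, hn2⟩ : 2 ∣ e * (e - 1) := (Nat.even_mul_pred_self e).two_dvd
    rw [hn, hn1, hn2, Nat.mul_div_cancel_left _ (by norm_num), Nat.mul_div_cancel_left _ (by norm_num),
      Nat.mul_div_cancel_left _ (by norm_num)]
    have e1 : (2 : ℝ) * n = (e * (R + 1)) * (e * (R + 1) - 1) := by
      have : (2 : ℝ) * n = ((M * (M - 1) : ℕ) : ℝ) := by rw [hn]; push_cast; ring
      rw [this, Nat.cast_mul, Nat.cast_sub hM1, hM]; push_cast; ring
    have e2 : (2 : ℝ) * n1 = R * (R + 1) := by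
      have : (2 : ℝ) * n1 = ((R * (R + 1) : ℕ) : ℝ) := by rw [hn1]; push_cast; ring
      rw [this]; push_cast; ring
    have e3 : (2 : ℝ) * n2 = e * (e - 1) := by
      have : (2 : ℝ) * n2 = ((e * (e - 1) : ℕ) : ℝ) := by rw [hn2]; push_cast; ring
      rw [this, Nat.cast_mul, Nat.cast_sub he]; simp
    have hRe : A * e * (e - 1 : ℝ) + 2 ≤ (e * ε) * R := by
      rw [div_le_iff₀ (by positivity)] at hR
      linarith
    have hαe : α * e = 1 + e * ε := by rw [hα]; field_simp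
    have hkey := key_ineq (A : ℝ) e R n n1 n2 α ε (by exact_mod_cast he) (Nat.cast_nonneg R)
      (Nat.cast_nonneg A) hε hαe e1 e2 e3 hRe
    exact card_real A e R M n n1 n2 B q α hB (by omega) hqα hkey
  have hmain := bp_prime f (by omega) hsep s hs e he R B (B ^ A) q hq g1 g2 g3 hsize T (by
    intro t ht
    obtain ⟨h1, z, h2, h3⟩ := hT t ht
    exact ⟨h1, z, by exact_mod_cast h2, h3⟩) g4
  rw [hf] at hmain
  have h1 : 2 * B / q ^ e + 1 ≤ 3 := by
    have h2 : 2 * B / q ^ e ≤ 2 := by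
      have h3 : B ≤ q ^ e := by
        have h4 : (B : ℝ) ≤ (q : ℝ) ^ e := by
          calc (B : ℝ) ≤ ((B : ℝ) ^ α) ^ e := by
                rw [← Real.rpow_natCast, ← Real.rpow_mul hBpos.le]
                conv_lhs => rw [← Real.rpow_one (B : ℝ)]
                refine Real.rpow_le_rpow_of_exponent_le hB1 ?_
                rw [hα]
                have h5 : (1 / (e : ℝ) + ε) * e = 1 + ε * e := by field_simp
                rw [h5]
                have : 0 ≤ ε * e := by positivity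
                linarith
            _ ≤ (q : ℝ) ^ e := pow_le_pow_left₀ (by positivity) hqα _
        exact_mod_cast h4
      calc 2 * B / q ^ e ≤ 2 * q ^ e / q ^ e := Nat.div_le_div_right (by omega)
        _ = 2 := Nat.mul_div_cancel _ (Nat.pos_of_ne_zero (pow_ne_zero _ hq.ne_zero))
    omega
  have h2 : T.card ≤ k * 3 + (q * e) * (2 * e * (k + R)) :=
    hmain.trans (Nat.add_le_add_right (Nat.mul_le_mul_left _ h1) _)
  have h3 : (T.card : ℝ) ≤ k * 3 + (q * e) * (2 * e * (k + R)) := by exact_mod_cast h2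
  calc (T.card : ℝ) ≤ k * 3 + (q * e) * (2 * e * (k + R)) := h3
    _ ≤ k * 3 * (B : ℝ) ^ α + (c * (B : ℝ) ^ α * e) * (2 * e * (k + R)) := by
        refine add_le_add ?_ ?_
        · exact le_mul_of_one_le_right (by positivity) hBα
        · refine mul_le_mul_of_nonneg_right ?_ (by positivity)
          exact mul_le_mul_of_nonneg_right hqc he0.le
    _ = C₁ * (B : ℝ) ^ α := by rw [hC₁]; ring
    _ ≤ (C₁ + 3 * B₀) * (B : ℝ) ^ α := by
        refine mul_le_mul_of_nonneg_right ?_ (by positivity)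
        have : (0 : ℝ) ≤ 3 * B₀ := by positivity
        linarith

end Pool.Agent.N445.VW
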