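import Mathlib
import Pool.Agent.N445.VW.BpMain

/-! # The number of integral points of `s z ^ e = f (t)`: no condition on the leading coefficient -/

set_option autoImplicit false

namespace Pool.Agent.N445.VW

open Polynomial Pool.Agent.H391R2

/-- The number of integral points of `s z ^ e = f (t)`. -/
theorem bp_prime2 (f : ℤ[X]) (hk : 1 ≤ f.natDegree)
    (hsep : (f.map (Int.castRingHom ℚ)).Separable) (s : ℤ) (hs : s ≠ 0) (e : ℕ) (he : 1 ≤ e)
    (R B Z q : ℕ) (hq : q.Prime) (hqs : ¬ (q : ℤ) ∣ s) (hqe : ¬ q ∣ e)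
    (hsize : (e * (R + 1)).factorial * (B ^ (e * (R * (R + 1) / 2)) *
      Z ^ ((R + 1) * (e * (e - 1) / 2))) < q ^ ((e * (R + 1)) * (e * (R + 1) - 1) / 2))
    (T : Finset ℤ) (hT : ∀ t ∈ T, |t| ≤ B ∧ ∃ z : ℤ, |z| ≤ Z ∧ s * z ^ e = f.eval t)
    (hsing : ∀ t ∈ T, (q : ℤ) ∣ f.eval t → ¬ (q : ℤ) ∣ (derivative f).eval t) :
    T.card ≤ f.natDegree * (2 * B / q ^ e + 1) + (q * e) * (2 * e * (f.natDegree + R)) := by
  classical
  have : Fact q.Prime := ⟨hq⟩
  have hqZ : Prime (q : ℤ) := Nat.prime_iff_prime_int.1 hq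
  set T1 := T.filter fun t => (q : ℤ) ∣ f.eval t with hT1
  set T2 := T.filter fun t => ¬ (q : ℤ) ∣ f.eval t with hT2
  have hsplit : T.card = T1.card + T2.card := by
    rw [hT1, hT2, Finset.card_filter_add_card_filter_not]
  rw [hsplit]
  refine Nat.add_le_add ?_ ?_
  · -- `q` divides `z`
    have hq2 : ∀ t ∈ T1, ((q ^ e : ℕ) : ℤ) ∣ f.eval t := by
      intro t ht
      rw [hT1, Finset.mem_filter] at ht
      obtain ⟨z, -, hz⟩ := (hT t ht.1).2
      have h1 : (q : ℤ) ∣ z := by
        have h2 := ht.2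
        rw [← hz] at h2
        rcases hqZ.dvd_or_dvd h2 with h3 | h3
        · exact absurd h3 hqs
        · exact hqZ.dvd_of_dvd_pow h3
      rw [← hz]
      push_cast
      exact (pow_dvd_pow_of_dvd h1 e).mul_left s
    set P : (ZMod q)[X] := f.map (Int.castRingHom (ZMod q)) with hP
    rcases T1.eq_empty_or_nonempty with hemp | ⟨t1, ht1⟩
    · rw [hemp]; simp
    have hP0 : P ≠ 0 := by
      intro h
      rw [hT1, Finset.mem_filter] at ht1
      apply hsing t1 ht1.1 ht1.2
      have h2 : (derivative P).eval (t1 : ZMod q) = (((derivative f).eval t1 : ℤ) : ZMod q) := by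
        rw [hP, derivative_map]
        exact Polynomial.eval_map_apply (Int.castRingHom (ZMod q)) (p := derivative f) t1
      rw [h, derivative_zero, eval_zero] at h2
      exact (ZMod.intCast_zmod_eq_zero_iff_dvd _ q).1 h2.symm
    have h1 := Finset.card_le_mul_card_image_of_maps_to (s := T1) (t := P.roots.toFinset)
      (f := fun t : ℤ => (t : ZMod q)) (by
        intro t ht
        rw [Multiset.mem_toFinset, mem_roots hP0, IsRoot]
        rw [hT1, Finset.mem_filter] at ht
        have h2 : P.eval (t : ZMod q) = ((f.eval t : ℤ) : ZMod q) := by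
          have := Polynomial.eval_map_apply (Int.castRingHom (ZMod q)) (p := f) t
          exact this
        rw [h2]
        exact (ZMod.intCast_zmod_eq_zero_iff_dvd _ q).2 ht.2) (2 * B / q ^ e + 1) (by
        intro a _
        refine card_interval B (q ^ e) (Nat.pos_of_ne_zero (pow_ne_zero _ hq.ne_zero)) _ ?_ ?_
        · intro t ht
          rw [Finset.mem_filter, hT1, Finset.mem_filter] at ht
          exact (hT t ht.1.1).1
        · intro t ht t' ht'
          rw [Finset.mem_filter] at ht ht'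
          refine lift_congr f _ t t' (hq2 t ht.1) (hq2 t' ht'.1) ?_
          intro p hp hpd
          have hpq : p = q := by
            have h3 : p ∣ q ^ e := by exact_mod_cast hpd
            exact (Nat.prime_dvd_prime_iff_eq hp hq).1 (hp.dvd_of_dvd_pow h3)
          subst hpq
          refine ⟨?_, ?_⟩
          · rw [← ZMod.intCast_zmod_eq_zero_iff_dvd, Int.cast_sub, ht.2, ht'.2, sub_self]
          · rw [hT1, Finset.mem_filter] at ht
            exact hsing t ht.1.1 ht.1.2)
    refine h1.trans ?_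
    rw [mul_comm]
    refine Nat.mul_le_mul_right _ ?_
    refine (Multiset.toFinset_card_le _).trans ((card_roots' _).trans ?_)
    exact natDegree_map_le
  · -- `q` does not divide `z`
    have hz : ∀ t : ℤ, ∃ z : ℤ, t ∈ T → |z| ≤ Z ∧ s * z ^ e = f.eval t := by
      intro t
      by_cases ht : t ∈ T
      · obtain ⟨z, hz⟩ := (hT t ht).2
        exact ⟨z, fun _ => hz⟩
      · exact ⟨0, fun h => absurd h ht⟩
    choose z hz using hz
    have h1 := Finset.card_le_mul_card_image_of_maps_to (s := T2)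
      (t := (Finset.univ : Finset (ZMod q × ZMod q)).filter fun ab =>
        (s : ZMod q) * ab.2 ^ e = (f.map (Int.castRingHom (ZMod q))).eval ab.1)
      (f := fun t : ℤ => ((t : ZMod q), (z t : ZMod q))) (by
        intro t ht
        rw [hT2, Finset.mem_filter] at ht
        rw [Finset.mem_filter]
        refine ⟨Finset.mem_univ _, ?_⟩
        have h2 : (f.map (Int.castRingHom (ZMod q))).eval (t : ZMod q) =
            ((f.eval t : ℤ) : ZMod q) := by
          have := Polynomial.eval_map_apply (Int.castRingHom (ZMod q)) (p := f) t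
          exact this
        simp only
        rw [h2, ← (hz t ht.1).2]
        push_cast
        rfl) (2 * e * (f.natDegree + R)) (by
        rintro ⟨a, b⟩ -
        rcases ((T2.filter fun t : ℤ => ((t : ZMod q), (z t : ZMod q)) = (a, b))).eq_empty_or_nonempty
          with hemp | ⟨t1, ht1⟩
        · rw [hemp]; simp
        · rw [Finset.mem_filter, hT2, Finset.mem_filter] at ht1
          have hz1 : ¬ (q : ℤ) ∣ z t1 := by
            intro h
            apply ht1.1.2
            rw [← (hz t1 ht1.1.1).2]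
            exact (h.trans (dvd_pow_self _ (by omega))).mul_left s
          refine class_card f hk hsep s hs e he R B Z q hq hqs hqe t1 (z t1) hz1 hsize _ ?_
          intro t ht
          rw [Finset.mem_filter, hT2, Finset.mem_filter] at ht
          have h3 := ht.2.trans ht1.2.symm
          rw [Prod.mk.injEq] at h3
          refine ⟨(hT t ht.1.1).1, ?_, z t, ?_, (hz t ht.1.1).1, (hz t ht.1.1).2⟩
          · rw [← ZMod.intCast_zmod_eq_zero_iff_dvd, Int.cast_sub, h3.1, sub_self]
          · rw [← ZMod.intCast_zmod_eq_zero_iff_dvd, Int.cast_sub, h3.2, sub_self])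
    refine h1.trans ?_
    rw [mul_comm]
    exact Nat.mul_le_mul_right _ (card_pairs q f s hqs e he)

/-- **The number of integral points of `s z ^ e = f (t)`**, by the determinant method. -/
theorem bp2 (e : ℕ) (he : 1 ≤ e) (k : ℕ) (hk : 1 ≤ k) (A : ℕ) (ε : ℝ) (hε : 0 < ε) :
    ∃ C : ℝ, 0 < C ∧ ∀ B : ℕ, 1 ≤ B → ∀ f : ℤ[X], 1 ≤ f.natDegree → f.natDegree ≤ k →
      (f.map (Int.castRingHom ℚ)).Separable → ∀ s : ℤ, s ≠ 0 → ∀ N : ℕ, 1 ≤ N →
      (N : ℝ) ≤ (B : ℝ) ^ (A : ℝ) → ∀ T : Finset ℤ,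
      (∀ t ∈ T, |t| ≤ B ∧ ∃ z : ℤ, |z| ≤ (B : ℤ) ^ A ∧ s * z ^ e = f.eval t) →
      (∀ q : ℕ, q.Prime → ¬ q ∣ N → ¬ (q : ℤ) ∣ s ∧ ¬ q ∣ e ∧
        ∀ t ∈ T, (q : ℤ) ∣ f.eval t → ¬ (q : ℤ) ∣ (derivative f).eval t) →
      (T.card : ℝ) ≤ C * (B : ℝ) ^ (1 / (e : ℝ) + ε) := by
  classical
  have he0 : (0 : ℝ) < e := by exact_mod_cast he
  obtain ⟨R, hR⟩ := exists_nat_ge ((A * e * (e - 1 : ℝ) + 2) / (e * ε))
  set M := e * (R + 1) with hM
  have hM1 : 1 ≤ M := by rw [hM]; exact Nat.one_le_iff_ne_zero.mpr (by positivity)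
  set B₀ := M.factorial + 1 with hB₀
  set c : ℝ := 2 ^ (A * e + 1) * 2 with hc
  set C₁ : ℝ := k * 3 + (c * e) * (2 * e * (k + R)) with hC₁
  have hC₁0 : 0 < C₁ := by
    have : (1 : ℝ) ≤ k := by exact_mod_cast hk
    positivity
  refine ⟨C₁ + 3 * B₀, by positivity, fun B hB f hf1 hf hsep s hs N hN hNB T hT hgood => ?_⟩
  have hB1 : (1 : ℝ) ≤ B := by exact_mod_cast hB
  have hBpos : (0 : ℝ) < B := by linarith
  set α : ℝ := 1 / (e : ℝ) + ε with hα
  have hα0 : 0 < α := by positivity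
  have hBα : 1 ≤ (B : ℝ) ^ α := Real.one_le_rpow hB1 hα0.le
  by_cases hBB : B < B₀
  · have h1 : T.card ≤ 2 * B + 1 := by
      have h2 : T ⊆ Finset.Icc (-(B : ℤ)) B := fun t ht => Finset.mem_Icc.2 (abs_le.1 (hT t ht).1)
      have h3 := Finset.card_le_card h2
      rw [Int.card_Icc] at h3
      omega
    have h2 : (T.card : ℝ) ≤ 3 * B₀ := by
      have h3 : T.card ≤ 3 * B₀ := by omega
      exact_mod_cast h3
    calc (T.card : ℝ) ≤ 3 * B₀ * 1 := by linarith
      _ ≤ (C₁ + 3 * B₀) * (B : ℝ) ^ α := by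
          apply mul_le_mul _ hBα zero_le_one (by positivity)
          linarith
  push Not at hBB
  -- the prime
  set Q := ⌊(B : ℝ) ^ α⌋₊ + 1 with hQ
  have hQ1 : (B : ℝ) ^ α < Q := by
    rw [hQ]; push_cast; exact Nat.lt_floor_add_one _
  have hQ2 : (Q : ℝ) ≤ 2 * (B : ℝ) ^ α := by
    rw [hQ]; push_cast
    have := Nat.floor_le (show 0 ≤ (B : ℝ) ^ α by positivity)
    linarith
  have hNQ : N ≤ Q ^ (A * e) := by
    have h1 : (N : ℝ) ≤ (Q : ℝ) ^ (A * e) := by
      refine hNB.trans ?_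
      calc (B : ℝ) ^ (A : ℝ) ≤ ((B : ℝ) ^ α) ^ (A * e) := by
            rw [← Real.rpow_natCast, ← Real.rpow_mul hBpos.le]
            refine Real.rpow_le_rpow_of_exponent_le hB1 ?_
            push_cast
            rw [hα]
            have h2 : (1 / (e : ℝ) + ε) * (A * e) = A + ε * A * e := by field_simp
            rw [h2]
            have : 0 ≤ ε * A * e := by positivity
            linarith
        _ ≤ (Q : ℝ) ^ (A * e) := pow_le_pow_left₀ (by positivity) hQ1.le _
    exact_mod_cast h1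
  obtain ⟨q, hq, hqQ, hqle, hqN⟩ := exists_prime_not_dvd Q N (A * e) (by omega) hN hNQ
  obtain ⟨g1, g2, g4⟩ := hgood q hq hqN
  have hqα : (B : ℝ) ^ α ≤ q := hQ1.le.trans (by exact_mod_cast hqQ.le)
  have hqc : (q : ℝ) ≤ c * (B : ℝ) ^ α := by
    have h1 : (q : ℝ) ≤ 2 ^ (A * e + 1) * Q := by exact_mod_cast hqle
    calc (q : ℝ) ≤ 2 ^ (A * e + 1) * Q := h1
      _ ≤ 2 ^ (A * e + 1) * (2 * (B : ℝ) ^ α) := by gcongr
      _ = c * (B : ℝ) ^ α := by rw [hc]; ring
  have hsize : (e * (R + 1)).factorial * (B ^ (e * (R * (R + 1) / 2)) *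
      (B ^ A) ^ ((R + 1) * (e * (e - 1) / 2))) < q ^ ((e * (R + 1)) * (e * (R + 1) - 1) / 2) := by
    rw [← hM]
    obtain ⟨n, hn⟩ : 2 ∣ M * (M - 1) := (Nat.even_mul_pred_self M).two_dvd
    obtain ⟨n1, hn1⟩ : 2 ∣ R * (R + 1) := (Nat.even_mul_succ_self R).two_dvd
    obtain ⟨n2, hn2⟩ : 2 ∣ e * (e - 1) := (Nat.even_mul_pred_self e).two_dvd
    rw [hn, hn1, hn2, Nat.mul_div_cancel_left _ (by norm_num), Nat.mul_div_cancel_left _ (by norm_num),
      Nat.mul_div_cancel_left _ (by norm_num)]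
    have e1 : (2 : ℝ) * n = (e * (R + 1)) * (e * (R + 1) - 1) := by
      have : (2 : ℝ) * n = ((M * (M - 1) : ℕ) : ℝ) := by rw [hn]; push_cast; ring
      rw [this, Nat.cast_mul, Nat.cast_sub hM1, hM]; push_cast; ring
    have e2 : (2 : ℝ) * n1 = R * (R + 1) := by
      have : (2 : ℝ) * n1 = ((R * (R + 1) : ℕ) : ℝ) := by rw [hn1]; push_cast; ring
      rw [this]; push_cast; ring
    have e3 : (2 : ℝ) * n2 = e * (e - 1) := by
      have : (2 : ℝ) * n2 = ((e * (e - 1) : ℕ) : ℝ) := by rw [hn2]; push_cast; ring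
      rw [this, Nat.cast_mul, Nat.cast_sub he]; simp
    have hRe : A * e * (e - 1 : ℝ) + 2 ≤ (e * ε) * R := by
      rw [div_le_iff₀ (by positivity)] at hR
      linarith
    have hαe : α * e = 1 + e * ε := by rw [hα]; field_simp
    have hkey := key_ineq (A : ℝ) e R n n1 n2 α ε (by exact_mod_cast he) (Nat.cast_nonneg R)
      (Nat.cast_nonneg A) hε hαe e1 e2 e3 hRe
    exact card_real A e R M n n1 n2 B q α hB (by omega) hqα hkey
  have hmain := bp_prime2 f hf1 hsep s hs e he R B (B ^ A) q hq g1 g2 hsize T (by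
    intro t ht
    obtain ⟨h1, z, h2, h3⟩ := hT t ht
    exact ⟨h1, z, by exact_mod_cast h2, h3⟩) g4
  have h1 : 2 * B / q ^ e + 1 ≤ 3 := by
    have h2 : 2 * B / q ^ e ≤ 2 := by
      have h3 : B ≤ q ^ e := by
        have h4 : (B : ℝ) ≤ (q : ℝ) ^ e := by
          calc (B : ℝ) ≤ ((B : ℝ) ^ α) ^ e := by
                rw [← Real.rpow_natCast, ← Real.rpow_mul hBpos.le]
                conv_lhs => rw [← Real.rpow_one (B : ℝ)]
                refine Real.rpow_le_rpow_of_exponent_le hB1 ?_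
                rw [hα]
                have h5 : (1 / (e : ℝ) + ε) * e = 1 + ε * e := by field_simp
                rw [h5]
                have : 0 ≤ ε * e := by positivity
                linarith
            _ ≤ (q : ℝ) ^ e := pow_le_pow_left₀ (by positivity) hqα _
        exact_mod_cast h4
      calc 2 * B / q ^ e ≤ 2 * q ^ e / q ^ e := Nat.div_le_div_right (by omega)
        _ = 2 := Nat.mul_div_cancel _ (Nat.pos_of_ne_zero (pow_ne_zero _ hq.ne_zero))
    omega
  have h2 : T.card ≤ k * 3 + (q * e) * (2 * e * (k + R)) :=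
    hmain.trans (Nat.add_le_add (Nat.mul_le_mul hf h1) (Nat.mul_le_mul_left _
      (Nat.mul_le_mul_left _ (Nat.add_le_add_right hf _))))
  have h3 : (T.card : ℝ) ≤ k * 3 + (q * e) * (2 * e * (k + R)) := by exact_mod_cast h2
  calc (T.card : ℝ) ≤ k * 3 + (q * e) * (2 * e * (k + R)) := h3
    _ ≤ k * 3 * (B : ℝ) ^ α + (c * (B : ℝ) ^ α * e) * (2 * e * (k + R)) := by
        refine add_le_add ?_ ?_
        · exact le_mul_of_one_le_right (by positivity) hBα
        · refine mul_le_mul_of_nonneg_right ?_ (by positivity)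
          exact mul_le_mul_of_nonneg_right hqc he0.le
    _ = C₁ * (B : ℝ) ^ α := by rw [hC₁]; ring
    _ ≤ (C₁ + 3 * B₀) * (B : ℝ) ^ α := by
        refine mul_le_mul_of_nonneg_right ?_ (by positivity)
        have : (0 : ℝ) ≤ 3 * B₀ := by positivity
        linarith

end Pool.Agent.N445.VW
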