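import Mathlib
import Pool.Agent.N445.VW.Bp

/-! # Primitive points of the plane with determinants divisible by `m` -/

set_option autoImplicit false

namespace Pool.Agent.N445.VW

theorem card_class_aux (X Y m : ℕ) (hX : 1 ≤ X) (hm : 1 ≤ m) (S : Finset (ℤ × ℤ))
    (hS : ∀ z ∈ S, |z.1| ≤ X ∧ z.1 ≠ 0 ∧ |z.2| * X ≤ |z.1| * Y ∧ IsCoprime z.1 z.2)
    (hdet : ∀ z ∈ S, ∀ w ∈ S, (m : ℤ) ∣ z.1 * w.2 - w.1 * z.2) :
    S.card ≤ 2 * (2 * (X * Y / m) + 2) := by
  classical
  have hmQ : (0 : ℚ) < m := by exact_mod_cast hm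
  have hXQ : (0 : ℚ) < X := by exact_mod_cast hX
  set K : ℕ := X * Y / m with hK
  set φ : ℤ × ℤ → ℤ := fun z => ⌊((z.2 : ℚ) / z.1) * (X ^ 2 / m)⌋ with hφ
  have hKlt : ((X * Y : ℕ) : ℚ) / m < K + 1 := by
    rw [div_lt_iff₀ hmQ]
    have h1 : X * Y < (K + 1) * m := by
      rw [hK]
      have := Nat.lt_div_mul_add (a := X * Y) (b := m) (by omega)
      rw [add_mul, one_mul]; exact this
    exact_mod_cast h1
  have hmaps : ∀ z ∈ S, φ z ∈ Finset.Ico (-(K : ℤ) - 1) ((K : ℤ) + 1) := by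
    intro z hz
    obtain ⟨h1, h2, h3, h4⟩ := hS z hz
    have hz1 : (0 : ℚ) < |(z.1 : ℚ)| := abs_pos.2 (by exact_mod_cast h2)
    have h5 : |((z.2 : ℚ) / z.1) * (X ^ 2 / m)| < K + 1 := by
      refine lt_of_le_of_lt ?_ hKlt
      rw [abs_mul, abs_div, abs_of_nonneg (by positivity : (0 : ℚ) ≤ X ^ 2 / m)]
      have h6 : |(z.2 : ℚ)| * X ≤ |(z.1 : ℚ)| * Y := by exact_mod_cast h3
      have h7 : |(z.2 : ℚ)| / |(z.1 : ℚ)| * X ≤ Y := by
        rw [div_mul_eq_mul_div, div_le_iff₀ hz1]
        linarith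
      push_cast
      calc |(z.2 : ℚ)| / |(z.1 : ℚ)| * (X ^ 2 / m) =
            (|(z.2 : ℚ)| / |(z.1 : ℚ)| * X) * (X / m) := by ring
        _ ≤ Y * (X / m) := mul_le_mul_of_nonneg_right h7 (by positivity)
        _ = X * Y / m := by ring
    rw [abs_lt] at h5
    rw [Finset.mem_Ico]
    constructor
    · rw [Int.le_floor]
      push_cast
      linarith
    · rw [Int.floor_lt]
      push_cast
      linarith
  have h1 := Finset.card_le_mul_card_image_of_maps_to hmaps 2 (by
    intro r _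
    rcases (S.filter fun z => φ z = r).eq_empty_or_nonempty with hemp | ⟨w, hw⟩
    · rw [hemp]; simp
    · have hsub : (S.filter fun z => φ z = r) ⊆ {w, -w} := by
        intro z hz
        rw [Finset.mem_filter] at hz hw
        obtain ⟨a1, a2, a3, a4⟩ := hS z hz.1
        obtain ⟨b1, b2, b3, b4⟩ := hS w hw.1
        have hdvd := hdet z hz.1 w hw.1
        -- the determinant vanishes
        have hz1 : (z.1 : ℚ) ≠ 0 := by exact_mod_cast a2
        have hw1 : (w.1 : ℚ) ≠ 0 := by exact_mod_cast b2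
        have hd0 : z.1 * w.2 - w.1 * z.2 = 0 := by
          by_contra hne
          have c1 : (m : ℤ) ≤ |z.1 * w.2 - w.1 * z.2| := by
            have := Int.le_of_dvd (abs_pos.2 hne) ((dvd_abs _ _).2 hdvd)
            exact this
          have c2 : |((w.2 : ℚ) / w.1) * (X ^ 2 / m) - ((z.2 : ℚ) / z.1) * (X ^ 2 / m)| < 1 :=
            Int.abs_sub_lt_one_of_floor_eq_floor (by
              have := hz.2.trans hw.2.symm
              simp only [hφ] at this
              exact this.symm)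
          have c3 : ((w.2 : ℚ) / w.1) * (X ^ 2 / m) - ((z.2 : ℚ) / z.1) * (X ^ 2 / m) =
              (((z.1 * w.2 - w.1 * z.2 : ℤ) : ℚ) / m) * (X / z.1) * (X / w.1) := by
            push_cast
            field_simp
          rw [c3, abs_mul, abs_mul, abs_div, abs_div, abs_div] at c2
          have c4 : (1 : ℚ) ≤ |((z.1 * w.2 - w.1 * z.2 : ℤ) : ℚ)| / |(m : ℚ)| := by
            rw [abs_of_pos hmQ, le_div_iff₀ hmQ, one_mul]
            exact_mod_cast c1
          have c5 : (1 : ℚ) ≤ |(X : ℚ)| / |(z.1 : ℚ)| := by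
            rw [abs_of_pos hXQ, le_div_iff₀ (abs_pos.2 hz1), one_mul]
            exact_mod_cast a1
          have c6 : (1 : ℚ) ≤ |(X : ℚ)| / |(w.1 : ℚ)| := by
            rw [abs_of_pos hXQ, le_div_iff₀ (abs_pos.2 hw1), one_mul]
            exact_mod_cast b1
          have c7 : (1 : ℚ) ≤ |((z.1 * w.2 - w.1 * z.2 : ℤ) : ℚ)| / |(m : ℚ)| *
              (|(X : ℚ)| / |(z.1 : ℚ)|) * (|(X : ℚ)| / |(w.1 : ℚ)|) := by
            have := one_le_mul_of_one_le_of_one_le (one_le_mul_of_one_le_of_one_le c4 c5) c6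
            exact this
          linarith
        -- so `z = ± w`
        have d1 : z.1 ∣ w.1 := by
          have : z.1 ∣ w.1 * z.2 := ⟨w.2, by linarith⟩
          exact a4.dvd_of_dvd_mul_right this
        have d2 : w.1 ∣ z.1 := by
          have : w.1 ∣ z.1 * w.2 := ⟨z.2, by linarith⟩
          exact b4.dvd_of_dvd_mul_right this
        rw [Finset.mem_insert, Finset.mem_singleton]
        rcases Int.associated_iff.1 (associated_of_dvd_dvd d1 d2) with h | h
        · left
          refine Prod.ext h ?_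
          rw [h] at hd0
          have : w.1 * (w.2 - z.2) = 0 := by linarith
          rcases mul_eq_zero.1 this with h' | h'
          · exact absurd h' b2
          · linarith
        · right
          refine Prod.ext (by simpa using h) ?_
          rw [h] at hd0
          have : w.1 * (w.2 + z.2) = 0 := by linarith
          rcases mul_eq_zero.1 this with h' | h'
          · exact absurd h' b2
          · simp only [Prod.snd_neg]; linarith
      exact (Finset.card_le_card hsub).trans Finset.card_le_two)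
  refine h1.trans ?_
  rw [Int.card_Ico]
  refine Nat.mul_le_mul_left _ ?_
  omega

/-- **Primitive points with determinants divisible by `m`.** -/
theorem card_class (X Y m : ℕ) (hX : 1 ≤ X) (hY : 1 ≤ Y) (hm : 1 ≤ m) (S : Finset (ℤ × ℤ))
    (hS : ∀ z ∈ S, |z.1| ≤ X ∧ |z.2| ≤ Y ∧ IsCoprime z.1 z.2)
    (hdet : ∀ z ∈ S, ∀ w ∈ S, (m : ℤ) ∣ z.1 * w.2 - w.1 * z.2) :
    S.card ≤ 8 * (X * Y / m + 1) := by
  classical
  have hne : ∀ z ∈ S, |z.2| * X ≤ |z.1| * Y → z.1 ≠ 0 := by
    intro z hz h h0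
    obtain ⟨-, -, h3⟩ := hS z hz
    rw [h0, abs_zero, zero_mul] at h
    have h4 : |z.2| ≤ 0 := by
      have hX0 : (0 : ℤ) < X := by exact_mod_cast hX
      nlinarith [abs_nonneg z.2]
    have h5 : z.2 = 0 := abs_eq_zero.1 (le_antisymm h4 (abs_nonneg _))
    rw [h0, h5] at h3
    exact not_isCoprime_zero_zero h3
  have hne' : ∀ z ∈ S, |z.1| * Y < |z.2| * X → z.2 ≠ 0 := by
    intro z hz h h0
    rw [h0, abs_zero, zero_mul] at h
    have : (0 : ℤ) ≤ |z.1| * Y := by positivity
    omega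
  set S1 := S.filter fun z : ℤ × ℤ => |z.2| * (X : ℤ) ≤ |z.1| * (Y : ℤ) with hS1
  set S2 := S.filter fun z : ℤ × ℤ => ¬ |z.2| * (X : ℤ) ≤ |z.1| * (Y : ℤ) with hS2
  have h1 : S1.card ≤ 2 * (2 * (X * Y / m) + 2) := by
    refine card_class_aux X Y m hX hm S1 ?_ ?_
    · intro z hz
      rw [hS1, Finset.mem_filter] at hz
      obtain ⟨h1, h2, h3⟩ := hS z hz.1
      exact ⟨h1, hne z hz.1 hz.2, hz.2, h3⟩
    · intro z hz w hw
      rw [hS1, Finset.mem_filter] at hz hw
      exact hdet z hz.1 w hw.1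
  have h2 : S2.card ≤ 2 * (2 * (Y * X / m) + 2) := by
    rw [← Finset.card_image_of_injective S2 Prod.swap_injective]
    refine card_class_aux Y X m hY hm _ ?_ ?_
    · intro z hz
      obtain ⟨z', hz', rfl⟩ := Finset.mem_image.1 hz
      rw [hS2, Finset.mem_filter] at hz'
      obtain ⟨h1, h2, h3⟩ := hS z' hz'.1
      refine ⟨h2, hne' z' hz'.1 (by simpa using hz'.2), ?_, h3.symm⟩
      simp only [Prod.fst_swap, Prod.snd_swap]
      have := hz'.2
      omega
    · intro z hz w hw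
      obtain ⟨z', hz', rfl⟩ := Finset.mem_image.1 hz
      obtain ⟨w', hw', rfl⟩ := Finset.mem_image.1 hw
      rw [hS2, Finset.mem_filter] at hz' hw'
      have := hdet w' hw'.1 z' hz'.1
      simp only [Prod.fst_swap, Prod.snd_swap]
      have h4 : z'.2 * w'.1 - w'.2 * z'.1 = w'.1 * z'.2 - z'.1 * w'.2 := by ring
      rw [h4]; exact this
  have h3 : S.card = S1.card + S2.card := by
    rw [hS1, hS2, Finset.card_filter_add_card_filter_not]
  rw [mul_comm Y X] at h2
  omega

end Pool.Agent.N445.VW
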