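import Mathlib
import Pool.Agent.N445.VW.BpMain
import Pool.Agent.TH910.Voj.Trunc
import Pool.Agent.TH910.Voj.Prox

/-! # Restriction of a form and its directional derivative to a line -/

set_option autoImplicit false

namespace Pool.Agent.N445.VW

open MvPolynomial Pool.Agent.TH910.Voj Pool.Agent.H813R3.Voj

/-- the derivative in the direction `a` -/
noncomputable def dder {n : ℕ} (a : Fin n → ℤ) (F : MvPolynomial (Fin n) ℤ) :
    MvPolynomial (Fin n) ℤ := ∑ i, C (a i) * pderiv i F

theorem dder_isHomogeneous {n : ℕ} (a : Fin n → ℤ) (F : MvPolynomial (Fin n) ℤ) {k : ℕ}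
    (hk : F.IsHomogeneous k) : (dder a F).IsHomogeneous (k - 1) := by
  unfold dder
  refine IsHomogeneous.sum _ _ _ fun i _ => ?_
  have h1 := (isHomogeneous_C (Fin n) (a i)).mul (hk.pderiv (i := i))
  rwa [zero_add] at h1

theorem derivative_onLine {n : ℕ} (F : MvPolynomial (Fin n) ℤ) (u v : Fin n → ℤ) :
    Polynomial.derivative (onLine F u v) = onLine (dder v F) u v := by
  induction F using MvPolynomial.induction_on with
  | C c => simp [onLine, dder]
  | add p q hp hq =>
    have h1 : onLine (p + q) u v = onLine p u v + onLine q u v := by simp [onLine]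
    have h2 : onLine (dder v (p + q)) u v = onLine (dder v p) u v + onLine (dder v q) u v := by
      simp [onLine, dder, mul_add, Finset.sum_add_distrib]
    rw [h1, h2, Polynomial.derivative_add, hp, hq]
  | mul_X p j hp =>
    have h1 : onLine (p * X j) u v = onLine p u v *
        (Polynomial.C (u j) + Polynomial.C (v j) * Polynomial.X) := by simp [onLine]
    have h2 : dder v (p * X j) = dder v p * X j + C (v j) * p := by
      unfold dder
      simp only [pderiv_mul, pderiv_X]
      rw [Finset.sum_mul]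
      have h3 : ∑ i, C (v i) * (pderiv i p * X j + p * (Pi.single i 1 : Fin n → _) j) =
          ∑ i, (C (v i) * pderiv i p * X j + C (v i) * (p * (Pi.single i 1 : Fin n → _) j)) :=
        Finset.sum_congr rfl fun i _ => by ring
      rw [h3, Finset.sum_add_distrib]
      congr 1
      rw [Finset.sum_eq_single j]
      · simp
      · intro i _ hij
        rw [Pi.single_eq_of_ne (Ne.symm hij)]
        simp
      · simp
    have h4 : onLine (dder v p * X j + C (v j) * p) u v = onLine (dder v p) u v *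
        (Polynomial.C (u j) + Polynomial.C (v j) * Polynomial.X) +
        Polynomial.C (v j) * onLine p u v := by
      simp [onLine]
    rw [h1, h2, h4, Polynomial.derivative_mul, hp]
    simp
    ring

theorem dder_ne_zero {n : ℕ} (a : Fin n → ℤ) (F : MvPolynomial (Fin n) ℤ) {k : ℕ}
    (hk : F.IsHomogeneous k) (hk1 : 1 ≤ k) (hFa : eval a F ≠ 0) : dder a F ≠ 0 := by
  intro h0
  have h1 := derivative_onLine F (0 : Fin n → ℤ) a
  rw [h0] at h1
  have h2 : onLine (0 : MvPolynomial (Fin n) ℤ) 0 a = 0 := by simp [onLine]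
  rw [h2] at h1
  obtain ⟨h3, h4⟩ := onLine_spec F hk (0 : Fin n → ℤ) a
  have h5 := congrArg (fun P : Polynomial ℤ => P.coeff (k - 1)) h1
  simp only [Polynomial.coeff_derivative, Polynomial.coeff_zero] at h5
  rw [Nat.sub_add_cancel hk1, h4] at h5
  have h6 : aeval a F = eval a F := rfl
  rw [h6] at h5
  rcases mul_eq_zero.1 h5 with h7 | h7
  · exact hFa h7
  · have : ((k - 1 : ℕ) : ℤ) + 1 ≠ 0 := by positivity
    exact this h7

theorem not_dvd_dder {n : ℕ} (a : Fin n → ℤ) (F : MvPolynomial (Fin n) ℤ) {k : ℕ}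
    (hk : F.IsHomogeneous k) (hk1 : 1 ≤ k) (hFa : eval a F ≠ 0) :
    ¬ toQ F ∣ toQ (dder a F) := by
  have hF0 : F ≠ 0 := by rintro rfl; simp at hFa
  have hFQ : toQ F ≠ 0 := fun h => hF0 (toQ_injective (by rw [h, map_zero]))
  have hGQ : toQ (dder a F) ≠ 0 := fun h =>
    dder_ne_zero a F hk hk1 hFa (toQ_injective (by rw [h, map_zero]))
  rintro ⟨c, hc⟩
  have hc0 : c ≠ 0 := by
    rintro rfl
    rw [mul_zero] at hc
    exact hGQ hc
  have h1 : (toQ F).totalDegree + c.totalDegree = (toQ (dder a F)).totalDegree := by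
    rw [hc, totalDegree_mul_of_isDomain hFQ hc0]
  have h2 : (toQ F).totalDegree = k := (hk.map _).totalDegree hFQ
  have h3 : (toQ (dder a F)).totalDegree = k - 1 :=
    ((dder_isHomogeneous a F hk).map _).totalDegree hGQ
  omega

/-- The data attached to a direction. -/
theorem exists_dir {n : ℕ} (F : MvPolynomial (Fin (n + 1)) ℤ) {k : ℕ} (hk : F.IsHomogeneous k)
    (hk1 : 1 ≤ k) (hirr : Irreducible (toQ F)) :
    ∃ (a : Fin (n + 1) → ℤ) (i₀ : Fin (n + 1)), eval a F ≠ 0 ∧ a i₀ ≠ 0 ∧
      ∃ r U V : MvPolynomial (Fin (n + 1)) ℤ,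
        bind₁ (lin a i₀) r = U * F + V * dder a F ∧ bind₁ (lin a i₀) r ≠ 0 := by
  obtain ⟨a, i₀, hFa, ha⟩ := exists_direction F hk hirr
  exact ⟨a, i₀, hFa, ha, elimination F (dder a F) hk hirr (not_dvd_dder a F hk hk1 hFa) a i₀ hFa ha⟩

theorem eval_bind_lin {n : ℕ} (a : Fin n → ℤ) (i₀ : Fin n) (r : MvPolynomial (Fin n) ℤ)
    (x y : Fin n → ℤ) (hxy : (fun i => a i₀ * x i - a i * x i₀) = y) :
    eval x (bind₁ (lin a i₀) r) = eval y r := by
  rw [eval_lin, hxy]

theorem onLine_separable {n : ℕ} (F : MvPolynomial (Fin n) ℤ) {k : ℕ} (hk : F.IsHomogeneous k)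
    (hk1 : 1 ≤ k) (a : Fin n → ℤ) (i₀ : Fin n) (ha : a i₀ ≠ 0)
    (r U V : MvPolynomial (Fin n) ℤ) (hr : bind₁ (lin a i₀) r = U * F + V * dder a F)
    (y : Fin n → ℤ) (hy0 : y i₀ = 0) (hry : eval y r ≠ 0) :
    ((onLine F y a).map (Int.castRingHom ℚ)).Separable := by
  set c : Polynomial ℚ := Polynomial.C ((a i₀ : ℚ)⁻¹) with hc
  set g : Fin n → Polynomial ℚ := fun i => Polynomial.C (y i : ℚ) +
    Polynomial.C (a i : ℚ) * Polynomial.X with hg
  have ha' : (a i₀ : ℚ) ≠ 0 := by exact_mod_cast ha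
  have hon : ∀ P : MvPolynomial (Fin n) ℤ, aeval g P = (onLine P y a).map (Int.castRingHom ℚ) := by
    intro P
    rw [map_onLine]
    rfl
  have h1 := congrArg (aeval (fun i => c * g i)) hr
  have hs1 : aeval (fun i => c * g i) F = c ^ k * aeval g F := aeval_scale F hk c g
  have hs2 : aeval (fun i => c * g i) (dder a F) = c ^ (k - 1) * aeval g (dder a F) :=
    aeval_scale (dder a F) (dder_isHomogeneous a F hk) c g
  rw [map_add, map_mul, map_mul, hs1, hs2, hon, hon, ← derivative_onLine] at h1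
  have h2 : aeval (fun i => c * g i) (bind₁ (lin a i₀) r) = Polynomial.C ((eval y r : ℤ) : ℚ) := by
    rw [aeval_bind₁]
    have h3 : (fun i => aeval (fun i => c * g i) (lin a i₀ i)) =
        fun i => Polynomial.C (y i : ℚ) := by
      funext i
      unfold lin
      simp only [map_sub, map_mul, aeval_C, aeval_X, hg, hc]
      rw [hy0]
      have h4 : (algebraMap ℤ (Polynomial ℚ)) (a i₀) = Polynomial.C (a i₀ : ℚ) := by simp
      have h5 : (algebraMap ℤ (Polynomial ℚ)) (a i) = Polynomial.C (a i : ℚ) := by simp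
      rw [h4, h5]
      have h6 : (Polynomial.C ((a i₀ : ℚ)⁻¹) : Polynomial ℚ) * Polynomial.C (a i₀ : ℚ) = 1 := by
        rw [← Polynomial.C_mul, inv_mul_cancel₀ ha', Polynomial.C_1]
      simp only [Int.cast_zero, Polynomial.C_0, zero_add]
      linear_combination (Polynomial.C (y i : ℚ)) * h6
    rw [h3]
    have h7 : (aeval (fun i => Polynomial.C (y i : ℚ)) r : Polynomial ℚ) =
        (Polynomial.C.comp (Int.castRingHom ℚ)) (eval y r) := by
      have h8 := MvPolynomial.map_aeval (R := ℤ) (S₁ := ℤ) (B := Polynomial ℚ) y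
        (Polynomial.C.comp (Int.castRingHom ℚ)) r
      have h9 : aeval y r = eval y r := rfl
      rw [h9] at h8
      rw [h8, MvPolynomial.aeval_def, MvPolynomial.coe_eval₂Hom]
      have h10 : (Polynomial.C.comp (Int.castRingHom ℚ)).comp (algebraMap ℤ ℤ) =
        algebraMap ℤ (Polynomial ℚ) := RingHom.ext_int _ _
      rw [h10]
      rfl
    rw [h7]
    rfl
  rw [h2] at h1
  rw [Polynomial.separable_def', Polynomial.derivative_map]
  set e : ℚ := ((eval y r : ℤ) : ℚ) with he
  have he0 : e ≠ 0 := by rw [he]; exact_mod_cast hry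
  refine ⟨Polynomial.C e⁻¹ * (aeval (fun i => c * g i) U * c ^ k),
    Polynomial.C e⁻¹ * (aeval (fun i => c * g i) V * c ^ (k - 1)), ?_⟩
  have h3 : (Polynomial.C e⁻¹ : Polynomial ℚ) * Polynomial.C e = 1 := by
    rw [← Polynomial.C_mul, inv_mul_cancel₀ he0, Polynomial.C_1]
  linear_combination (-Polynomial.C e⁻¹) * h1 + h3

end Pool.Agent.N445.VW
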