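import Mathlib
import Pool.Agent.N445.VW.Fib

/-! # Sparse sets of points: small and medium primes -/

set_option autoImplicit false

namespace Pool.Agent.N445.VW

open MvPolynomial Pool.Agent.TH910.Voj Pool.Agent.H813R3.Voj

/-- A set of vectors is sparse if it has few points on the lines in a fixed direction. -/
theorem sparse_of_fibres {n : ℕ} (a : Fin (n + 1) → ℤ) (i₀ : Fin (n + 1)) (ha : a i₀ ≠ 0)
    (bad : ℕ → (Fin (n + 1) → ℤ) → Prop) (B₀ : ℕ) (C e : ℝ) (he : 0 < e) (hC : 0 ≤ C)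
    (h : ∀ B : ℕ, B₀ ≤ B → 1 ≤ B → ∀ (y : Fin (n + 1) → ℤ) (T : Finset ℤ),
      (∀ t ∈ T, ∃ x ∈ box (n + 1) B, bad B x ∧ x i₀ = t ∧
        (fun i => a i₀ * x i - a i * x i₀) = y) → (T.card : ℝ) ≤ C * (B : ℝ) ^ (1 - e)) :
    Sparse (n + 1) bad := by
  classical
  have h1 : Sparse (n + 1) (fun B x => B₀ ≤ B ∧ bad B x) := by
    refine ⟨e, he, C * (3 * cdir a i₀ : ℝ) ^ n + 1, by positivity, fun B hB => ?_⟩
    have hB1 : (1 : ℝ) ≤ B := by exact_mod_cast hB
    have hBpos : (0 : ℝ) < B := by linarith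
    set X := (box (n + 1) B).filter (fun x => B₀ ≤ B ∧ bad B x) with hX
    have hXcard : (Set.ncard {x | x ∈ box (n + 1) B ∧ (B₀ ≤ B ∧ bad B x)} : ℝ) = X.card := by
      rw [← Set.ncard_coe_finset]
      congr 2
      ext x; simp [hX]
    rw [hXcard]
    by_cases hBB : B₀ ≤ B
    · have hfib := card_le_fibres a i₀ ha B hB X (Finset.filter_subset _ _)
        (C * (B : ℝ) ^ (1 - e)) (by positivity) (by
          intro y T hT
          refine h B hBB hB y T fun t ht => ?_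
          obtain ⟨x, hx, hxt, hxy⟩ := hT t ht
          rw [hX, Finset.mem_filter] at hx
          exact ⟨x, hx.1, hx.2.2, hxt, hxy⟩)
      refine hfib.trans ?_
      have h2 : (B : ℝ) ^ (1 - e) * (B : ℝ) ^ n = (B : ℝ) ^ (((n + 1 : ℕ) : ℝ) - e) := by
        rw [← Real.rpow_natCast, ← Real.rpow_add hBpos]
        congr 1
        push_cast
        ring
      have h3 : 0 ≤ (B : ℝ) ^ (((n + 1 : ℕ) : ℝ) - e) := by positivity
      calc C * (B : ℝ) ^ (1 - e) * ((3 * cdir a i₀ : ℝ) ^ n * (B : ℝ) ^ n) =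
            C * (3 * cdir a i₀ : ℝ) ^ n * ((B : ℝ) ^ (1 - e) * (B : ℝ) ^ n) := by ring
        _ ≤ _ := by rw [h2, add_mul]; linarith
    · have : X = ∅ := by
        rw [hX]
        exact Finset.filter_eq_empty_iff.2 fun x _ hx => hBB hx.1
      rw [this, Finset.card_empty, Nat.cast_zero]
      positivity
  exact h1.of_eventually B₀ fun B x hBB _ _ hx => ⟨hBB, hx⟩

/-- **Divisors with a small radical**: the values of a form are seldom divisible by a large
number whose radical is very small. -/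
theorem sparse_sing {n : ℕ} (F : MvPolynomial (Fin (n + 1)) ℤ) {k : ℕ} (hk : F.IsHomogeneous k)
    (hk1 : 1 ≤ k) (hirr : Irreducible (toQ F)) {ε : ℝ} (hε : 0 < ε) (hε1 : ε ≤ 1) :
    ∃ η : ℝ, 0 < η ∧ Sparse (n + 1) (fun B x => eval x F ≠ 0 ∧
      ∃ d : ℕ, (d : ℤ) ∣ eval x F ∧ (B : ℝ) ^ ε < d ∧ (rd d : ℝ) ≤ (B : ℝ) ^ η) := by
  classical
  obtain ⟨a, i₀, hFa, ha⟩ := exists_direction F hk hirr
  obtain ⟨c, hc1, hc⟩ := exists_eval_bound F (hk.totalDegree_le)
  set E := (k + 1) * (k + 1) with hE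
  have hE0 : (0 : ℝ) < E := by rw [hE]; positivity
  have hE1 : (1 : ℝ) ≤ E := by
    have : 1 ≤ E := by rw [hE]; nlinarith
    exact_mod_cast this
  have hk0 : (0 : ℝ) < k := by exact_mod_cast hk1
  set e : ℝ := ε / (4 * E) with he
  have he0 : 0 < e := by positivity
  set δ : ℝ := e / (2 * k) with hδ
  have hδ0 : 0 < δ := by positivity
  obtain ⟨Cr, hCr0, hCr⟩ := card_small_rad hδ0
  obtain ⟨B₀, hB₀⟩ : ∃ B₀ : ℕ, ∀ B : ℕ, B₀ ≤ B → ((eval a F).natAbs : ℝ) ≤ (B : ℝ) ^ (ε / 2) := by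
    have h1 : Filter.Tendsto (fun B : ℕ => (B : ℝ) ^ (ε / 2)) Filter.atTop Filter.atTop :=
      (tendsto_rpow_atTop (by positivity)).comp tendsto_natCast_atTop_atTop
    exact Filter.eventually_atTop.mp (h1.eventually_ge_atTop ((eval a F).natAbs : ℝ))
  refine ⟨e / 2, by positivity, sparse_of_fibres a i₀ ha _ B₀
    (Cr * (c : ℝ) ^ δ * (5 * k + 1)) e he0 (by positivity) ?_⟩
  intro B hBB hB y T hT
  have hB1 : (1 : ℝ) ≤ B := by exact_mod_cast hB
  have hBpos : (0 : ℝ) < B := by linarith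
  set L : ℝ := (B : ℝ) ^ (ε / (2 * E)) with hL
  have hL1 : 1 ≤ L := Real.one_le_rpow hB1 (by positivity)
  obtain ⟨hℓ1, hℓ2, hℓ3⟩ := floor_bounds hL1
  set ℓ := ⌊L⌋₊ with hℓ
  set N := c * B ^ k with hN
  have hN1 : 1 ≤ N := Nat.one_le_iff_ne_zero.mpr (Nat.mul_ne_zero (by omega)
    (pow_ne_zero _ (by omega)))
  set V := (Finset.Icc (-(N : ℤ)) N).filter fun v => v ≠ 0 ∧
    (rd v.natAbs : ℝ) ≤ (B : ℝ) ^ (e / 2) with hV
  set W := V.filter (fun v => (B : ℝ) ^ ε < v.natAbs ∧ 0 < v) with hW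
  have hlt : ∀ d : ℕ, (B : ℝ) ^ ε < d →
      ((onLine F y a).coeff k).natAbs * ℓ ^ E < d := by
    intro d hd
    have h1 := (onLine_spec F hk y a).2
    have h2 : aeval a F = eval a F := rfl
    rw [h1, h2]
    have h3 : (((eval a F).natAbs * ℓ ^ E : ℕ) : ℝ) ≤ (B : ℝ) ^ ε := by
      push_cast
      have h4 : (ℓ : ℝ) ^ E ≤ (B : ℝ) ^ (ε / 2) := by
        calc (ℓ : ℝ) ^ E ≤ L ^ E := pow_le_pow_left₀ (by positivity) hℓ2 _
          _ = (B : ℝ) ^ (ε / 2) := by
              rw [hL, ← Real.rpow_natCast, ← Real.rpow_mul hBpos.le]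
              congr 1
              field_simp
      have h5 : (B : ℝ) ^ ε = (B : ℝ) ^ (ε / 2) * (B : ℝ) ^ (ε / 2) := by
        rw [← Real.rpow_add hBpos]; congr 1; ring
      rw [h5]
      have h6 := hB₀ B hBB
      exact mul_le_mul h6 h4 (by positivity) (by positivity)
    exact_mod_cast lt_of_le_of_lt h3 hd
  have hsub : T ⊆ W.biUnion fun v => (Finset.Icc (-(B : ℤ)) B).filter
      fun t => ((v.natAbs : ℕ) : ℤ) ∣ (onLine F y a).eval t := by
    intro t ht
    obtain ⟨x, hx, ⟨hne, d, hd1, hd2, hd3⟩, rfl, hxy⟩ := hT t ht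
    rw [Finset.mem_biUnion]
    have hd0 : 0 < d := by
      rcases Nat.eq_zero_or_pos d with h0 | h0
      · subst h0
        exfalso
        apply hne
        simpa using hd1
      · exact h0
    refine ⟨(d : ℤ), ?_, ?_⟩
    · rw [hW, Finset.mem_filter, hV, Finset.mem_filter, Finset.mem_Icc, Int.natAbs_natCast]
      have h1 : d ≤ (eval x F).natAbs :=
        Nat.le_of_dvd (Int.natAbs_pos.mpr hne) (Int.natCast_dvd.mp hd1)
      have h2 := hc B hB x hx
      refine ⟨⟨⟨by omega, by omega⟩, by omega, hd3⟩, hd2, by omega⟩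
    · rw [Finset.mem_filter, Finset.mem_Icc, ← abs_le, Int.natAbs_natCast]
      refine ⟨mem_box.mp hx i₀, ?_⟩
      rw [eval_fibre F hk a i₀ x y hxy]
      exact hd1.mul_left _
  have hcard : T.card ≤ W.card * (k * (2 * B / ℓ + 1)) := by
    refine (Finset.card_le_card hsub).trans (Finset.card_biUnion_le_card_mul _ _ _ ?_)
    intro v hv
    rw [hW, Finset.mem_filter] at hv
    refine card_roots_mod_le (onLine F y a) k (onLine_spec F hk y a).1
      (by rw [(onLine_spec F hk y a).2]; exact hFa) v.natAbs ℓ hℓ1 (hlt _ hv.2.1) B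
  have h2 : ((k * (2 * B / ℓ + 1) : ℕ) : ℝ) ≤ (5 * k + 1) * (B : ℝ) ^ (1 - 2 * e) := by
    have hBe : (1 : ℝ) ≤ (B : ℝ) ^ (1 - 2 * e) := by
      refine Real.one_le_rpow hB1 ?_
      rw [he]
      have : 2 * (ε / (4 * E)) ≤ 1 := by
        rw [← mul_div_assoc, div_le_one (by positivity)]
        nlinarith
      linarith
    have h3 : ((2 * B / ℓ : ℕ) : ℝ) ≤ 4 * (B : ℝ) ^ (1 - 2 * e) := by
      refine (Nat.cast_div_le).trans ?_
      push_cast
      have hℓ0 : (0 : ℝ) < ℓ := by exact_mod_cast hℓ1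
      rw [div_le_iff₀ hℓ0]
      have h4 : (B : ℝ) = (B : ℝ) ^ (1 - 2 * e) * L := by
        rw [hL, ← Real.rpow_add hBpos, he]
        have : 1 - 2 * (ε / (4 * E)) + ε / (2 * E) = 1 := by
          field_simp
          ring
        rw [this, Real.rpow_one]
      calc 2 * (B : ℝ) = 2 * ((B : ℝ) ^ (1 - 2 * e) * L) := by rw [← h4]
        _ ≤ 2 * ((B : ℝ) ^ (1 - 2 * e) * (2 * ℓ)) := by gcongr
        _ = _ := by ring
    push_cast
    nlinarith
  have h3 : (W.card : ℝ) ≤ Cr * (c : ℝ) ^ δ * (B : ℝ) ^ e := by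
    have h4 : (W.card : ℝ) ≤ V.card := by exact_mod_cast Finset.card_filter_le _ _
    refine h4.trans ((hCr N hN1 _ (by positivity)).trans ?_)
    have h6 : (N : ℝ) ^ δ ≤ (c : ℝ) ^ δ * (B : ℝ) ^ (e / 2) := by
      rw [hN]
      push_cast
      rw [Real.mul_rpow (by positivity) (by positivity)]
      refine mul_le_mul_of_nonneg_left (le_of_eq ?_) (by positivity)
      rw [← Real.rpow_natCast, ← Real.rpow_mul hBpos.le]
      congr 1
      rw [hδ]; field_simp
    calc Cr * (B : ℝ) ^ (e / 2) * (N : ℝ) ^ δ ≤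
          Cr * (B : ℝ) ^ (e / 2) * ((c : ℝ) ^ δ * (B : ℝ) ^ (e / 2)) :=
          mul_le_mul_of_nonneg_left h6 (by positivity)
      _ = Cr * (c : ℝ) ^ δ * ((B : ℝ) ^ (e / 2) * (B : ℝ) ^ (e / 2)) := by ring
      _ = _ := by
          rw [← Real.rpow_add hBpos]
          congr 2
          ring
  have h5 : (T.card : ℝ) ≤ W.card * ((k * (2 * B / ℓ + 1) : ℕ) : ℝ) := by exact_mod_cast hcard
  calc (T.card : ℝ) ≤ W.card * ((k * (2 * B / ℓ + 1) : ℕ) : ℝ) := h5
    _ ≤ (Cr * (c : ℝ) ^ δ * (B : ℝ) ^ e) * ((5 * k + 1) * (B : ℝ) ^ (1 - 2 * e)) :=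
        mul_le_mul h3 h2 (by positivity) (by positivity)
    _ = (Cr * (c : ℝ) ^ δ * (5 * k + 1)) * ((B : ℝ) ^ e * (B : ℝ) ^ (1 - 2 * e)) := by ring
    _ = _ := by
        rw [← Real.rpow_add hBpos]
        congr 2
        ring

/-! ### squares of numbers prime to the derivative -/

/-- roots modulo the primes -/
noncomputable def rts (f : Polynomial ℤ) (p : ℕ) : Finset ℤ :=
  (Finset.Ico 0 (p : ℤ)).filter fun t => (p : ℤ) ∣ f.eval t

theorem card_rts (f : Polynomial ℤ) (p : ℕ) (hp : p.Prime) (hl : ¬ (p : ℤ) ∣ f.leadingCoeff) :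
    (rts f p).card ≤ f.natDegree := by
  classical
  have : Fact p.Prime := ⟨hp⟩
  set P : Polynomial (ZMod p) := f.map (Int.castRingHom (ZMod p)) with hP
  have hP0 : P ≠ 0 := by
    intro h
    apply hl
    have h2 : P.coeff f.natDegree = (f.leadingCoeff : ZMod p) := by
      rw [hP, Polynomial.coeff_map]; rfl
    rw [h, Polynomial.coeff_zero] at h2
    exact (ZMod.intCast_zmod_eq_zero_iff_dvd _ p).1 h2.symm
  have h1 : (rts f p).card ≤ P.roots.toFinset.card := by
    refine Finset.card_le_card_of_injOn (fun t : ℤ => (t : ZMod p)) ?_ ?_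
    · intro t ht
      unfold rts at ht
      rw [Finset.mem_coe, Finset.mem_filter] at ht
      rw [Finset.mem_coe, Multiset.mem_toFinset, Polynomial.mem_roots hP0, Polynomial.IsRoot]
      have h2 : P.eval (t : ZMod p) = ((f.eval t : ℤ) : ZMod p) :=
        Polynomial.eval_map_apply (Int.castRingHom (ZMod p)) (p := f) t
      rw [h2]
      exact (ZMod.intCast_zmod_eq_zero_iff_dvd _ p).2 ht.2
    · intro t ht t' ht' heq
      unfold rts at ht ht'
      rw [Finset.mem_coe, Finset.mem_filter, Finset.mem_Ico] at ht ht'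
      simp only at heq
      rw [← sub_eq_zero, ← Int.cast_sub, ZMod.intCast_zmod_eq_zero_iff_dvd] at heq
      have h3 : |t - t'| < p := by rw [abs_lt]; constructor <;> omega
      have := Int.eq_zero_of_abs_lt_dvd heq h3
      omega
  exact h1.trans ((Multiset.toFinset_card_le _).trans ((Polynomial.card_roots' _).trans
    Polynomial.natDegree_map_le))

theorem card_sq (f : Polynomial ℤ) (m : ℕ) (hm : 1 ≤ m) (B : ℕ) (T : Finset ℤ)
    (hT : ∀ t ∈ T, |t| ≤ B ∧ (m : ℤ) ^ 2 ∣ f.eval t ∧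
      ∀ p : ℕ, p.Prime → p ∣ m → ¬ (p : ℤ) ∣ (Polynomial.derivative f).eval t)
    (hl : ∀ p : ℕ, p.Prime → p ∣ m → ¬ (p : ℤ) ∣ f.leadingCoeff) :
    T.card ≤ f.natDegree ^ m.primeFactors.card * (2 * B / m ^ 2 + 1) := by
  classical
  set S : Finset ({p // p ∈ m.primeFactors} → ℤ) := Fintype.piFinset fun p => rts f p with hS
  have hScard : S.card ≤ f.natDegree ^ m.primeFactors.card := by
    rw [hS, Fintype.card_piFinset]
    calc ∏ p : {p // p ∈ m.primeFactors}, (rts f p).card ≤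
          ∏ _p : {p // p ∈ m.primeFactors}, f.natDegree := by
          refine Finset.prod_le_prod' fun p _ => ?_
          have hp := p.2
          rw [Nat.mem_primeFactors] at hp
          exact card_rts f p hp.1 (hl p hp.1 hp.2.1)
      _ = _ := by
          rw [Finset.prod_const, Finset.card_univ, Fintype.card_coe]
  have h1 := Finset.card_le_mul_card_image_of_maps_to (s := T) (t := S)
    (f := fun (t : ℤ) (p : {p // p ∈ m.primeFactors}) => t % ((p : ℕ) : ℤ)) (by
      intro t ht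
      rw [hS, Fintype.mem_piFinset]
      intro p
      have hp := p.2
      rw [Nat.mem_primeFactors] at hp
      have hp0 : (0 : ℤ) < (p : ℕ) := by exact_mod_cast hp.1.pos
      unfold rts
      rw [Finset.mem_filter, Finset.mem_Ico]
      refine ⟨⟨Int.emod_nonneg _ hp0.ne', Int.emod_lt_of_pos _ hp0⟩, ?_⟩
      have h2 : ((p : ℕ) : ℤ) ∣ f.eval t := by
        have h3 : ((p : ℕ) : ℤ) ∣ (m : ℤ) := by exact_mod_cast hp.2.1
        exact (h3.trans (dvd_pow_self _ two_ne_zero)).trans (hT t ht).2.1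
      have h4 : ((p : ℕ) : ℤ) ∣ f.eval (t % ((p : ℕ) : ℤ)) - f.eval t :=
        ((Int.mod_modEq t ((p : ℕ) : ℤ)).symm.dvd).trans (Polynomial.sub_dvd_eval_sub _ _ _)
      have := dvd_add h4 h2
      simpa using this) (2 * B / m ^ 2 + 1) (by
      intro s _
      refine card_interval B (m ^ 2) (Nat.pos_of_ne_zero (pow_ne_zero _ (by omega))) _ ?_ ?_
      · intro t ht
        rw [Finset.mem_filter] at ht
        exact (hT t ht.1).1
      · intro t ht t' ht'
        rw [Finset.mem_filter] at ht ht'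
        push_cast
        refine lift_congr f _ t t' (hT t ht.1).2.1 (hT t' ht'.1).2.1 ?_
        intro p hp hpd
        have hpm : p ∣ m := by
          have h3 : p ∣ m ^ 2 := by exact_mod_cast hpd
          exact hp.dvd_of_dvd_pow h3
        refine ⟨?_, (hT t ht.1).2.2 p hp hpm⟩
        have hmem : p ∈ m.primeFactors := Nat.mem_primeFactors.2 ⟨hp, hpm, by omega⟩
        have h4 := congrFun (ht.2.trans ht'.2.symm) ⟨p, hmem⟩
        simp only at h4
        exact Int.ModEq.dvd h4)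
  refine h1.trans ?_
  rw [mul_comm]
  exact Nat.mul_le_mul_right _ hScard

end Pool.Agent.N445.VW
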