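import Mathlib
import Pool.Agent.N445.VW.SpA

/-! # Sparse sets of points: squares, and multiples of powers by small numbers -/

set_option autoImplicit false

namespace Pool.Agent.N445.VW

open MvPolynomial Pool.Agent.TH910.Voj Pool.Agent.H813R3.Voj

theorem two_pow_card_primeFactors_le (m : ℕ) (hm : m ≠ 0) :
    2 ^ m.primeFactors.card ≤ m.divisors.card := by
  rw [Nat.card_divisors hm]
  refine Finset.pow_card_le_prod _ _ _ fun p hp => ?_
  have h1 := (Nat.mem_primeFactors.1 hp)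
  have : 1 ≤ m.factorization p := (h1.1.dvd_iff_one_le_factorization hm).1 h1.2.1
  omega

theorem pow_card_primeFactors_le (k m : ℕ) (hm : m ≠ 0) :
    k ^ m.primeFactors.card ≤ m.divisors.card ^ k := by
  calc k ^ m.primeFactors.card ≤ (2 ^ k) ^ m.primeFactors.card :=
        Nat.pow_le_pow_left Nat.lt_two_pow_self.le _
    _ = (2 ^ m.primeFactors.card) ^ k := by rw [← pow_mul, ← pow_mul, mul_comm]
    _ ≤ m.divisors.card ^ k := Nat.pow_le_pow_left (two_pow_card_primeFactors_le m hm) _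

theorem sum_squares_le (B : ℝ) (hB : 0 ≤ B) (M0 M1 : ℕ) (h0 : 1 ≤ M0) (h01 : M0 ≤ M1) :
    ∑ m ∈ Finset.Ioc M0 M1, (2 * B / (m : ℝ) ^ 2 + 1) ≤ 2 * B / M0 + M1 := by
  rw [Finset.sum_add_distrib]
  refine add_le_add ?_ ?_
  · have h1 := sum_Ioc_inv_sq_le_sub (α := ℝ) (k := M0) (n := M1) (by omega) h01
    calc ∑ m ∈ Finset.Ioc M0 M1, 2 * B / (m : ℝ) ^ 2
        = 2 * B * ∑ m ∈ Finset.Ioc M0 M1, ((m : ℝ) ^ 2)⁻¹ := by
          rw [Finset.mul_sum]
          exact Finset.sum_congr rfl fun m _ => by rw [div_eq_mul_inv]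
      _ ≤ 2 * B * ((M0 : ℝ)⁻¹ - (M1 : ℝ)⁻¹) := mul_le_mul_of_nonneg_left h1 (by positivity)
      _ ≤ 2 * B * (M0 : ℝ)⁻¹ := by
          refine mul_le_mul_of_nonneg_left ?_ (by positivity)
          have : (0 : ℝ) ≤ (M1 : ℝ)⁻¹ := by positivity
          linarith
      _ = 2 * B / M0 := by rw [div_eq_mul_inv]
  · rw [Finset.sum_const, Nat.card_Ioc, nsmul_eq_mul, mul_one]
    exact_mod_cast Nat.sub_le _ _

/-- **Squares prime to the derivative.** -/
theorem sparse_square {n : ℕ} (F : MvPolynomial (Fin (n + 1)) ℤ) {k : ℕ} (hk : F.IsHomogeneous k)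
    (hk1 : 1 ≤ k) (a : Fin (n + 1) → ℤ) (i₀ : Fin (n + 1)) (hFa : eval a F ≠ 0) (ha : a i₀ ≠ 0)
    {ε δ : ℝ} (hε : 0 < ε) (hδ : 0 < δ) (hδ1 : δ ≤ 1) :
    Sparse (n + 1) (fun B x => ∃ m : ℕ, (B : ℝ) ^ ε < m ∧ (m : ℝ) ≤ (B : ℝ) ^ (1 - δ) ∧
      (m : ℤ) ^ 2 ∣ eval x F ∧ ∀ p : ℕ, p.Prime → p ∣ m →
        ¬ (p : ℤ) ∣ a i₀ * eval a F * eval x (dder a F)) := by
  classical
  have hk0 : (0 : ℝ) < k := by exact_mod_cast hk1
  set e : ℝ := min ε δ / 2 with he
  have he0 : 0 < e := by have := lt_min hε hδ; positivity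
  have heε : 2 * e ≤ ε := by rw [he]; linarith [min_le_left ε δ]
  have heδ : 2 * e ≤ δ := by rw [he]; linarith [min_le_right ε δ]
  obtain ⟨Cd, hCd0, hCd⟩ := H510R2.divisor_bound (e / k) (by positivity)
  refine sparse_of_fibres a i₀ ha _ 1 (5 * Cd ^ k) e he0 (by positivity) ?_
  intro B _ hB y T hT
  have hB1 : (1 : ℝ) ≤ B := by exact_mod_cast hB
  have hBpos : (0 : ℝ) < B := by linarith
  set f := onLine F y a with hf
  have hfc : f.coeff k = eval a F := (onLine_spec F hk y a).2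
  have hfd : f.natDegree = k := by
    refine le_antisymm (onLine_spec F hk y a).1 (Polynomial.le_natDegree_of_ne_zero ?_)
    rw [hfc]; exact hFa
  have hfl : f.leadingCoeff = eval a F := by
    rw [Polynomial.leadingCoeff, hfd, hfc]
  obtain ⟨hM1, hM2, hM3⟩ := floor_bounds (Real.one_le_rpow hB1 hε.le)
  set M0 := ⌊(B : ℝ) ^ ε⌋₊ with hM0
  set M1 := ⌊(B : ℝ) ^ (1 - δ)⌋₊ with hM1'
  have hM1B : (M1 : ℝ) ≤ (B : ℝ) ^ (1 - δ) := Nat.floor_le (by positivity)
  have hfib : ∀ t ∈ T, ∃ m : ℕ, M0 < m ∧ m ≤ M1 ∧ (m : ℤ) ^ 2 ∣ f.eval t ∧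
      ∀ p : ℕ, p.Prime → p ∣ m → ¬ (p : ℤ) ∣ (Polynomial.derivative f).eval t ∧
        ¬ (p : ℤ) ∣ f.leadingCoeff := by
    intro t ht
    obtain ⟨x, hx, ⟨m, h1, h2, h3, h4⟩, rfl, hxy⟩ := hT t ht
    refine ⟨m, ?_, Nat.le_floor h2, ?_, ?_⟩
    · rw [hM0, Nat.floor_lt (by positivity)]; exact h1
    · rw [hf, eval_fibre F hk a i₀ x y hxy]
      exact h3.mul_left _
    · intro p hp hpm
      have h5 := h4 p hp hpm
      have hpZ : Prime (p : ℤ) := Nat.prime_iff_prime_int.1 hp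
      constructor
      · intro h6
        rw [hf, derivative_onLine, eval_fibre (dder a F) (dder_isHomogeneous a F hk) a i₀ x y hxy]
          at h6
        rcases hpZ.dvd_or_dvd h6 with h7 | h7
        · exact h5 (((hpZ.dvd_of_dvd_pow h7).mul_right _).mul_right _)
        · exact h5 (h7.mul_left _)
      · intro h6
        rw [hfl] at h6
        exact h5 ((h6.mul_left _).mul_right _)
  by_cases hMM : M0 ≤ M1
  swap
  · have : T = ∅ := by
      rw [Finset.eq_empty_iff_forall_notMem]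
      intro t ht
      obtain ⟨m, h1, h2, -⟩ := hfib t ht
      omega
    rw [this, Finset.card_empty, Nat.cast_zero]
    positivity
  have hsub : T ⊆ (Finset.Ioc M0 M1).biUnion fun m => T.filter fun t => (m : ℤ) ^ 2 ∣ f.eval t ∧
      ∀ p : ℕ, p.Prime → p ∣ m → ¬ (p : ℤ) ∣ (Polynomial.derivative f).eval t ∧
        ¬ (p : ℤ) ∣ f.leadingCoeff := by
    intro t ht
    obtain ⟨m, h1, h2, h3, h4⟩ := hfib t ht
    rw [Finset.mem_biUnion]
    exact ⟨m, Finset.mem_Ioc.2 ⟨h1, h2⟩, Finset.mem_filter.2 ⟨ht, h3, h4⟩⟩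
  have hBe0 : 0 ≤ Cd ^ k * (B : ℝ) ^ e := by positivity
  have h1 : (T.card : ℝ) ≤ ∑ m ∈ Finset.Ioc M0 M1,
      (Cd ^ k * (B : ℝ) ^ e) * (2 * (B : ℝ) / (m : ℝ) ^ 2 + 1) := by
    have h2 : (T.card : ℝ) ≤ ∑ m ∈ Finset.Ioc M0 M1, ((T.filter fun t => (m : ℤ) ^ 2 ∣ f.eval t ∧
      ∀ p : ℕ, p.Prime → p ∣ m → ¬ (p : ℤ) ∣ (Polynomial.derivative f).eval t ∧
        ¬ (p : ℤ) ∣ f.leadingCoeff).card : ℝ) := by
      have := (Finset.card_le_card hsub).trans Finset.card_biUnion_le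
      exact_mod_cast this
    refine h2.trans (Finset.sum_le_sum fun m hm => ?_)
    rw [Finset.mem_Ioc] at hm
    have hm1 : 1 ≤ m := by omega
    set Tm := T.filter fun t => (m : ℤ) ^ 2 ∣ f.eval t ∧
      ∀ p : ℕ, p.Prime → p ∣ m → ¬ (p : ℤ) ∣ (Polynomial.derivative f).eval t ∧
        ¬ (p : ℤ) ∣ f.leadingCoeff with hTm
    rcases Tm.eq_empty_or_nonempty with hemp | ⟨t1, ht1⟩
    · rw [hemp, Finset.card_empty, Nat.cast_zero]
      positivity
    have h3 := card_sq f m hm1 B Tm (by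
      intro t ht
      rw [hTm, Finset.mem_filter] at ht
      obtain ⟨x, hx, -, rfl, -⟩ := hT t ht.1
      exact ⟨mem_box.mp hx i₀, ht.2.1, fun p hp hpm => (ht.2.2 p hp hpm).1⟩) (by
      intro p hp hpm
      rw [hTm, Finset.mem_filter] at ht1
      exact (ht1.2.2 p hp hpm).2)
    rw [hfd] at h3
    have h4 : (Tm.card : ℝ) ≤ ((k ^ m.primeFactors.card : ℕ) : ℝ) * ((2 * B / m ^ 2 + 1 : ℕ) : ℝ) := by
      exact_mod_cast h3
    refine h4.trans (mul_le_mul ?_ ?_ (by positivity) hBe0)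
    · have h5 : ((k ^ m.primeFactors.card : ℕ) : ℝ) ≤ (m.divisors.card : ℝ) ^ k := by
        exact_mod_cast pow_card_primeFactors_le k m (by omega)
      refine h5.trans ?_
      have h6 := hCd m hm1
      calc (m.divisors.card : ℝ) ^ k ≤ (Cd * (m : ℝ) ^ (e / k)) ^ k :=
            pow_le_pow_left₀ (by positivity) h6 _
        _ = Cd ^ k * (m : ℝ) ^ e := by
            rw [mul_pow, ← Real.rpow_natCast ((m : ℝ) ^ (e / k)), ← Real.rpow_mul (by positivity)]
            congr 2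
            field_simp
        _ ≤ Cd ^ k * (B : ℝ) ^ e := by
            refine mul_le_mul_of_nonneg_left ?_ (by positivity)
            refine Real.rpow_le_rpow (by positivity) ?_ he0.le
            have h7 : (m : ℝ) ≤ M1 := by exact_mod_cast hm.2
            have h8 : (B : ℝ) ^ (1 - δ) ≤ (B : ℝ) ^ (1 : ℝ) :=
              Real.rpow_le_rpow_of_exponent_le hB1 (by linarith)
            rw [Real.rpow_one] at h8
            linarith
    · push_cast
      have h5 : ((2 * B / m ^ 2 : ℕ) : ℝ) ≤ 2 * (B : ℝ) / (m : ℝ) ^ 2 := by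
        refine Nat.cast_div_le.trans ?_
        push_cast
        exact le_rfl
      push_cast at h5
      linarith
  refine h1.trans ?_
  rw [← Finset.mul_sum]
  have h2 : ∑ m ∈ Finset.Ioc M0 M1, (2 * (B : ℝ) / (m : ℝ) ^ 2 + 1) ≤ 5 * (B : ℝ) ^ (1 - 2 * e) := by
    refine (sum_squares_le (B : ℝ) hBpos.le M0 M1 hM1 hMM).trans ?_
    have hM0pos : (0 : ℝ) < M0 := by exact_mod_cast hM1
    have h3 : 2 * (B : ℝ) / M0 ≤ 4 * (B : ℝ) ^ (1 - 2 * e) := by
      rw [div_le_iff₀ hM0pos]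
      have h4 : (B : ℝ) ≤ (B : ℝ) ^ (1 - 2 * e) * (B : ℝ) ^ ε := by
        rw [← Real.rpow_add hBpos]
        conv_lhs => rw [← Real.rpow_one (B : ℝ)]
        exact Real.rpow_le_rpow_of_exponent_le hB1 (by linarith)
      have h5 : (B : ℝ) ^ (1 - 2 * e) * (B : ℝ) ^ ε ≤ (B : ℝ) ^ (1 - 2 * e) * (2 * M0) :=
        mul_le_mul_of_nonneg_left hM3 (by positivity)
      nlinarith
    have h4 : (M1 : ℝ) ≤ (B : ℝ) ^ (1 - 2 * e) :=
      hM1B.trans (Real.rpow_le_rpow_of_exponent_le hB1 (by linarith))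
    linarith
  calc (Cd ^ k * (B : ℝ) ^ e) * ∑ m ∈ Finset.Ioc M0 M1, (2 * (B : ℝ) / (m : ℝ) ^ 2 + 1) ≤
        (Cd ^ k * (B : ℝ) ^ e) * (5 * (B : ℝ) ^ (1 - 2 * e)) :=
        mul_le_mul_of_nonneg_left h2 hBe0
    _ = (5 * Cd ^ k) * ((B : ℝ) ^ e * (B : ℝ) ^ (1 - 2 * e)) := by ring
    _ = _ := by
        rw [← Real.rpow_add hBpos]
        congr 2
        ring

/-- **Small multiples of powers.** -/
theorem sparse_power {n : ℕ} (F : MvPolynomial (Fin (n + 1)) ℤ) {k : ℕ} (hk : F.IsHomogeneous k)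
    (hk1 : 1 ≤ k) (hirr : Irreducible (toQ F)) (e : ℕ) (he : 1 ≤ e) (σ : ℝ) (hσ0 : 0 ≤ σ)
    (hσ : σ + 1 / (e : ℝ) < 1) :
    Sparse (n + 1) (fun B x => eval x F ≠ 0 ∧ ∃ s z : ℤ, eval x F = s * z ^ e ∧
      (s.natAbs : ℝ) ≤ (B : ℝ) ^ σ) := by
  classical
  obtain ⟨a, i₀, hFa, ha, r, U, V, hr, hr0⟩ := exists_dir F hk hk1 hirr
  obtain ⟨c, hc1, hc⟩ := exists_eval_bound F (hk.totalDegree_le)
  obtain ⟨cr, hcr1, hcr⟩ := exists_eval_bound r le_rfl
  set D := r.totalDegree with hD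
  set ca := cdir a i₀ with hca
  set K : ℤ := a i₀ * eval a F with hK
  have hK0 : K ≠ 0 := mul_ne_zero ha hFa
  set τ : ℝ := (1 - (σ + 1 / (e : ℝ))) / 2 with hτ
  have hτ0 : 0 < τ := by rw [hτ]; linarith
  set A : ℕ := k + c + (1 + (e + K.natAbs + (cr * ca ^ D + D))) with hA
  obtain ⟨C, hC0, hC⟩ := bp e he k hk1 A τ hτ0
  have he0 : (0 : ℝ) < e := by exact_mod_cast he
  have hσ1 : σ ≤ 1 := by
    have : 0 < 1 / (e : ℝ) := by positivity
    linarith
  have hmain : Sparse (n + 1) (fun B x => (eval x F ≠ 0 ∧ ∃ s z : ℤ, eval x F = s * z ^ e ∧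
      (s.natAbs : ℝ) ≤ (B : ℝ) ^ σ) ∧ eval x (bind₁ (lin a i₀) r) ≠ 0) := by
    refine sparse_of_fibres a i₀ ha _ 2 (3 * C) τ hτ0 (by positivity) ?_
    intro B hB2 hB y T hT
    have hB1 : (1 : ℝ) ≤ B := by exact_mod_cast hB
    have hBpos : (0 : ℝ) < B := by linarith
    rcases T.eq_empty_or_nonempty with hemp | ⟨t1, ht1⟩
    · rw [hemp, Finset.card_empty, Nat.cast_zero]; positivity
    have hy : y i₀ = 0 ∧ eval y r ≠ 0 ∧ y ∈ box (n + 1) (ca * B) := by
      obtain ⟨x, hx, ⟨-, h1⟩, -, hxy⟩ := hT t1 ht1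
      refine ⟨by rw [← hxy]; simp [mul_comm], ?_, ?_⟩
      · rw [← eval_bind_lin a i₀ r x y hxy]; exact h1
      · have h2 := mem_ybox_of_box a i₀ B x hx
        rw [hxy] at h2
        rw [mem_box]
        intro i
        unfold ybox at h2
        rw [Fintype.mem_piFinset] at h2
        have h7 := h2 i
        split_ifs at h7 with hi
        · rw [Finset.mem_singleton] at h7
          rw [h7, abs_zero]
          exact Int.natCast_nonneg _
        · rw [Finset.mem_Icc, ← abs_le] at h7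
          exact h7
    obtain ⟨hy0, hry, hybox⟩ := hy
    have hca1 : 1 ≤ ca := by rw [hca]; unfold cdir; omega
    have hrle : (eval y r).natAbs ≤ cr * (ca * B) ^ D :=
      hcr (ca * B) (Nat.mul_pos hca1 hB) y hybox
    set f := onLine F y a with hf
    have hfc : f.coeff k = eval a F := (onLine_spec F hk y a).2
    have hfd : f.natDegree = k := by
      refine le_antisymm (onLine_spec F hk y a).1 (Polynomial.le_natDegree_of_ne_zero ?_)
      rw [hfc]; exact hFa
    have hfl : f.leadingCoeff = eval a F := by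
      rw [Polynomial.leadingCoeff, hfd, hfc]
    have hsep := onLine_separable F hk hk1 a i₀ ha r U V hr y hy0 hry
    set S := ⌊(B : ℝ) ^ σ⌋₊ with hS
    have hSB : (S : ℝ) ≤ (B : ℝ) ^ σ := Nat.floor_le (by positivity)
    set Ts : ℤ → Finset ℤ := fun s => T.filter fun t =>
      ∃ x ∈ box (n + 1) B, eval x F ≠ 0 ∧ x i₀ = t ∧ (fun i => a i₀ * x i - a i * x i₀) = y ∧
        ∃ z : ℤ, eval x F = s * z ^ e with hTs
    have hsub : T ⊆ (Finset.Icc (-(S : ℤ)) S).biUnion Ts := by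
      intro t ht
      obtain ⟨x, hx, ⟨⟨h1, s, z, h2, h3⟩, -⟩, hxt, hxy⟩ := hT t ht
      rw [Finset.mem_biUnion]
      have h4 : s.natAbs ≤ S := Nat.le_floor h3
      refine ⟨s, Finset.mem_Icc.2 ⟨by omega, by omega⟩, ?_⟩
      rw [hTs, Finset.mem_filter]
      exact ⟨ht, x, hx, h1, hxt, hxy, z, h2⟩
    have hbound : ∀ s ∈ Finset.Icc (-(S : ℤ)) S, ((Ts s).card : ℝ) ≤
        C * (B : ℝ) ^ (1 / (e : ℝ) + τ) := by
      intro s hs
      rw [Finset.mem_Icc] at hs
      by_cases hs0 : s = 0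
      · have : Ts s = ∅ := by
          rw [hTs]
          refine Finset.filter_eq_empty_iff.2 ?_
          rintro t - ⟨x, -, h1, -, -, z, h2⟩
          rw [hs0, zero_mul] at h2
          exact h1 h2
        rw [this, Finset.card_empty, Nat.cast_zero]
        positivity
      set N : ℕ := s.natAbs * (e * (K.natAbs * (eval y r).natAbs)) with hN
      have hN1 : 1 ≤ N := Nat.one_le_iff_ne_zero.mpr (by
        rw [hN]
        exact Nat.mul_ne_zero (Int.natAbs_ne_zero.mpr hs0) (Nat.mul_ne_zero (by omega)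
          (Nat.mul_ne_zero (Int.natAbs_ne_zero.mpr hK0) (Int.natAbs_ne_zero.mpr hry))))
      have hle2 : ∀ m : ℕ, m ≤ B ^ m := fun m =>
        Nat.lt_two_pow_self.le.trans (Nat.pow_le_pow_left hB2 m)
      have hSB' : S ≤ B := by
        have h1 : (S : ℝ) ≤ B := by
          refine hSB.trans ?_
          calc (B : ℝ) ^ σ ≤ (B : ℝ) ^ (1 : ℝ) := Real.rpow_le_rpow_of_exponent_le hB1 hσ1
            _ = B := Real.rpow_one _
        exact_mod_cast h1
      have hNA : N ≤ B ^ A := by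
        calc N ≤ B ^ 1 * (B ^ e * (B ^ K.natAbs * (B ^ (cr * ca ^ D) * B ^ D))) := by
              refine Nat.mul_le_mul ?_ (Nat.mul_le_mul (hle2 e) (Nat.mul_le_mul (hle2 _) ?_))
              · rw [pow_one]; omega
              · refine hrle.trans ?_
                rw [mul_pow, ← mul_assoc]
                exact Nat.mul_le_mul_right _ (hle2 _)
          _ = B ^ (1 + (e + (K.natAbs + (cr * ca ^ D + D)))) := by
              rw [← pow_add, ← pow_add, ← pow_add, ← pow_add]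
          _ ≤ B ^ A := Nat.pow_le_pow_right hB (by rw [hA]; omega)
      refine hC B hB f hfd hsep (a i₀ ^ k * s) (mul_ne_zero (pow_ne_zero _ ha) hs0) N hN1
        (by rw [Real.rpow_natCast]; exact_mod_cast hNA) (Ts s) ?_ ?_
      · intro t ht
        rw [hTs, Finset.mem_filter] at ht
        obtain ⟨-, x, hx, h1, rfl, hxy, z, h2⟩ := ht
        refine ⟨mem_box.mp hx i₀, z, ?_, ?_⟩
        · have h3 : z.natAbs ≤ (eval x F).natAbs := by
            have hz0 : z ≠ 0 := by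
              rintro rfl
              rw [zero_pow (by omega), mul_zero] at h2
              exact h1 h2
            refine Nat.le_of_dvd (Int.natAbs_pos.mpr h1) (Int.natAbs_dvd_natAbs.mpr ?_)
            rw [h2]
            exact (dvd_pow_self z (by omega)).mul_left s
          have h4 := hc B hB x hx
          have h5 : c * B ^ k ≤ B ^ A := by
            calc c * B ^ k ≤ B ^ c * B ^ k := Nat.mul_le_mul_right _ (hle2 c)
              _ = B ^ (c + k) := by rw [← pow_add]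
              _ ≤ B ^ A := Nat.pow_le_pow_right hB (by rw [hA]; omega)
          rw [Int.abs_eq_natAbs]
          exact_mod_cast h3.trans (h4.trans h5)
        · rw [hf, eval_fibre F hk a i₀ x y hxy, h2]
          ring
      · intro q hq hqN
        have hqZ : Prime (q : ℤ) := Nat.prime_iff_prime_int.1 hq
        have hq1 : ¬ (q : ℤ) ∣ s := fun h => hqN ((Int.natCast_dvd.1 h).mul_right _)
        have hq2 : ¬ q ∣ e := fun h => hqN ((h.mul_right _).mul_left _)
        have hq3 : ¬ (q : ℤ) ∣ K := fun h =>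
          hqN ((((Int.natCast_dvd.1 h).mul_right _).mul_left _).mul_left _)
        have hq4 : ¬ (q : ℤ) ∣ eval y r := fun h =>
          hqN ((((Int.natCast_dvd.1 h).mul_left _).mul_left _).mul_left _)
        have hq5 : ¬ (q : ℤ) ∣ a i₀ := fun h => hq3 (h.mul_right _)
        refine ⟨?_, hq2, ?_, ?_⟩
        · intro h
          rcases hqZ.dvd_or_dvd h with h1 | h1
          · exact hq5 (hqZ.dvd_of_dvd_pow h1)
          · exact hq1 h1
        · rw [hfl]
          exact fun h => hq3 (h.mul_left _)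
        · intro t ht h1 h2
          rw [hTs, Finset.mem_filter] at ht
          obtain ⟨-, x, hx, -, rfl, hxy, -⟩ := ht
          rw [hf, eval_fibre F hk a i₀ x y hxy] at h1
          rw [hf, derivative_onLine,
            eval_fibre (dder a F) (dder_isHomogeneous a F hk) a i₀ x y hxy] at h2
          have h3 : (q : ℤ) ∣ eval x F := by
            rcases hqZ.dvd_or_dvd h1 with h4 | h4
            · exact absurd (hqZ.dvd_of_dvd_pow h4) hq5
            · exact h4
          have h5 : (q : ℤ) ∣ eval x (dder a F) := by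
            rcases hqZ.dvd_or_dvd h2 with h4 | h4
            · exact absurd (hqZ.dvd_of_dvd_pow h4) hq5
            · exact h4
          apply hq4
          rw [← eval_bind_lin a i₀ r x y hxy, hr, map_add, map_mul, map_mul]
          exact dvd_add (h3.mul_left _) (h5.mul_left _)
    have h1 : (T.card : ℝ) ≤ ∑ s ∈ Finset.Icc (-(S : ℤ)) S, ((Ts s).card : ℝ) := by
      exact_mod_cast (Finset.card_le_card hsub).trans Finset.card_biUnion_le
    refine h1.trans ((Finset.sum_le_sum hbound).trans ?_)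
    rw [Finset.sum_const, card_Icc_int, nsmul_eq_mul]
    push_cast
    have hBσ : 1 ≤ (B : ℝ) ^ σ := Real.one_le_rpow hB1 hσ0
    calc (2 * (S : ℝ) + 1) * (C * (B : ℝ) ^ (1 / (e : ℝ) + τ)) ≤
          (3 * (B : ℝ) ^ σ) * (C * (B : ℝ) ^ (1 / (e : ℝ) + τ)) := by
          refine mul_le_mul_of_nonneg_right ?_ (by positivity)
          linarith
      _ = 3 * C * ((B : ℝ) ^ σ * (B : ℝ) ^ (1 / (e : ℝ) + τ)) := by ring
      _ = 3 * C * (B : ℝ) ^ (1 - τ) := by
          rw [← Real.rpow_add hBpos]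
          congr 2
          rw [hτ]
          ring
  refine ((sparse_zeros (bind₁ (lin a i₀) r) hr0).or hmain).mono ?_
  intro B x _ _ hx
  by_cases h0 : eval x (bind₁ (lin a i₀) r) = 0
  · exact Or.inl h0
  · exact Or.inr ⟨hx, h0⟩

end Pool.Agent.N445.VW
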