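import Mathlib
import Pool.Agent.N445.VW.Slope
import Pool.Agent.N445.VW.SpB

/-! # Points of a plane at which a form is divisible by the square of a prime -/

set_option autoImplicit false

namespace Pool.Agent.N445.VW

open MvPolynomial Pool.Agent.TH910.Voj Pool.Agent.H813R3.Voj

theorem eval_congr_mod {n : ℕ} (F : MvPolynomial (Fin n) ℤ) (m : ℤ) (x x' : Fin n → ℤ)
    (h : ∀ i, m ∣ x i - x' i) : m ∣ eval x F - eval x' F := by
  induction F using MvPolynomial.induction_on with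
  | C c => simp
  | add p q hp hq =>
    rw [map_add, map_add]
    have h1 : eval x p + eval x q - (eval x' p + eval x' q) =
        (eval x p - eval x' p) + (eval x q - eval x' q) := by ring
    rw [h1]
    exact dvd_add hp hq
  | mul_X p j hp =>
    rw [map_mul, map_mul, eval_X, eval_X]
    have h1 : eval x p * x j - eval x' p * x' j =
        (eval x p - eval x' p) * x j + eval x' p * (x j - x' j) := by ring
    rw [h1]
    exact dvd_add (hp.mul_right _) ((h j).mul_left _)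

theorem exists_quot (D ξ η : ℤ) (h : IsCoprime D η) : ∃ t : ℤ, D ∣ η * t - ξ := by
  obtain ⟨a, b, hab⟩ := h
  refine ⟨b * ξ, -(a * ξ), ?_⟩
  linear_combination (ξ) * hab

/-- The value at a point of the plane, in terms of the polynomial on the line. -/
theorem dvd_onLine {n : ℕ} (F : MvPolynomial (Fin n) ℤ) {k : ℕ} (hk : F.IsHomogeneous k)
    (u v : Fin n → ℤ) (D ξ η t : ℤ) (hcop : IsCoprime D η) (ht : D ∣ η * t - ξ)
    (hD : D ∣ eval (fun i => ξ * u i + η * v i) F) : D ∣ (onLine F v u).eval t := by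
  have h1 : D ∣ eval (fun i => ξ * u i + η * v i) F - eval (fun i => η * (v i + t * u i)) F := by
    refine eval_congr_mod F D _ _ fun i => ?_
    have : ξ * u i + η * v i - η * (v i + t * u i) = -((η * t - ξ) * u i) := by ring
    rw [this]
    exact (ht.mul_right _).neg_right
  have h2 : eval (fun i => η * (v i + t * u i)) F = η ^ k * (onLine F v u).eval t := by
    rw [eval_onLine]
    have h3 : eval (fun i => η * (v i + t * u i)) F = aeval (fun i => η * (v i + t * u i)) F := rfl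
    rw [h3, aeval_scale F hk]
  rw [h2] at h1
  have h3 : D ∣ η ^ k * (onLine F v u).eval t := by
    have := dvd_sub hD h1
    simpa using this
  exact (IsCoprime.pow_right hcop).dvd_of_dvd_mul_left h3

theorem det_dvd (m ξ η ξ' η' t t' : ℤ) (h1 : m ∣ η * t - ξ) (h2 : m ∣ η' * t' - ξ')
    (h3 : m ∣ t' - t) : m ∣ ξ * η' - ξ' * η := by
  have : ξ * η' - ξ' * η = -((η * t - ξ) * η') + (η' * t' - ξ') * η - (t' - t) * (η * η') := by ring
  rw [this]
  exact dvd_sub (dvd_add (h1.mul_right _).neg_right (h2.mul_right _)) (h3.mul_right _)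

theorem card_rts' (f : Polynomial ℤ) (p : ℕ) (hp : p.Prime)
    (hl : f.map (Int.castRingHom (ZMod p)) ≠ 0) : (rts f p).card ≤ f.natDegree := by
  classical
  have : Fact p.Prime := ⟨hp⟩
  set P : Polynomial (ZMod p) := f.map (Int.castRingHom (ZMod p)) with hP
  have h1 : (rts f p).card ≤ P.roots.toFinset.card := by
    refine Finset.card_le_card_of_injOn (fun t : ℤ => (t : ZMod p)) ?_ ?_
    · intro t ht
      unfold rts at ht
      rw [Finset.mem_coe, Finset.mem_filter] at ht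
      rw [Finset.mem_coe, Multiset.mem_toFinset, Polynomial.mem_roots hl, Polynomial.IsRoot]
      have h2 : P.eval (t : ZMod p) = ((f.eval t : ℤ) : ZMod p) :=
        Polynomial.eval_map_apply (Int.castRingHom (ZMod p)) (p := f) t
      rw [h2]
      exact (ZMod.intCast_zmod_eq_zero_iff_dvd _ p).2 ht.2
    · intro t ht t' ht' heq
      unfold rts at ht ht'
      rw [Finset.mem_coe, Finset.mem_filter, Finset.mem_Ico] at ht ht'
      simp only at heq
      rw [← sub_eq_zero, ← Int.cast_sub, ZMod.intCast_zmod_eq_zero_iff_dvd] at heq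
      have h3 : |t - t'| < p := by rw [abs_lt]; constructor <;> omega
      have := Int.eq_zero_of_abs_lt_dvd heq h3
      omega
  exact h1.trans ((Multiset.toFinset_card_le _).trans ((Polynomial.card_roots' _).trans
    Polynomial.natDegree_map_le))

/-- Classes of points: general form. -/
theorem card_fin_classes {n : ℕ} (F : MvPolynomial (Fin n) ℤ) {k : ℕ} (hk : F.IsHomogeneous k)
    (u v : Fin n → ℤ) (X Y p j : ℕ) (hX : 1 ≤ X) (hY : 1 ≤ Y) (hp : p.Prime) (hj : 1 ≤ j)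
    (hr : (rts (onLine F v u) p).card ≤ k)
    (hsimple : j = 1 ∨ ∀ t : ℤ, (p : ℤ) ∣ (onLine F v u).eval t →
      ¬ (p : ℤ) ∣ (Polynomial.derivative (onLine F v u)).eval t)
    (S : Finset (ℤ × ℤ))
    (hS : ∀ z ∈ S, |z.1| ≤ X ∧ |z.2| ≤ Y ∧ IsCoprime z.1 z.2 ∧ ¬ (p : ℤ) ∣ z.2 ∧
      (p : ℤ) ^ j ∣ eval (fun i => z.1 * u i + z.2 * v i) F) :
    S.card ≤ k * (8 * (X * Y / p ^ j + 1)) := by
  classical
  have hpZ : Prime (p : ℤ) := Nat.prime_iff_prime_int.1 hp
  have hp0 : (0 : ℤ) < p := by exact_mod_cast hp.pos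
  set f := onLine F v u with hf
  have hcop : ∀ z ∈ S, IsCoprime ((p : ℤ) ^ j) z.2 := fun z hz =>
    IsCoprime.pow_left ((Prime.coprime_iff_not_dvd hpZ).2 (hS z hz).2.2.2.1)
  have ht : ∀ z : ℤ × ℤ, ∃ t : ℤ, z ∈ S → (p : ℤ) ^ j ∣ z.2 * t - z.1 := by
    intro z
    by_cases hz : z ∈ S
    · obtain ⟨t, ht⟩ := exists_quot ((p : ℤ) ^ j) z.1 z.2 (hcop z hz)
      exact ⟨t, fun _ => ht⟩
    · exact ⟨0, fun h => absurd h hz⟩
  choose t ht using ht
  have hft : ∀ z ∈ S, (p : ℤ) ^ j ∣ f.eval (t z) := fun z hz =>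
    dvd_onLine F hk u v _ z.1 z.2 (t z) (hcop z hz) (ht z hz) (hS z hz).2.2.2.2
  have hpj : (p : ℤ) ∣ (p : ℤ) ^ j := dvd_pow_self _ (by omega)
  have h1 := Finset.card_le_mul_card_image_of_maps_to (s := S) (t := rts f p)
    (f := fun z => t z % p) (by
      intro z hz
      unfold rts
      rw [Finset.mem_filter, Finset.mem_Ico]
      refine ⟨⟨Int.emod_nonneg _ hp0.ne', Int.emod_lt_of_pos _ hp0⟩, ?_⟩
      have h4 : (p : ℤ) ∣ f.eval (t z % p) - f.eval (t z) :=
        ((Int.mod_modEq (t z) p).symm.dvd).trans (Polynomial.sub_dvd_eval_sub _ _ _)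
      have := dvd_add h4 (hpj.trans (hft z hz))
      simpa using this) (8 * (X * Y / p ^ j + 1)) (by
      intro r _
      refine card_class X Y (p ^ j) hX hY (Nat.pos_of_ne_zero (pow_ne_zero _ hp.ne_zero)) _ ?_ ?_
      · intro z hz
        rw [Finset.mem_filter] at hz
        obtain ⟨a1, a2, a3, -⟩ := hS z hz.1
        exact ⟨a1, a2, a3⟩
      · intro z hz w hw
        rw [Finset.mem_filter] at hz hw
        have h2 : (p : ℤ) ∣ t w - t z := Int.ModEq.dvd (hz.2.trans hw.2.symm)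
        have h3 : (p : ℤ) ^ j ∣ t w - t z := by
          rcases hsimple with h | h
          · rw [h, pow_one]; exact h2
          · refine lift_congr f _ (t z) (t w) (hft z hz.1) (hft w hw.1) ?_
            intro q hq hqd
            have hqp : q = p := by
              have h5 : q ∣ p ^ j := by exact_mod_cast hqd
              exact (Nat.prime_dvd_prime_iff_eq hq hp).1 (hq.dvd_of_dvd_pow h5)
            subst hqp
            exact ⟨h2, h _ (hpj.trans (hft z hz.1))⟩
        push_cast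
        exact det_dvd _ z.1 z.2 w.1 w.2 (t z) (t w) (ht z hz.1) (ht w hw.1) h3)
  refine h1.trans ?_
  rw [mul_comm]
  exact Nat.mul_le_mul_right _ hr

/-- A prime which does not divide the discriminant. -/
theorem card_good_prime {n : ℕ} (F : MvPolynomial (Fin n) ℤ) {k : ℕ} (hk : F.IsHomogeneous k)
    (u v : Fin n → ℤ) (X Y p : ℕ) (hX : 1 ≤ X) (hY : 1 ≤ Y) (hp : p.Prime)
    (hu : ¬ (p : ℤ) ∣ eval u F)
    (hsimple : ∀ t : ℤ, (p : ℤ) ∣ (onLine F v u).eval t →
      ¬ (p : ℤ) ∣ (Polynomial.derivative (onLine F v u)).eval t)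
    (S : Finset (ℤ × ℤ))
    (hS : ∀ z ∈ S, |z.1| ≤ X ∧ |z.2| ≤ Y ∧ IsCoprime z.1 z.2 ∧
      (p : ℤ) ^ 2 ∣ eval (fun i => z.1 * u i + z.2 * v i) F) :
    S.card ≤ k * (8 * (X * Y / p ^ 2 + 1)) := by
  have hpZ : Prime (p : ℤ) := Nat.prime_iff_prime_int.1 hp
  have hfc : (onLine F v u).coeff k = eval u F := (onLine_spec F hk v u).2
  have hfd : (onLine F v u).natDegree = k := by
    refine le_antisymm (onLine_spec F hk v u).1 (Polynomial.le_natDegree_of_ne_zero ?_)
    rw [hfc]; intro h; exact hu (h ▸ dvd_zero _)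
  have hr : (rts (onLine F v u) p).card ≤ k := by
    have := card_rts (onLine F v u) p hp (by
      rw [Polynomial.leadingCoeff, hfd, hfc]; exact hu)
    rwa [hfd] at this
  refine card_fin_classes F hk u v X Y p 2 hX hY hp (by norm_num) hr (Or.inr hsimple) S ?_
  intro z hz
  obtain ⟨h1, h2, h3, h4⟩ := hS z hz
  refine ⟨h1, h2, h3, ?_, h4⟩
  intro h5
  -- then `p ∣ z.1 ^ k * F u`
  have h6 : (p : ℤ) ∣ eval (fun i => z.1 * u i + z.2 * v i) F - eval (fun i => z.1 * u i) F := by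
    refine eval_congr_mod F _ _ _ fun i => ?_
    have : z.1 * u i + z.2 * v i - z.1 * u i = z.2 * v i := by ring
    rw [this]
    exact h5.mul_right _
  have h7 : eval (fun i => z.1 * u i) F = z.1 ^ k * eval u F := by
    have h8 : eval (fun i => z.1 * u i) F = aeval (fun i => z.1 * u i) F := rfl
    rw [h8, aeval_scale F hk]; rfl
  have h9 : (p : ℤ) ∣ eval (fun i => z.1 * u i + z.2 * v i) F :=
    (dvd_pow_self _ two_ne_zero).trans h4
  have h10 : (p : ℤ) ∣ z.1 ^ k * eval u F := by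
    rw [← h7]
    have := dvd_sub h9 h6
    simpa using this
  rcases hpZ.dvd_or_dvd h10 with h | h
  · have h11 := hpZ.dvd_of_dvd_pow h
    exact hpZ.not_isUnit (h3.isUnit_of_dvd' h11 h5)
  · exact hu h

/-- A prime which does not divide the content. -/
theorem card_bad_prime {n : ℕ} (F : MvPolynomial (Fin n) ℤ) {k : ℕ} (hk : F.IsHomogeneous k)
    (u v : Fin n → ℤ) (X Y p : ℕ) (hX : 1 ≤ X) (hY : 1 ≤ Y) (hp : p.Prime)
    (huv : ¬ ((p : ℤ) ∣ eval u F ∧ (p : ℤ) ∣ eval v F))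
    (S : Finset (ℤ × ℤ))
    (hS : ∀ z ∈ S, |z.1| ≤ X ∧ |z.2| ≤ Y ∧ IsCoprime z.1 z.2 ∧
      (p : ℤ) ^ 2 ∣ eval (fun i => z.1 * u i + z.2 * v i) F) :
    S.card ≤ (k + 1) * (8 * (X * Y / p + 1)) := by
  classical
  have : Fact p.Prime := ⟨hp⟩
  have hne : (onLine F v u).map (Int.castRingHom (ZMod p)) ≠ 0 := by
    intro h
    apply huv
    constructor
    · have h1 := congrArg (fun P : Polynomial (ZMod p) => P.coeff k) h
      simp only [Polynomial.coeff_map, Polynomial.coeff_zero] at h1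
      rw [(onLine_spec F hk v u).2] at h1
      exact (ZMod.intCast_zmod_eq_zero_iff_dvd _ p).1 h1
    · have h1 := congrArg (fun P : Polynomial (ZMod p) => P.eval 0) h
      simp only [Polynomial.eval_zero] at h1
      have h2 : Polynomial.eval (0 : ZMod p) ((onLine F v u).map (Int.castRingHom (ZMod p))) =
          (((onLine F v u).eval 0 : ℤ) : ZMod p) := by
        simp
      rw [h2, eval_onLine] at h1
      have h3 : (aeval (fun i => v i + 0 * u i) F : ℤ) = eval v F := by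
        have : (fun i => v i + 0 * u i) = v := by funext i; ring
        rw [this]; rfl
      rw [h3] at h1
      exact (ZMod.intCast_zmod_eq_zero_iff_dvd _ p).1 h1
  have hr : (rts (onLine F v u) p).card ≤ k :=
    (card_rts' _ p hp hne).trans (onLine_spec F hk v u).1
  set S1 := S.filter fun z : ℤ × ℤ => ¬ (p : ℤ) ∣ z.2 with hS1
  set S2 := S.filter fun z : ℤ × ℤ => ¬ ¬ (p : ℤ) ∣ z.2 with hS2
  have hsplit : S.card = S1.card + S2.card := by
    rw [hS1, hS2, Finset.card_filter_add_card_filter_not]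
  have h1 : S1.card ≤ k * (8 * (X * Y / p ^ 1 + 1)) := by
    refine card_fin_classes F hk u v X Y p 1 hX hY hp le_rfl hr (Or.inl rfl) S1 ?_
    intro z hz
    rw [hS1, Finset.mem_filter] at hz
    obtain ⟨a1, a2, a3, a4⟩ := hS z hz.1
    exact ⟨a1, a2, a3, hz.2, by rw [pow_one]; exact (dvd_pow_self _ two_ne_zero).trans a4⟩
  rw [pow_one] at h1
  have h2 : S2.card ≤ 8 * (X * Y / p + 1) := by
    refine card_class X Y p hX hY hp.one_lt.le S2 ?_ ?_
    · intro z hz
      rw [hS2, Finset.mem_filter] at hz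
      obtain ⟨a1, a2, a3, -⟩ := hS z hz.1
      exact ⟨a1, a2, a3⟩
    · intro z hz w hw
      rw [hS2, Finset.mem_filter, not_not] at hz hw
      exact dvd_sub (hw.2.mul_left _) (hz.2.mul_left _)
  rw [hsplit, add_mul, one_mul]
  exact Nat.add_le_add h1 h2

/-- The number of large primes dividing an integer. -/
theorem card_large_primes (P N A : ℕ) (hN : 1 ≤ N) (hNP : N ≤ P ^ A) :
    (N.primeFactors.filter fun p => P < p).card ≤ A := by
  classical
  by_contra hcon
  push Not at hcon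
  set S := N.primeFactors.filter fun p => P < p with hS
  have h1 : (P + 1) ^ S.card ≤ ∏ p ∈ S, p := by
    refine Finset.pow_card_le_prod _ _ _ fun p hp => ?_
    rw [hS, Finset.mem_filter] at hp
    exact hp.2
  have h2 : ∏ p ∈ S, p ≤ N := by
    refine Nat.le_of_dvd hN (Finset.prod_primes_dvd N (fun p hp => ?_) fun p hp => ?_)
    · rw [hS, Finset.mem_filter, Nat.mem_primeFactors] at hp
      exact Nat.prime_iff.1 hp.1.1
    · rw [hS, Finset.mem_filter, Nat.mem_primeFactors] at hp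
      exact hp.1.2.1
  have h3 : P ^ A < (P + 1) ^ S.card := by
    calc P ^ A ≤ (P + 1) ^ A := Nat.pow_le_pow_left (by omega) _
      _ < (P + 1) ^ S.card := by
          rcases Nat.eq_zero_or_pos P with h0 | h0
          · -- `P = 0`
            exfalso
            subst h0
            rcases Nat.eq_zero_or_pos A with hA | hA
            · subst hA
              have hN1 : N = 1 := by
                have : N ≤ 1 := by simpa using hNP
                omega
              rw [hN1] at hS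
              simp at hS
              rw [hS] at hcon
              simp at hcon
            · rw [zero_pow (by omega)] at hNP
              omega
          · exact Nat.pow_lt_pow_right (by omega) hcon
  omega

/-- **All primes of an interval, for one plane.** -/
theorem card_plane {n : ℕ} (F : MvPolynomial (Fin n) ℤ) {k : ℕ} (hk : F.IsHomogeneous k)
    (u v : Fin n → ℤ) (X Y P1 P2 A : ℕ) (hX : 1 ≤ X) (hY : 1 ≤ Y) (hP1 : 1 ≤ P1) (hP2 : P1 ≤ P2)
    (Rn : ℤ) (hRn : Rn ≠ 0) (hRA : Rn.natAbs ≤ P1 ^ A)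
    (hgood : ∀ p : ℕ, p.Prime → ¬ (p : ℤ) ∣ Rn → ¬ (p : ℤ) ∣ eval u F ∧
      ∀ t : ℤ, (p : ℤ) ∣ (onLine F v u).eval t →
        ¬ (p : ℤ) ∣ (Polynomial.derivative (onLine F v u)).eval t)
    (hcont : ∀ p : ℕ, p.Prime → P1 < p → ¬ ((p : ℤ) ∣ eval u F ∧ (p : ℤ) ∣ eval v F))
    (S : Finset (ℤ × ℤ))
    (hS : ∀ z ∈ S, |z.1| ≤ X ∧ |z.2| ≤ Y ∧ IsCoprime z.1 z.2 ∧
      ∃ p : ℕ, p.Prime ∧ P1 < p ∧ p ≤ P2 ∧
        (p : ℤ) ^ 2 ∣ eval (fun i => z.1 * u i + z.2 * v i) F) :
    (S.card : ℝ) ≤ 8 * (k + 1) * (A + 1) * ((X * Y : ℝ) / P1 + P2) := by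
  classical
  set T : ℕ → Finset (ℤ × ℤ) := fun p => S.filter fun z : ℤ × ℤ =>
    (p : ℤ) ^ 2 ∣ eval (fun i => z.1 * u i + z.2 * v i) F with hT
  set I1 : Finset ℕ := (Finset.Ioc P1 P2).filter fun p : ℕ => p.Prime ∧ ¬ (p : ℤ) ∣ Rn with hI1
  set I2 : Finset ℕ := Rn.natAbs.primeFactors.filter fun p => P1 < p with hI2
  have hsub : S ⊆ I1.biUnion T ∪ I2.biUnion T := by
    intro z hz
    obtain ⟨-, -, -, p, hp, h1, h2, h3⟩ := hS z hz
    rw [Finset.mem_union, Finset.mem_biUnion, Finset.mem_biUnion]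
    have hzT : z ∈ T p := by rw [hT, Finset.mem_filter]; exact ⟨hz, h3⟩
    by_cases h4 : (p : ℤ) ∣ Rn
    · right
      refine ⟨p, ?_, hzT⟩
      rw [hI2, Finset.mem_filter, Nat.mem_primeFactors]
      exact ⟨⟨hp, Int.natCast_dvd.1 h4, Int.natAbs_ne_zero.2 hRn⟩, h1⟩
    · left
      refine ⟨p, ?_, hzT⟩
      rw [hI1, Finset.mem_filter, Finset.mem_Ioc]
      exact ⟨⟨h1, h2⟩, hp, h4⟩
  have hTmem : ∀ p, ∀ z ∈ T p, |z.1| ≤ X ∧ |z.2| ≤ Y ∧ IsCoprime z.1 z.2 ∧
      (p : ℤ) ^ 2 ∣ eval (fun i => z.1 * u i + z.2 * v i) F := by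
    intro p z hz
    rw [hT, Finset.mem_filter] at hz
    obtain ⟨a1, a2, a3, -⟩ := hS z hz.1
    exact ⟨a1, a2, a3, hz.2⟩
  have hP1R : (0 : ℝ) < P1 := by exact_mod_cast hP1
  have hXY0 : (0 : ℝ) ≤ X * Y := by positivity
  have hk0 : (0 : ℝ) ≤ k := Nat.cast_nonneg k
  have hA0 : (0 : ℝ) ≤ A := Nat.cast_nonneg A
  have h1 : ((I1.biUnion T).card : ℝ) ≤ 8 * k * ((X * Y : ℝ) / P1 + P2) := by
    have h2 : ((I1.biUnion T).card : ℝ) ≤ ∑ p ∈ I1, ((T p).card : ℝ) := by
      exact_mod_cast Finset.card_biUnion_le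
    have h3 : ∀ p ∈ I1, ((T p).card : ℝ) ≤ (8 * k) * (2 * ((X * Y : ℝ) / 2) / (p : ℝ) ^ 2 + 1) := by
      intro p hp
      rw [hI1, Finset.mem_filter, Finset.mem_Ioc] at hp
      obtain ⟨g1, g2⟩ := hgood p hp.2.1 hp.2.2
      have h4 := card_good_prime F hk u v X Y p hX hY hp.2.1 g1 g2 (T p) (hTmem p)
      have h5 : ((T p).card : ℝ) ≤ k * (8 * (((X * Y / p ^ 2 : ℕ) : ℝ) + 1)) := by exact_mod_cast h4
      have h6 : ((X * Y / p ^ 2 : ℕ) : ℝ) ≤ (X * Y : ℝ) / (p : ℝ) ^ 2 := by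
        refine Nat.cast_div_le.trans ?_
        push_cast
        exact le_rfl
      have h7 : 2 * ((X * Y : ℝ) / 2) / (p : ℝ) ^ 2 = (X * Y : ℝ) / (p : ℝ) ^ 2 := by ring
      rw [h7]
      calc ((T p).card : ℝ) ≤ k * (8 * (((X * Y / p ^ 2 : ℕ) : ℝ) + 1)) := h5
        _ ≤ k * (8 * ((X * Y : ℝ) / (p : ℝ) ^ 2 + 1)) := by gcongr
        _ = _ := by ring
    have h8 : ∑ p ∈ I1, (8 * k) * (2 * ((X * Y : ℝ) / 2) / (p : ℝ) ^ 2 + 1) ≤
        ∑ p ∈ Finset.Ioc P1 P2, (8 * k) * (2 * ((X * Y : ℝ) / 2) / (p : ℝ) ^ 2 + 1) :=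
      Finset.sum_le_sum_of_subset_of_nonneg (Finset.filter_subset _ _) fun p _ _ => by positivity
    refine h2.trans ((Finset.sum_le_sum h3).trans (h8.trans ?_))
    rw [← Finset.mul_sum]
    refine mul_le_mul_of_nonneg_left ?_ (by positivity)
    refine (sum_squares_le ((X * Y : ℝ) / 2) (by positivity) P1 P2 hP1 hP2).trans (le_of_eq ?_)
    ring
  have h2 : ((I2.biUnion T).card : ℝ) ≤ A * (8 * (k + 1) * ((X * Y : ℝ) / P1 + 1)) := by
    have h3 : (I2.biUnion T).card ≤ I2.card * ((k + 1) * (8 * (X * Y / P1 + 1))) := by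
      refine Finset.card_biUnion_le_card_mul _ _ _ fun p hp => ?_
      rw [hI2, Finset.mem_filter, Nat.mem_primeFactors] at hp
      refine (card_bad_prime F hk u v X Y p hX hY hp.1.1 (hcont p hp.1.1 hp.2) (T p)
        (hTmem p)).trans ?_
      refine Nat.mul_le_mul_left _ (Nat.mul_le_mul_left _ (Nat.add_le_add_right ?_ _))
      exact Nat.div_le_div_left hp.2.le hP1
    have h4 : I2.card ≤ A := card_large_primes P1 Rn.natAbs A
      (Int.natAbs_pos.2 hRn) hRA
    have h5 : ((I2.biUnion T).card : ℝ) ≤ A * (((k : ℝ) + 1) *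
        (8 * (((X * Y / P1 : ℕ) : ℝ) + 1))) := by
      exact_mod_cast h3.trans (Nat.mul_le_mul_right _ h4)
    have h6 : ((X * Y / P1 : ℕ) : ℝ) ≤ (X * Y : ℝ) / P1 := by
      refine Nat.cast_div_le.trans ?_
      push_cast
      exact le_rfl
    calc ((I2.biUnion T).card : ℝ) ≤ A * (((k : ℝ) + 1) * (8 * (((X * Y / P1 : ℕ) : ℝ) + 1))) := h5
      _ ≤ A * (((k : ℝ) + 1) * (8 * ((X * Y : ℝ) / P1 + 1))) := by gcongr
      _ = _ := by ring
  have h3 : (S.card : ℝ) ≤ (I1.biUnion T).card + (I2.biUnion T).card := by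
    exact_mod_cast (Finset.card_le_card hsub).trans (Finset.card_union_le _ _)
  have hP2R : (1 : ℝ) ≤ P2 := by exact_mod_cast hP1.trans hP2
  have h4 : 0 ≤ (X * Y : ℝ) / P1 := by positivity
  calc (S.card : ℝ) ≤ (I1.biUnion T).card + (I2.biUnion T).card := h3
    _ ≤ 8 * k * ((X * Y : ℝ) / P1 + P2) + A * (8 * (k + 1) * ((X * Y : ℝ) / P1 + 1)) :=
        add_le_add h1 h2
    _ ≤ 8 * (k + 1) * ((X * Y : ℝ) / P1 + P2) + A * (8 * (k + 1) * ((X * Y : ℝ) / P1 + P2)) := by
        refine add_le_add ?_ ?_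
        · refine mul_le_mul_of_nonneg_right ?_ (by positivity)
          linarith
        · refine mul_le_mul_of_nonneg_left ?_ hA0
          refine mul_le_mul_of_nonneg_left ?_ (by positivity)
          linarith
    _ = _ := by ring

end Pool.Agent.N445.VW
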