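import Mathlib
import Pool.Agent.N445.VW.Pair

/-! # Degenerate planes -/

set_option autoImplicit false

namespace Pool.Agent.N445.VW

open MvPolynomial Pool.Agent.TH910.Voj Pool.Agent.H813R3.Voj

noncomputable def uX (n : ℕ) : Fin n → MvPolynomial (Fin (n + n)) ℤ := fun i => X (Fin.castAdd n i)

noncomputable def vX (n : ℕ) : Fin n → MvPolynomial (Fin (n + n)) ℤ := fun i => X (Fin.natAdd n i)

/-- the value of the form at `u` times the discriminant on the line `v + t u` -/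
noncomputable def Phi {n : ℕ} (F : MvPolynomial (Fin n) ℤ) (k : ℕ) :
    MvPolynomial (Fin (n + n)) ℤ :=
  aeval (uX n) F * Polynomial.resultant (onLine F (vX n) (uX n))
    (Polynomial.derivative (onLine F (vX n) (uX n))) k (k - 1)

theorem eval_Phi {n : ℕ} (F : MvPolynomial (Fin n) ℤ) (k : ℕ) (u v : Fin n → ℤ) :
    eval (Fin.append u v) (Phi F k) = eval u F * Polynomial.resultant (onLine F v u)
      (Polynomial.derivative (onLine F v u)) k (k - 1) := by
  unfold Phi
  rw [map_mul, ← Polynomial.resultant_map_map, ← Polynomial.derivative_map, map_onLine]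
  have h1 : (fun i => eval (Fin.append u v) (vX n i)) = v := by
    funext i; rw [vX, eval_X, Fin.append_right]
  have h2 : (fun i => eval (Fin.append u v) (uX n i)) = u := by
    funext i; rw [uX, eval_X, Fin.append_left]
  rw [h1, h2]
  congr 1
  have h3 := MvPolynomial.map_aeval (R := ℤ) (uX n) (eval (Fin.append u v)) F
  rw [h3, MvPolynomial.coe_eval₂Hom, h2]
  have h4 : (eval (Fin.append u v)).comp (algebraMap ℤ (MvPolynomial (Fin (n + n)) ℤ)) =
    RingHom.id ℤ := RingHom.ext_int _ _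
  rw [h4]
  rfl

theorem Phi_good {n : ℕ} (F : MvPolynomial (Fin n) ℤ) {k : ℕ} (hk : F.IsHomogeneous k)
    (hk1 : 1 ≤ k) (u v : Fin n → ℤ) (p : ℕ)
    (hp : ¬ (p : ℤ) ∣ eval (Fin.append u v) (Phi F k)) :
    ¬ (p : ℤ) ∣ eval u F ∧ ∀ t : ℤ, (p : ℤ) ∣ (onLine F v u).eval t →
        ¬ (p : ℤ) ∣ (Polynomial.derivative (onLine F v u)).eval t := by
  rw [eval_Phi] at hp
  refine ⟨fun h => hp (h.mul_right _), fun t h1 h2 => hp (Dvd.dvd.mul_left ?_ _)⟩
  have hd : (onLine F v u).natDegree ≤ k := (onLine_spec F hk v u).1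
  obtain ⟨P, Q, -, -, hPQ⟩ := Polynomial.exists_mul_add_mul_eq_C_resultant (onLine F v u)
    (Polynomial.derivative (onLine F v u)) (m := k) (n := k - 1) hd
    ((Polynomial.natDegree_derivative_le _).trans (Nat.sub_le_sub_right hd 1))
    (Or.inl (by omega))
  have h3 := congrArg (Polynomial.eval t) hPQ
  rw [Polynomial.eval_add, Polynomial.eval_mul, Polynomial.eval_mul, Polynomial.eval_C] at h3
  rw [← h3]
  exact dvd_add (h1.mul_right _) (h2.mul_right _)

theorem Phi_ne_zero {n : ℕ} (F : MvPolynomial (Fin (n + 1)) ℤ) {k : ℕ} (hk : F.IsHomogeneous k)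
    (hk1 : 1 ≤ k) (hirr : Irreducible (toQ F)) : Phi F k ≠ 0 := by
  obtain ⟨a, i₀, hFa, ha, r, U, V, hr, hr0⟩ := exists_dir F hk hk1 hirr
  obtain ⟨x, hx⟩ : ∃ x : Fin (n + 1) → ℤ, eval x (bind₁ (lin a i₀) r) ≠ 0 := by
    by_contra hcon
    push Not at hcon
    exact hr0 (MvPolynomial.funext fun x => by rw [hcon x, map_zero])
  set y : Fin (n + 1) → ℤ := fun i => a i₀ * x i - a i * x i₀ with hy
  have hy0 : y i₀ = 0 := by simp [hy]
  have hry : eval y r ≠ 0 := by rw [← eval_bind_lin a i₀ r x y rfl]; exact hx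
  have hsep := onLine_separable F hk hk1 a i₀ ha r U V hr y hy0 hry
  intro h0
  have h1 := eval_Phi F k a y
  rw [h0, map_zero] at h1
  rcases mul_eq_zero.1 h1.symm with h2 | h2
  · exact hFa h2
  · have hfc : (onLine F y a).coeff k = eval a F := (onLine_spec F hk y a).2
    have hfd : (onLine F y a).natDegree = k := by
      refine le_antisymm (onLine_spec F hk y a).1 (Polynomial.le_natDegree_of_ne_zero ?_)
      rw [hfc]; exact hFa
    have h3 := Polynomial.resultant_map_map (onLine F y a)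
      (Polynomial.derivative (onLine F y a)) k (k - 1) (Int.castRingHom ℚ)
    rw [h2, map_zero, ← Polynomial.derivative_map] at h3
    set g := (onLine F y a).map (Int.castRingHom ℚ) with hg
    have hgd : g.natDegree = k := by
      rw [hg, Polynomial.natDegree_map_eq_of_injective (RingHom.injective_int _), hfd]
    have hgd' : (Polynomial.derivative g).natDegree = k - 1 := by
      have := Polynomial.degree_derivative (p := g) (by omega)
      rw [hgd] at this
      exact Polynomial.natDegree_eq_of_degree_eq_some this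
    have h4 := Polynomial.resultant_ne_zero g (Polynomial.derivative g) hsep
    rw [hgd, hgd'] at h4
    exact h4 h3

/-- The pairs at which a polynomial vanishes. -/
theorem card_Phi_zero {n : ℕ} (P : MvPolynomial (Fin ((n + 1) + (n + 1))) ℤ) (hP : P ≠ 0)
    (U V : ℕ) (hU : 1 ≤ U) (hUV : U ≤ 2 * V) :
    ((((box (n + 1) (2 * U)) ×ˢ (box (n + 1) (2 * V))).filter fun uv : (Fin (n + 1) → ℤ) × (Fin (n + 1) → ℤ) =>
      eval (Fin.append uv.1 uv.2) P = 0).card : ℝ) ≤
      (∑ i, P.degreeOf i : ℕ) * ((5 * U : ℝ) ^ (n + 1) * (5 * V : ℝ) ^ (n + 1)) / U := by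
  classical
  obtain ⟨S, hS⟩ : ∃ S : Fin ((n + 1) + (n + 1)) → Finset ℤ, S = Fin.append
    (fun _ : Fin (n + 1) => Finset.Icc (-((2 * U : ℕ) : ℤ)) ((2 * U : ℕ) : ℤ))
    (fun _ : Fin (n + 1) => Finset.Icc (-((2 * V : ℕ) : ℤ)) ((2 * V : ℕ) : ℤ)) := ⟨_, rfl⟩
  have hSl : ∀ i : Fin (n + 1), S (Fin.castAdd (n + 1) i) =
      Finset.Icc (-((2 * U : ℕ) : ℤ)) ((2 * U : ℕ) : ℤ) := fun i => by rw [hS, Fin.append_left]
  have hSr : ∀ i : Fin (n + 1), S (Fin.natAdd (n + 1) i) =
      Finset.Icc (-((2 * V : ℕ) : ℤ)) ((2 * V : ℕ) : ℤ) := fun i => by rw [hS, Fin.append_right]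
  have hSU : ∀ i, U ≤ (S i).card := by
    intro i
    induction i using Fin.addCases with
    | left i => rw [hSl, card_Icc_int]; omega
    | right i => rw [hSr, card_Icc_int]; omega
  have hprod : ∏ i, ((S i).card : ℝ) ≤ (5 * U : ℝ) ^ (n + 1) * (5 * V : ℝ) ^ (n + 1) := by
    rw [Fin.prod_univ_add]
    have hUR : (1 : ℝ) ≤ U := by exact_mod_cast hU
    have hV1 : 1 ≤ V := by omega
    have hVR : (1 : ℝ) ≤ V := by exact_mod_cast hV1
    refine mul_le_mul ?_ ?_ (Finset.prod_nonneg fun _ _ => Nat.cast_nonneg _) (by positivity)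
    · calc ∏ i : Fin (n + 1), ((S (Fin.castAdd (n + 1) i)).card : ℝ) ≤
            ∏ _i : Fin (n + 1), (5 * U : ℝ) := by
            refine Finset.prod_le_prod (fun _ _ => Nat.cast_nonneg _) fun i _ => ?_
            rw [hSl, card_Icc_int]; push_cast; linarith
        _ = _ := by rw [Finset.prod_const, Finset.card_univ, Fintype.card_fin]
    · calc ∏ i : Fin (n + 1), ((S (Fin.natAdd (n + 1) i)).card : ℝ) ≤
            ∏ _i : Fin (n + 1), (5 * V : ℝ) := by
            refine Finset.prod_le_prod (fun _ _ => Nat.cast_nonneg _) fun i _ => ?_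
            rw [hSr, card_Icc_int]; push_cast; linarith
        _ = _ := by rw [Finset.prod_const, Finset.card_univ, Fintype.card_fin]
  have hSZ := schwartz_zippel_sum_degreeOf hP S
  set Z := (Fintype.piFinset S).filter fun x => eval x P = 0 with hZ
  have hUQ : (0 : ℚ≥0) < U := by exact_mod_cast hU
  have h1 : ∑ i, (P.degreeOf i / (S i).card : ℚ≥0) ≤ ((∑ i, P.degreeOf i : ℕ) : ℚ≥0) / U := by
    rw [Nat.cast_sum, Finset.sum_div]
    refine Finset.sum_le_sum fun i _ => ?_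
    have : (U : ℚ≥0) ≤ (S i).card := by exact_mod_cast hSU i
    gcongr
  have h2 : (Z.card : ℚ≥0) / ∏ i, ((S i).card : ℚ≥0) ≤ ((∑ i, P.degreeOf i : ℕ) : ℚ≥0) / U :=
    hSZ.trans h1
  have hpos : (0 : ℚ≥0) < ∏ i, ((S i).card : ℚ≥0) := by
    refine Finset.prod_pos fun i _ => ?_
    have := hSU i
    exact_mod_cast (by omega : 0 < (S i).card)
  rw [div_le_div_iff₀ hpos hUQ] at h2
  have h3 : (Z.card : ℝ) * U ≤ (∑ i, P.degreeOf i : ℕ) * ∏ i, ((S i).card : ℝ) := by
    exact_mod_cast h2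
  have hUR : (0 : ℝ) < U := by exact_mod_cast hU
  rw [le_div_iff₀ hUR]
  have h4 : (((box (n + 1) (2 * U)) ×ˢ (box (n + 1) (2 * V))).filter fun uv : (Fin (n + 1) → ℤ) × (Fin (n + 1) → ℤ) =>
      eval (Fin.append uv.1 uv.2) P = 0).card ≤ Z.card := by
    refine Finset.card_le_card_of_injOn (fun uv => Fin.append uv.1 uv.2) ?_ ?_
    · intro uv huv
      rw [Finset.mem_coe, Finset.mem_filter, Finset.mem_product, mem_box, mem_box] at huv
      rw [Finset.mem_coe, hZ, Finset.mem_filter, Fintype.mem_piFinset]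
      refine ⟨fun i => ?_, huv.2⟩
      show Fin.append uv.1 uv.2 i ∈ S i
      induction i using Fin.addCases with
      | left i => rw [hSl, Fin.append_left, Finset.mem_Icc, ← abs_le]; exact huv.1.1 i
      | right i => rw [hSr, Fin.append_right, Finset.mem_Icc, ← abs_le]; exact huv.1.2 i
    · intro uv _ uv' _ heq
      simp only at heq
      refine Prod.ext ?_ ?_
      · funext i
        have := congrFun heq (Fin.castAdd (n + 1) i)
        rwa [Fin.append_left, Fin.append_left] at this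
      · funext i
        have := congrFun heq (Fin.natAdd (n + 1) i)
        rwa [Fin.append_right, Fin.append_right] at this
  calc (((((box (n + 1) (2 * U)) ×ˢ (box (n + 1) (2 * V))).filter fun uv : (Fin (n + 1) → ℤ) × (Fin (n + 1) → ℤ) =>
        eval (Fin.append uv.1 uv.2) P = 0).card : ℕ) : ℝ) * U ≤ (Z.card : ℝ) * U := by
        refine mul_le_mul_of_nonneg_right ?_ hUR.le
        exact_mod_cast h4
    _ ≤ (∑ i, P.degreeOf i : ℕ) * ∏ i, ((S i).card : ℝ) := h3
    _ ≤ _ := mul_le_mul_of_nonneg_left hprod (Nat.cast_nonneg _)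

/-- The number of vectors at which a form is divisible by a large prime. -/
theorem card_dvd_prime {n : ℕ} (F : MvPolynomial (Fin (n + 1)) ℤ) {k : ℕ}
    (hk : F.IsHomogeneous k) (a : Fin (n + 1) → ℤ) (i₀ : Fin (n + 1)) (ha : a i₀ ≠ 0)
    (V p : ℕ) (hV : 1 ≤ V) (hp : p.Prime) (hpF : ¬ (p : ℤ) ∣ eval a F) (hVp : 2 * V < p) :
    (((box (n + 1) V).filter fun v => (p : ℤ) ∣ eval v F).card : ℝ) ≤
      k * ((3 * cdir a i₀ : ℝ) ^ n * (V : ℝ) ^ n) := by
  classical
  refine card_le_fibres a i₀ ha V hV _ (Finset.filter_subset _ _) k (Nat.cast_nonneg k) ?_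
  intro y T hT
  set f := onLine F y a with hf
  have hfc : f.coeff k = eval a F := (onLine_spec F hk y a).2
  have hfd : f.natDegree = k := by
    refine le_antisymm (onLine_spec F hk y a).1 (Polynomial.le_natDegree_of_ne_zero ?_)
    rw [hfc]; intro h; exact hpF (h ▸ dvd_zero _)
  have hr : (rts f p).card ≤ k := by
    have := card_rts f p hp (by rw [Polynomial.leadingCoeff, hfd, hfc]; exact hpF)
    rwa [hfd] at this
  have hp0 : (0 : ℤ) < p := by exact_mod_cast hp.pos
  have h1 : T.card ≤ (rts f p).card := by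
    refine Finset.card_le_card_of_injOn (fun t => t % p) ?_ ?_
    · intro t ht
      obtain ⟨x, hx, hxt, hxy⟩ := hT t ht
      rw [Finset.mem_filter] at hx
      unfold rts
      rw [Finset.mem_coe, Finset.mem_filter, Finset.mem_Ico]
      refine ⟨⟨Int.emod_nonneg _ hp0.ne', Int.emod_lt_of_pos _ hp0⟩, ?_⟩
      have h2 : (p : ℤ) ∣ f.eval t := by
        rw [← hxt, hf, eval_fibre F hk a i₀ x y hxy]
        exact hx.2.mul_left _
      have h4 : (p : ℤ) ∣ f.eval (t % p) - f.eval t :=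
        ((Int.mod_modEq t p).symm.dvd).trans (Polynomial.sub_dvd_eval_sub _ _ _)
      have := dvd_add h4 h2
      simpa using this
    · intro t ht t' ht' heq
      obtain ⟨x, hx, hxt, -⟩ := hT t ht
      obtain ⟨x', hx', hxt', -⟩ := hT t' ht'
      rw [Finset.mem_filter, mem_box] at hx hx'
      have b1 := abs_le.1 (hx.1 i₀)
      have b2 := abs_le.1 (hx'.1 i₀)
      rw [hxt] at b1
      rw [hxt'] at b2
      have h3 : (p : ℤ) ∣ t' - t := Int.ModEq.dvd heq
      have h4 : |t' - t| < p := by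
        rw [abs_lt]
        constructor <;> omega
      have := Int.eq_zero_of_abs_lt_dvd h3 h4
      omega
  exact_mod_cast h1.trans hr

/-- **Degenerate pairs.** -/
theorem card_degenerate {n : ℕ} (F : MvPolynomial (Fin (n + 1)) ℤ) {k : ℕ}
    (hk : F.IsHomogeneous k) (hk1 : 1 ≤ k) (hirr : Irreducible (toQ F)) :
    ∃ C : ℝ, 0 < C ∧ ∃ P₀ : ℕ, ∀ U V P1 A : ℕ, 1 ≤ U → U ≤ 2 * V → 4 * V ≤ P1 → P₀ ≤ P1 →
      (∀ u ∈ box (n + 1) (2 * U), (eval u F).natAbs ≤ P1 ^ A) →
      ∀ Z : Finset ((Fin (n + 1) → ℤ) × (Fin (n + 1) → ℤ)),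
      (∀ uv ∈ Z, uv.1 ∈ box (n + 1) (2 * U) ∧ uv.2 ∈ box (n + 1) (2 * V) ∧
        (eval (Fin.append uv.1 uv.2) (Phi F k) = 0 ∨ ∃ p : ℕ, p.Prime ∧ P1 < p ∧
          (p : ℤ) ∣ eval uv.1 F ∧ (p : ℤ) ∣ eval uv.2 F)) →
      (Z.card : ℝ) ≤ C * (A + 1) * ((U : ℝ) ^ (n + 1) * (V : ℝ) ^ (n + 1)) / U := by
  classical
  obtain ⟨a, i₀, hFa, ha⟩ := exists_direction F hk hirr
  set C1 : ℝ := (∑ i, (Phi F k).degreeOf i : ℕ) * ((5 : ℝ) ^ (n + 1) * (5 : ℝ) ^ (n + 1)) with hC1
  set C2 : ℝ := (5 : ℝ) ^ (n + 1) * (k * ((3 * cdir a i₀ : ℝ) ^ n * 2 ^ n)) * 2 with hC2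
  refine ⟨C1 + C2 + 1, by positivity, (eval a F).natAbs, ?_⟩
  intro U V P1 A hU hUV hVP hP0 hFu Z hZ
  have hV1 : 1 ≤ V := by omega
  have hUR : (1 : ℝ) ≤ U := by exact_mod_cast hU
  have hVR : (1 : ℝ) ≤ V := by exact_mod_cast hV1
  have hU0 : (0 : ℝ) < U := by linarith
  set W := (U : ℝ) ^ (n + 1) * (V : ℝ) ^ (n + 1) with hW
  have hW0 : 0 < W := by positivity
  have hA0 : (0 : ℝ) ≤ A := Nat.cast_nonneg A
  set Z1 := ((box (n + 1) (2 * U)) ×ˢ (box (n + 1) (2 * V))).filter fun uv : (Fin (n + 1) → ℤ) × (Fin (n + 1) → ℤ) =>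
      eval (Fin.append uv.1 uv.2) (Phi F k) = 0 with hZ1
  set Z2 := (box (n + 1) (2 * U)).biUnion fun u =>
    ((eval u F).natAbs.primeFactors.filter fun p => P1 < p).biUnion fun p =>
      ((box (n + 1) (2 * V)).filter fun v => (p : ℤ) ∣ eval v F).image fun v => (u, v) with hZ2
  have hsub : Z ⊆ Z1 ∪ Z2 := by
    rintro ⟨u, v⟩ huv
    obtain ⟨hu, hv, h⟩ := hZ _ huv
    rw [Finset.mem_union]
    by_cases h0 : eval (Fin.append u v) (Phi F k) = 0
    · left
      rw [hZ1, Finset.mem_filter, Finset.mem_product]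
      exact ⟨⟨hu, hv⟩, h0⟩
    · right
      rcases h with h | ⟨p, hp, hpP, h1, h2⟩
      · exact absurd h h0
      · have hFu0 : eval u F ≠ 0 := by
          intro h3
          apply h0
          rw [eval_Phi, h3, zero_mul]
        rw [hZ2, Finset.mem_biUnion]
        refine ⟨u, hu, ?_⟩
        rw [Finset.mem_biUnion]
        refine ⟨p, ?_, ?_⟩
        · rw [Finset.mem_filter, Nat.mem_primeFactors]
          exact ⟨⟨hp, Int.natCast_dvd.1 h1, Int.natAbs_ne_zero.2 hFu0⟩, hpP⟩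
        · rw [Finset.mem_image]
          exact ⟨v, Finset.mem_filter.2 ⟨hv, h2⟩, rfl⟩
  have h1 : (Z1.card : ℝ) ≤ C1 * W / U := by
    refine (card_Phi_zero (Phi F k) (Phi_ne_zero F hk hk1 hirr) U V hU hUV).trans (le_of_eq ?_)
    rw [hC1, hW, mul_pow, mul_pow]
    ring
  have h2 : (Z2.card : ℝ) ≤ C2 * A * W / U := by
    have h3 : Z2.card ≤ ∑ u ∈ box (n + 1) (2 * U),
        ∑ p ∈ (eval u F).natAbs.primeFactors.filter (fun p => P1 < p),
          ((box (n + 1) (2 * V)).filter fun v => (p : ℤ) ∣ eval v F).card := by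
      rw [hZ2]
      refine Finset.card_biUnion_le.trans (Finset.sum_le_sum fun u _ => ?_)
      refine Finset.card_biUnion_le.trans (Finset.sum_le_sum fun p _ => ?_)
      exact Finset.card_image_le
    have h4 : (Z2.card : ℝ) ≤ ∑ u ∈ box (n + 1) (2 * U),
        ∑ p ∈ (eval u F).natAbs.primeFactors.filter (fun p => P1 < p),
          (((box (n + 1) (2 * V)).filter fun v => (p : ℤ) ∣ eval v F).card : ℝ) := by
      exact_mod_cast h3
    have h5 : ∀ u ∈ box (n + 1) (2 * U),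
        ∑ p ∈ (eval u F).natAbs.primeFactors.filter (fun p => P1 < p),
          (((box (n + 1) (2 * V)).filter fun v => (p : ℤ) ∣ eval v F).card : ℝ) ≤
        A * (k * ((3 * cdir a i₀ : ℝ) ^ n * ((2 * V : ℕ) : ℝ) ^ n)) := by
      intro u hu
      have h6 : ∀ p ∈ (eval u F).natAbs.primeFactors.filter (fun p => P1 < p),
          (((box (n + 1) (2 * V)).filter fun v => (p : ℤ) ∣ eval v F).card : ℝ) ≤
          k * ((3 * cdir a i₀ : ℝ) ^ n * ((2 * V : ℕ) : ℝ) ^ n) := by
        intro p hp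
        rw [Finset.mem_filter, Nat.mem_primeFactors] at hp
        refine card_dvd_prime F hk a i₀ ha (2 * V) p (by omega) hp.1.1 ?_ (by omega)
        intro hdvd
        have := Nat.le_of_dvd (Int.natAbs_pos.2 hFa) (Int.natCast_dvd.1 hdvd)
        omega
      refine (Finset.sum_le_sum h6).trans ?_
      rw [Finset.sum_const, nsmul_eq_mul]
      refine mul_le_mul_of_nonneg_right ?_ (by positivity)
      rcases Nat.eq_zero_or_pos (eval u F).natAbs with h0 | h0
      · rw [h0]; simp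
      · exact_mod_cast card_large_primes P1 _ A h0 (hFu u hu)
    refine h4.trans ((Finset.sum_le_sum h5).trans ?_)
    rw [Finset.sum_const, nsmul_eq_mul, card_box]
    have h7 : (((2 * (2 * U) + 1) ^ (n + 1) : ℕ) : ℝ) ≤ 5 ^ (n + 1) * (U : ℝ) ^ (n + 1) := by
      push_cast
      rw [← mul_pow]
      exact pow_le_pow_left₀ (by positivity) (by linarith) _
    have h8 : (1 : ℝ) ≤ 2 * V / U := by
      rw [le_div_iff₀ hU0, one_mul]
      exact_mod_cast hUV
    calc (((2 * (2 * U) + 1) ^ (n + 1) : ℕ) : ℝ) *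
          (A * (k * ((3 * cdir a i₀ : ℝ) ^ n * ((2 * V : ℕ) : ℝ) ^ n))) ≤
          (5 ^ (n + 1) * (U : ℝ) ^ (n + 1)) *
          (A * (k * ((3 * cdir a i₀ : ℝ) ^ n * ((2 * V : ℕ) : ℝ) ^ n))) :=
          mul_le_mul_of_nonneg_right h7 (by positivity)
      _ = ((5 : ℝ) ^ (n + 1) * (k * ((3 * cdir a i₀ : ℝ) ^ n * 2 ^ n))) * A *
          ((U : ℝ) ^ (n + 1) * (V : ℝ) ^ n) * 1 := by
          push_cast
          rw [mul_pow 2 (V : ℝ)]
          ring
      _ ≤ ((5 : ℝ) ^ (n + 1) * (k * ((3 * cdir a i₀ : ℝ) ^ n * 2 ^ n))) * A *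
          ((U : ℝ) ^ (n + 1) * (V : ℝ) ^ n) * (2 * V / U) :=
          mul_le_mul_of_nonneg_left h8 (by positivity)
      _ = C2 * A * W / U := by
          rw [hC2, hW]
          ring
  have h3 : ((Z1 ∪ Z2).card : ℝ) ≤ Z1.card + Z2.card := by
    exact_mod_cast Finset.card_union_le _ _
  have h4 : (Z.card : ℝ) ≤ (Z1 ∪ Z2).card := by
    exact_mod_cast Finset.card_le_card hsub
  have h5 : 0 ≤ W / U := by positivity
  have hC10 : 0 ≤ C1 := by positivity
  have hC20 : 0 ≤ C2 := by positivity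
  calc (Z.card : ℝ) ≤ ((Z1 ∪ Z2).card : ℝ) := h4
    _ ≤ C1 * W / U + C2 * A * W / U := h3.trans (add_le_add h1 h2)
    _ = (C1 + C2 * A) * (W / U) := by ring
    _ ≤ ((C1 + C2 + 1) * (A + 1)) * (W / U) := by
        refine mul_le_mul_of_nonneg_right ?_ h5
        nlinarith
    _ = _ := by ring

end Pool.Agent.N445.VW
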