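import Mathlib
import Pool.Agent.N445.VW.Phi
import Pool.Agent.N445.VW.Bp2

/-! # Lines in a plane: all roots are simple -/

set_option autoImplicit false

namespace Pool.Agent.N445.VW

open MvPolynomial Pool.Agent.TH910.Voj Pool.Agent.H813R3.Voj

theorem aeval_mul_hom {n : ℕ} {R : Type*} [CommRing R] (F : MvPolynomial (Fin n) ℤ) {k : ℕ}
    (hk : F.IsHomogeneous k) (c : R) (P : Fin n → R) :
    aeval (fun i => c * P i) F = c ^ k * aeval P F := by
  rw [aeval_def, aeval_def, eval₂_eq', eval₂_eq', Finset.mul_sum]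
  refine Finset.sum_congr rfl fun d hd => ?_
  have h1 : ∑ i, d i = k := by
    have := hk (mem_support_iff.1 hd)
    rw [← this, Finsupp.weight_apply, Finsupp.sum_fintype]
    · simp
    · simp
  simp only [mul_pow]
  rw [Finset.prod_mul_distrib, Finset.prod_pow_eq_pow_sum, h1]
  ring

/-- the directional derivative over a ring -/
noncomputable def DD {n : ℕ} {R : Type*} [CommRing R] (F : MvPolynomial (Fin n) ℤ)
    (a P : Fin n → R) : R := ∑ i, a i * aeval P (pderiv i F)

theorem DD_euler {n : ℕ} {R : Type*} [CommRing R] (F : MvPolynomial (Fin n) ℤ) {k : ℕ}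
    (hk : F.IsHomogeneous k) (P : Fin n → R) : DD F P P = k * aeval P F := by
  have h := congrArg (fun G => aeval P G) hk.sum_X_mul_pderiv
  simp only [map_sum, map_mul, aeval_X, nsmul_eq_mul, map_natCast] at h
  exact h

theorem DD_comb {n : ℕ} {R : Type*} [CommRing R] (F : MvPolynomial (Fin n) ℤ)
    (a b P : Fin n → R) (x y : R) :
    DD F (fun i => x * a i + y * b i) P = x * DD F a P + y * DD F b P := by
  unfold DD
  rw [Finset.mul_sum, Finset.mul_sum, ← Finset.sum_add_distrib]
  exact Finset.sum_congr rfl fun i _ => by ring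

theorem DD_hom {n : ℕ} {R : Type*} [CommRing R] (F : MvPolynomial (Fin n) ℤ) {k : ℕ}
    (hk : F.IsHomogeneous k) (a P : Fin n → R) (c : R) :
    DD F a (fun i => c * P i) = c ^ (k - 1) * DD F a P := by
  unfold DD
  rw [Finset.mul_sum]
  refine Finset.sum_congr rfl fun i _ => ?_
  rw [aeval_mul_hom _ (hk.pderiv (i := i))]
  ring

theorem derivative_onLine' {n : ℕ} {R : Type*} [CommRing R] (F : MvPolynomial (Fin n) ℤ)
    (u v : Fin n → R) :
    Polynomial.derivative (onLine F u v) = ∑ i, Polynomial.C (v i) * onLine (pderiv i F) u v := by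
  classical
  induction F using MvPolynomial.induction_on with
  | C c => simp [onLine]
  | add p q hp hq =>
    have h1 : onLine (p + q) u v = onLine p u v + onLine q u v := by simp [onLine]
    rw [h1, Polynomial.derivative_add, hp, hq, ← Finset.sum_add_distrib]
    refine Finset.sum_congr rfl fun i _ => ?_
    simp [onLine, mul_add]
  | mul_X p j hp =>
    have h1 : onLine (p * X j) u v = onLine p u v *
        (Polynomial.C (u j) + Polynomial.C (v j) * Polynomial.X) := by simp [onLine]
    have h2 : ∀ i, onLine (pderiv i (p * X j)) u v = onLine (pderiv i p) u v *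
        (Polynomial.C (u j) + Polynomial.C (v j) * Polynomial.X) +
        (if i = j then onLine p u v else 0) := by
      intro i
      rw [pderiv_mul, pderiv_X]
      by_cases h : i = j
      · subst h
        simp [onLine]
      · rw [Pi.single_eq_of_ne (Ne.symm h)]
        simp [onLine, h]
    rw [h1, Polynomial.derivative_mul, hp]
    simp only [h2, mul_add, Finset.sum_add_distrib, mul_ite, mul_zero, Finset.sum_ite_eq',
      Finset.mem_univ, if_true]
    simp only [Finset.sum_mul]
    simp
    rw [mul_comm (onLine p u v)]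
    simp only [← Finset.sum_add_distrib]
    refine congrArg₂ _ (Finset.sum_congr rfl fun i _ => by ring) rfl

theorem eval_derivative_onLine {n : ℕ} {R : Type*} [CommRing R] (F : MvPolynomial (Fin n) ℤ)
    (u v : Fin n → R) (t : R) :
    (Polynomial.derivative (onLine F u v)).eval t = DD F v (fun i => u i + t * v i) := by
  rw [derivative_onLine', Polynomial.eval_finsetSum]
  unfold DD
  refine Finset.sum_congr rfl fun i _ => ?_
  rw [Polynomial.eval_mul, Polynomial.eval_C, eval_onLine]

theorem aeval_cast {n : ℕ} {R : Type*} [CommRing R] (F : MvPolynomial (Fin n) ℤ)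
    (u : Fin n → ℤ) : aeval (fun i => (u i : R)) F = ((eval u F : ℤ) : R) := by
  have h := MvPolynomial.map_aeval (R := ℤ) u (Int.castRingHom R) F
  rw [MvPolynomial.coe_eval₂Hom] at h
  rw [aeval_def]
  have h2 : (Int.castRingHom R).comp (algebraMap ℤ ℤ) = algebraMap ℤ R := RingHom.ext_int _ _
  rw [h2] at h
  exact h.symm

theorem map_cast_onLine {n : ℕ} {R : Type*} [CommRing R] (F : MvPolynomial (Fin n) ℤ)
    (u v : Fin n → ℤ) : (onLine F u v).map (Int.castRingHom R) =
      onLine F (fun i => (u i : R)) (fun i => (v i : R)) := map_onLine _ _ _ _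

/-- the roots on the line `v + t u` are simple -/
theorem Phi_simple {n : ℕ} {L : Type*} [Field L] (F : MvPolynomial (Fin n) ℤ) {k : ℕ}
    (hk : F.IsHomogeneous k) (hk1 : 1 ≤ k) (u v : Fin n → ℤ)
    (hR : ((eval (Fin.append u v) (Phi F k) : ℤ) : L) ≠ 0) :
    aeval (fun i => (u i : L)) F ≠ 0 ∧ ∀ t : L,
      (onLine F (fun i => (v i : L)) (fun i => (u i : L))).eval t = 0 →
        (Polynomial.derivative (onLine F (fun i => (v i : L)) (fun i => (u i : L)))).eval t ≠ 0 := by
  rw [eval_Phi, Int.cast_mul] at hR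
  refine ⟨by rw [aeval_cast]; exact left_ne_zero_of_mul hR, fun t h1 h2 =>
    right_ne_zero_of_mul hR ?_⟩
  have hd : (onLine F v u).natDegree ≤ k := (onLine_spec F hk v u).1
  obtain ⟨P, Q, -, -, hPQ⟩ := Polynomial.exists_mul_add_mul_eq_C_resultant (onLine F v u)
    (Polynomial.derivative (onLine F v u)) (m := k) (n := k - 1) hd
    ((Polynomial.natDegree_derivative_le _).trans (Nat.sub_le_sub_right hd 1))
    (Or.inl (by omega))
  have h3 := congrArg (fun G => (Polynomial.map (Int.castRingHom L) G).eval t) hPQ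
  simp only [Polynomial.map_add, Polynomial.map_mul, Polynomial.map_C, Polynomial.eval_add,
    Polynomial.eval_mul, Polynomial.eval_C] at h3
  rw [← Polynomial.derivative_map, map_cast_onLine, h1, h2, zero_mul, zero_mul, zero_add] at h3
  exact h3.symm

/-- the roots on all lines in the plane are simple -/
theorem simple_root {n : ℕ} {L : Type*} [Field L] (F : MvPolynomial (Fin n) ℤ) {k : ℕ}
    (hk : F.IsHomogeneous k) (hk1 : 1 ≤ k) (u v : Fin n → ℤ)
    (hR : ((eval (Fin.append u v) (Phi F k) : ℤ) : L) ≠ 0) (g1 g2 x y : L)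
    (hΔ : g1 * y - g2 * x ≠ 0) (h0 : aeval (fun i => x * (u i : L) + y * (v i : L)) F = 0) :
    DD F (fun i => g1 * (u i : L) + g2 * (v i : L)) (fun i => x * (u i : L) + y * (v i : L)) ≠ 0 := by
  obtain ⟨hu, hs⟩ := Phi_simple F hk hk1 u v hR
  set u' : Fin n → L := fun i => (u i : L) with hu'
  set v' : Fin n → L := fun i => (v i : L) with hv'
  by_cases hy : y = 0
  · exfalso
    have hx : x ≠ 0 := by
      rintro rfl
      apply hΔ
      rw [hy]; ring
    have h1 : (fun i => x * (u i : L) + y * (v i : L)) = fun i => x * u' i := by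
      funext i; rw [hy]; simp [hu']
    rw [h1, aeval_mul_hom F hk] at h0
    exact mul_ne_zero (pow_ne_zero _ hx) hu h0
  · set t := x / y with ht
    have hxy : x = t * y := by rw [ht]; field_simp
    have h1 : (fun i => x * (u i : L) + y * (v i : L)) = fun i => y * (v' i + t * u' i) := by
      funext i; rw [hxy]; simp only [hu', hv']; ring
    rw [h1] at h0 ⊢
    rw [aeval_mul_hom F hk] at h0
    have h2 : (onLine F v' u').eval t = 0 := by
      rw [eval_onLine]
      rcases mul_eq_zero.1 h0 with h | h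
      · exact absurd h (pow_ne_zero _ hy)
      · exact h
    have h3 := hs t h2
    rw [eval_derivative_onLine] at h3
    set P : Fin n → L := fun i => v' i + t * u' i with hP
    have hF0 : aeval P F = 0 := by rw [← h2, eval_onLine]
    rw [DD_hom F hk, DD_comb]
    refine mul_ne_zero (pow_ne_zero _ hy) ?_
    -- Euler
    have h4 := DD_euler F hk P
    rw [hF0, mul_zero] at h4
    have h5 : DD F P P = t * DD F u' P + 1 * DD F v' P := by
      rw [← DD_comb]
      congr 1
      funext i
      rw [hP]; ring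
    rw [h5] at h4
    have h6 : DD F v' P = - t * DD F u' P := by linear_combination h4
    rw [h6]
    have h7 : g1 * DD F u' P + g2 * (-t * DD F u' P) = (g1 - g2 * t) * DD F u' P := by ring
    rw [h7]
    refine mul_ne_zero ?_ h3
    intro h8
    apply hΔ
    rw [hxy]
    linear_combination y * h8

/-- the vector `x u + y v` -/
def pt {n : ℕ} (u v : Fin n → ℤ) (x y : ℤ) : Fin n → ℤ := fun i => x * u i + y * v i

theorem line_simple {n : ℕ} {L : Type*} [Field L] (F : MvPolynomial (Fin n) ℤ) {k : ℕ}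
    (hk : F.IsHomogeneous k) (hk1 : 1 ≤ k) (u v : Fin n → ℤ)
    (hR : ((eval (Fin.append u v) (Phi F k) : ℤ) : L) ≠ 0) (g1 g2 x1 y1 : ℤ)
    (hΔ : ((g1 * y1 - g2 * x1 : ℤ) : L) ≠ 0) (t : L)
    (h0 : ((onLine F (pt u v x1 y1) (pt u v g1 g2)).map (Int.castRingHom L)).eval t = 0) :
    ((Polynomial.derivative (onLine F (pt u v x1 y1) (pt u v g1 g2))).map
      (Int.castRingHom L)).eval t ≠ 0 := by
  rw [← Polynomial.derivative_map]
  rw [map_cast_onLine] at h0 ⊢
  rw [eval_derivative_onLine]
  rw [eval_onLine] at h0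
  have h1 : (fun i => ((pt u v x1 y1 i : ℤ) : L) + t * ((pt u v g1 g2 i : ℤ) : L)) =
      fun i => ((x1 : L) + t * g1) * (u i : L) + ((y1 : L) + t * g2) * (v i : L) := by
    funext i; unfold pt; push_cast; ring
  have h2 : (fun i => ((pt u v g1 g2 i : ℤ) : L)) =
      fun i => (g1 : L) * (u i : L) + (g2 : L) * (v i : L) := by
    funext i; unfold pt; push_cast; ring
  rw [h1] at h0 ⊢
  rw [h2]
  refine simple_root F hk hk1 u v hR _ _ _ _ ?_ h0
  intro h
  apply hΔ
  push_cast
  linear_combination h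

theorem line_sep {n : ℕ} (F : MvPolynomial (Fin n) ℤ) {k : ℕ}
    (hk : F.IsHomogeneous k) (hk1 : 1 ≤ k) (u v : Fin n → ℤ)
    (hR : eval (Fin.append u v) (Phi F k) ≠ 0) (g1 g2 x1 y1 : ℤ)
    (hΔ : g1 * y1 - g2 * x1 ≠ 0) :
    ((onLine F (pt u v x1 y1) (pt u v g1 g2)).map (Int.castRingHom ℚ)).Separable := by
  rw [Polynomial.separable_def, Polynomial.isCoprime_iff_aeval_ne_zero_of_isAlgClosed ℚ ℂ]
  intro a
  by_contra hcon
  push Not at hcon
  obtain ⟨h1, h2⟩ := hcon
  have hmap : ∀ P : Polynomial ℤ, Polynomial.aeval a (P.map (Int.castRingHom ℚ)) =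
      (P.map (Int.castRingHom ℂ)).eval a := by
    intro P
    rw [Polynomial.aeval_def, Polynomial.eval₂_map, Polynomial.eval_map]
    congr 1
  rw [hmap] at h1
  rw [Polynomial.derivative_map, hmap] at h2
  exact line_simple F hk hk1 u v (by exact_mod_cast hR) g1 g2 x1 y1 (by exact_mod_cast hΔ) a h1 h2

theorem line_deg {n : ℕ} (F : MvPolynomial (Fin n) ℤ) {k : ℕ}
    (hk : F.IsHomogeneous k) (hk2 : 2 ≤ k) (u v : Fin n → ℤ)
    (hR : eval (Fin.append u v) (Phi F k) ≠ 0) (g1 g2 x1 y1 : ℤ)
    (hΔ : g1 * y1 - g2 * x1 ≠ 0) :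
    1 ≤ (onLine F (pt u v x1 y1) (pt u v g1 g2)).natDegree ∧
      (onLine F (pt u v x1 y1) (pt u v g1 g2)).natDegree ≤ k := by
  classical
  have hk1 : 1 ≤ k := by omega
  refine ⟨?_, (onLine_spec F hk _ _).1⟩
  set h := onLine F (pt u v x1 y1) (pt u v g1 g2) with hh
  have hsep := line_sep F hk hk1 u v hR g1 g2 x1 y1 hΔ
  rw [← hh] at hsep
  by_contra hcon
  have hdeg : h.natDegree = 0 := by omega
  -- the roots of the form on the line `v + t u`
  have hR' : ((eval (Fin.append u v) (Phi F k) : ℤ) : ℂ) ≠ 0 := by exact_mod_cast hR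
  obtain ⟨hu, hs⟩ := Phi_simple F hk hk1 u v hR'
  set f := onLine F (fun i => (v i : ℂ)) (fun i => (u i : ℂ)) with hf
  have hfd : f.natDegree = k := by
    obtain ⟨h1, h2⟩ := onLine_spec F hk (fun i => (v i : ℂ)) (fun i => (u i : ℂ))
    refine le_antisymm h1 (Polynomial.le_natDegree_of_ne_zero ?_)
    rw [h2]; exact hu
  have hfs : f.Separable := by
    rw [Polynomial.separable_def, Polynomial.isCoprime_iff_aeval_ne_zero_of_isAlgClosed ℂ ℂ]
    intro a
    by_contra hcon
    push Not at hcon
    exact hs a (by simpa using hcon.1) (by simpa using hcon.2)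
  have hcard : Fintype.card (f.rootSet ℂ) = k := by
    rw [← hfd]
    exact Polynomial.card_rootSet_eq_natDegree hfs (IsAlgClosed.splits _)
  obtain ⟨τ, hτ, hg⟩ : ∃ τ : ℂ, f.eval τ = 0 ∧ (g1 : ℂ) - τ * g2 ≠ 0 := by
    have h2 : 1 < Fintype.card (f.rootSet ℂ) := by omega
    obtain ⟨a, b, hab⟩ := Fintype.one_lt_card_iff.1 h2
    have ha : f.eval (a : ℂ) = 0 := by
      have := (Polynomial.mem_rootSet.1 a.2).2
      simpa using this
    have hb : f.eval (b : ℂ) = 0 := by
      have := (Polynomial.mem_rootSet.1 b.2).2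
      simpa using this
    by_contra hcon
    push Not at hcon
    have h3 := hcon a ha
    have h4 := hcon b hb
    have h5 : ((a : ℂ) - b) * g2 = 0 := by linear_combination h4 - h3
    rcases mul_eq_zero.1 h5 with h6 | h6
    · exact hab (Subtype.ext (by linear_combination h6))
    · rw [h6, mul_zero, sub_zero] at h3
      apply hΔ
      have h7 : g1 = 0 := by exact_mod_cast h3
      have h8 : g2 = 0 := by exact_mod_cast h6
      rw [h7, h8]; ring
  set α : ℂ := -((x1 : ℂ) - τ * y1) / ((g1 : ℂ) - τ * g2) with hα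
  have hαe : (x1 : ℂ) + α * g1 = τ * ((y1 : ℂ) + α * g2) := by
    have : α * ((g1 : ℂ) - τ * g2) = -((x1 : ℂ) - τ * y1) := by
      rw [hα]; field_simp
    linear_combination this
  have hroot : (h.map (Int.castRingHom ℂ)).eval α = 0 := by
    rw [hh, map_cast_onLine, eval_onLine]
    have h1 : (fun i => ((pt u v x1 y1 i : ℤ) : ℂ) + α * ((pt u v g1 g2 i : ℤ) : ℂ)) =
        fun i => ((y1 : ℂ) + α * g2) * ((v i : ℂ) + τ * (u i : ℂ)) := by
      funext i
      unfold pt
      push_cast
      linear_combination (u i : ℂ) * hαe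
    rw [h1, aeval_mul_hom F hk]
    rw [hf, eval_onLine] at hτ
    rw [hτ, mul_zero]
  have hc : h = Polynomial.C (h.coeff 0) := Polynomial.eq_C_of_natDegree_eq_zero hdeg
  rw [hc] at hroot hsep
  simp only [Polynomial.map_C, Polynomial.eval_C] at hroot
  have hc0 : h.coeff 0 = 0 := by
    rw [eq_intCast] at hroot
    exact_mod_cast hroot
  rw [hc0, map_zero, Polynomial.map_zero] at hsep
  exact Polynomial.not_separable_zero hsep

end Pool.Agent.N445.VW
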