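import Mathlib
import Pool.Agent.N445.VW.Ln

/-! # Points in a residue class of a plane -/

set_option autoImplicit false

namespace Pool.Agent.N445.VW

open MvPolynomial Pool.Agent.TH910.Voj Pool.Agent.H813R3.Voj

/-- a short vector of a lattice of index `m` in the plane -/
theorem exists_short (m X Y L : ℕ) (hm : 1 ≤ m) (hL : 1 ≤ L) (hLm : L ^ 2 * m ≤ X * Y)
    (a b : ℤ) : ∃ g : ℤ × ℤ, g ≠ 0 ∧ (m : ℤ) ∣ g.1 * b - g.2 * a ∧ |g.1| * L ≤ X ∧
      |g.2| * L ≤ Y := by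
  classical
  have hm0 : (0 : ℤ) < m := by exact_mod_cast hm
  set s : Finset (ℤ × ℤ) := Finset.Icc (0 : ℤ) ((X / L : ℕ) : ℤ) ×ˢ Finset.Icc (0 : ℤ) ((Y / L : ℕ) : ℤ)
    with hs
  have hcard : (Finset.Ico (0 : ℤ) m).card < s.card := by
    rw [hs, Finset.card_product, Int.card_Icc, Int.card_Icc, Int.card_Ico]
    have h1 : X < L * (X / L + 1) := Nat.lt_mul_div_succ X hL
    have h2 : Y < L * (Y / L + 1) := Nat.lt_mul_div_succ Y hL
    have e0 : ∀ c : ℕ, ((c : ℤ) + 1 - 0).toNat = c + 1 := fun c => by omega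
    have e1 := e0 (X / L)
    have e2 := e0 (Y / L)
    have e3 : ((m : ℤ) - 0).toNat = m := by omega
    rw [e1, e2, e3]
    by_contra hcon
    push Not at hcon
    have h3 : X * Y < (L * (X / L + 1)) * (L * (Y / L + 1)) := Nat.mul_lt_mul'' h1 h2
    have h4 : (L * (X / L + 1)) * (L * (Y / L + 1)) = L ^ 2 * ((X / L + 1) * (Y / L + 1)) := by ring
    have h5 : L ^ 2 * ((X / L + 1) * (Y / L + 1)) ≤ L ^ 2 * m := Nat.mul_le_mul_left _ hcon
    omega
  obtain ⟨z, hz, w, hw, hne, heq⟩ := Finset.exists_ne_map_eq_of_card_lt_of_maps_to hcard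
    (f := fun z : ℤ × ℤ => (z.1 * b - z.2 * a) % (m : ℤ)) (by
      intro z _
      rw [Finset.mem_coe, Finset.mem_Ico]
      exact ⟨Int.emod_nonneg _ hm0.ne', Int.emod_lt_of_pos _ hm0⟩)
  rw [hs, Finset.mem_product, Finset.mem_Icc, Finset.mem_Icc] at hz hw
  have hXL : ((X / L : ℕ) : ℤ) * L ≤ X := by exact_mod_cast Nat.div_mul_le_self X L
  have hYL : ((Y / L : ℕ) : ℤ) * L ≤ Y := by exact_mod_cast Nat.div_mul_le_self Y L
  refine ⟨z - w, sub_ne_zero.2 hne, ?_, ?_, ?_⟩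
  · have h1 : (m : ℤ) ∣ (z.1 * b - z.2 * a) - (w.1 * b - w.2 * a) := Int.ModEq.dvd heq.symm
    have h2 : (z - w).1 * b - (z - w).2 * a = (z.1 * b - z.2 * a) - (w.1 * b - w.2 * a) := by
      rw [Prod.fst_sub, Prod.snd_sub]; ring
    rw [h2]
    exact h1
  · refine le_trans (mul_le_mul_of_nonneg_right ?_ (Int.natCast_nonneg _)) hXL
    rw [Prod.fst_sub, abs_le]
    constructor <;> omega
  · refine le_trans (mul_le_mul_of_nonneg_right ?_ (Int.natCast_nonneg _)) hYL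
    rw [Prod.snd_sub, abs_le]
    constructor <;> omega

/-- a short primitive vector of a lattice of index `m` in the plane -/
theorem exists_short_prim (m X Y L : ℕ) (hm : 1 ≤ m) (hL : 1 ≤ L) (hLm : L ^ 2 * m ≤ X * Y)
    (a b : ℤ) : ∃ g : ℤ × ℤ, g ≠ 0 ∧ (m : ℤ) ∣ g.1 * b - g.2 * a ∧ |g.1| * L ≤ X ∧
      |g.2| * L ≤ Y ∧ ∀ w : ℤ × ℤ, (m : ℤ) ∣ w.1 * b - w.2 * a → g.1 * w.2 - g.2 * w.1 = 0 →
        ∃ c : ℤ, w = (c * g.1, c * g.2) := by
  classical
  have hex : ∃ N : ℕ, ∃ g : ℤ × ℤ, g ≠ 0 ∧ (m : ℤ) ∣ g.1 * b - g.2 * a ∧ |g.1| * L ≤ X ∧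
      |g.2| * L ≤ Y ∧ g.1.natAbs + g.2.natAbs = N := by
    obtain ⟨g, h1, h2, h3, h4⟩ := exists_short m X Y L hm hL hLm a b
    exact ⟨_, g, h1, h2, h3, h4, rfl⟩
  obtain ⟨g, h1, h2, h3, h4, h5⟩ := Nat.find_spec hex
  refine ⟨g, h1, h2, h3, h4, fun w hw hdet => ?_⟩
  have hmin : ∀ w' : ℤ × ℤ, (m : ℤ) ∣ w'.1 * b - w'.2 * a → |w'.1| ≤ |g.1| → |w'.2| ≤ |g.2| →
      w'.1.natAbs + w'.2.natAbs < g.1.natAbs + g.2.natAbs → w' = 0 := by
    intro w' e1 e2 e3 e4
    by_contra hne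
    rw [h5] at e4
    refine Nat.find_min hex e4 ⟨w', hne, e1, ?_, ?_, rfl⟩
    · exact (mul_le_mul_of_nonneg_right e2 (Int.natCast_nonneg _)).trans h3
    · exact (mul_le_mul_of_nonneg_right e3 (Int.natCast_nonneg _)).trans h4
  by_cases hg1 : g.1 = 0
  · have hg2 : g.2 ≠ 0 := by
      intro h
      exact h1 (Prod.ext hg1 h)
    rw [hg1, zero_mul, zero_sub, neg_eq_zero] at hdet
    have hw1 : w.1 = 0 := by
      rcases mul_eq_zero.1 hdet with h | h
      · exact absurd h hg2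
      · exact h
    refine ⟨w.2 / g.2, ?_⟩
    have h6 := hmin (0, w.2 % g.2) ?_ ?_ ?_ ?_
    · have h7 : w.2 % g.2 = 0 := congrArg Prod.snd h6
      refine Prod.ext ?_ ?_
      · simp only; rw [hw1, hg1, mul_zero]
      · simp only
        have := Int.emod_add_mul_ediv w.2 g.2
        rw [h7] at this
        linarith
    · simp only
      have e1 : (0 : ℤ) * b - w.2 % g.2 * a = (w.1 * b - w.2 * a) - (w.2 / g.2) * (g.1 * b - g.2 * a) := by
        have := Int.emod_add_mul_ediv w.2 g.2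
        rw [hw1, hg1]
        linear_combination a * (-1) * this
      rw [e1]
      exact dvd_sub hw (h2.mul_left _)
    · simp
    · simp only
      rw [abs_of_nonneg (Int.emod_nonneg _ hg2)]
      exact (Int.emod_lt_abs _ hg2).le
    · simp only
      have e1 := Int.emod_nonneg w.2 hg2
      have e2 := Int.emod_lt_abs w.2 hg2
      have e3 : (w.2 % g.2).natAbs < g.2.natAbs := by
        zify
        rw [abs_of_nonneg e1]
        exact e2
      rw [hg1, Int.natAbs_zero]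
      omega
  · refine ⟨w.1 / g.1, ?_⟩
    set c := w.1 / g.1 with hc
    have hdiv := Int.emod_add_mul_ediv w.1 g.1
    rw [← hc] at hdiv
    have hr0 := Int.emod_nonneg w.1 hg1
    have hr1 := Int.emod_lt_abs w.1 hg1
    set r := w.1 % g.1 with hr
    -- the second coordinate
    have hw2 : g.1 * (w.2 - c * g.2) = g.2 * r := by
      linear_combination hdet - g.2 * hdiv
    have habs : |g.1| * |w.2 - c * g.2| = |g.2| * r := by
      rw [← abs_mul, hw2, abs_mul, abs_of_nonneg hr0]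
    have hg1p : 0 < |g.1| := abs_pos.2 hg1
    have hle : |w.2 - c * g.2| ≤ |g.2| := by
      by_contra hcon
      push Not at hcon
      have h8 : |g.2| * r ≤ |g.2| * |g.1| := mul_le_mul_of_nonneg_left hr1.le (abs_nonneg _)
      have h9 : |g.1| * |g.2| < |g.1| * |w.2 - c * g.2| := mul_lt_mul_of_pos_left hcon hg1p
      nlinarith
    have h6 := hmin (r, w.2 - c * g.2) ?_ ?_ hle ?_
    · have h7 : r = 0 := congrArg Prod.fst h6
      have h8 : w.2 - c * g.2 = 0 := congrArg Prod.snd h6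
      refine Prod.ext ?_ ?_
      · simp only
        rw [h7] at hdiv
        linarith
      · simp only
        linarith
    · simp only
      have e1 : r * b - (w.2 - c * g.2) * a = (w.1 * b - w.2 * a) - c * (g.1 * b - g.2 * a) := by
        linear_combination b * hdiv
      rw [e1]
      exact dvd_sub hw (h2.mul_left _)
    · simp only
      rw [abs_of_nonneg hr0]
      exact hr1.le
    · simp only
      have e3 : r.natAbs < g.1.natAbs := by
        zify
        rw [abs_of_nonneg hr0]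
        exact hr1
      have e4 : (w.2 - c * g.2).natAbs ≤ g.2.natAbs := by
        zify
        exact hle
      omega

/-- The number of points on a line of the plane with values of a given shape. -/
theorem line_card {n : ℕ} (F : MvPolynomial (Fin n) ℤ) {k : ℕ} (hk : F.IsHomogeneous k)
    (hk2 : 2 ≤ k) (e : ℕ) (he : 1 ≤ e) (A : ℕ) (ε : ℝ) (hε : 0 < ε) :
    ∃ C : ℝ, 0 < C ∧ ∀ R : ℕ, 1 ≤ R → ∀ u v : Fin n → ℤ,
      eval (Fin.append u v) (Phi F k) ≠ 0 → ∀ g1 g2 x1 y1 : ℤ, g1 * y1 - g2 * x1 ≠ 0 →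
      ∀ σ : ℤ, σ ≠ 0 → ∀ N : ℕ, 1 ≤ N → N ≤ R ^ A →
      σ ∣ N → e ∣ N → eval (Fin.append u v) (Phi F k) ∣ N → g1 * y1 - g2 * x1 ∣ N →
      ∀ T : Finset ℤ, (∀ t ∈ T, |t| ≤ R ∧ ∃ z : ℤ, |z| ≤ (R : ℤ) ^ A ∧
        eval (pt u v (x1 + t * g1) (y1 + t * g2)) F = σ * z ^ e) →
      (T.card : ℝ) ≤ C * (R : ℝ) ^ (1 / (e : ℝ) + ε) := by
  obtain ⟨C, hC0, hC⟩ := bp2 e he k (by omega) A ε hε
  refine ⟨C, hC0, fun R hR u v hΦ g1 g2 x1 y1 hΔ σ hσ N hN hNR hσN heN hΦN hΔN T hT => ?_⟩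
  obtain ⟨hd1, hd2⟩ := line_deg F hk hk2 u v hΦ g1 g2 x1 y1 hΔ
  have hsep := line_sep F hk (by omega) u v hΦ g1 g2 x1 y1 hΔ
  refine hC R hR _ hd1 hd2 hsep σ hσ N hN (by rw [Real.rpow_natCast]; exact_mod_cast hNR) T ?_ ?_
  · intro t ht
    obtain ⟨h1, z, h2, h3⟩ := hT t ht
    refine ⟨h1, z, h2, ?_⟩
    rw [← h3, eval_onLine]
    have h4 : (fun i => pt u v x1 y1 i + t * pt u v g1 g2 i) =
        pt u v (x1 + t * g1) (y1 + t * g2) := by
      funext i; unfold pt; ring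
    rw [h4]
    rfl
  · intro q hq hqN
    have hq' : ∀ z : ℤ, z ∣ N → ¬ (q : ℤ) ∣ z := fun z hz h =>
      hqN (Int.natCast_dvd_natCast.1 (h.trans hz))
    have : Fact q.Prime := ⟨hq⟩
    refine ⟨hq' σ hσN, fun h => hqN (h.trans heN), fun t _ h1 h2 => ?_⟩
    have hcast : ∀ z : ℤ, z ∣ N → ((z : ℤ) : ZMod q) ≠ 0 := fun z hz h =>
      hq' z hz ((ZMod.intCast_zmod_eq_zero_iff_dvd z q).1 h)
    refine line_simple (L := ZMod q) F hk (by omega) u v (hcast _ hΦN) g1 g2 x1 y1 (hcast _ hΔN)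
      (t : ZMod q) ?_ ?_
    · have h3 : ((onLine F (pt u v x1 y1) (pt u v g1 g2)).map (Int.castRingHom (ZMod q))).eval
          (t : ZMod q) = (((onLine F (pt u v x1 y1) (pt u v g1 g2)).eval t : ℤ) : ZMod q) :=
        Polynomial.eval_map_apply (Int.castRingHom (ZMod q)) t
      rw [h3]
      exact (ZMod.intCast_zmod_eq_zero_iff_dvd _ q).2 h1
    · have h3 : ((Polynomial.derivative (onLine F (pt u v x1 y1) (pt u v g1 g2))).map
          (Int.castRingHom (ZMod q))).eval (t : ZMod q) = (((Polynomial.derivative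
          (onLine F (pt u v x1 y1) (pt u v g1 g2))).eval t : ℤ) : ZMod q) :=
        Polynomial.eval_map_apply (Int.castRingHom (ZMod q)) t
      rw [h3]
      exact (ZMod.intCast_zmod_eq_zero_iff_dvd _ q).2 h2

end Pool.Agent.N445.VW
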