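import Mathlib
import Pool.Agent.TH910.Voj.Count

/-! # Every integer vector is a combination of two short vectors -/

set_option autoImplicit false

namespace Pool.Agent.N445.VW

open Pool.Agent.TH910.Voj

/-- Simultaneous approximation. -/
theorem dirichlet {n : ℕ} (x : Fin (n + 1) → ℤ) (X Q : ℕ) (l0 : Fin (n + 1)) (hl0 : |x l0| = X)
    (hX : 1 ≤ X) (hQ : 1 ≤ Q) (hQX : Q ^ n < X) :
    ∃ w : Fin (n + 1) → ℤ, w l0 ≠ 0 ∧ |w l0| < X ∧
      ∀ i, (Q : ℤ) * |x l0 * w i - x i * w l0| ≤ X := by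
  classical
  have hX0 : (0 : ℤ) < X := by exact_mod_cast hX
  have hQ0 : (0 : ℤ) < Q := by exact_mod_cast hQ
  obtain ⟨s, hs, hxs⟩ : ∃ s : ℤ, |s| = 1 ∧ x l0 = s * X := by
    rcases abs_choice (x l0) with h | h
    · exact ⟨1, by simp, by rw [one_mul, ← hl0, h]⟩
    · exact ⟨-1, by simp, by linarith⟩
  set φ : ℕ → (Fin (n + 1) → ℤ) := fun j i => (((j : ℤ) * x i) % X) * Q / X with hφ
  have hmaps : ∀ j ∈ Finset.range (Q ^ n + 1), φ j ∈ Fintype.piFinset
      (fun i => if i = l0 then ({0} : Finset ℤ) else Finset.Ico 0 (Q : ℤ)) := by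
    intro j _
    rw [Fintype.mem_piFinset]
    intro i
    simp only [hφ]
    split_ifs with hi
    · rw [hi, hxs, Finset.mem_singleton]
      have : (j : ℤ) * (s * X) % X = 0 := by
        rw [← mul_assoc]; exact Int.mul_emod_left _ _
      rw [this]; simp
    · rw [Finset.mem_Ico]
      have h1 := Int.emod_nonneg ((j : ℤ) * x i) hX0.ne'
      have h2 := Int.emod_lt_of_pos ((j : ℤ) * x i) hX0
      refine ⟨Int.ediv_nonneg (by positivity) hX0.le, ?_⟩
      refine Int.ediv_lt_of_lt_mul hX0 ?_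
      nlinarith
  have hcard : (Fintype.piFinset
      (fun i => if i = l0 then ({0} : Finset ℤ) else Finset.Ico 0 (Q : ℤ))).card = Q ^ n := by
    rw [Fintype.card_piFinset, ← Finset.mul_prod_erase Finset.univ _ (Finset.mem_univ l0)]
    simp only [if_true, Finset.card_singleton, one_mul]
    rw [Finset.prod_congr rfl (g := fun _ => Q)]
    · rw [Finset.prod_const, Finset.card_erase_of_mem (Finset.mem_univ _), Finset.card_univ,
        Fintype.card_fin, Nat.add_sub_cancel]
    · intro i hi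
      rw [if_neg (Finset.ne_of_mem_erase hi)]
      simp
  obtain ⟨j1, hj1, j2, hj2, hne, heq⟩ := Finset.exists_ne_map_eq_of_card_lt_of_maps_to
    (by rw [hcard, Finset.card_range]; omega) hmaps
  wlog hlt : j1 < j2 generalizing j1 j2
  · exact this j2 hj2 j1 hj1 hne.symm heq.symm (by omega)
  rw [Finset.mem_range] at hj1 hj2
  refine ⟨fun i => ((j2 : ℤ) * x i) / X - ((j1 : ℤ) * x i) / X, ?_, ?_, ?_⟩
  · have h1 : ∀ j : ℕ, (j : ℤ) * x l0 / X = j * s := by
      intro j
      rw [hxs, ← mul_assoc]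
      exact Int.mul_ediv_cancel _ hX0.ne'
    simp only [h1]
    rw [← sub_mul]
    refine mul_ne_zero (by omega) ?_
    rintro rfl
    simp at hs
  · have h1 : ∀ j : ℕ, (j : ℤ) * x l0 / X = j * s := by
      intro j
      rw [hxs, ← mul_assoc]
      exact Int.mul_ediv_cancel _ hX0.ne'
    simp only [h1]
    rw [← sub_mul, abs_mul, hs, mul_one]
    rw [abs_of_nonneg (by omega)]
    have : (j2 : ℤ) ≤ (Q ^ n : ℕ) := by exact_mod_cast (by omega : j2 ≤ Q ^ n)
    have h3 : ((Q ^ n : ℕ) : ℤ) < X := by exact_mod_cast hQX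
    omega
  · intro i
    have h1 : ∀ j : ℕ, (j : ℤ) * x l0 / X = j * s := by
      intro j
      rw [hxs, ← mul_assoc]
      exact Int.mul_ediv_cancel _ hX0.ne'
    simp only [h1]
    set r1 := ((j1 : ℤ) * x i) % X with hr1
    set r2 := ((j2 : ℤ) * x i) % X with hr2
    have e1 := Int.emod_add_mul_ediv ((j1 : ℤ) * x i) X
    have e2 := Int.emod_add_mul_ediv ((j2 : ℤ) * x i) X
    rw [← hr1] at e1
    rw [← hr2] at e2
    have h2 : x l0 * (((j2 : ℤ) * x i) / X - ((j1 : ℤ) * x i) / X) - x i * (j2 * s - j1 * s) =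
        s * (r1 - r2) := by
      rw [hxs]
      linear_combination s * e2 - s * e1
    rw [h2, abs_mul, hs, one_mul]
    have h3 := congrFun heq i
    simp only [hφ] at h3
    rw [← hr1, ← hr2] at h3
    have f1 := Int.emod_add_mul_ediv (r1 * Q) X
    have f2 := Int.emod_add_mul_ediv (r2 * Q) X
    have g1 := Int.emod_nonneg (r1 * Q) hX0.ne'
    have g2 := Int.emod_nonneg (r2 * Q) hX0.ne'
    have g3 := Int.emod_lt_of_pos (r1 * Q) hX0
    have g4 := Int.emod_lt_of_pos (r2 * Q) hX0
    rw [h3] at f1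
    have h4 : |r1 * Q - r2 * Q| ≤ X := by
      rw [abs_le]
      constructor <;> linarith
    rw [← sub_mul, abs_mul, abs_of_pos hQ0] at h4
    linarith

/-- A vector which is not proportional to `x` and forms small minors with `x`. -/
theorem exists_companion {n : ℕ} (hn : 1 ≤ n) (x c : Fin (n + 1) → ℤ)
    (hc : ∑ i, c i * x i = 1) (B : ℕ) (hB : 1 ≤ B) (hx : x ∈ box (n + 1) B) :
    ∃ (w : Fin (n + 1) → ℤ) (W : ℕ), (∀ i l, |x i * w l - x l * w i| ≤ W) ∧
      (∃ i l, x i * w l - x l * w i ≠ 0) ∧ W ^ n ≤ 4 ^ n * B ^ (n - 1) := by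
  classical
  rw [mem_box] at hx
  obtain ⟨l0, -, hl0⟩ := Finset.exists_max_image Finset.univ (fun i => |x i|)
    Finset.univ_nonempty
  set X := (x l0).natAbs with hX
  have hxX : |x l0| = X := Int.abs_eq_natAbs _
  have hxi : ∀ i, |x i| ≤ X := fun i => by rw [← hxX]; exact hl0 i (Finset.mem_univ i)
  have hXB : X ≤ B := by
    have := hx l0
    omega
  have hX1 : 1 ≤ X := by
    by_contra hcon
    have h0 : X = 0 := by omega
    have h1 : ∀ i, x i = 0 := by
      intro i
      have := hxi i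
      rw [h0] at this
      exact abs_eq_zero.1 (le_antisymm (by exact_mod_cast this) (abs_nonneg _))
    simp [h1] at hc
  by_cases hX2 : X = 1
  · -- a unit vector
    obtain ⟨j, hj⟩ : ∃ j : Fin (n + 1), j ≠ l0 := by
      have : Nontrivial (Fin (n + 1)) := Fin.nontrivial_iff_two_le.2 (by omega)
      exact exists_ne l0
    refine ⟨Pi.single j 1, 1, ?_, ⟨l0, j, ?_⟩, ?_⟩
    · intro i l
      have hb : ∀ i, |x i| ≤ 1 := fun i => by have := hxi i; rw [hX2] at this; exact_mod_cast this
      by_cases hij : i = j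
      · subst hij
        by_cases hlj : l = i
        · subst hlj; simp
        · rw [Pi.single_eq_same, Pi.single_eq_of_ne hlj]
          simpa using hb l
      · rw [Pi.single_eq_of_ne hij]
        by_cases hlj : l = j
        · subst hlj
          rw [Pi.single_eq_same]
          simpa using hb i
        · rw [Pi.single_eq_of_ne hlj]; simp
    · rw [Pi.single_eq_same, Pi.single_eq_of_ne hj.symm]
      intro h
      simp only [mul_one, mul_zero, sub_zero] at h
      rw [h] at hX
      simp at hX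
      omega
    · have h1 : 1 ≤ 4 ^ n := Nat.one_le_pow _ _ (by norm_num)
      have h2 : 1 ≤ B ^ (n - 1) := Nat.one_le_pow _ _ hB
      rw [one_pow]
      nlinarith
  · set Q := Nat.findGreatest (fun q => q ^ n < X) X with hQ
    have hQ1 : 1 ≤ Q := by
      refine Nat.le_findGreatest hX1 ?_
      rw [one_pow]; omega
    have hQX : Q ^ n < X := by
      have := Nat.findGreatest_spec (P := fun q => q ^ n < X) hX1 (by rw [one_pow]; omega)
      exact this
    have hQX' : Q < X := lt_of_le_of_lt (Nat.le_self_pow (by omega) Q) hQX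
    have hQ2 : X ≤ (Q + 1) ^ n := by
      by_contra hcon
      have := Nat.le_findGreatest (P := fun q => q ^ n < X) (n := X) (m := Q + 1) (by omega)
        (by omega)
      omega
    obtain ⟨w, hw0, hwX, hw⟩ := dirichlet x X Q l0 hxX hX1 hQ1 hQX
    have hX0 : (0 : ℤ) < X := by exact_mod_cast hX1
    have hQ0 : (0 : ℤ) < Q := by exact_mod_cast hQ1
    refine ⟨w, 2 * X / Q, ?_, ?_, ?_⟩
    · intro i l
      have h1 : x l0 * (x i * w l - x l * w i) =
          x i * (x l0 * w l - x l * w l0) - x l * (x l0 * w i - x i * w l0) := by ring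
      have h2 : (X : ℤ) * ((Q : ℤ) * |x i * w l - x l * w i|) ≤ X * (2 * X) := by
        calc (X : ℤ) * ((Q : ℤ) * |x i * w l - x l * w i|)
            = Q * |x l0 * (x i * w l - x l * w i)| := by rw [abs_mul, hxX]; ring
          _ ≤ Q * (|x i| * |x l0 * w l - x l * w l0| + |x l| * |x l0 * w i - x i * w l0|) := by
              rw [h1]
              refine mul_le_mul_of_nonneg_left ((abs_sub _ _).trans ?_) hQ0.le
              rw [abs_mul, abs_mul]
          _ = |x i| * (Q * |x l0 * w l - x l * w l0|) + |x l| * (Q * |x l0 * w i - x i * w l0|) := by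
              ring
          _ ≤ X * X + X * X := by
              refine add_le_add (mul_le_mul (hxi i) (hw l) (by positivity) hX0.le)
                (mul_le_mul (hxi l) (hw i) (by positivity) hX0.le)
          _ = X * (2 * X) := by ring
      have h3 : (Q : ℤ) * |x i * w l - x l * w i| ≤ 2 * X := le_of_mul_le_mul_left h2 hX0
      push_cast
      rw [Int.le_ediv_iff_mul_le hQ0]
      linarith
    · by_contra hcon
      push Not at hcon
      have h1 : w l0 = x l0 * ∑ i, c i * w i := by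
        calc w l0 = (∑ i, c i * x i) * w l0 := by rw [hc, one_mul]
          _ = ∑ i, c i * (x i * w l0) := by
              rw [Finset.sum_mul]
              exact Finset.sum_congr rfl fun i _ => by ring
          _ = ∑ i, c i * (x l0 * w i) := by
              refine Finset.sum_congr rfl fun i _ => ?_
              have := hcon i l0
              rw [sub_eq_zero.1 this]
          _ = x l0 * ∑ i, c i * w i := by
              rw [Finset.mul_sum]
              exact Finset.sum_congr rfl fun i _ => by ring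
      have h2 : (X : ℤ) ∣ w l0 := by
        rw [h1, ← hxX]
        exact (dvd_mul_right _ _).trans (mul_dvd_mul_right ((abs_dvd _ _).2 dvd_rfl) _)
      exact hw0 (Int.eq_zero_of_abs_lt_dvd h2 hwX)
    · have h1 : 2 * X / Q * Q ≤ 2 * X := Nat.div_mul_le_self _ _
      have h2 : (2 * X / Q) ^ n * Q ^ n ≤ 2 ^ n * X ^ n := by
        rw [← mul_pow, ← mul_pow]
        exact Nat.pow_le_pow_left h1 n
      have h3 : X ≤ 2 ^ n * Q ^ n := by
        rw [← mul_pow]
        exact hQ2.trans (Nat.pow_le_pow_left (by omega) n)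
      have h4 : X * (2 * X / Q) ^ n ≤ X * (4 ^ n * X ^ (n - 1)) := by
        calc X * (2 * X / Q) ^ n ≤ (2 ^ n * Q ^ n) * (2 * X / Q) ^ n := Nat.mul_le_mul_right _ h3
          _ = 2 ^ n * ((2 * X / Q) ^ n * Q ^ n) := by ring
          _ ≤ 2 ^ n * (2 ^ n * X ^ n) := Nat.mul_le_mul_left _ h2
          _ = X * (4 ^ n * X ^ (n - 1)) := by
              have h5 : X ^ n = X * X ^ (n - 1) := by
                rw [← pow_succ']; congr 1; omega
              have h6 : (4 : ℕ) ^ n = 2 ^ n * 2 ^ n := by rw [← mul_pow]; norm_num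
              rw [h5, h6]; ring
      refine (Nat.le_of_mul_le_mul_left h4 hX1).trans ?_
      exact Nat.mul_le_mul_left _ (Nat.pow_le_pow_left hXB _)

theorem exists_nearest (a b : ℤ) (hb : b ≠ 0) : ∃ c : ℤ, 2 * |a - c * b| ≤ |b| := by
  refine ⟨round ((a : ℚ) / b), ?_⟩
  have h1 := abs_sub_round ((a : ℚ) / b)
  have hb' : (0 : ℚ) < |(b : ℚ)| := abs_pos.2 (by exact_mod_cast hb)
  have hb0 : (b : ℚ) ≠ 0 := by exact_mod_cast hb
  have h2 : |(a : ℚ) - (round ((a : ℚ) / b) : ℤ) * b| = |(a : ℚ) / b - (round ((a : ℚ) / b) : ℤ)| *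
      |(b : ℚ)| := by
    rw [← abs_mul, sub_mul, div_mul_cancel₀ _ hb0]
  have h3 : 2 * |(a : ℚ) - (round ((a : ℚ) / b) : ℤ) * b| ≤ |(b : ℚ)| := by
    rw [h2]; nlinarith
  exact_mod_cast h3

/-- **Reduced pairs.** -/
theorem exists_reduced {n : ℕ} (hn : 1 ≤ n) (x c : Fin (n + 1) → ℤ)
    (hc : ∑ i, c i * x i = 1) (B : ℕ) (hB : 1 ≤ B) (hx : x ∈ box (n + 1) B) :
    ∃ (u v : Fin (n + 1) → ℤ) (ξ η : ℤ) (M N : ℕ), 1 ≤ M ∧ M ≤ N ∧ u ∈ box (n + 1) M ∧
      v ∈ box (n + 1) N ∧ (∃ l, 2 * |v l| ≤ M) ∧ (M * N) ^ n ≤ 8 ^ n * B ^ (n - 1) ∧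
      (x = fun i => ξ * u i + η * v i) ∧ |ξ| * M ≤ 4 * B ∧ |η| * N ≤ 4 * B := by
  classical
  obtain ⟨w, W, hW, ⟨i1, l1, hne1⟩, hWn⟩ := exists_companion hn x c hc B hB hx
  set P : ℕ → Prop := fun M => ∃ (u v : Fin (n + 1) → ℤ) (ξ η : ℤ),
    (x = fun i => ξ * u i + η * v i) ∧ (∃ i l, u i * v l - u l * v i ≠ 0) ∧
    (∀ i l, |u i * v l - u l * v i| ≤ W) ∧ u ∈ box (n + 1) M with hP
  have hex : ∃ M, P M := ⟨B, x, w, 1, 0, by funext i; ring, ⟨i1, l1, hne1⟩, hW, hx⟩
  set M := Nat.find hex with hM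
  obtain ⟨u, v, ξ, η, hxuv, ⟨i2, l2, hne⟩, hmin, hu⟩ := Nat.find_spec hex
  rw [← hM] at hu
  have hmin' := hmin
  have hM1 : 1 ≤ M := by
    by_contra hcon
    have h0 : M = 0 := by omega
    rw [h0, mem_box] at hu
    have h1 : ∀ i, u i = 0 := fun i =>
      abs_eq_zero.1 (le_antisymm (by exact_mod_cast hu i) (abs_nonneg _))
    apply hne
    rw [h1, h1]; ring
  obtain ⟨l, hl⟩ : ∃ l, |u l| = M := by
    by_contra hcon
    push Not at hcon
    have h1 : P (M - 1) := by
      refine ⟨u, v, ξ, η, hxuv, ⟨i2, l2, hne⟩, hmin, ?_⟩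
      rw [mem_box] at hu ⊢
      intro i
      have h2 := hu i
      have h3 := hcon i
      omega
    have := Nat.find_min' hex h1
    omega
  have hul : u l ≠ 0 := by
    intro h
    rw [h, abs_zero] at hl
    omega
  obtain ⟨c', hc'⟩ := exists_nearest (v l) (u l) hul
  set v' : Fin (n + 1) → ℤ := fun i => v i - c' * u i with hv'
  have hminor : ∀ i j, u i * v' j - u j * v' i = u i * v j - u j * v i := by
    intro i j
    simp only [hv']; ring
  obtain ⟨l', -, hl'⟩ := Finset.exists_max_image Finset.univ (fun i => |v' i|)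
    Finset.univ_nonempty
  set N := (v' l').natAbs with hN
  have hNl : |v' l'| = N := Int.abs_eq_natAbs _
  have hv'N : ∀ i, |v' i| ≤ N := fun i => by rw [← hNl]; exact hl' i (Finset.mem_univ i)
  have hMN : M ≤ N := by
    refine Nat.find_min' hex ?_
    refine ⟨v', u, η, ξ + η * c', ?_, ⟨l2, i2, ?_⟩, ?_, ?_⟩
    · rw [hxuv]; funext i; simp only [hv']; ring
    · have := hminor i2 l2
      intro h
      apply hne
      rw [← this]
      linarith
    · intro i j
      have h1 := hminor j i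
      have h2 : v' i * u j - v' j * u i = u j * v i - u i * v j := by linarith
      rw [h2]
      exact hmin j i
    · rw [mem_box]; exact hv'N
  have hvl : 2 * |v' l| ≤ M := by rw [← hl]; exact hc'
  rw [mem_box] at hx hu
  have hM0 : (0 : ℤ) < M := by exact_mod_cast hM1
  have hMNZ : (M : ℤ) ≤ N := by exact_mod_cast hMN
  have hN0 : (0 : ℤ) < N := by linarith
  have hB0 : (0 : ℤ) ≤ B := Int.natCast_nonneg B
  set δ := u l * v' l' - u l' * v' l with hδ
  have hδ1 : (M : ℤ) * N ≤ 2 * |δ| := by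
    have h1 : |u l * v' l'| - |u l' * v' l| ≤ |δ| := abs_sub_abs_le_abs_sub _ _
    rw [abs_mul, abs_mul, hl, hNl] at h1
    have h2 : |u l'| * (2 * |v' l|) ≤ M * M := mul_le_mul (hu l') hvl (by positivity) hM0.le
    nlinarith
  have hδ2 : |δ| ≤ W := by
    rw [hδ, hminor]
    exact hmin l l'
  refine ⟨u, v', ξ + η * c', η, M, N, hM1, hMN, by rw [mem_box]; exact hu,
    by rw [mem_box]; exact hv'N, ⟨l, hvl⟩, ?_, ?_, ?_, ?_⟩
  · have h1 : M * N ≤ 2 * W := by
      have : (M : ℤ) * N ≤ 2 * W := by linarith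
      exact_mod_cast this
    calc (M * N) ^ n ≤ (2 * W) ^ n := Nat.pow_le_pow_left h1 n
      _ = 2 ^ n * W ^ n := by rw [mul_pow]
      _ ≤ 2 ^ n * (4 ^ n * B ^ (n - 1)) := Nat.mul_le_mul_left _ hWn
      _ = 8 ^ n * B ^ (n - 1) := by
          rw [← mul_assoc, ← mul_pow]; norm_num
  · rw [hxuv]; funext i; simp only [hv']; ring
  · have hxi : ∀ i, x i = (ξ + η * c') * u i + η * v' i := by
      intro i; rw [hxuv]; simp only [hv']; ring
    have h1 : x l * v' l' - x l' * v' l = (ξ + η * c') * δ := by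
      rw [hxi l, hxi l', hδ]; ring
    have h2 : |x l * v' l' - x l' * v' l| ≤ B * N + B * |v' l| := by
      refine (abs_sub _ _).trans ?_
      rw [abs_mul, abs_mul, hNl]
      exact add_le_add (mul_le_mul_of_nonneg_right (hx l) hN0.le)
        (mul_le_mul_of_nonneg_right (hx l') (abs_nonneg _))
    rw [h1, abs_mul] at h2
    have h3 : |ξ + η * c'| * (M * N) ≤ (4 * B) * N := by
      calc |ξ + η * c'| * (M * N) ≤ |ξ + η * c'| * (2 * |δ|) :=
            mul_le_mul_of_nonneg_left hδ1 (abs_nonneg _)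
        _ = 2 * (|ξ + η * c'| * |δ|) := by ring
        _ ≤ 2 * (B * N + B * |v' l|) := by linarith
        _ = 2 * (B * N) + B * (2 * |v' l|) := by ring
        _ ≤ 2 * (B * N) + B * N := by
            have := mul_le_mul_of_nonneg_left (hvl.trans hMNZ) hB0
            linarith
        _ ≤ (4 * B) * N := by nlinarith
    have h4 : (|ξ + η * c'| * M) * N ≤ (4 * B) * N := by linarith
    exact le_of_mul_le_mul_right h4 hN0
  · have hxi : ∀ i, x i = (ξ + η * c') * u i + η * v' i := by
      intro i; rw [hxuv]; simp only [hv']; ring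
    have h1 : x l' * u l - x l * u l' = η * δ := by
      rw [hxi l, hxi l', hδ]; ring
    have h2 : |x l' * u l - x l * u l'| ≤ B * M + B * M := by
      refine (abs_sub _ _).trans ?_
      rw [abs_mul, abs_mul]
      exact add_le_add (mul_le_mul (hx l') (hu l) (abs_nonneg _) hB0)
        (mul_le_mul (hx l) (hu l') (abs_nonneg _) hB0)
    rw [h1, abs_mul] at h2
    have h3 : |η| * (M * N) ≤ (4 * B) * M := by
      calc |η| * (M * N) ≤ |η| * (2 * |δ|) := mul_le_mul_of_nonneg_left hδ1 (abs_nonneg _)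
        _ = 2 * (|η| * |δ|) := by ring
        _ ≤ 2 * (B * M + B * M) := by linarith
        _ = (4 * B) * M := by ring
    have h4 : (|η| * N) * M ≤ (4 * B) * M := by linarith
    exact le_of_mul_le_mul_right h4 hM0

end Pool.Agent.N445.VW
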