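import Mathlib
import Pool.Agent.N445.VW.Phi
import Pool.Agent.N445.VW.Red

/-! # Counting in the planes spanned by two short vectors -/

set_option autoImplicit false

namespace Pool.Agent.N445.VW

open MvPolynomial Pool.Agent.TH910.Voj Pool.Agent.H813R3.Voj

theorem card_le_sum_pairs {n : ℕ} (E : Finset (Fin n → ℤ))
    (P : Finset ((Fin n → ℤ) × (Fin n → ℤ))) (T : (Fin n → ℤ) × (Fin n → ℤ) → Finset (ℤ × ℤ))
    (h : ∀ x ∈ E, ∃ uv ∈ P, ∃ z ∈ T uv, x = fun i => z.1 * uv.1 i + z.2 * uv.2 i) :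
    E.card ≤ ∑ uv ∈ P, (T uv).card := by
  classical
  have hsub : E ⊆ P.biUnion fun uv => (T uv).image fun z => fun i => z.1 * uv.1 i + z.2 * uv.2 i := by
    intro x hx
    obtain ⟨uv, huv, z, hz, rfl⟩ := h x hx
    rw [Finset.mem_biUnion]
    exact ⟨uv, huv, Finset.mem_image.2 ⟨z, hz, rfl⟩⟩
  refine (Finset.card_le_card hsub).trans (Finset.card_biUnion_le.trans ?_)
  exact Finset.sum_le_sum fun uv _ => Finset.card_image_le

theorem card_le_pairs {n : ℕ} (E : Finset (Fin n → ℤ)) (X Y : ℕ)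
    (P : Finset ((Fin n → ℤ) × (Fin n → ℤ)))
    (h : ∀ x ∈ E, ∃ uv ∈ P, ∃ ξ η : ℤ, |ξ| ≤ X ∧ |η| ≤ Y ∧
      x = fun i => ξ * uv.1 i + η * uv.2 i) :
    E.card ≤ P.card * ((2 * X + 1) * (2 * Y + 1)) := by
  classical
  refine (card_le_sum_pairs E P (fun _ => (Finset.Icc (-(X : ℤ)) X) ×ˢ
    (Finset.Icc (-(Y : ℤ)) Y)) ?_).trans ?_
  · intro x hx
    obtain ⟨uv, huv, ξ, η, h1, h2, h3⟩ := h x hx
    refine ⟨uv, huv, (ξ, η), ?_, h3⟩
    rw [Finset.mem_product, Finset.mem_Icc, Finset.mem_Icc, ← abs_le, ← abs_le]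
    exact ⟨h1, h2⟩
  · rw [Finset.sum_const, Finset.card_product, card_Icc_int, card_Icc_int, smul_eq_mul]

/-- the vectors with one small coordinate -/
theorem card_small_coord (n U V : ℕ) :
    ((box (n + 1) V).filter fun v => ∃ l, |v l| ≤ (U : ℤ)).card ≤
      (n + 1) * ((2 * U + 1) * (2 * V + 1) ^ n) := by
  classical
  have hsub : ((box (n + 1) V).filter fun v => ∃ l, |v l| ≤ (U : ℤ)) ⊆
      (Finset.univ : Finset (Fin (n + 1))).biUnion fun l =>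
        Fintype.piFinset fun i => if i = l then Finset.Icc (-(U : ℤ)) U
          else Finset.Icc (-(V : ℤ)) V := by
    intro v hv
    rw [Finset.mem_filter, mem_box] at hv
    obtain ⟨h1, l, hl⟩ := hv
    rw [Finset.mem_biUnion]
    refine ⟨l, Finset.mem_univ _, ?_⟩
    rw [Fintype.mem_piFinset]
    intro i
    split_ifs with hi
    · rw [hi, Finset.mem_Icc, ← abs_le]; exact hl
    · rw [Finset.mem_Icc, ← abs_le]; exact h1 i
  refine (Finset.card_le_card hsub).trans ?_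
  refine (Finset.card_biUnion_le_card_mul _ _ ((2 * U + 1) * (2 * V + 1) ^ n) ?_).trans ?_
  · intro l _
    rw [Fintype.card_piFinset, ← Finset.mul_prod_erase Finset.univ _ (Finset.mem_univ l)]
    simp only [if_true, card_Icc_int]
    refine Nat.mul_le_mul_left _ ?_
    rw [Finset.prod_congr rfl (g := fun _ => 2 * V + 1)]
    · rw [Finset.prod_const, Finset.card_erase_of_mem (Finset.mem_univ _), Finset.card_univ,
        Fintype.card_fin, Nat.add_sub_cancel]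
    · intro i hi
      rw [if_neg (Finset.ne_of_mem_erase hi), card_Icc_int]
  · rw [Finset.card_univ, Fintype.card_fin]

/-- the condition on the points -/
def Rep {n : ℕ} (F : MvPolynomial (Fin (n + 1)) ℤ) (B U V : ℕ) (P1 P2 : ℝ)
    (x : Fin (n + 1) → ℤ) : Prop :=
  ∃ (u v : Fin (n + 1) → ℤ) (ξ η : ℤ), u ∈ box (n + 1) (2 * U) ∧ v ∈ box (n + 1) (2 * V) ∧
    (∃ l, |v l| ≤ (U : ℤ)) ∧ (x = fun i => ξ * u i + η * v i) ∧ |ξ| * U ≤ 4 * B ∧
    |η| * V ≤ 4 * B ∧ IsCoprime ξ η ∧ ∃ p : ℕ, p.Prime ∧ P1 < p ∧ (p : ℝ) ≤ P2 ∧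
      (p : ℤ) ^ 2 ∣ eval x F

/-- numerical data of a pair of sizes -/
theorem size_bounds (n B U V : ℕ) (hn : 2 ≤ n) (hB : 1 ≤ B) (hU : 1 ≤ U) (hUV : U ≤ 2 * V)
    (hprod : (U * V) ^ n ≤ 8 ^ n * B ^ (n - 1)) :
    ((U : ℝ) * V) ^ n ≤ 8 ^ n * (B : ℝ) ^ ((n : ℝ) - 1) ∧
    (U : ℝ) * V ≤ 8 * (B : ℝ) ^ (1 - 1 / (n : ℝ)) ∧ U ≤ 8 * B ∧ V ≤ 8 * B := by
  have hB1 : (1 : ℝ) ≤ B := by exact_mod_cast hB
  have hBpos : (0 : ℝ) < B := by linarith
  have hn0 : (0 : ℝ) < n := by exact_mod_cast (by omega : 0 < n)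
  have h1 : ((U : ℝ) * V) ^ n ≤ 8 ^ n * (B : ℝ) ^ ((n : ℝ) - 1) := by
    have h2 : ((U : ℝ) * V) ^ n ≤ 8 ^ n * (B : ℝ) ^ (n - 1) := by exact_mod_cast hprod
    have h3 : (B : ℝ) ^ ((n : ℝ) - 1) = (B : ℝ) ^ (n - 1) := by
      rw [← Real.rpow_natCast]
      congr 1
      rw [Nat.cast_sub (by omega)]; simp
    rw [h3]; exact h2
  have h2 : (U : ℝ) * V ≤ 8 * (B : ℝ) ^ (1 - 1 / (n : ℝ)) := by
    have h3 : ((U : ℝ) * V) ^ n ≤ (8 * (B : ℝ) ^ (1 - 1 / (n : ℝ))) ^ n := by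
      refine h1.trans (le_of_eq ?_)
      rw [mul_pow, ← Real.rpow_natCast ((B : ℝ) ^ (1 - 1 / (n : ℝ))), ← Real.rpow_mul hBpos.le]
      congr 2
      field_simp
    exact (pow_le_pow_iff_left₀ (by positivity) (by positivity) (by omega)).1 h3
  have h3 : (U : ℝ) * V ≤ 8 * B := by
    refine h2.trans ?_
    have : (B : ℝ) ^ (1 - 1 / (n : ℝ)) ≤ (B : ℝ) ^ (1 : ℝ) := by
      refine Real.rpow_le_rpow_of_exponent_le hB1 ?_
      have : 0 ≤ 1 / (n : ℝ) := by positivity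
      linarith
    rw [Real.rpow_one] at this
    linarith
  have h4 : U * V ≤ 8 * B := by exact_mod_cast h3
  refine ⟨h1, h2, ?_, ?_⟩
  · have : 1 ≤ V := by omega
    nlinarith
  · nlinarith

/-- bound by the number of pairs -/
theorem card_by_pairs {n : ℕ} (F : MvPolynomial (Fin (n + 1)) ℤ) (B U V : ℕ) (P1 P2 : ℝ)
    (hU : 1 ≤ U) (hV : 1 ≤ V) (hUB : U ≤ 8 * B) (hVB : V ≤ 8 * B)
    (E : Finset (Fin (n + 1) → ℤ)) (P : Finset ((Fin (n + 1) → ℤ) × (Fin (n + 1) → ℤ)))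
    (h : ∀ x ∈ E, ∃ uv ∈ P, ∃ ξ η : ℤ, |ξ| * U ≤ 4 * B ∧ |η| * V ≤ 4 * B ∧
      x = fun i => ξ * uv.1 i + η * uv.2 i) :
    (E.card : ℝ) ≤ P.card * (1024 * (B : ℝ) ^ 2 / (U * V)) := by
  have hU0 : (0 : ℝ) < U := by exact_mod_cast hU
  have hV0 : (0 : ℝ) < V := by exact_mod_cast hV
  have key : ∀ (W : ℕ), 1 ≤ W → W ≤ 8 * B → ∀ ξ : ℤ, |ξ| * W ≤ 4 * B → |ξ| ≤ ((4 * B / W : ℕ) : ℤ) := by
    intro W hW _ ξ hξ
    push_cast
    rw [Int.le_ediv_iff_mul_le (by exact_mod_cast hW)]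
    exact hξ
  have key2 : ∀ (W : ℕ), 1 ≤ W → W ≤ 8 * B →
      (2 * ((4 * B / W : ℕ) : ℝ) + 1) ≤ 32 * (B : ℝ) / W := by
    intro W hW hWB
    have hW0 : (0 : ℝ) < W := by exact_mod_cast hW
    have h1 : ((4 * B / W : ℕ) : ℝ) ≤ 4 * (B : ℝ) / W := by
      refine Nat.cast_div_le.trans ?_
      push_cast
      exact le_rfl
    have h2 : (1 : ℝ) ≤ 8 * (B : ℝ) / W := by
      rw [le_div_iff₀ hW0, one_mul]
      exact_mod_cast hWB
    have h3 : 4 * (B : ℝ) / W = (B : ℝ) / W * 4 := by ring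
    have h4 : 8 * (B : ℝ) / W = (B : ℝ) / W * 8 := by ring
    have h5 : 32 * (B : ℝ) / W = (B : ℝ) / W * 32 := by ring
    rw [h3] at h1
    rw [h4] at h2
    rw [h5]
    linarith
  have h1 := card_le_pairs E (4 * B / U) (4 * B / V) P (by
    intro x hx
    obtain ⟨uv, huv, ξ, η, h1, h2, h3⟩ := h x hx
    exact ⟨uv, huv, ξ, η, key U hU hUB ξ h1, key V hV hVB η h2, h3⟩)
  have h2 : (E.card : ℝ) ≤ P.card * ((2 * ((4 * B / U : ℕ) : ℝ) + 1) *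
      (2 * ((4 * B / V : ℕ) : ℝ) + 1)) := by exact_mod_cast h1
  refine h2.trans (mul_le_mul_of_nonneg_left ?_ (Nat.cast_nonneg _))
  calc (2 * ((4 * B / U : ℕ) : ℝ) + 1) * (2 * ((4 * B / V : ℕ) : ℝ) + 1) ≤
        (32 * (B : ℝ) / U) * (32 * (B : ℝ) / V) :=
        mul_le_mul (key2 U hU hUB) (key2 V hV hVB) (by positivity) (by positivity)
    _ = _ := by field_simp; ring

/-- small determinants -/
theorem card_case_A {n : ℕ} (hn : 2 ≤ n) (F : MvPolynomial (Fin (n + 1)) ℤ) (B U V : ℕ)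
    (P1 P2 : ℝ) (hB : 1 ≤ B) (hU : 1 ≤ U) (hUV : U ≤ 2 * V)
    (hprod : (U * V) ^ n ≤ 8 ^ n * B ^ (n - 1))
    (hA : (U : ℝ) * V ≤ (B : ℝ) ^ (1 - 1 / (n : ℝ) - 1 / 8))
    (E : Finset (Fin (n + 1) → ℤ)) (hE : ∀ x ∈ E, Rep F B U V P1 P2 x) :
    (E.card : ℝ) ≤ (1024 * 25 ^ (n + 1)) * (B : ℝ) ^ ((n : ℝ) + 1 - 1 / 8) := by
  have hV : 1 ≤ V := by omega
  have hB1 : (1 : ℝ) ≤ B := by exact_mod_cast hB
  have hBpos : (0 : ℝ) < B := by linarith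
  have hU1 : (1 : ℝ) ≤ U := by exact_mod_cast hU
  have hV1 : (1 : ℝ) ≤ V := by exact_mod_cast hV
  have hn0 : (0 : ℝ) < n := by exact_mod_cast (by omega : 0 < n)
  obtain ⟨-, -, hUB, hVB⟩ := size_bounds n B U V hn hB hU hUV hprod
  have h1 := card_by_pairs F B U V P1 P2 hU hV hUB hVB E
    ((box (n + 1) (2 * U)) ×ˢ (box (n + 1) (2 * V))) (by
    intro x hx
    obtain ⟨u, v, ξ, η, hu, hv, -, h1, h2, h3, -⟩ := hE x hx
    exact ⟨(u, v), Finset.mem_product.2 ⟨hu, hv⟩, ξ, η, h2, h3, h1⟩)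
  have h2 : ((((box (n + 1) (2 * U)) ×ˢ (box (n + 1) (2 * V))).card : ℕ) : ℝ) ≤
      25 ^ (n + 1) * ((U : ℝ) * V) ^ (n + 1) := by
    rw [Finset.card_product, card_box, card_box]
    push_cast
    have e1 : (2 * (2 * (U : ℝ)) + 1) ^ (n + 1) ≤ (5 * U) ^ (n + 1) :=
      pow_le_pow_left₀ (by positivity) (by linarith) _
    have e2 : (2 * (2 * (V : ℝ)) + 1) ^ (n + 1) ≤ (5 * V) ^ (n + 1) :=
      pow_le_pow_left₀ (by positivity) (by linarith) _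
    refine (mul_le_mul e1 e2 (by positivity) (by positivity)).trans (le_of_eq ?_)
    rw [← mul_pow, ← mul_pow]
    congr 1
    ring
  have h3 : ((U : ℝ) * V) ^ n ≤ (B : ℝ) ^ ((n : ℝ) - 1 - 1 / 8) := by
    calc ((U : ℝ) * V) ^ n ≤ ((B : ℝ) ^ (1 - 1 / (n : ℝ) - 1 / 8)) ^ n :=
          pow_le_pow_left₀ (by positivity) hA n
      _ = (B : ℝ) ^ ((1 - 1 / (n : ℝ) - 1 / 8) * n) := by
          rw [← Real.rpow_natCast, ← Real.rpow_mul hBpos.le]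
      _ ≤ _ := by
          refine Real.rpow_le_rpow_of_exponent_le hB1 ?_
          have h4 : (1 - 1 / (n : ℝ) - 1 / 8) * n = n - 1 - n / 8 := by field_simp
          rw [h4]
          have : (2 : ℝ) ≤ n := by exact_mod_cast hn
          linarith
  have hUV0 : (0 : ℝ) < U * V := by positivity
  calc (E.card : ℝ) ≤ _ := h1
    _ ≤ (25 ^ (n + 1) * ((U : ℝ) * V) ^ (n + 1)) * (1024 * (B : ℝ) ^ 2 / (U * V)) :=
        mul_le_mul_of_nonneg_right h2 (by positivity)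
    _ = (1024 * 25 ^ (n + 1)) * (((U : ℝ) * V) ^ n * (B : ℝ) ^ 2) := by
        rw [pow_succ ((U : ℝ) * V)]
        field_simp
    _ ≤ (1024 * 25 ^ (n + 1)) * ((B : ℝ) ^ ((n : ℝ) - 1 - 1 / 8) * (B : ℝ) ^ 2) := by
        refine mul_le_mul_of_nonneg_left ?_ (by positivity)
        exact mul_le_mul_of_nonneg_right h3 (by positivity)
    _ = _ := by
        rw [← Real.rpow_natCast (B : ℝ) 2, ← Real.rpow_add hBpos]
        congr 2
        push_cast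
        ring

/-- unbalanced pairs -/
theorem card_case_B {n : ℕ} (hn : 2 ≤ n) (F : MvPolynomial (Fin (n + 1)) ℤ) (B U V : ℕ)
    (P1 P2 : ℝ) (hB : 1 ≤ B) (hU : 1 ≤ U) (hUV : U ≤ 2 * V)
    (hprod : (U * V) ^ n ≤ 8 ^ n * B ^ (n - 1))
    (hA : (U : ℝ) * (B : ℝ) ^ ((1 : ℝ) / 8) ≤ V)
    (E : Finset (Fin (n + 1) → ℤ)) (hE : ∀ x ∈ E, Rep F B U V P1 P2 x) :
    (E.card : ℝ) ≤ (1024 * (3 * (n + 1)) * 25 ^ (n + 1) * 8 ^ n) *
      (B : ℝ) ^ ((n : ℝ) + 1 - 1 / 8) := by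
  classical
  have hV : 1 ≤ V := by omega
  have hB1 : (1 : ℝ) ≤ B := by exact_mod_cast hB
  have hBpos : (0 : ℝ) < B := by linarith
  have hU1 : (1 : ℝ) ≤ U := by exact_mod_cast hU
  have hV1 : (1 : ℝ) ≤ V := by exact_mod_cast hV
  obtain ⟨hp1, -, hUB, hVB⟩ := size_bounds n B U V hn hB hU hUV hprod
  have h1 := card_by_pairs F B U V P1 P2 hU hV hUB hVB E
    ((box (n + 1) (2 * U)) ×ˢ ((box (n + 1) (2 * V)).filter fun v => ∃ l, |v l| ≤ (U : ℤ))) (by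
    intro x hx
    obtain ⟨u, v, ξ, η, hu, hv, hl, h1, h2, h3, -⟩ := hE x hx
    exact ⟨(u, v), Finset.mem_product.2 ⟨hu, Finset.mem_filter.2 ⟨hv, hl⟩⟩, ξ, η, h2, h3, h1⟩)
  have h2 : ((((box (n + 1) (2 * U)) ×ˢ ((box (n + 1) (2 * V)).filter
      fun v => ∃ l, |v l| ≤ (U : ℤ))).card : ℕ) : ℝ) ≤
      (3 * (n + 1)) * 25 ^ (n + 1) * (((U : ℝ) * V) ^ (n + 1) * (U / V)) := by
    rw [Finset.card_product, card_box]
    push_cast
    have e1 : (2 * (2 * (U : ℝ)) + 1) ^ (n + 1) ≤ (5 * U) ^ (n + 1) :=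
      pow_le_pow_left₀ (by positivity) (by linarith) _
    have e2 : ((((box (n + 1) (2 * V)).filter fun v => ∃ l, |v l| ≤ (U : ℤ)).card : ℕ) : ℝ) ≤
        (n + 1) * ((2 * U + 1) * (2 * (2 * V) + 1) ^ n) := by
      exact_mod_cast card_small_coord n U (2 * V)
    have e3 : (n + 1 : ℝ) * ((2 * U + 1) * (2 * (2 * V) + 1) ^ n) ≤
        (n + 1) * ((3 * U) * (5 * V) ^ n) := by
      have e4 : (2 * (2 * (V : ℝ)) + 1) ^ n ≤ (5 * V) ^ n :=
        pow_le_pow_left₀ (by positivity) (by linarith) _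
      refine mul_le_mul_of_nonneg_left ?_ (by positivity)
      exact mul_le_mul (by linarith) e4 (by positivity) (by positivity)
    have e5 : (5 * U : ℝ) ^ (n + 1) * ((n + 1) * ((3 * U) * (5 * V) ^ n)) ≤
        (3 * (n + 1)) * 25 ^ (n + 1) * (((U : ℝ) * V) ^ (n + 1) * (U / V)) := by
      have e6 : ((U : ℝ) * V) ^ (n + 1) * (U / V) = (U : ℝ) ^ (n + 1) * (V : ℝ) ^ n * U := by
        rw [mul_pow, pow_succ (V : ℝ)]
        field_simp
      rw [e6, mul_pow, mul_pow]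
      have e7 : (5 : ℝ) ^ (n + 1) * 5 ^ n ≤ 25 ^ (n + 1) := by
        have : (25 : ℝ) ^ (n + 1) = 5 ^ (n + 1) * 5 ^ (n + 1) := by
          rw [← mul_pow]; norm_num
        rw [this]
        refine mul_le_mul_of_nonneg_left ?_ (by positivity)
        exact pow_le_pow_right₀ (by norm_num) (by omega)
      calc 5 ^ (n + 1) * (U : ℝ) ^ (n + 1) * ((n + 1) * ((3 * U) * (5 ^ n * (V : ℝ) ^ n))) =
            (3 * (n + 1)) * (5 ^ (n + 1) * 5 ^ n) * ((U : ℝ) ^ (n + 1) * (V : ℝ) ^ n * U) := by ring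
        _ ≤ _ := by
            refine mul_le_mul_of_nonneg_right ?_ (by positivity)
            exact mul_le_mul_of_nonneg_left e7 (by positivity)
    exact (mul_le_mul e1 (e2.trans e3) (by positivity) (by positivity)).trans e5
  have h3 : (U : ℝ) / V ≤ (B : ℝ) ^ (-(1 / 8 : ℝ)) := by
    rw [div_le_iff₀ (by positivity), Real.rpow_neg hBpos.le]
    rw [← div_eq_inv_mul, le_div_iff₀ (by positivity)]
    exact hA
  have hUV0 : (0 : ℝ) < U * V := by positivity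
  calc (E.card : ℝ) ≤ _ := h1
    _ ≤ ((3 * (n + 1)) * 25 ^ (n + 1) * (((U : ℝ) * V) ^ (n + 1) * (U / V))) *
        (1024 * (B : ℝ) ^ 2 / (U * V)) :=
        mul_le_mul_of_nonneg_right h2 (by positivity)
    _ = (1024 * (3 * (n + 1)) * 25 ^ (n + 1)) * ((((U : ℝ) * V) ^ n * (U / V)) * (B : ℝ) ^ 2) := by
        rw [pow_succ ((U : ℝ) * V)]
        field_simp
    _ ≤ (1024 * (3 * (n + 1)) * 25 ^ (n + 1)) * (((8 ^ n * (B : ℝ) ^ ((n : ℝ) - 1)) *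
        (B : ℝ) ^ (-(1 / 8 : ℝ))) * (B : ℝ) ^ 2) := by
        refine mul_le_mul_of_nonneg_left ?_ (by positivity)
        refine mul_le_mul_of_nonneg_right ?_ (by positivity)
        exact mul_le_mul hp1 h3 (by positivity) (by positivity)
    _ = (1024 * (3 * (n + 1)) * 25 ^ (n + 1) * 8 ^ n) * ((B : ℝ) ^ ((n : ℝ) - 1) *
        (B : ℝ) ^ (-(1 / 8 : ℝ)) * (B : ℝ) ^ 2) := by ring
    _ = _ := by
        rw [← Real.rpow_natCast (B : ℝ) 2, ← Real.rpow_add hBpos, ← Real.rpow_add hBpos]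
        congr 2
        push_cast
        ring

end Pool.Agent.N445.VW
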