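import Mathlib
import Pool.Agent.N445.VW.PlA

/-! # Counting in the planes spanned by two short vectors: the main case -/

set_option autoImplicit false

namespace Pool.Agent.N445.VW

open MvPolynomial Pool.Agent.TH910.Voj Pool.Agent.H813R3.Voj

/-- the degenerate pairs -/
def Deg {n : ℕ} (F : MvPolynomial (Fin (n + 1)) ℤ) (k P1 : ℕ)
    (uv : (Fin (n + 1) → ℤ) × (Fin (n + 1) → ℤ)) : Prop :=
  eval (Fin.append uv.1 uv.2) (Phi F k) = 0 ∨ ∃ p : ℕ, p.Prime ∧ P1 < p ∧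
    (p : ℤ) ∣ eval uv.1 F ∧ (p : ℤ) ∣ eval uv.2 F

theorem sizes_C (n B U V : ℕ) (hn : 2 ≤ n) (hB : 1 ≤ B) (hU : 1 ≤ U) (hUV : U ≤ 2 * V)
    (hprod : (U * V) ^ n ≤ 8 ^ n * B ^ (n - 1))
    (hC1 : (B : ℝ) ^ (1 - 1 / (n : ℝ) - 1 / 8) < (U : ℝ) * V)
    (hC2 : (V : ℝ) < (U : ℝ) * (B : ℝ) ^ ((1 : ℝ) / 8)) :
    (B : ℝ) ^ ((1 : ℝ) / 8) ≤ U ∧ (V : ℝ) ≤ 3 * (B : ℝ) ^ ((9 : ℝ) / 16) := by
  have hV : 1 ≤ V := by omega
  have hB1 : (1 : ℝ) ≤ B := by exact_mod_cast hB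
  have hBpos : (0 : ℝ) < B := by linarith
  have hU1 : (1 : ℝ) ≤ U := by exact_mod_cast hU
  have hV1 : (1 : ℝ) ≤ V := by exact_mod_cast hV
  have hn2 : (2 : ℝ) ≤ n := by exact_mod_cast hn
  have hn3 : 1 / (n : ℝ) ≤ 1 / 2 := by
    rw [div_le_div_iff₀ (by linarith) (by norm_num)]; linarith
  have hn4 : 0 ≤ 1 / (n : ℝ) := by positivity
  obtain ⟨-, hp2, -, -⟩ := size_bounds n B U V hn hB hU hUV hprod
  set b : ℝ := (B : ℝ) ^ ((1 : ℝ) / 8) with hb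
  have hb0 : 0 < b := by positivity
  constructor
  · -- `b ^ 3 ≤ U ^ 2 b`
    have h1 : b ^ 3 ≤ U * V := by
      refine le_trans ?_ hC1.le
      rw [hb, ← Real.rpow_natCast, ← Real.rpow_mul hBpos.le]
      refine Real.rpow_le_rpow_of_exponent_le hB1 ?_
      push_cast
      linarith
    have h2 : (U : ℝ) * V ≤ U * (U * b) := mul_le_mul_of_nonneg_left hC2.le (by positivity)
    have h3 : b ^ 2 * b ≤ (U : ℝ) ^ 2 * b := by nlinarith
    have h4 : b ^ 2 ≤ (U : ℝ) ^ 2 := le_of_mul_le_mul_right h3 hb0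
    exact (pow_le_pow_iff_left₀ hb0.le (by positivity) two_ne_zero).1 h4
  · have h1 : (V : ℝ) ^ 2 ≤ (3 * (B : ℝ) ^ ((9 : ℝ) / 16)) ^ 2 := by
      have h2 : (V : ℝ) ^ 2 ≤ (U * V) * b := by
        have := mul_le_mul_of_nonneg_right hC2.le (by positivity : (0 : ℝ) ≤ V)
        nlinarith
      have h3 : (U * V : ℝ) * b ≤ (8 * (B : ℝ) ^ (1 - 1 / (n : ℝ))) * b :=
        mul_le_mul_of_nonneg_right hp2 hb0.le
      have h4 : (B : ℝ) ^ (1 - 1 / (n : ℝ)) * b ≤ (B : ℝ) ^ ((9 : ℝ) / 8) := by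
        rw [hb, ← Real.rpow_add hBpos]
        refine Real.rpow_le_rpow_of_exponent_le hB1 ?_
        linarith
      have h5 : ((B : ℝ) ^ ((9 : ℝ) / 16)) ^ 2 = (B : ℝ) ^ ((9 : ℝ) / 8) := by
        rw [← Real.rpow_natCast, ← Real.rpow_mul hBpos.le]
        norm_num
      rw [mul_pow, h5]
      have h6 : 0 ≤ (B : ℝ) ^ ((9 : ℝ) / 8) := by positivity
      nlinarith
    exact (pow_le_pow_iff_left₀ (by positivity) (by positivity) two_ne_zero).1 h1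

theorem card_case_C {n : ℕ} (hn : 2 ≤ n) (F : MvPolynomial (Fin (n + 1)) ℤ) {k : ℕ}
    (hk : F.IsHomogeneous k) (hk1 : 1 ≤ k) (hirr : Irreducible (toQ F)) (δ : ℝ)
    (hδ1 : δ ≤ 1 / 4) :
    ∃ C : ℝ, 0 < C ∧ ∃ B₀ : ℕ, ∀ B U V : ℕ, B₀ ≤ B → 1 ≤ B → 1 ≤ U → U ≤ 2 * V →
      (U * V) ^ n ≤ 8 ^ n * B ^ (n - 1) →
      (B : ℝ) ^ (1 - 1 / (n : ℝ) - 1 / 8) < (U : ℝ) * V →
      (V : ℝ) < (U : ℝ) * (B : ℝ) ^ ((1 : ℝ) / 8) →
      ∀ E : Finset (Fin (n + 1) → ℤ), (∀ x ∈ E, Rep F B U V ((B : ℝ) ^ ((3 : ℝ) / 4))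
        ((B : ℝ) ^ (1 + 1 / (n : ℝ) - δ)) x) →
      (E.card : ℝ) ≤ C * ((B : ℝ) ^ ((n : ℝ) + 1 - 1 / 8) + (B : ℝ) ^ ((n : ℝ) + 1 - δ)) := by
  classical
  obtain ⟨Cd, hCd0, P₀, hdeg⟩ := card_degenerate F hk hk1 hirr
  obtain ⟨cF, hcF1, hcF⟩ := exists_eval_bound F (hk.totalDegree_le)
  obtain ⟨cΦ, hcΦ1, hcΦ⟩ := exists_eval_bound (Phi F k) le_rfl
  set DΦ := (Phi F k).totalDegree with hDΦ
  set D := k + DΦ with hD
  set A := 2 * (D + 1) with hA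
  set c := cF + cΦ with hc
  -- large `B`
  have hn2 : (2 : ℝ) ≤ n := by exact_mod_cast hn
  have hn0 : (0 : ℝ) < n := by linarith
  obtain ⟨B₁, hB₁⟩ : ∃ B₁ : ℕ, ∀ B : ℕ, B₁ ≤ B → (24 : ℝ) ≤ (B : ℝ) ^ ((3 : ℝ) / 16) := by
    have h1 : Filter.Tendsto (fun B : ℕ => (B : ℝ) ^ ((3 : ℝ) / 16)) Filter.atTop Filter.atTop :=
      (tendsto_rpow_atTop (by positivity)).comp tendsto_natCast_atTop_atTop
    exact Filter.eventually_atTop.mp (h1.eventually_ge_atTop 24)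
  set C1 : ℝ := 1024 * Cd * (A + 1) * 8 ^ n with hC1
  set C2 : ℝ := 8 * (k + 1) * (A + 1) * 25 ^ (n + 1) * (32 * 8 ^ n + 8 ^ (n + 1)) with hC2
  refine ⟨C1 + C2, by positivity, B₁ + P₀ ^ 2 + c * 16 ^ D + 16, ?_⟩
  intro B U V hBB hB hU hUV hprod hUV1 hUV2 E hE
  have hV : 1 ≤ V := by omega
  have hB1 : (1 : ℝ) ≤ B := by exact_mod_cast hB
  have hBpos : (0 : ℝ) < B := by linarith
  have hU1 : (1 : ℝ) ≤ U := by exact_mod_cast hU
  have hV1 : (1 : ℝ) ≤ V := by exact_mod_cast hV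
  have hB16 : 16 ≤ B := by omega
  obtain ⟨hp1, hp2, hUB, hVB⟩ := size_bounds n B U V hn hB hU hUV hprod
  obtain ⟨hUb, hVb⟩ := sizes_C n B U V hn hB hU hUV hprod hUV1 hUV2
  obtain ⟨hq1, hq2, hq3⟩ := floor_bounds (Real.one_le_rpow hB1 (show (0 : ℝ) ≤ 3 / 4 by norm_num))
  set P1 := ⌊(B : ℝ) ^ ((3 : ℝ) / 4)⌋₊ with hP1
  have hP1pos : (0 : ℝ) < P1 := by exact_mod_cast hq1
  set P2 := ⌊(B : ℝ) ^ (1 + 1 / (n : ℝ) - δ)⌋₊ with hP2
  have hP2le : (P2 : ℝ) ≤ (B : ℝ) ^ (1 + 1 / (n : ℝ) - δ) := Nat.floor_le (by positivity)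
  have hn4 : 0 ≤ 1 / (n : ℝ) := by positivity
  have hP12 : P1 ≤ P2 := by
    refine Nat.floor_le_floor (Real.rpow_le_rpow_of_exponent_le hB1 ?_)
    linarith
  have hB24 : (24 : ℝ) ≤ (B : ℝ) ^ ((3 : ℝ) / 16) := hB₁ B (by omega)
  have hVP : 4 * V ≤ P1 := by
    have h1 : (4 * V : ℝ) ≤ P1 := by
      have h2 : (B : ℝ) ^ ((3 : ℝ) / 4) = (B : ℝ) ^ ((9 : ℝ) / 16) * (B : ℝ) ^ ((3 : ℝ) / 16) := by
        rw [← Real.rpow_add hBpos]; norm_num
      have h3 : 0 < (B : ℝ) ^ ((9 : ℝ) / 16) := by positivity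
      nlinarith
    exact_mod_cast h1
  have hP1B : P1 ≤ B := by
    have h1 : (P1 : ℝ) ≤ B := by
      refine hq2.trans ?_
      calc (B : ℝ) ^ ((3 : ℝ) / 4) ≤ (B : ℝ) ^ (1 : ℝ) :=
            Real.rpow_le_rpow_of_exponent_le hB1 (by norm_num)
        _ = B := Real.rpow_one _
    exact_mod_cast h1
  -- `B ≤ P1 ^ 2`
  have hP1sq : B ≤ P1 ^ 2 := by
    have h1 : (B : ℝ) ≤ (P1 : ℝ) ^ 2 := by
      have h2 : (2 : ℝ) ≤ (B : ℝ) ^ ((1 : ℝ) / 4) := by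
        have h3 : (B : ℝ) ^ ((3 : ℝ) / 16) ≤ (B : ℝ) ^ ((1 : ℝ) / 4) :=
          Real.rpow_le_rpow_of_exponent_le hB1 (by norm_num)
        linarith
      have h3 : (B : ℝ) ^ ((1 : ℝ) / 2) ≤ P1 := by
        have h4 : (B : ℝ) ^ ((3 : ℝ) / 4) = (B : ℝ) ^ ((1 : ℝ) / 2) * (B : ℝ) ^ ((1 : ℝ) / 4) := by
          rw [← Real.rpow_add hBpos]; norm_num
        have h5 : 0 < (B : ℝ) ^ ((1 : ℝ) / 2) := by positivity
        nlinarith
      have h4 : ((B : ℝ) ^ ((1 : ℝ) / 2)) ^ 2 = B := by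
        rw [← Real.rpow_natCast, ← Real.rpow_mul hBpos.le]; norm_num
      calc (B : ℝ) = ((B : ℝ) ^ ((1 : ℝ) / 2)) ^ 2 := h4.symm
        _ ≤ (P1 : ℝ) ^ 2 := pow_le_pow_left₀ (by positivity) h3 2
    exact_mod_cast h1
  have hP0P1 : P₀ ≤ P1 := by
    have h1 : P₀ ^ 2 ≤ P1 ^ 2 := le_trans (by omega) hP1sq
    exact (Nat.pow_le_pow_iff_left two_ne_zero).1 h1
  have hval : ∀ (c' D' : ℕ), c' ≤ c → D' ≤ D → c' * (16 * B) ^ D' ≤ P1 ^ A := by
    intro c' D' hc' hD'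
    calc c' * (16 * B) ^ D' ≤ c * (16 * B) ^ D :=
          Nat.mul_le_mul hc' (Nat.pow_le_pow_right (by omega) hD')
      _ = (c * 16 ^ D) * B ^ D := by rw [mul_pow]; ring
      _ ≤ B * B ^ D := Nat.mul_le_mul_right _ (by omega)
      _ = B ^ (D + 1) := by rw [pow_succ]; ring
      _ ≤ (P1 ^ 2) ^ (D + 1) := Nat.pow_le_pow_left hP1sq _
      _ = P1 ^ A := by rw [← pow_mul]
  have hboxU : ∀ u ∈ box (n + 1) (2 * U), u ∈ box (n + 1) (16 * B) := by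
    intro u hu
    rw [mem_box] at hu ⊢
    intro i
    refine (hu i).trans ?_
    exact_mod_cast (by omega : 2 * U ≤ 16 * B)
  have hboxV : ∀ v ∈ box (n + 1) (2 * V), v ∈ box (n + 1) (16 * B) := by
    intro v hv
    rw [mem_box] at hv ⊢
    intro i
    refine (hv i).trans ?_
    exact_mod_cast (by omega : 2 * V ≤ 16 * B)
  have hFu : ∀ u ∈ box (n + 1) (2 * U), (eval u F).natAbs ≤ P1 ^ A := fun u hu =>
    (hcF (16 * B) (by omega) u (hboxU u hu)).trans (hval cF k (by omega) (by omega))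
  have hΦuv : ∀ u ∈ box (n + 1) (2 * U), ∀ v ∈ box (n + 1) (2 * V),
      (eval (Fin.append u v) (Phi F k)).natAbs ≤ P1 ^ A := by
    intro u hu v hv
    refine (hcΦ (16 * B) (by omega) (Fin.append u v) ?_).trans (hval cΦ DΦ (by omega) (by omega))
    rw [mem_box]
    intro i
    induction i using Fin.addCases with
    | left i => rw [Fin.append_left]; exact mem_box.1 (hboxU u hu) i
    | right i => rw [Fin.append_right]; exact mem_box.1 (hboxV v hv) i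
  -- the two parts
  set Z := ((box (n + 1) (2 * U)) ×ˢ (box (n + 1) (2 * V))).filter (fun uv => Deg F k P1 uv) with hZ
  set ND := ((box (n + 1) (2 * U)) ×ˢ (box (n + 1) (2 * V))).filter (fun uv => ¬ Deg F k P1 uv)
    with hND
  set E1 := E.filter (fun x => ∃ uv ∈ Z, ∃ ξ η : ℤ, |ξ| * U ≤ 4 * B ∧ |η| * V ≤ 4 * B ∧
      x = fun i => ξ * uv.1 i + η * uv.2 i) with hE1
  set E2 := E.filter (fun x => ¬ ∃ uv ∈ Z, ∃ ξ η : ℤ, |ξ| * U ≤ 4 * B ∧ |η| * V ≤ 4 * B ∧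
      x = fun i => ξ * uv.1 i + η * uv.2 i) with hE2
  have hsplit : E.card = E1.card + E2.card := by
    rw [hE1, hE2, Finset.card_filter_add_card_filter_not]
  have hUVpos : (0 : ℝ) < U * V := by positivity
  have hA0 : (0 : ℝ) ≤ A := Nat.cast_nonneg A
  -- `E1`
  have hE1card : (E1.card : ℝ) ≤ C1 * (B : ℝ) ^ ((n : ℝ) + 1 - 1 / 8) := by
    have h1 := card_by_pairs F B U V ((B : ℝ) ^ ((3 : ℝ) / 4)) ((B : ℝ) ^ (1 + 1 / (n : ℝ) - δ))
      hU hV hUB hVB E1 Z (by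
        intro x hx
        rw [hE1, Finset.mem_filter] at hx
        exact hx.2)
    have h2 := hdeg U V P1 A hU hUV hVP hP0P1 hFu Z (by
      intro uv huv
      rw [hZ, Finset.mem_filter, Finset.mem_product] at huv
      exact ⟨huv.1.1, huv.1.2, huv.2⟩)
    have h3 : (1 : ℝ) / U ≤ (B : ℝ) ^ (-(1 / 8 : ℝ)) := by
      rw [Real.rpow_neg hBpos.le, one_div]
      exact inv_anti₀ (by positivity) hUb
    calc (E1.card : ℝ) ≤ Z.card * (1024 * (B : ℝ) ^ 2 / (U * V)) := h1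
      _ ≤ (Cd * (A + 1) * ((U : ℝ) ^ (n + 1) * (V : ℝ) ^ (n + 1)) / U) *
          (1024 * (B : ℝ) ^ 2 / (U * V)) := mul_le_mul_of_nonneg_right h2 (by positivity)
      _ = (1024 * Cd * (A + 1)) * (((U : ℝ) * V) ^ n * (1 / U) * (B : ℝ) ^ 2) := by
          rw [← mul_pow, pow_succ ((U : ℝ) * V)]
          field_simp
      _ ≤ (1024 * Cd * (A + 1)) * ((8 ^ n * (B : ℝ) ^ ((n : ℝ) - 1)) *
          (B : ℝ) ^ (-(1 / 8 : ℝ)) * (B : ℝ) ^ 2) := by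
          refine mul_le_mul_of_nonneg_left ?_ (by positivity)
          refine mul_le_mul_of_nonneg_right ?_ (by positivity)
          exact mul_le_mul hp1 h3 (by positivity) (by positivity)
      _ = C1 * ((B : ℝ) ^ ((n : ℝ) - 1) * (B : ℝ) ^ (-(1 / 8 : ℝ)) * (B : ℝ) ^ 2) := by
          rw [hC1]; ring
      _ = _ := by
          rw [← Real.rpow_natCast (B : ℝ) 2, ← Real.rpow_add hBpos, ← Real.rpow_add hBpos]
          congr 2
          push_cast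
          ring
  -- `E2`
  set X := 4 * B / U with hX
  set Y := 4 * B / V with hY
  have hX1 : 1 ≤ X := by
    rw [hX, Nat.le_div_iff_mul_le (by omega)]; omega
  have hY1 : 1 ≤ Y := by
    rw [hY, Nat.le_div_iff_mul_le (by omega)]; omega
  have hXle : (X : ℝ) ≤ 4 * B / U := by
    rw [hX]
    refine Nat.cast_div_le.trans ?_
    push_cast
    exact le_rfl
  have hYle : (Y : ℝ) ≤ 4 * B / V := by
    rw [hY]
    refine Nat.cast_div_le.trans ?_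
    push_cast
    exact le_rfl
  set T : (Fin (n + 1) → ℤ) × (Fin (n + 1) → ℤ) → Finset (ℤ × ℤ) := fun uv =>
    ((Finset.Icc (-(X : ℤ)) X) ×ˢ (Finset.Icc (-(Y : ℤ)) Y)).filter fun z : ℤ × ℤ =>
      IsCoprime z.1 z.2 ∧ ∃ p : ℕ, p.Prime ∧ P1 < p ∧ p ≤ P2 ∧
        (p : ℤ) ^ 2 ∣ eval (fun i => z.1 * uv.1 i + z.2 * uv.2 i) F with hT
  have hTcard : ∀ uv ∈ ND, ((T uv).card : ℝ) ≤ 8 * (k + 1) * (A + 1) * ((X * Y : ℝ) / P1 + P2) := by
    rintro ⟨u, v⟩ huv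
    rw [hND, Finset.mem_filter, Finset.mem_product] at huv
    obtain ⟨⟨hu, hv⟩, hdg⟩ := huv
    unfold Deg at hdg
    push Not at hdg
    obtain ⟨hd1, hd2⟩ := hdg
    refine card_plane F hk u v X Y P1 P2 A hX1 hY1 hq1 hP12 _ hd1 (hΦuv u hu v hv)
      (fun p hp hpn => Phi_good F hk hk1 u v p hpn) (fun p hp hpP h => hd2 p hp hpP h.1 h.2) _ ?_
    intro z hz
    rw [hT, Finset.mem_filter, Finset.mem_product, Finset.mem_Icc, Finset.mem_Icc, ← abs_le,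
      ← abs_le] at hz
    exact ⟨hz.1.1, hz.1.2, hz.2.1, hz.2.2⟩
  have hE2card : (E2.card : ℝ) ≤ C2 * ((B : ℝ) ^ ((n : ℝ) + 1 - 1 / 8) +
      (B : ℝ) ^ ((n : ℝ) + 1 - δ)) := by
    have h1 := card_le_sum_pairs E2 ND T (by
      intro x hx
      rw [hE2, Finset.mem_filter] at hx
      obtain ⟨hxE, hxn⟩ := hx
      obtain ⟨u, v, ξ, η, hu, hv, -, h1, h2, h3, h4, p, hp, h5, h6, h7⟩ := hE x hxE
      refine ⟨(u, v), ?_, (ξ, η), ?_, h1⟩
      · rw [hND, Finset.mem_filter, Finset.mem_product]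
        refine ⟨⟨hu, hv⟩, fun hdg => hxn ⟨(u, v), ?_, ξ, η, h2, h3, h1⟩⟩
        rw [hZ, Finset.mem_filter, Finset.mem_product]
        exact ⟨⟨hu, hv⟩, hdg⟩
      · rw [hT, Finset.mem_filter, Finset.mem_product, Finset.mem_Icc, Finset.mem_Icc, ← abs_le,
          ← abs_le]
        refine ⟨⟨?_, ?_⟩, h4, p, hp, ?_, Nat.le_floor h6, by rw [← h1]; exact h7⟩
        · rw [hX]; push_cast
          rw [Int.le_ediv_iff_mul_le (by exact_mod_cast hU)]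
          exact h2
        · rw [hY]; push_cast
          rw [Int.le_ediv_iff_mul_le (by exact_mod_cast hV)]
          exact h3
        · rw [hP1, Nat.floor_lt (by positivity)]; exact h5)
    have h2 : (E2.card : ℝ) ≤ ∑ uv ∈ ND, ((T uv).card : ℝ) := by exact_mod_cast h1
    have h3 : (ND.card : ℝ) ≤ 25 ^ (n + 1) * ((U : ℝ) * V) ^ (n + 1) := by
      have h4 : (ND.card : ℝ) ≤ ((((box (n + 1) (2 * U)) ×ˢ (box (n + 1) (2 * V))).card : ℕ) : ℝ) := by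
        exact_mod_cast Finset.card_filter_le _ _
      refine h4.trans ?_
      rw [Finset.card_product, card_box, card_box]
      push_cast
      have e1 : (2 * (2 * (U : ℝ)) + 1) ^ (n + 1) ≤ (5 * U) ^ (n + 1) :=
        pow_le_pow_left₀ (by positivity) (by linarith) _
      have e2 : (2 * (2 * (V : ℝ)) + 1) ^ (n + 1) ≤ (5 * V) ^ (n + 1) :=
        pow_le_pow_left₀ (by positivity) (by linarith) _
      refine (mul_le_mul e1 e2 (by positivity) (by positivity)).trans (le_of_eq ?_)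
      rw [← mul_pow, ← mul_pow]
      congr 1
      ring
    have h4 : (X * Y : ℝ) / P1 ≤ (16 * (B : ℝ) ^ 2 / (U * V)) * (2 / (B : ℝ) ^ ((3 : ℝ) / 4)) := by
      have h5 : (X * Y : ℝ) ≤ 16 * (B : ℝ) ^ 2 / (U * V) := by
        calc (X * Y : ℝ) ≤ (4 * B / U) * (4 * B / V) :=
              mul_le_mul hXle hYle (by positivity) (by positivity)
          _ = _ := by field_simp; ring
      have h6 : (1 : ℝ) / P1 ≤ 2 / (B : ℝ) ^ ((3 : ℝ) / 4) := by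
        rw [div_le_div_iff₀ hP1pos (by positivity)]
        linarith
      calc (X * Y : ℝ) / P1 = (X * Y) * (1 / P1) := by ring
        _ ≤ _ := mul_le_mul h5 h6 (by positivity) (by positivity)
    have hMain1 : ((U : ℝ) * V) ^ (n + 1) * ((16 * (B : ℝ) ^ 2 / (U * V)) *
        (2 / (B : ℝ) ^ ((3 : ℝ) / 4))) ≤ (32 * 8 ^ n) * (B : ℝ) ^ ((n : ℝ) + 1 - 1 / 8) := by
      have h5 : ((U : ℝ) * V) ^ (n + 1) * ((16 * (B : ℝ) ^ 2 / (U * V)) *
          (2 / (B : ℝ) ^ ((3 : ℝ) / 4))) = 32 * (((U : ℝ) * V) ^ n * (B : ℝ) ^ 2 *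
          (B : ℝ) ^ (-(3 / 4 : ℝ))) := by
        rw [Real.rpow_neg hBpos.le, pow_succ ((U : ℝ) * V)]
        field_simp
        ring
      rw [h5]
      calc 32 * (((U : ℝ) * V) ^ n * (B : ℝ) ^ 2 * (B : ℝ) ^ (-(3 / 4 : ℝ))) ≤
            32 * ((8 ^ n * (B : ℝ) ^ ((n : ℝ) - 1)) * (B : ℝ) ^ 2 * (B : ℝ) ^ (-(3 / 4 : ℝ))) := by
            gcongr
        _ = (32 * 8 ^ n) * ((B : ℝ) ^ ((n : ℝ) - 1) * (B : ℝ) ^ 2 * (B : ℝ) ^ (-(3 / 4 : ℝ))) := by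
            ring
        _ ≤ _ := by
            refine mul_le_mul_of_nonneg_left ?_ (by positivity)
            rw [← Real.rpow_natCast (B : ℝ) 2, ← Real.rpow_add hBpos, ← Real.rpow_add hBpos]
            refine Real.rpow_le_rpow_of_exponent_le hB1 ?_
            push_cast
            linarith
    have hMain2 : ((U : ℝ) * V) ^ (n + 1) * P2 ≤ 8 ^ (n + 1) * (B : ℝ) ^ ((n : ℝ) + 1 - δ) := by
      calc ((U : ℝ) * V) ^ (n + 1) * P2 ≤ (8 * (B : ℝ) ^ (1 - 1 / (n : ℝ))) ^ (n + 1) *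
            (B : ℝ) ^ (1 + 1 / (n : ℝ) - δ) := by
            refine mul_le_mul (pow_le_pow_left₀ (by positivity) hp2 _) hP2le (by positivity)
              (by positivity)
        _ = 8 ^ (n + 1) * ((B : ℝ) ^ ((1 - 1 / (n : ℝ)) * ((n + 1 : ℕ) : ℝ)) *
            (B : ℝ) ^ (1 + 1 / (n : ℝ) - δ)) := by
            rw [mul_pow, ← Real.rpow_natCast ((B : ℝ) ^ (1 - 1 / (n : ℝ))),
              ← Real.rpow_mul hBpos.le]
            ring
        _ = _ := by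
            rw [← Real.rpow_add hBpos]
            congr 2
            push_cast
            field_simp
            ring
    calc (E2.card : ℝ) ≤ ∑ uv ∈ ND, ((T uv).card : ℝ) := h2
      _ ≤ ND.card * (8 * (k + 1) * (A + 1) * ((X * Y : ℝ) / P1 + P2)) := by
          refine (Finset.sum_le_sum hTcard).trans (le_of_eq ?_)
          rw [Finset.sum_const, nsmul_eq_mul]
      _ ≤ (25 ^ (n + 1) * ((U : ℝ) * V) ^ (n + 1)) * (8 * (k + 1) * (A + 1) *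
          ((16 * (B : ℝ) ^ 2 / (U * V)) * (2 / (B : ℝ) ^ ((3 : ℝ) / 4)) + P2)) := by
          refine mul_le_mul h3 ?_ (by positivity) (by positivity)
          refine mul_le_mul_of_nonneg_left ?_ (by positivity)
          linarith
      _ = (8 * (k + 1) * (A + 1) * 25 ^ (n + 1)) * (((U : ℝ) * V) ^ (n + 1) *
          ((16 * (B : ℝ) ^ 2 / (U * V)) * (2 / (B : ℝ) ^ ((3 : ℝ) / 4))) +
          ((U : ℝ) * V) ^ (n + 1) * P2) := by ring
      _ ≤ (8 * (k + 1) * (A + 1) * 25 ^ (n + 1)) * ((32 * 8 ^ n) *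
          (B : ℝ) ^ ((n : ℝ) + 1 - 1 / 8) + 8 ^ (n + 1) * (B : ℝ) ^ ((n : ℝ) + 1 - δ)) := by
          refine mul_le_mul_of_nonneg_left ?_ (by positivity)
          exact add_le_add hMain1 hMain2
      _ ≤ (8 * (k + 1) * (A + 1) * 25 ^ (n + 1)) * ((32 * 8 ^ n + 8 ^ (n + 1)) *
          (B : ℝ) ^ ((n : ℝ) + 1 - 1 / 8) + (32 * 8 ^ n + 8 ^ (n + 1)) *
          (B : ℝ) ^ ((n : ℝ) + 1 - δ)) := by
          refine mul_le_mul_of_nonneg_left ?_ (by positivity)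
          refine add_le_add ?_ ?_
          · refine mul_le_mul_of_nonneg_right ?_ (by positivity)
            have : (0 : ℝ) ≤ 8 ^ (n + 1) := by positivity
            linarith
          · refine mul_le_mul_of_nonneg_right ?_ (by positivity)
            have : (0 : ℝ) ≤ 32 * 8 ^ n := by positivity
            linarith
      _ = _ := by rw [hC2]; ring
  have h9 : 0 ≤ (B : ℝ) ^ ((n : ℝ) + 1 - δ) := by positivity
  have hC10 : 0 ≤ C1 := by positivity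
  rw [hsplit]
  push_cast
  calc (E1.card : ℝ) + E2.card ≤ C1 * (B : ℝ) ^ ((n : ℝ) + 1 - 1 / 8) +
        C2 * ((B : ℝ) ^ ((n : ℝ) + 1 - 1 / 8) + (B : ℝ) ^ ((n : ℝ) + 1 - δ)) :=
        add_le_add hE1card hE2card
    _ ≤ C1 * ((B : ℝ) ^ ((n : ℝ) + 1 - 1 / 8) + (B : ℝ) ^ ((n : ℝ) + 1 - δ)) +
        C2 * ((B : ℝ) ^ ((n : ℝ) + 1 - 1 / 8) + (B : ℝ) ^ ((n : ℝ) + 1 - δ)) := by
        have := mul_nonneg hC10 h9
        linarith
    _ = _ := by ring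

end Pool.Agent.N445.VW
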