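import Mathlib
import Pool.Agent.N445.VW.Lt
import Pool.Agent.N445.VW.Slope

/-! # The number of points in a residue class of a plane -/

set_option autoImplicit false

namespace Pool.Agent.N445.VW

open MvPolynomial Pool.Agent.TH910.Voj Pool.Agent.H813R3.Voj

theorem real_final (x y L C1 : ℝ) (hC1 : 0 ≤ C1) (hx1 : 1 ≤ x) (hL : 0 < L) (hLy : L ≤ y)
    (hxL : x ≤ 4 * L ^ 2) :
    3 * C1 * (2 * (x / y)) * (2 * y) ^ ((3 : ℝ) / 4) ≤ 24 * C1 * x ^ ((7 : ℝ) / 8) := by
  have hy : 0 < y := by linarith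
  have hx : 0 < x := by linarith
  have h1 : (2 * y) ^ ((3 : ℝ) / 4) ≤ 2 * y ^ ((3 : ℝ) / 4) := by
    rw [Real.mul_rpow (by norm_num) hy.le]
    refine mul_le_mul_of_nonneg_right ?_ (by positivity)
    calc (2 : ℝ) ^ ((3 : ℝ) / 4) ≤ 2 ^ (1 : ℝ) :=
          Real.rpow_le_rpow_of_exponent_le (by norm_num) (by norm_num)
      _ = 2 := Real.rpow_one _
  have h2 : y ^ ((3 : ℝ) / 4) / y = y ^ (-(1 / 4 : ℝ)) := by
    rw [← Real.rpow_sub_one hy.ne']
    norm_num
  have h3 : y ^ (-(1 / 4 : ℝ)) ≤ L ^ (-(1 / 4 : ℝ)) :=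
    Real.rpow_le_rpow_of_nonpos hL hLy (by norm_num)
  have h4 : L ^ (-(1 / 4 : ℝ)) ≤ 2 * x ^ (-(1 / 8 : ℝ)) := by
    have h5 : (4 * L ^ 2) ^ (-(1 / 8 : ℝ)) ≤ x ^ (-(1 / 8 : ℝ)) :=
      Real.rpow_le_rpow_of_nonpos hx hxL (by norm_num)
    have h6 : (4 * L ^ 2) ^ (-(1 / 8 : ℝ)) = 4 ^ (-(1 / 8 : ℝ)) * L ^ (-(1 / 4 : ℝ)) := by
      rw [Real.mul_rpow (by norm_num) (by positivity), ← Real.rpow_natCast L 2,
        ← Real.rpow_mul hL.le]
      norm_num
    have h7 : (1 : ℝ) / 2 ≤ 4 ^ (-(1 / 8 : ℝ)) := by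
      have h8 : (4 : ℝ) ^ (-(1 / 2 : ℝ)) ≤ 4 ^ (-(1 / 8 : ℝ)) :=
        Real.rpow_le_rpow_of_exponent_le (by norm_num) (by norm_num)
      have h9 : (4 : ℝ) ^ (-(1 / 2 : ℝ)) = 1 / 2 := by
        rw [Real.rpow_neg (by norm_num), ← Real.sqrt_eq_rpow]
        have : Real.sqrt 4 = 2 := by
          rw [show (4 : ℝ) = 2 ^ 2 by norm_num]
          exact Real.sqrt_sq (by norm_num)
        rw [this]; norm_num
      linarith
    rw [h6] at h5
    have h10 : 0 ≤ L ^ (-(1 / 4 : ℝ)) := by positivity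
    nlinarith
  have h5 : x * x ^ (-(1 / 8 : ℝ)) = x ^ ((7 : ℝ) / 8) := by
    rw [← Real.rpow_one_add' hx.le (by norm_num)]
    norm_num
  calc 3 * C1 * (2 * (x / y)) * (2 * y) ^ ((3 : ℝ) / 4)
      ≤ 3 * C1 * (2 * (x / y)) * (2 * y ^ ((3 : ℝ) / 4)) := by
        refine mul_le_mul_of_nonneg_left h1 (by positivity)
    _ = 12 * C1 * x * (y ^ ((3 : ℝ) / 4) / y) := by ring
    _ = 12 * C1 * x * y ^ (-(1 / 4 : ℝ)) := by rw [h2]
    _ ≤ 12 * C1 * x * (2 * x ^ (-(1 / 8 : ℝ))) := by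
        refine mul_le_mul_of_nonneg_left (h3.trans h4) (by positivity)
    _ = 24 * C1 * (x * x ^ (-(1 / 8 : ℝ))) := by ring
    _ = _ := by rw [h5]

/-- **Points in a residue class of a plane** with values `σ w ^ e`. -/
theorem class_count {n : ℕ} (F : MvPolynomial (Fin n) ℤ) {k : ℕ} (hk : F.IsHomogeneous k)
    (hk2 : 2 ≤ k) (e : ℕ) (he : 2 ≤ e) (A : ℕ) (η : ℝ) (hη : 0 < η) :
    ∃ C : ℝ, 0 < C ∧ ∀ B : ℕ, 2 ≤ B → ∀ u v : Fin n → ℤ,
      eval (Fin.append u v) (Phi F k) ≠ 0 → (eval (Fin.append u v) (Phi F k)).natAbs ≤ B ^ A →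
      ∀ σ : ℤ, σ ≠ 0 → σ.natAbs ≤ B ^ A → ∀ X Y m : ℕ, 1 ≤ X → 1 ≤ Y → 1 ≤ m → X ≤ B ^ A →
      Y ≤ B ^ A → (m : ℝ) * (B : ℝ) ^ η ≤ (X : ℝ) * Y → ∀ S : Finset (ℤ × ℤ),
      (∀ z ∈ S, |z.1| ≤ X ∧ |z.2| ≤ Y ∧ IsCoprime z.1 z.2 ∧ ∃ w : ℤ, |w| ≤ (B : ℤ) ^ A ∧
        eval (pt u v z.1 z.2) F = σ * w ^ e) →
      (∀ z ∈ S, ∀ w ∈ S, (m : ℤ) ∣ z.1 * w.2 - w.1 * z.2) →
      (S.card : ℝ) ≤ C * ((X : ℝ) * Y / m) ^ ((7 : ℝ) / 8) := by
  classical
  set E := 2 * e + 4 * A with hE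
  set A' := ⌈2 * E / η⌉₊ with hA'
  obtain ⟨C1, hC1, hline⟩ := line_card F hk hk2 e (by omega) A' (1 / 4) (by norm_num)
  refine ⟨8 + 24 * C1, by positivity, ?_⟩
  intro B hB u v hΦ hΦB σ hσ hσB X Y m hX hY hm hXB hYB hmB S hS hdet
  have hB1 : (1 : ℝ) ≤ B := by exact_mod_cast (by omega : 1 ≤ B)
  have hBpos : (0 : ℝ) < B := by linarith
  have hBη : 1 ≤ (B : ℝ) ^ η := Real.one_le_rpow hB1 hη.le
  have hm0 : (0 : ℝ) < m := by exact_mod_cast hm
  have hmZ : (0 : ℤ) < m := by exact_mod_cast hm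
  set x : ℝ := (X : ℝ) * Y / m with hx
  have hxB : (B : ℝ) ^ η ≤ x := by
    rw [hx, le_div_iff₀ hm0]; linarith
  have hx1 : 1 ≤ x := hBη.trans hxB
  have hx78 : 1 ≤ x ^ ((7 : ℝ) / 8) := Real.one_le_rpow hx1 (by norm_num)
  rcases S.eq_empty_or_nonempty with hemp | ⟨z0, hz0⟩
  · rw [hemp, Finset.card_empty, Nat.cast_zero]; positivity
  have hmXY : m ≤ X * Y := by
    have h1 : (m : ℝ) ≤ (X : ℝ) * Y := by
      have := le_mul_of_one_le_right hm0.le hBη
      linarith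
    exact_mod_cast h1
  set L := Nat.sqrt (X * Y / m) with hL
  have hL1 : 1 ≤ L := by
    rw [hL, Nat.le_sqrt]
    exact (Nat.one_le_div_iff hm).2 hmXY
  have hLm : L ^ 2 * m ≤ X * Y := by
    have h1 : L ^ 2 ≤ X * Y / m := by rw [pow_two]; exact Nat.sqrt_le _
    exact (Nat.mul_le_mul_right m h1).trans (Nat.div_mul_le_self _ _)
  have hL0 : (0 : ℝ) < L := by exact_mod_cast hL1
  have hxL : x ≤ 4 * (L : ℝ) ^ 2 := by
    have h1 : X * Y / m < (L + 1) * (L + 1) := Nat.lt_succ_sqrt _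
    have h2 : X * Y < m * (X * Y / m + 1) := Nat.lt_mul_div_succ _ hm
    have h3 : X * Y ≤ m * ((L + 1) * (L + 1)) := h2.le.trans (Nat.mul_le_mul_left _ h1)
    have h4 : m * ((L + 1) * (L + 1)) ≤ m * (4 * L ^ 2) := by
      refine Nat.mul_le_mul_left _ ?_
      nlinarith
    have h5 : ((X * Y : ℕ) : ℝ) ≤ ((m * (4 * L ^ 2) : ℕ) : ℝ) := by exact_mod_cast h3.trans h4
    rw [hx, div_le_iff₀ hm0]
    push_cast at h5
    linarith
  obtain ⟨-, -, hcop0, -⟩ := hS z0 hz0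
  obtain ⟨p0, q0, hpq0⟩ := hcop0
  obtain ⟨g, hg0, hgm, hgX, hgY, hgprim⟩ := exists_short_prim m X Y L hm hL1 hLm z0.1 z0.2
  set D : ℕ := max (g.1.natAbs * Y) (g.2.natAbs * X) with hD
  have hD1 : 1 ≤ D := by
    by_cases h : g.1 = 0
    · have h2 : g.2 ≠ 0 := fun h' => hg0 (Prod.ext h h')
      exact le_max_of_le_right (Nat.mul_pos (Int.natAbs_pos.2 h2) hX)
    · exact le_max_of_le_left (Nat.mul_pos (Int.natAbs_pos.2 h) hY)
  have hD0 : (0 : ℝ) < D := by exact_mod_cast hD1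
  have hDL : D * L ≤ X * Y := by
    have h1 : g.1.natAbs * L ≤ X := by zify; exact hgX
    have h2 : g.2.natAbs * L ≤ Y := by zify; exact hgY
    rcases le_total (g.1.natAbs * Y) (g.2.natAbs * X) with h | h
    · rw [hD, max_eq_right h]
      calc g.2.natAbs * X * L = X * (g.2.natAbs * L) := by ring
        _ ≤ X * Y := Nat.mul_le_mul_left _ h2
    · rw [hD, max_eq_left h]
      calc g.1.natAbs * Y * L = (g.1.natAbs * L) * Y := by ring
        _ ≤ X * Y := Nat.mul_le_mul_right _ h1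
  have hDXY : D ≤ X * Y := le_trans (Nat.le_mul_of_pos_right _ hL1) hDL
  set R := 2 * (X * Y) / D with hR
  have hRL : 2 * L ≤ R := by
    rw [hR, Nat.le_div_iff_mul_le hD1]
    calc 2 * L * D = 2 * (D * L) := by ring
      _ ≤ 2 * (X * Y) := Nat.mul_le_mul_left _ hDL
  have hR1 : 1 ≤ R := by omega
  have hRr : (R : ℝ) ≤ 2 * ((X : ℝ) * Y / D) := by
    have h1 : ((2 * (X * Y) / D : ℕ) : ℝ) ≤ ((2 * (X * Y) : ℕ) : ℝ) / D := Nat.cast_div_le
    rw [← hR] at h1
    push_cast at h1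
    calc (R : ℝ) ≤ 2 * ((X : ℝ) * Y) / D := h1
      _ = _ := by ring
  -- `R` is a power of `B`
  have hRη : (B : ℝ) ^ (η / 2) ≤ R := by
    have h1 : ((B : ℝ) ^ (η / 2)) ^ 2 ≤ (R : ℝ) ^ 2 := by
      have h2 : ((B : ℝ) ^ (η / 2)) ^ 2 = (B : ℝ) ^ η := by
        rw [← Real.rpow_natCast, ← Real.rpow_mul hBpos.le]
        congr 1
        push_cast
        ring
      rw [h2]
      have h3 : (2 * (L : ℝ)) ≤ R := by exact_mod_cast hRL
      nlinarith
    exact (pow_le_pow_iff_left₀ (by positivity) (by positivity) two_ne_zero).1 h1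
  have hBE : B ^ E ≤ R ^ A' := by
    have h1 : (B : ℝ) ^ E ≤ (R : ℝ) ^ A' := by
      calc (B : ℝ) ^ E = (B : ℝ) ^ (E : ℝ) := (Real.rpow_natCast _ _).symm
        _ ≤ (B : ℝ) ^ (η / 2 * A') := by
            refine Real.rpow_le_rpow_of_exponent_le hB1 ?_
            have h2 : 2 * E / η ≤ A' := Nat.le_ceil _
            rw [div_le_iff₀ hη] at h2
            linarith
        _ = ((B : ℝ) ^ (η / 2)) ^ A' := by rw [Real.rpow_mul hBpos.le, Real.rpow_natCast]
        _ ≤ (R : ℝ) ^ A' := pow_le_pow_left₀ (by positivity) hRη _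
    exact_mod_cast h1
  have hBA : B ^ A ≤ R ^ A' := (Nat.pow_le_pow_right (by omega) (by omega)).trans hBE
  -- divisibility
  have hgz : ∀ z ∈ S, (m : ℤ) ∣ g.1 * z.2 - g.2 * z.1 := by
    intro z hz
    have h1 := hdet z hz z0 hz0
    have h2 : g.1 * z.2 - g.2 * z.1 =
        (g.1 * z0.2 - g.2 * z0.1) * (p0 * z.1 + q0 * z.2) -
          (z.1 * z0.2 - z0.1 * z.2) * (p0 * g.1 + q0 * g.2) := by
      linear_combination (-(g.1 * z.2 - g.2 * z.1)) * hpq0
    rw [h2]
    exact dvd_sub (hgm.mul_right _) (h1.mul_right _)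
  have hdetD : ∀ z ∈ S, |g.1 * z.2 - g.2 * z.1| ≤ 2 * D := by
    intro z hz
    obtain ⟨h1, h2, -⟩ := hS z hz
    have h3 : |g.1 * z.2| ≤ D := by
      rw [abs_mul]
      calc |g.1| * |z.2| ≤ |g.1| * Y := mul_le_mul_of_nonneg_left h2 (abs_nonneg _)
        _ = ((g.1.natAbs * Y : ℕ) : ℤ) := by push_cast; rfl
        _ ≤ D := by exact_mod_cast le_max_left _ _
    have h4 : |g.2 * z.1| ≤ D := by
      rw [abs_mul]
      calc |g.2| * |z.1| ≤ |g.2| * X := mul_le_mul_of_nonneg_left h1 (abs_nonneg _)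
        _ = ((g.2.natAbs * X : ℕ) : ℤ) := by push_cast; rfl
        _ ≤ D := by exact_mod_cast le_max_right _ _
    have h5 := abs_sub (g.1 * z.2) (g.2 * z.1)
    linarith
  -- the two parts
  set S0 := S.filter fun z => g.1 * z.2 - g.2 * z.1 = 0 with hS0
  set S1 := S.filter fun z => ¬ g.1 * z.2 - g.2 * z.1 = 0 with hS1
  have hsplit : S.card = S0.card + S1.card := by
    rw [hS0, hS1, Finset.card_filter_add_card_filter_not]
  have hS0c : S0.card ≤ 8 := by
    have h1 := card_class X Y (X * Y + 1) hX hY (by omega) S0 (by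
      intro z hz
      rw [hS0, Finset.mem_filter] at hz
      obtain ⟨h1, h2, h3, -⟩ := hS z hz.1
      exact ⟨h1, h2, h3⟩) (by
      intro z hz w hw
      rw [hS0, Finset.mem_filter] at hz hw
      have h3 : z.1 * w.2 - w.1 * z.2 = 0 := by
        by_cases h : g.1 = 0
        · have h2 : g.2 ≠ 0 := fun h' => hg0 (Prod.ext h h')
          have h4 := hz.2
          have h5 := hw.2
          rw [h, zero_mul, zero_sub, neg_eq_zero] at h4 h5
          rcases mul_eq_zero.1 h4 with h6 | h6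
          · exact absurd h6 h2
          rcases mul_eq_zero.1 h5 with h7 | h7
          · exact absurd h7 h2
          rw [h6, h7]; ring
        · have h4 : g.1 * (z.1 * w.2 - w.1 * z.2) = 0 := by
            linear_combination z.1 * hw.2 - w.1 * hz.2
          rcases mul_eq_zero.1 h4 with h6 | h6
          · exact absurd h6 h
          · exact h6
      rw [h3]
      exact dvd_zero _)
    have h2 : X * Y / (X * Y + 1) = 0 := Nat.div_eq_of_lt (Nat.lt_succ_self _)
    rw [h2] at h1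
    exact h1
  have hS1c : (S1.card : ℝ) ≤ 24 * C1 * x ^ ((7 : ℝ) / 8) := by
    rcases S1.eq_empty_or_nonempty with hemp | ⟨w1, hw1⟩
    · rw [hemp, Finset.card_empty, Nat.cast_zero]; positivity
    set K := 2 * D / m with hK
    have hKbd : ∀ z ∈ S1, |(g.1 * z.2 - g.2 * z.1) / (m : ℤ)| ≤ K := by
      intro z hz
      rw [hS1, Finset.mem_filter] at hz
      obtain ⟨c, hc⟩ := hgz z hz.1
      have h1 := hdetD z hz.1
      rw [hc, Int.mul_ediv_cancel_left _ hmZ.ne']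
      rw [hc, abs_mul, Nat.abs_cast] at h1
      have h2 : c.natAbs ≤ 2 * D / m := by
        rw [Nat.le_div_iff_mul_le hm]
        zify
        linarith
      rw [Int.abs_eq_natAbs, hK]
      exact_mod_cast h2
    have hK1 : 1 ≤ K := by
      have h1 := hKbd w1 hw1
      rw [hS1, Finset.mem_filter] at hw1
      obtain ⟨c, hc⟩ := hgz w1 hw1.1
      have hc0 : c ≠ 0 := by
        rintro rfl
        rw [mul_zero] at hc
        exact hw1.2 hc
      rw [hc, Int.mul_ediv_cancel_left _ hmZ.ne'] at h1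
      have := Int.one_le_abs hc0
      omega
    have hfib : ∀ b ∈ Finset.Icc (-(K : ℤ)) K,
        (S1.filter fun z => (g.1 * z.2 - g.2 * z.1) / (m : ℤ) = b).card ≤
          ⌊C1 * (R : ℝ) ^ ((3 : ℝ) / 4)⌋₊ := by
      intro b _
      refine Nat.le_floor ?_
      set G := S1.filter fun z => (g.1 * z.2 - g.2 * z.1) / (m : ℤ) = b with hG
      rcases G.eq_empty_or_nonempty with hemp | ⟨z1, hz1⟩
      · rw [hemp, Finset.card_empty, Nat.cast_zero]; positivity
      have hmem : ∀ z ∈ G, z ∈ S ∧ g.1 * z.2 - g.2 * z.1 ≠ 0 ∧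
          g.1 * z.2 - g.2 * z.1 = m * b := by
        intro z hz
        rw [hG, Finset.mem_filter, hS1, Finset.mem_filter] at hz
        obtain ⟨c, hc⟩ := hgz z hz.1.1
        refine ⟨hz.1.1, hz.1.2, ?_⟩
        have h1 := hz.2
        rw [hc, Int.mul_ediv_cancel_left _ hmZ.ne'] at h1
        rw [hc, h1]
      obtain ⟨hz1S, hz1ne, hz1b⟩ := hmem z1 hz1
      set T := (Finset.Icc (-(R : ℤ)) R).filter fun t => (z1.1 + t * g.1, z1.2 + t * g.2) ∈ G
        with hT
      have hGT : G ⊆ T.image fun t => (z1.1 + t * g.1, z1.2 + t * g.2) := by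
        intro z hz
        obtain ⟨hzS, -, hzb⟩ := hmem z hz
        obtain ⟨c, hc⟩ := hgprim (z.1 - z1.1, z.2 - z1.2) (by
          simp only
          have h1 := hdet z hzS z0 hz0
          have h2 := hdet z1 hz1S z0 hz0
          have h3 : (z.1 - z1.1) * z0.2 - (z.2 - z1.2) * z0.1 =
            (z.1 * z0.2 - z0.1 * z.2) - (z1.1 * z0.2 - z0.1 * z1.2) := by ring
          rw [h3]
          exact dvd_sub h1 h2) (by
          simp only
          linear_combination hzb - hz1b)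
        have hc1 : z.1 - z1.1 = c * g.1 := congrArg Prod.fst hc
        have hc2 : z.2 - z1.2 = c * g.2 := congrArg Prod.snd hc
        have hzeq : z = (z1.1 + c * g.1, z1.2 + c * g.2) :=
          Prod.ext (by simp only; linarith) (by simp only; linarith)
        rw [Finset.mem_image]
        refine ⟨c, ?_, hzeq.symm⟩
        rw [hT, Finset.mem_filter]
        refine ⟨?_, by rw [← hzeq]; exact hz⟩
        rw [Finset.mem_Icc, ← abs_le]
        obtain ⟨e1, e2, -⟩ := hS z hzS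
        obtain ⟨e3, e4, -⟩ := hS z1 hz1S
        have h1 : c.natAbs * g.1.natAbs ≤ 2 * X := by
          rw [← Int.natAbs_mul, ← hc1]
          zify
          have := abs_sub z.1 z1.1
          linarith
        have h2 : c.natAbs * g.2.natAbs ≤ 2 * Y := by
          rw [← Int.natAbs_mul, ← hc2]
          zify
          have := abs_sub z.2 z1.2
          linarith
        have h3 : c.natAbs * D ≤ 2 * (X * Y) := by
          rcases le_total (g.1.natAbs * Y) (g.2.natAbs * X) with h | h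
          · rw [hD, max_eq_right h]
            calc c.natAbs * (g.2.natAbs * X) = (c.natAbs * g.2.natAbs) * X := by ring
              _ ≤ (2 * Y) * X := Nat.mul_le_mul_right _ h2
              _ = 2 * (X * Y) := by ring
          · rw [hD, max_eq_left h]
            calc c.natAbs * (g.1.natAbs * Y) = (c.natAbs * g.1.natAbs) * Y := by ring
              _ ≤ (2 * X) * Y := Nat.mul_le_mul_right _ h1
              _ = 2 * (X * Y) := by ring
        have h4 : c.natAbs ≤ R := by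
          rw [hR, Nat.le_div_iff_mul_le hD1]
          exact h3
        rw [Int.abs_eq_natAbs]
        exact_mod_cast h4
      have hGc : G.card ≤ T.card := (Finset.card_le_card hGT).trans Finset.card_image_le
      -- the auxiliary number
      set Φ := eval (Fin.append u v) (Phi F k) with hΦd
      set Δ := g.1 * z1.2 - g.2 * z1.1 with hΔ
      set N : ℕ := σ.natAbs * (e * (Φ.natAbs * Δ.natAbs)) with hN
      have hN1 : 1 ≤ N := Nat.one_le_iff_ne_zero.2 (Nat.mul_ne_zero (Int.natAbs_ne_zero.2 hσ)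
        (Nat.mul_ne_zero (by omega) (Nat.mul_ne_zero (Int.natAbs_ne_zero.2 hΦ)
          (Int.natAbs_ne_zero.2 hz1ne))))
      have hΔB : Δ.natAbs ≤ 2 * B ^ (2 * A) := by
        have h1 := hdetD z1 hz1S
        have h2 : Δ.natAbs ≤ 2 * D := by zify; exact h1
        have h3 : X * Y ≤ B ^ (2 * A) := by
          calc X * Y ≤ B ^ A * B ^ A := Nat.mul_le_mul hXB hYB
            _ = B ^ (2 * A) := by rw [← pow_add]; congr 1; ring
        omega
      have hNR : N ≤ R ^ A' := by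
        refine le_trans ?_ hBE
        have h2e : 2 * e ≤ B ^ (2 * e) := Nat.lt_two_pow_self.le.trans (Nat.pow_le_pow_left hB _)
        calc N ≤ B ^ A * (e * (B ^ A * (2 * B ^ (2 * A)))) :=
              Nat.mul_le_mul hσB (Nat.mul_le_mul_left _ (Nat.mul_le_mul hΦB hΔB))
          _ = (2 * e) * B ^ (4 * A) := by
              have : B ^ (4 * A) = B ^ A * (B ^ A * B ^ (2 * A)) := by
                rw [← pow_add, ← pow_add]; congr 1; ring
              rw [this]; ring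
          _ ≤ B ^ (2 * e) * B ^ (4 * A) := Nat.mul_le_mul_right _ h2e
          _ = B ^ E := by rw [← pow_add]
      have hTc := hline R hR1 u v hΦ g.1 g.2 z1.1 z1.2 hz1ne σ hσ N hN1 hNR
        (Int.natAbs_dvd.1 (by
          have : σ.natAbs ∣ N := Dvd.intro _ hN.symm
          exact_mod_cast this))
        (Dvd.intro_left (σ.natAbs * (Φ.natAbs * Δ.natAbs)) (by rw [hN]; ring))
        (Int.natAbs_dvd.1 (by
          have : Φ.natAbs ∣ N := Dvd.intro_left (σ.natAbs * e * Δ.natAbs) (by rw [hN]; ring)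
          exact_mod_cast this))
        (Int.natAbs_dvd.1 (by
          have : Δ.natAbs ∣ N := Dvd.intro_left (σ.natAbs * e * Φ.natAbs) (by rw [hN]; ring)
          exact_mod_cast this)) T (by
        intro t ht
        rw [hT, Finset.mem_filter, Finset.mem_Icc, ← abs_le] at ht
        obtain ⟨ht1, ht2⟩ := ht
        obtain ⟨htS, -, -⟩ := hmem _ ht2
        obtain ⟨-, -, -, w, hw1, hw2⟩ := hS _ htS
        exact ⟨ht1, w, hw1.trans (by exact_mod_cast hBA), hw2⟩)
      refine le_trans (by exact_mod_cast hGc) (hTc.trans ?_)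
      refine mul_le_mul_of_nonneg_left ?_ hC1.le
      refine Real.rpow_le_rpow_of_exponent_le (by exact_mod_cast hR1) ?_
      have : 1 / (e : ℝ) ≤ 1 / 2 := one_div_le_one_div_of_le (by norm_num) (by exact_mod_cast he)
      linarith
    have hcard := Finset.card_le_mul_card_image_of_maps_to (s := S1)
      (t := Finset.Icc (-(K : ℤ)) K) (f := fun z => (g.1 * z.2 - g.2 * z.1) / (m : ℤ)) (by
        intro z hz
        rw [Finset.mem_Icc, ← abs_le]
        exact hKbd z hz) _ hfib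
    rw [card_Icc_int] at hcard
    have h1 : (S1.card : ℝ) ≤ (C1 * (R : ℝ) ^ ((3 : ℝ) / 4)) * (3 * K) := by
      have h2 : (S1.card : ℝ) ≤ ((⌊C1 * (R : ℝ) ^ ((3 : ℝ) / 4)⌋₊ * (2 * K + 1) : ℕ) : ℝ) := by
        exact_mod_cast hcard
      refine h2.trans ?_
      push_cast
      have hK1r : (1 : ℝ) ≤ K := by exact_mod_cast hK1
      refine mul_le_mul (Nat.floor_le (by positivity)) (by linarith) (by positivity) (by positivity)
    have hKr : (K : ℝ) ≤ 2 * (x / ((X : ℝ) * Y / D)) := by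
      have h2 : ((2 * D / m : ℕ) : ℝ) ≤ ((2 * D : ℕ) : ℝ) / m := Nat.cast_div_le
      rw [← hK] at h2
      push_cast at h2
      have hX0 : (0 : ℝ) < X := by exact_mod_cast hX
      have hY0 : (0 : ℝ) < Y := by exact_mod_cast hY
      have h3 : 2 * (x / ((X : ℝ) * Y / D)) = 2 * (D : ℝ) / m := by
        rw [hx]; field_simp
      rw [h3]; exact h2
    have hLy : (L : ℝ) ≤ (X : ℝ) * Y / D := by
      rw [le_div_iff₀ hD0]
      have : ((D * L : ℕ) : ℝ) ≤ ((X * Y : ℕ) : ℝ) := by exact_mod_cast hDL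
      push_cast at this
      linarith
    have h4 := real_final x ((X : ℝ) * Y / D) L C1 hC1.le hx1 hL0 hLy hxL
    refine h1.trans (le_trans ?_ h4)
    have hR34 : (R : ℝ) ^ ((3 : ℝ) / 4) ≤ (2 * ((X : ℝ) * Y / D)) ^ ((3 : ℝ) / 4) :=
      Real.rpow_le_rpow (Nat.cast_nonneg _) hRr (by norm_num)
    calc (C1 * (R : ℝ) ^ ((3 : ℝ) / 4)) * (3 * K) ≤
          (C1 * (2 * ((X : ℝ) * Y / D)) ^ ((3 : ℝ) / 4)) * (3 * (2 * (x / ((X : ℝ) * Y / D)))) := by
          refine mul_le_mul (mul_le_mul_of_nonneg_left hR34 hC1.le) (by linarith) (by positivity)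
            (by positivity)
      _ = _ := by ring
  have h1 : (S.card : ℝ) = S0.card + S1.card := by rw [hsplit]; push_cast; rfl
  have h2 : (S0.card : ℝ) ≤ 8 := by exact_mod_cast hS0c
  calc (S.card : ℝ) = S0.card + S1.card := h1
    _ ≤ 8 * 1 + 24 * C1 * x ^ ((7 : ℝ) / 8) := by linarith
    _ ≤ 8 * x ^ ((7 : ℝ) / 8) + 24 * C1 * x ^ ((7 : ℝ) / 8) := by linarith
    _ = _ := by ring

end Pool.Agent.N445.VW
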