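import Mathlib
import Pool.Agent.N445.VW.Lu
import Pool.Agent.N445.VW.Pair

/-! # Points of a plane at which a form is a moderate multiple of a power -/

set_option autoImplicit false

namespace Pool.Agent.N445.VW

open MvPolynomial Pool.Agent.TH910.Voj Pool.Agent.H813R3.Voj

/-- A prime dividing the value, and not the auxiliary number, does not divide the second
coordinate. -/
theorem not_dvd_snd {n : ℕ} (F : MvPolynomial (Fin n) ℤ) {k : ℕ} (hk : F.IsHomogeneous k)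
    (u v : Fin n → ℤ) (p : ℕ) (hp : p.Prime) (hu : ¬ (p : ℤ) ∣ eval u F) (z : ℤ × ℤ)
    (hcop : IsCoprime z.1 z.2) (hz : (p : ℤ) ∣ eval (pt u v z.1 z.2) F) : ¬ (p : ℤ) ∣ z.2 := by
  have hpZ : Prime (p : ℤ) := Nat.prime_iff_prime_int.1 hp
  intro h5
  have h6 : (p : ℤ) ∣ eval (pt u v z.1 z.2) F - eval (fun i => z.1 * u i) F := by
    refine eval_congr_mod F _ _ _ fun i => ?_
    have : pt u v z.1 z.2 i - z.1 * u i = z.2 * v i := by unfold pt; ring
    rw [this]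
    exact h5.mul_right _
  have h7 : eval (fun i => z.1 * u i) F = z.1 ^ k * eval u F := by
    have h8 : eval (fun i => z.1 * u i) F = aeval (fun i => z.1 * u i) F := rfl
    rw [h8, aeval_scale F hk]; rfl
  have h10 : (p : ℤ) ∣ z.1 ^ k * eval u F := by
    rw [← h7]
    have := dvd_sub hz h6
    simpa using this
  rcases hpZ.dvd_or_dvd h10 with h | h
  · have h11 := hpZ.dvd_of_dvd_pow h
    exact hpZ.not_isUnit (hcop.isUnit_of_dvd' h11 h5)
  · exact hu h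

/-- Classes of points. -/
theorem card_mod_classes {n : ℕ} (F : MvPolynomial (Fin n) ℤ) {k : ℕ} (hk : F.IsHomogeneous k)
    (hk1 : 1 ≤ k) (u v : Fin n → ℤ) (m : ℕ) (hsf : Squarefree m)
    (hm : ∀ p : ℕ, p.Prime → p ∣ m → ¬ (p : ℤ) ∣ eval (Fin.append u v) (Phi F k))
    (S : Finset (ℤ × ℤ))
    (hS : ∀ z ∈ S, IsCoprime z.1 z.2 ∧ (m : ℤ) ∣ eval (pt u v z.1 z.2) F) (M : ℝ)
    (hM : ∀ S' ⊆ S, (∀ z ∈ S', ∀ w ∈ S', (m : ℤ) ∣ z.1 * w.2 - w.1 * z.2) → (S'.card : ℝ) ≤ M) :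
    (S.card : ℝ) ≤ (k : ℝ) ^ m.primeFactors.card * M := by
  classical
  have hm0 : m ≠ 0 := hsf.ne_zero
  set f := onLine F v u with hf
  have hM0 : 0 ≤ M := by
    have := hM ∅ (Finset.empty_subset _) (by simp)
    simpa using this
  have hgood : ∀ p : ℕ, p.Prime → p ∣ m → ¬ (p : ℤ) ∣ eval u F := fun p hp hpm =>
    (Phi_good F hk hk1 u v p (hm p hp hpm)).1
  have hcop : ∀ z ∈ S, IsCoprime (m : ℤ) z.2 := by
    intro z hz
    obtain ⟨h1, h2⟩ := hS z hz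
    rw [Int.isCoprime_iff_nat_coprime, Int.natAbs_natCast]
    refine Nat.coprime_of_dvd fun p hp hpm hpz => ?_
    refine not_dvd_snd F hk u v p hp (hgood p hp hpm) z h1 ?_ (Int.natCast_dvd.2 hpz)
    exact (Int.natCast_dvd_natCast.2 hpm).trans h2
  have ht : ∀ z : ℤ × ℤ, ∃ t : ℤ, z ∈ S → (m : ℤ) ∣ z.2 * t - z.1 := by
    intro z
    by_cases hz : z ∈ S
    · obtain ⟨t, ht⟩ := exists_quot (m : ℤ) z.1 z.2 (hcop z hz)
      exact ⟨t, fun _ => ht⟩
    · exact ⟨0, fun h => absurd h hz⟩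
  choose t ht using ht
  have hft : ∀ z ∈ S, (m : ℤ) ∣ f.eval (t z) := fun z hz =>
    dvd_onLine F hk u v _ z.1 z.2 (t z) (hcop z hz) (ht z hz) (hS z hz).2
  set Q : Finset ({p // p ∈ m.primeFactors} → ℤ) := Fintype.piFinset fun p => rts f p with hQ
  have hQcard : Q.card ≤ k ^ m.primeFactors.card := by
    rw [hQ, Fintype.card_piFinset]
    calc ∏ p : {p // p ∈ m.primeFactors}, (rts f p).card ≤
          ∏ _p : {p // p ∈ m.primeFactors}, k := by
          refine Finset.prod_le_prod' fun p _ => ?_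
          have hp := p.2
          rw [Nat.mem_primeFactors] at hp
          have hl : ¬ ((p : ℕ) : ℤ) ∣ f.leadingCoeff := by
            have hfc : f.coeff k = eval u F := (onLine_spec F hk v u).2
            have hne : f.coeff k ≠ 0 := by
              rw [hfc]; intro h; exact hgood p hp.1 hp.2.1 (h ▸ dvd_zero _)
            have hfd : f.natDegree = k :=
              le_antisymm (onLine_spec F hk v u).1 (Polynomial.le_natDegree_of_ne_zero hne)
            rw [Polynomial.leadingCoeff, hfd, hfc]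
            exact hgood p hp.1 hp.2.1
          exact (card_rts f p hp.1 hl).trans (onLine_spec F hk v u).1
      _ = _ := by
          rw [Finset.prod_const, Finset.card_univ, Fintype.card_coe]
  have h1 := Finset.card_le_mul_card_image_of_maps_to (s := S) (t := Q)
    (f := fun (z : ℤ × ℤ) (p : {p // p ∈ m.primeFactors}) => t z % ((p : ℕ) : ℤ)) (by
      intro z hz
      rw [hQ, Fintype.mem_piFinset]
      intro p
      have hp := p.2
      rw [Nat.mem_primeFactors] at hp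
      have hp0 : (0 : ℤ) < (p : ℕ) := by exact_mod_cast hp.1.pos
      unfold rts
      rw [Finset.mem_filter, Finset.mem_Ico]
      refine ⟨⟨Int.emod_nonneg _ hp0.ne', Int.emod_lt_of_pos _ hp0⟩, ?_⟩
      have h2 : ((p : ℕ) : ℤ) ∣ f.eval (t z) := by
        have h3 : ((p : ℕ) : ℤ) ∣ (m : ℤ) := by exact_mod_cast hp.2.1
        exact h3.trans (hft z hz)
      have h4 : ((p : ℕ) : ℤ) ∣ f.eval (t z % ((p : ℕ) : ℤ)) - f.eval (t z) :=
        ((Int.mod_modEq (t z) ((p : ℕ) : ℤ)).symm.dvd).trans (Polynomial.sub_dvd_eval_sub _ _ _)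
      have := dvd_add h4 h2
      simpa using this) ⌊M⌋₊ (by
      intro s _
      refine Nat.le_floor (hM _ (Finset.filter_subset _ _) ?_)
      intro z hz w hw
      rw [Finset.mem_filter] at hz hw
      have h2 : (m : ℤ) ∣ t w - t z := by
        rw [← Int.natAbs_dvd_natAbs, Int.natAbs_natCast]
        rw [← Nat.prod_primeFactors_of_squarefree hsf]
        refine Finset.prod_primes_dvd _ (fun p hp => ?_) fun p hp => ?_
        · exact Nat.prime_iff.1 (Nat.prime_of_mem_primeFactors hp)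
        · have h4 := congrFun (hz.2.trans hw.2.symm) ⟨p, hp⟩
          simp only at h4
          exact Int.natCast_dvd.1 (Int.ModEq.dvd h4)
      exact det_dvd _ z.1 z.2 w.1 w.2 (t z) (t w) (ht z hz.1) (ht w hw.1) h2)
  have h2 : (S.card : ℝ) ≤ ((⌊M⌋₊ * Q.card : ℕ) : ℝ) := by exact_mod_cast h1
  refine h2.trans ?_
  push_cast
  rw [mul_comm]
  exact mul_le_mul (by exact_mod_cast hQcard) (Nat.floor_le hM0) (Nat.cast_nonneg _) (by positivity)

theorem sum_rpow_le (Q : ℕ) :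
    ∑ m ∈ Finset.Icc 1 Q, ((m : ℝ)) ^ (-(7 / 8 : ℝ)) ≤ 8 * (Q : ℝ) ^ ((1 : ℝ) / 8) := by
  induction Q with
  | zero => simp
  | succ Q ih =>
    rw [Finset.sum_Icc_succ_top (by omega)]
    have hq : (0 : ℝ) < ((Q + 1 : ℕ) : ℝ) := by positivity
    set q : ℝ := ((Q + 1 : ℕ) : ℝ) with hqd
    have hQq : (Q : ℝ) = q * (1 + -(1 / q)) := by
      rw [mul_add, mul_one, mul_neg, mul_one_div_cancel hq.ne', hqd]
      push_cast
      ring
    have hq1 : 1 ≤ q := by rw [hqd]; push_cast; linarith [(Nat.cast_nonneg Q : (0 : ℝ) ≤ Q)]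
    have hq2 : 1 / q ≤ 1 := by rw [div_le_one hq]; exact hq1
    have h1 : (Q : ℝ) ^ ((1 : ℝ) / 8) ≤ q ^ ((1 : ℝ) / 8) * (1 + (1 / 8) * -(1 / q)) := by
      rw [hQq, Real.mul_rpow hq.le (by linarith)]
      refine mul_le_mul_of_nonneg_left ?_ (by positivity)
      exact rpow_one_add_le_one_add_mul_self (by linarith) (by norm_num) (by norm_num)
    have h2 : q ^ ((1 : ℝ) / 8) * (1 / q) = q ^ (-(7 / 8 : ℝ)) := by
      rw [one_div q, ← Real.rpow_neg_one q, ← Real.rpow_add hq]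
      norm_num
    have h3 : q ^ ((1 : ℝ) / 8) * (1 + (1 / 8) * -(1 / q)) =
        q ^ ((1 : ℝ) / 8) - (1 / 8) * (q ^ ((1 : ℝ) / 8) * (1 / q)) := by ring
    rw [h3, h2] at h1
    linarith

/-- **Moderate multiples of powers in a plane.** -/
theorem plane_power {n : ℕ} (F : MvPolynomial (Fin n) ℤ) {k : ℕ} (hk : F.IsHomogeneous k)
    (hk2 : 2 ≤ k) (e : ℕ) (he : 2 ≤ e) (A : ℕ) (η : ℝ) (hη : 0 < η) :
    ∃ C : ℝ, 0 < C ∧ ∀ B : ℕ, 2 ≤ B → ∀ u v : Fin n → ℤ,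
      eval (Fin.append u v) (Phi F k) ≠ 0 → (eval (Fin.append u v) (Phi F k)).natAbs ≤ B ^ A →
      ∀ X Y Q W : ℕ, 1 ≤ X → 1 ≤ Y → X ≤ B ^ A → Y ≤ B ^ A → 1 ≤ W → W ≤ B ^ A →
      (Q : ℝ) * (B : ℝ) ^ η ≤ (X : ℝ) * Y → ∀ S : Finset (ℤ × ℤ),
      (∀ z ∈ S, |z.1| ≤ X ∧ |z.2| ≤ Y ∧ IsCoprime z.1 z.2 ∧ ∃ (s : ℕ) (σ w : ℤ), Squarefree s ∧
        s ≤ Q ∧ σ ≠ 0 ∧ |σ| ≤ W ∧ |w| ≤ (B : ℤ) ^ A ∧
        eval (pt u v z.1 z.2) F = σ * s * w ^ e) →
      (S.card : ℝ) ≤ C * W * ((X : ℝ) * Y) * (B : ℝ) ^ (-(η / 16)) := by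
  classical
  have hk0 : (0 : ℝ) < k := by exact_mod_cast (by omega : 0 < k)
  have hk1 : (1 : ℝ) ≤ k := by exact_mod_cast (by omega : 1 ≤ k)
  set ε : ℝ := η / (16 * (3 * A + 1)) with hε
  have hε0 : 0 < ε := by positivity
  obtain ⟨Cd, hCd0, hCd⟩ := H510R2.divisor_bound (ε / k) (by positivity)
  obtain ⟨C1, hC10, hclass⟩ := class_count F hk hk2 e he (3 * A) η hη
  refine ⟨Cd * 3 * (Cd ^ k * (C1 * 8)), by positivity, ?_⟩
  intro B hB u v hΦ hΦB X Y Q W hX hY hXB hYB hW hWB hQ S hS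
  have hB1 : (1 : ℝ) ≤ B := by exact_mod_cast (by omega : 1 ≤ B)
  have hBpos : (0 : ℝ) < B := by linarith
  have hBη : 1 ≤ (B : ℝ) ^ η := Real.one_le_rpow hB1 hη.le
  have hBpow : ∀ {a b : ℕ}, a ≤ b → B ^ a ≤ B ^ b := fun h => Nat.pow_le_pow_right (by omega) h
  set Φ := eval (Fin.append u v) (Phi F k) with hΦd
  have hXY0 : (0 : ℝ) < (X : ℝ) * Y := by
    have : (0 : ℝ) < X := by exact_mod_cast hX
    have : (0 : ℝ) < Y := by exact_mod_cast hY
    positivity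
  have hQXY : (Q : ℝ) ≤ (X : ℝ) * Y := by
    refine le_trans ?_ hQ
    exact le_mul_of_one_le_right (Nat.cast_nonneg _) hBη
  have hQB : Q ≤ B ^ (2 * A) := by
    have h1 : Q ≤ X * Y := by exact_mod_cast hQXY
    calc Q ≤ X * Y := h1
      _ ≤ B ^ A * B ^ A := Nat.mul_le_mul hXB hYB
      _ = B ^ (2 * A) := by rw [← pow_add]; congr 1; ring
  have hchoose : ∀ z : ℤ × ℤ, ∃ (s : ℕ) (σ w : ℤ), z ∈ S → Squarefree s ∧
        s ≤ Q ∧ σ ≠ 0 ∧ |σ| ≤ W ∧ |w| ≤ (B : ℤ) ^ A ∧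
        eval (pt u v z.1 z.2) F = σ * s * w ^ e := by
    intro z
    by_cases hz : z ∈ S
    · obtain ⟨-, -, -, s, σ, w, h⟩ := hS z hz
      exact ⟨s, σ, w, fun _ => h⟩
    · exact ⟨0, 0, 0, fun h => absurd h hz⟩
  choose s σ w hsw using hchoose
  set T : ℕ × ℤ × ℕ → Finset (ℤ × ℤ) := fun g => S.filter fun z =>
    Nat.gcd (s z) Φ.natAbs = g.1 ∧ σ z = g.2.1 ∧ s z / Nat.gcd (s z) Φ.natAbs = g.2.2 with hT
  have hΦn : Φ.natAbs ≠ 0 := Int.natAbs_ne_zero.2 hΦ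
  set I : Finset (ℕ × ℤ × ℕ) := Φ.natAbs.divisors ×ˢ ((Finset.Icc (-(W : ℤ)) W) ×ˢ
    (Finset.Icc 1 Q)) with hI
  have hsub : S ⊆ I.biUnion T := by
    intro z hz
    obtain ⟨h1, h2, h3, h4, h5, h6⟩ := hsw z hz
    have hs0 : 0 < s z := Nat.pos_of_ne_zero h1.ne_zero
    have hg0 : 0 < Nat.gcd (s z) Φ.natAbs := Nat.gcd_pos_of_pos_left _ hs0
    rw [Finset.mem_biUnion]
    refine ⟨(Nat.gcd (s z) Φ.natAbs, σ z, s z / Nat.gcd (s z) Φ.natAbs), ?_, ?_⟩
    · rw [hI, Finset.mem_product, Finset.mem_product, Nat.mem_divisors, Finset.mem_Icc,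
        Finset.mem_Icc]
      refine ⟨⟨Nat.gcd_dvd_right _ _, hΦn⟩, abs_le.1 h4, ?_, ?_⟩
      · exact Nat.div_pos (Nat.le_of_dvd hs0 (Nat.gcd_dvd_left _ _)) hg0
      · exact (Nat.div_le_self _ _).trans h2
    · rw [hT, Finset.mem_filter]
      exact ⟨hz, rfl, rfl, rfl⟩
  have hkω : ∀ m ∈ Finset.Icc 1 Q, (k : ℝ) ^ m.primeFactors.card ≤
      Cd ^ k * (B : ℝ) ^ (2 * A * ε) := by
    intro m hm
    rw [Finset.mem_Icc] at hm
    have h1 : ((k ^ m.primeFactors.card : ℕ) : ℝ) ≤ ((m.divisors.card ^ k : ℕ) : ℝ) := by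
      exact_mod_cast pow_card_primeFactors_le k m (by omega)
    push_cast at h1
    refine h1.trans ?_
    calc ((m.divisors.card : ℝ)) ^ k ≤ (Cd * (m : ℝ) ^ (ε / k)) ^ k :=
          pow_le_pow_left₀ (Nat.cast_nonneg _) (hCd m hm.1) k
      _ = Cd ^ k * ((m : ℝ) ^ (ε / k)) ^ k := mul_pow _ _ _
      _ = Cd ^ k * (m : ℝ) ^ ε := by
          rw [← Real.rpow_natCast ((m : ℝ) ^ (ε / k)), ← Real.rpow_mul (Nat.cast_nonneg _),
            div_mul_cancel₀ _ hk0.ne']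
      _ ≤ Cd ^ k * ((B : ℝ) ^ (2 * A)) ^ ε := by
          refine mul_le_mul_of_nonneg_left ?_ (by positivity)
          refine Real.rpow_le_rpow (Nat.cast_nonneg _) ?_ hε0.le
          exact_mod_cast hm.2.trans hQB
      _ = _ := by
          rw [← Real.rpow_natCast (B : ℝ) (2 * A), ← Real.rpow_mul hBpos.le]
          push_cast
          rfl
  have hTcard : ∀ g ∈ I, ((T g).card : ℝ) ≤ (Cd ^ k * (B : ℝ) ^ (2 * A * ε)) *
      (C1 * (((X : ℝ) * Y) ^ ((7 : ℝ) / 8) * ((g.2.2 : ℝ) ^ (-(7 / 8 : ℝ))))) := by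
    rintro ⟨g, σ₀, m⟩ hg
    rw [hI, Finset.mem_product, Finset.mem_product, Finset.mem_Icc,
        Finset.mem_Icc] at hg
    obtain ⟨hg1, hg2, hg3⟩ := hg
    simp only at hg1 hg2 hg3 ⊢
    have hm0 : (0 : ℝ) < m := by exact_mod_cast hg3.1
    rcases (T (g, σ₀, m)).eq_empty_or_nonempty with hemp | ⟨z₀, hz₀⟩
    · rw [hemp, Finset.card_empty, Nat.cast_zero]; positivity
    have hmemT : ∀ z ∈ T (g, σ₀, m), z ∈ S ∧ s z = g * m ∧ σ z = σ₀ ∧
        Nat.gcd (g * m) Φ.natAbs = g := by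
      intro z hz
      rw [hT, Finset.mem_filter] at hz
      obtain ⟨h1, h2, h3, h4⟩ := hz
      simp only at h2 h3 h4
      have h5 : s z = g * m := by
        rw [← h2, ← h4, Nat.mul_div_cancel' (Nat.gcd_dvd_left _ _)]
      exact ⟨h1, h5, h3, by rw [← h5]; exact h2⟩
    obtain ⟨hz₀S, hsz₀, hσz₀, hgcd⟩ := hmemT z₀ hz₀
    obtain ⟨a1, a2, a3, a4, -, -⟩ := hsw z₀ hz₀S
    rw [hsz₀] at a1 a2
    rw [hσz₀] at a3 a4
    have hg0 : 0 < g := Nat.pos_of_ne_zero (by rintro rfl; simp at a1)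
    have hmsf : Squarefree m := a1.of_mul_right
    have hmQ : m ≤ g * m := Nat.le_mul_of_pos_left _ hg0
    have hmΦ : ∀ p : ℕ, p.Prime → p ∣ m → ¬ (p : ℤ) ∣ Φ := by
      intro p hp hpm hpΦ
      have h1 : p ∣ g := by
        rw [← hgcd]
        exact Nat.dvd_gcd (hpm.mul_left _) (Int.natCast_dvd.1 hpΦ)
      have h2 : p * p ∣ g * m := mul_dvd_mul h1 hpm
      exact hp.not_isUnit (a1 p h2)
    refine (card_mod_classes F hk (by omega) u v m hmsf hmΦ (T (g, σ₀, m)) ?_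
      (C1 * ((X : ℝ) * Y / m) ^ ((7 : ℝ) / 8)) ?_).trans ?_
    · intro z hz
      obtain ⟨h1, h2, h3, -⟩ := hmemT z hz
      obtain ⟨-, -, -, -, -, h4⟩ := hsw z h1
      refine ⟨(hS z h1).2.2.1, ?_⟩
      rw [h4, h2]
      push_cast
      exact Dvd.intro_left (σ z * g) (by ring) |>.mul_right _
    · intro S' hS' hdet
      refine hclass B hB u v hΦ (hΦB.trans (hBpow (by omega))) (σ₀ * (g * m : ℕ)) ?_ ?_ X Y m hX hY
        hg3.1 (hXB.trans (hBpow (by omega))) (hYB.trans (hBpow (by omega))) ?_ S' ?_ hdet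
      · refine mul_ne_zero a3 ?_
        exact_mod_cast a1.ne_zero
      · rw [Int.natAbs_mul, Int.natAbs_natCast]
        have h1 : σ₀.natAbs ≤ B ^ A := by
          refine le_trans ?_ hWB
          zify
          exact a4
        calc σ₀.natAbs * (g * m) ≤ B ^ A * B ^ (2 * A) := Nat.mul_le_mul h1 (a2.trans hQB)
          _ = B ^ (3 * A) := by rw [← pow_add]; congr 1; ring
      · refine le_trans ?_ hQ
        refine mul_le_mul_of_nonneg_right ?_ (by positivity)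
        exact_mod_cast hmQ.trans a2
      · intro z hz
        obtain ⟨h1, h2, h3, -⟩ := hmemT z (hS' hz)
        obtain ⟨b1, b2, b3, -⟩ := hS z h1
        obtain ⟨-, -, -, -, h5, h4⟩ := hsw z h1
        refine ⟨b1, b2, b3, w z, h5.trans ?_, ?_⟩
        · exact_mod_cast hBpow (by omega : A ≤ 3 * A)
        · rw [h4, h3, h2]
    · refine mul_le_mul (hkω m (Finset.mem_Icc.2 hg3)) (le_of_eq ?_) (by positivity)
        (by positivity)
      rw [Real.div_rpow hXY0.le hm0.le, Real.rpow_neg hm0.le, div_eq_mul_inv]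
  have hsum : (S.card : ℝ) ≤ ∑ g ∈ I, ((T g).card : ℝ) := by
    exact_mod_cast (Finset.card_le_card hsub).trans Finset.card_biUnion_le
  have hsum2 : ∑ g ∈ I, (Cd ^ k * (B : ℝ) ^ (2 * A * ε)) *
      (C1 * (((X : ℝ) * Y) ^ ((7 : ℝ) / 8) * ((g.2.2 : ℝ) ^ (-(7 / 8 : ℝ))))) =
      (Φ.natAbs.divisors.card : ℝ) * (((2 * W + 1 : ℕ) : ℝ) *
        ((Cd ^ k * (B : ℝ) ^ (2 * A * ε)) * (C1 * (((X : ℝ) * Y) ^ ((7 : ℝ) / 8) *
          ∑ m ∈ Finset.Icc 1 Q, (m : ℝ) ^ (-(7 / 8 : ℝ)))))) := by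
    rw [hI, Finset.sum_product]
    simp only [Finset.sum_product, Finset.sum_const, nsmul_eq_mul, card_Icc_int]
    simp only [Finset.mul_sum]
  have hdΦ : (Φ.natAbs.divisors.card : ℝ) ≤ Cd * (B : ℝ) ^ (A * ε) := by
    refine (hCd Φ.natAbs (Nat.pos_of_ne_zero hΦn)).trans ?_
    refine mul_le_mul_of_nonneg_left ?_ hCd0.le
    calc (Φ.natAbs : ℝ) ^ (ε / k) ≤ ((B : ℝ) ^ A) ^ (ε / k) := by
          refine Real.rpow_le_rpow (Nat.cast_nonneg _) ?_ (by positivity)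
          exact_mod_cast hΦB
      _ = (B : ℝ) ^ (A * (ε / k)) := by rw [← Real.rpow_natCast, ← Real.rpow_mul hBpos.le]
      _ ≤ _ := by
          refine Real.rpow_le_rpow_of_exponent_le hB1 ?_
          refine mul_le_mul_of_nonneg_left ?_ (Nat.cast_nonneg _)
          exact div_le_self hε0.le hk1
  have hW3 : (((2 * W + 1 : ℕ) : ℝ)) ≤ 3 * W := by
    push_cast
    have : (1 : ℝ) ≤ W := by exact_mod_cast hW
    linarith
  have hQ8 : 8 * (Q : ℝ) ^ ((1 : ℝ) / 8) ≤ 8 * (((X : ℝ) * Y) ^ ((1 : ℝ) / 8) *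
      (B : ℝ) ^ (-(η / 8))) := by
    refine mul_le_mul_of_nonneg_left ?_ (by norm_num)
    have h1 : (Q : ℝ) ≤ ((X : ℝ) * Y) * (B : ℝ) ^ (-η) := by
      rw [Real.rpow_neg hBpos.le, ← div_eq_mul_inv, le_div_iff₀ (by positivity)]
      exact hQ
    calc (Q : ℝ) ^ ((1 : ℝ) / 8) ≤ (((X : ℝ) * Y) * (B : ℝ) ^ (-η)) ^ ((1 : ℝ) / 8) :=
          Real.rpow_le_rpow (Nat.cast_nonneg _) h1 (by norm_num)
      _ = _ := by
          rw [Real.mul_rpow hXY0.le (by positivity), ← Real.rpow_mul hBpos.le]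
          congr 2
          ring
  calc (S.card : ℝ) ≤ ∑ g ∈ I, ((T g).card : ℝ) := hsum
    _ ≤ _ := Finset.sum_le_sum hTcard
    _ = _ := hsum2
    _ ≤ (Cd * (B : ℝ) ^ (A * ε)) * ((3 * W) *
        ((Cd ^ k * (B : ℝ) ^ (2 * A * ε)) * (C1 * (((X : ℝ) * Y) ^ ((7 : ℝ) / 8) *
          (8 * (((X : ℝ) * Y) ^ ((1 : ℝ) / 8) * (B : ℝ) ^ (-(η / 8)))))))) := by
        have hs := (sum_rpow_le Q).trans hQ8
        gcongr
    _ = (Cd * 3 * (Cd ^ k * (C1 * 8))) * W * (((X : ℝ) * Y) ^ ((7 : ℝ) / 8) *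
        ((X : ℝ) * Y) ^ ((1 : ℝ) / 8)) * ((B : ℝ) ^ (A * ε) * (B : ℝ) ^ (2 * A * ε) *
          (B : ℝ) ^ (-(η / 8))) := by ring
    _ = (Cd * 3 * (Cd ^ k * (C1 * 8))) * W * ((X : ℝ) * Y) *
        (B : ℝ) ^ (A * ε + 2 * A * ε + -(η / 8)) := by
        rw [← Real.rpow_add hXY0, ← Real.rpow_add hBpos, ← Real.rpow_add hBpos]
        norm_num
    _ ≤ _ := by
        refine mul_le_mul_of_nonneg_left ?_ (by positivity)
        refine Real.rpow_le_rpow_of_exponent_le hB1 ?_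
        have h1 : A * ε + 2 * A * ε ≤ η / 16 := by
          rw [hε]
          have h2 : (A : ℝ) * (η / (16 * (3 * A + 1))) + 2 * A * (η / (16 * (3 * A + 1))) =
              (η / 16) * (3 * A / (3 * A + 1)) := by
            field_simp
            ring
          rw [h2]
          have h3 : (3 * (A : ℝ)) / (3 * A + 1) ≤ 1 := by
            rw [div_le_one (by positivity)]
            linarith
          calc (η / 16) * (3 * A / (3 * A + 1)) ≤ (η / 16) * 1 :=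
                mul_le_mul_of_nonneg_left h3 (by positivity)
            _ = _ := mul_one _
        linarith

end Pool.Agent.N445.VW
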