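import Mathlib
import Pool.Agent.N445.VW.PlC
import Pool.Agent.N445.VW.Pq

/-! # Moderate multiples of powers: the planes spanned by two short vectors -/

set_option autoImplicit false

namespace Pool.Agent.N445.VW

open MvPolynomial Pool.Agent.TH910.Voj Pool.Agent.H813R3.Voj

/-- the points of the planes spanned by two short vectors -/
def RepX {n : ℕ} (B U V : ℕ) (x : Fin (n + 1) → ℤ) : Prop :=
  ∃ (u v : Fin (n + 1) → ℤ) (ξ η : ℤ), u ∈ box (n + 1) (2 * U) ∧ v ∈ box (n + 1) (2 * V) ∧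
    (∃ l, |v l| ≤ (U : ℤ)) ∧ (x = fun i => ξ * u i + η * v i) ∧ |ξ| * U ≤ 4 * B ∧
    |η| * V ≤ 4 * B ∧ IsCoprime ξ η

theorem RepX.rep {n : ℕ} {B U V : ℕ} {x : Fin (n + 1) → ℤ} (h : RepX B U V x) :
    Rep (0 : MvPolynomial (Fin (n + 1)) ℤ) B U V 1 2 x := by
  obtain ⟨u, v, ξ, η, h1, h2, h3, h4, h5, h6, h7⟩ := h
  exact ⟨u, v, ξ, η, h1, h2, h3, h4, h5, h6, h7, 2, Nat.prime_two, by norm_num, by norm_num,
    by simp⟩

/-- the value is a moderate multiple of a power -/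
def Mul {n : ℕ} (F : MvPolynomial (Fin n) ℤ) (e : ℕ) (Q W : ℝ) (x : Fin n → ℤ) : Prop :=
  eval x F ≠ 0 ∧ ∃ (s : ℕ) (σ w : ℤ), Squarefree s ∧ (s : ℝ) ≤ Q ∧ (σ.natAbs : ℝ) ≤ W ∧
    eval x F = σ * s * w ^ e

theorem half_le_natdiv (a b : ℕ) (hb : 1 ≤ b) (hab : b ≤ a) : (a : ℝ) / b / 2 ≤ ((a / b : ℕ) : ℝ) := by
  have hb0 : (0 : ℝ) < b := by exact_mod_cast hb
  have h1 : a < b * (a / b + 1) := Nat.lt_mul_div_succ a (by omega)
  have h2 : (a : ℝ) < b * (((a / b : ℕ) : ℝ) + 1) := by exact_mod_cast h1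
  have h3 : 1 ≤ a / b := (Nat.one_le_div_iff (by omega)).2 hab
  have h4 : (1 : ℝ) ≤ ((a / b : ℕ) : ℝ) := by exact_mod_cast h3
  have h5 : (a : ℝ) / b < ((a / b : ℕ) : ℝ) + 1 := by
    rw [div_lt_iff₀ hb0]; linarith
  linarith

theorem card_case_D {n : ℕ} (hn : 2 ≤ n) (F : MvPolynomial (Fin (n + 1)) ℤ) {k : ℕ}
    (hk : F.IsHomogeneous k) (hk2 : 2 ≤ k) (hirr : Irreducible (toQ F)) (e : ℕ) (he : 2 ≤ e)
    (δ : ℝ) (hδ : 0 < δ) :
    ∃ C : ℝ, 0 < C ∧ ∃ B₀ : ℕ, ∀ B U V : ℕ, B₀ ≤ B → 1 ≤ B → 1 ≤ U → U ≤ 2 * V →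
      (U * V) ^ n ≤ 8 ^ n * B ^ (n - 1) →
      (B : ℝ) ^ (1 - 1 / (n : ℝ) - 1 / 8) < (U : ℝ) * V →
      (V : ℝ) < (U : ℝ) * (B : ℝ) ^ ((1 : ℝ) / 8) →
      ∀ E : Finset (Fin (n + 1) → ℤ), (∀ x ∈ E, RepX B U V x ∧
        Mul F e ((B : ℝ) ^ (1 + 1 / (n : ℝ) - δ)) ((B : ℝ) ^ (δ / 64)) x) →
      (E.card : ℝ) ≤ C * ((B : ℝ) ^ ((n : ℝ) + 1 - 1 / 8) + (B : ℝ) ^ ((n : ℝ) + 1 - δ / 64)) := by
  classical
  have hΦ0 := Phi_ne_zero F hk (by omega) hirr
  obtain ⟨cF, hcF1, hcF⟩ := exists_eval_bound F (hk.totalDegree_le)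
  obtain ⟨cΦ, hcΦ1, hcΦ⟩ := exists_eval_bound (Phi F k) le_rfl
  set DΦ := (Phi F k).totalDegree with hDΦ
  set A := cF + cΦ * 16 ^ DΦ + DΦ + k + 2 + ⌈δ⌉₊ with hA
  obtain ⟨Cp, hCp0, hplane⟩ := plane_power F hk hk2 e he A (δ / 2) (by positivity)
  set Cd : ℝ := ((∑ i, (Phi F k).degreeOf i : ℕ) : ℝ) with hCd
  have hCd0 : 0 ≤ Cd := Nat.cast_nonneg _
  -- large `B`
  have hn2 : (2 : ℝ) ≤ n := by exact_mod_cast hn
  have hn0 : (0 : ℝ) < n := by linarith
  obtain ⟨B₁, hB₁⟩ : ∃ B₁ : ℕ, ∀ B : ℕ, B₁ ≤ B → (3 : ℝ) ≤ (B : ℝ) ^ ((7 : ℝ) / 16) := by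
    have h1 : Filter.Tendsto (fun B : ℕ => (B : ℝ) ^ ((7 : ℝ) / 16)) Filter.atTop Filter.atTop :=
      (tendsto_rpow_atTop (by positivity)).comp tendsto_natCast_atTop_atTop
    exact Filter.eventually_atTop.mp (h1.eventually_ge_atTop 3)
  obtain ⟨B₂, hB₂⟩ : ∃ B₂ : ℕ, ∀ B : ℕ, B₂ ≤ B → (2 : ℝ) ≤ (B : ℝ) ^ (δ / 2) := by
    have h1 : Filter.Tendsto (fun B : ℕ => (B : ℝ) ^ (δ / 2)) Filter.atTop Filter.atTop :=
      (tendsto_rpow_atTop (by positivity)).comp tendsto_natCast_atTop_atTop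
    exact Filter.eventually_atTop.mp (h1.eventually_ge_atTop 2)
  set C1 : ℝ := 1024 * Cd * 25 ^ (n + 1) * 8 ^ n with hC1
  set C2 : ℝ := 25 ^ (n + 1) * Cp * 16 * 8 ^ n with hC2
  refine ⟨C1 + C2, by positivity, B₁ + B₂ + 16, ?_⟩
  intro B U V hBB hB hU hUV hprod hUV1 hUV2 E hE
  have hV : 1 ≤ V := by omega
  have hB1 : (1 : ℝ) ≤ B := by exact_mod_cast hB
  have hBpos : (0 : ℝ) < B := by linarith
  have hU1 : (1 : ℝ) ≤ U := by exact_mod_cast hU
  have hV1 : (1 : ℝ) ≤ V := by exact_mod_cast hV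
  have hU0 : (0 : ℝ) < U := by linarith
  have hV0 : (0 : ℝ) < V := by linarith
  have hB16 : 16 ≤ B := by omega
  obtain ⟨hp1, hp2, hUB, hVB⟩ := size_bounds n B U V hn hB hU hUV hprod
  obtain ⟨hUb, hVb⟩ := sizes_C n B U V hn hB hU hUV hprod hUV1 hUV2
  have hn4 : 0 ≤ 1 / (n : ℝ) := by positivity
  have hBδ2 : (2 : ℝ) ≤ (B : ℝ) ^ (δ / 2) := hB₂ B (by omega)
  have hVB' : V ≤ B := by
    have h1 : (V : ℝ) ≤ B := by
      have h2 := hB₁ B (by omega)
      calc (V : ℝ) ≤ 3 * (B : ℝ) ^ ((9 : ℝ) / 16) := hVb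
        _ ≤ (B : ℝ) ^ ((7 : ℝ) / 16) * (B : ℝ) ^ ((9 : ℝ) / 16) :=
            mul_le_mul_of_nonneg_right h2 (by positivity)
        _ = B := by rw [← Real.rpow_add hBpos]; norm_num
    exact_mod_cast h1
  have hUB' : U ≤ 2 * B := by omega
  -- sizes
  have hpow : ∀ a b : ℕ, a ≤ b → B ^ a ≤ B ^ b := fun a b h => Nat.pow_le_pow_right (by omega) h
  have hself : ∀ a : ℕ, a ≤ B ^ a := fun a =>
    (Nat.lt_pow_self (by omega : 1 < B)).le
  have hΦuv : ∀ u ∈ box (n + 1) (2 * U), ∀ v ∈ box (n + 1) (2 * V),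
      (eval (Fin.append u v) (Phi F k)).natAbs ≤ B ^ A := by
    intro u hu v hv
    refine (hcΦ (16 * B) (by omega) (Fin.append u v) ?_).trans ?_
    · rw [mem_box]
      intro i
      induction i using Fin.addCases with
      | left i =>
        rw [Fin.append_left]
        rw [mem_box] at hu
        refine (hu i).trans ?_
        exact_mod_cast (by omega : 2 * U ≤ 16 * B)
      | right i =>
        rw [Fin.append_right]
        rw [mem_box] at hv
        refine (hv i).trans ?_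
        exact_mod_cast (by omega : 2 * V ≤ 16 * B)
    · calc cΦ * (16 * B) ^ DΦ = (cΦ * 16 ^ DΦ) * B ^ DΦ := by rw [mul_pow]; ring
        _ ≤ B ^ (cΦ * 16 ^ DΦ) * B ^ DΦ := Nat.mul_le_mul_right _ (hself _)
        _ = B ^ (cΦ * 16 ^ DΦ + DΦ) := by rw [← pow_add]
        _ ≤ B ^ A := hpow _ _ (by omega)
  -- the two parts
  set Z := ((box (n + 1) (2 * U)) ×ˢ (box (n + 1) (2 * V))).filter
    (fun uv : (Fin (n + 1) → ℤ) × (Fin (n + 1) → ℤ) =>
      eval (Fin.append uv.1 uv.2) (Phi F k) = 0) with hZ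
  set ND := ((box (n + 1) (2 * U)) ×ˢ (box (n + 1) (2 * V))).filter
    (fun uv : (Fin (n + 1) → ℤ) × (Fin (n + 1) → ℤ) =>
      ¬ eval (Fin.append uv.1 uv.2) (Phi F k) = 0) with hND
  set E1 := E.filter (fun x => ∃ uv ∈ Z, ∃ ξ η : ℤ, |ξ| * U ≤ 4 * B ∧ |η| * V ≤ 4 * B ∧
      x = fun i => ξ * uv.1 i + η * uv.2 i) with hE1
  set E2 := E.filter (fun x => ¬ ∃ uv ∈ Z, ∃ ξ η : ℤ, |ξ| * U ≤ 4 * B ∧ |η| * V ≤ 4 * B ∧
      x = fun i => ξ * uv.1 i + η * uv.2 i) with hE2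
  have hsplit : E.card = E1.card + E2.card := by
    rw [hE1, hE2, Finset.card_filter_add_card_filter_not]
  have hUVpos : (0 : ℝ) < U * V := by positivity
  -- `E1`
  have hE1card : (E1.card : ℝ) ≤ C1 * (B : ℝ) ^ ((n : ℝ) + 1 - 1 / 8) := by
    have h1 := card_by_pairs F B U V 1 2 hU hV hUB hVB E1 Z (by
        intro x hx
        rw [hE1, Finset.mem_filter] at hx
        exact hx.2)
    have h2 : (Z.card : ℝ) ≤ Cd * ((5 * U : ℝ) ^ (n + 1) * (5 * V : ℝ) ^ (n + 1)) / U :=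
      card_Phi_zero (Phi F k) hΦ0 U V hU hUV
    have h3 : (1 : ℝ) / U ≤ (B : ℝ) ^ (-(1 / 8 : ℝ)) := by
      rw [Real.rpow_neg hBpos.le, one_div]
      exact inv_anti₀ (by positivity) hUb
    calc (E1.card : ℝ) ≤ Z.card * (1024 * (B : ℝ) ^ 2 / (U * V)) := h1
      _ ≤ (Cd * ((5 * U : ℝ) ^ (n + 1) * (5 * V : ℝ) ^ (n + 1)) / U) *
          (1024 * (B : ℝ) ^ 2 / (U * V)) := mul_le_mul_of_nonneg_right h2 (by positivity)
      _ = (1024 * Cd * 25 ^ (n + 1)) * (((U : ℝ) * V) ^ n * (1 / U) * (B : ℝ) ^ 2) := by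
          have e1 : (5 * U : ℝ) ^ (n + 1) * (5 * V : ℝ) ^ (n + 1) =
              25 ^ (n + 1) * (((U : ℝ) * V) ^ n * (U * V)) := by
            rw [← mul_pow, ← pow_succ, ← mul_pow]
            congr 1
            ring
          rw [e1]
          field_simp
      _ ≤ (1024 * Cd * 25 ^ (n + 1)) * ((8 ^ n * (B : ℝ) ^ ((n : ℝ) - 1)) *
          (B : ℝ) ^ (-(1 / 8 : ℝ)) * (B : ℝ) ^ 2) := by
          refine mul_le_mul_of_nonneg_left ?_ (by positivity)
          refine mul_le_mul_of_nonneg_right ?_ (by positivity)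
          exact mul_le_mul hp1 h3 (by positivity) (by positivity)
      _ = C1 * ((B : ℝ) ^ ((n : ℝ) - 1) * (B : ℝ) ^ (-(1 / 8 : ℝ)) * (B : ℝ) ^ 2) := by
          rw [hC1]; ring
      _ = _ := by
          rw [← Real.rpow_natCast (B : ℝ) 2, ← Real.rpow_add hBpos, ← Real.rpow_add hBpos]
          congr 2
          push_cast
          ring
  -- `E2`
  set X := 4 * B / U with hX
  set Y := 4 * B / V with hY
  have hX1 : 1 ≤ X := by
    rw [hX, Nat.le_div_iff_mul_le (by omega)]; omega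
  have hY1 : 1 ≤ Y := by
    rw [hY, Nat.le_div_iff_mul_le (by omega)]; omega
  have h4B : 4 * B ≤ B ^ A := by
    calc 4 * B ≤ B * B := Nat.mul_le_mul_right _ (by omega)
      _ = B ^ 2 := by ring
      _ ≤ B ^ A := hpow _ _ (by omega)
  have hXB : X ≤ B ^ A := (Nat.div_le_self _ _).trans h4B
  have hYB : Y ≤ B ^ A := (Nat.div_le_self _ _).trans h4B
  have hXle : (X : ℝ) ≤ 4 * B / U := by
    rw [hX]
    refine Nat.cast_div_le.trans ?_
    push_cast
    exact le_rfl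
  have hYle : (Y : ℝ) ≤ 4 * B / V := by
    rw [hY]
    refine Nat.cast_div_le.trans ?_
    push_cast
    exact le_rfl
  have hXge : 2 * (B : ℝ) / U ≤ X := by
    have := half_le_natdiv (4 * B) U hU (by omega)
    push_cast at this
    calc 2 * (B : ℝ) / U = 4 * B / U / 2 := by ring
      _ ≤ _ := by rw [hX]; exact this
  have hYge : 2 * (B : ℝ) / V ≤ Y := by
    have := half_le_natdiv (4 * B) V hV (by omega)
    push_cast at this
    calc 2 * (B : ℝ) / V = 4 * B / V / 2 := by ring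
      _ ≤ _ := by rw [hY]; exact this
  set Q := ⌊(B : ℝ) ^ (1 + 1 / (n : ℝ) - δ)⌋₊ with hQ
  set W := ⌊(B : ℝ) ^ (δ / 64)⌋₊ with hW
  have hQle : (Q : ℝ) ≤ (B : ℝ) ^ (1 + 1 / (n : ℝ) - δ) := Nat.floor_le (by positivity)
  have hWle : (W : ℝ) ≤ (B : ℝ) ^ (δ / 64) := Nat.floor_le (by positivity)
  have hW1 : 1 ≤ W := Nat.le_floor (by
    rw [Nat.cast_one]; exact Real.one_le_rpow hB1 (by positivity))
  have hWB : W ≤ B ^ A := by
    have h1 : (W : ℝ) ≤ (B : ℝ) ^ A := by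
      refine hWle.trans ?_
      rw [← Real.rpow_natCast]
      refine Real.rpow_le_rpow_of_exponent_le hB1 ?_
      have h2 : δ ≤ ⌈δ⌉₊ := Nat.le_ceil _
      have h3 : ((⌈δ⌉₊ : ℕ) : ℝ) ≤ A := by exact_mod_cast (by omega : ⌈δ⌉₊ ≤ A)
      linarith
    exact_mod_cast h1
  have hQXY : (Q : ℝ) * (B : ℝ) ^ (δ / 2) ≤ (X : ℝ) * Y := by
    have h1 : (B : ℝ) ^ (1 + 1 / (n : ℝ)) / 2 ≤ (X : ℝ) * Y := by
      have h2 : (2 * (B : ℝ) / U) * (2 * (B : ℝ) / V) ≤ (X : ℝ) * Y :=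
        mul_le_mul hXge hYge (by positivity) (by positivity)
      refine le_trans ?_ h2
      have h3 : (2 * (B : ℝ) / U) * (2 * (B : ℝ) / V) = 4 * (B : ℝ) ^ 2 / (U * V) := by
        field_simp; ring
      rw [h3, le_div_iff₀ hUVpos]
      have h4 : (B : ℝ) ^ (1 + 1 / (n : ℝ)) * (B : ℝ) ^ (1 - 1 / (n : ℝ)) = (B : ℝ) ^ 2 := by
        rw [← Real.rpow_add hBpos, ← Real.rpow_natCast]
        congr 1
        push_cast
        ring
      calc (B : ℝ) ^ (1 + 1 / (n : ℝ)) / 2 * (U * V) ≤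
            (B : ℝ) ^ (1 + 1 / (n : ℝ)) / 2 * (8 * (B : ℝ) ^ (1 - 1 / (n : ℝ))) :=
            mul_le_mul_of_nonneg_left hp2 (by positivity)
        _ = 4 * ((B : ℝ) ^ (1 + 1 / (n : ℝ)) * (B : ℝ) ^ (1 - 1 / (n : ℝ))) := by ring
        _ = 4 * (B : ℝ) ^ 2 := by rw [h4]
    refine le_trans ?_ h1
    rw [le_div_iff₀ (by norm_num)]
    calc (Q : ℝ) * (B : ℝ) ^ (δ / 2) * 2 ≤
          (B : ℝ) ^ (1 + 1 / (n : ℝ) - δ) * (B : ℝ) ^ (δ / 2) * (B : ℝ) ^ (δ / 2) := by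
          gcongr
      _ = _ := by
          rw [← Real.rpow_add hBpos, ← Real.rpow_add hBpos]
          congr 1
          ring
  set T : (Fin (n + 1) → ℤ) × (Fin (n + 1) → ℤ) → Finset (ℤ × ℤ) := fun uv =>
    ((Finset.Icc (-(X : ℤ)) X) ×ˢ (Finset.Icc (-(Y : ℤ)) Y)).filter fun z : ℤ × ℤ =>
      IsCoprime z.1 z.2 ∧ ∃ (s : ℕ) (σ w : ℤ), Squarefree s ∧
        s ≤ Q ∧ σ ≠ 0 ∧ |σ| ≤ W ∧ |w| ≤ (B : ℤ) ^ A ∧
        eval (pt uv.1 uv.2 z.1 z.2) F = σ * s * w ^ e with hT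
  have hTcard : ∀ uv ∈ ND, ((T uv).card : ℝ) ≤ Cp * W * ((X : ℝ) * Y) * (B : ℝ) ^ (-(δ / 2 / 16)) := by
    rintro ⟨u, v⟩ huv
    rw [hND, Finset.mem_filter, Finset.mem_product] at huv
    obtain ⟨⟨hu, hv⟩, hd1⟩ := huv
    refine hplane B (by omega) u v hd1 (hΦuv u hu v hv) X Y Q W hX1 hY1 hXB hYB hW1 hWB hQXY _ ?_
    intro z hz
    rw [hT, Finset.mem_filter, Finset.mem_product, Finset.mem_Icc, Finset.mem_Icc, ← abs_le,
      ← abs_le] at hz
    exact ⟨hz.1.1, hz.1.2, hz.2.1, hz.2.2⟩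
  have hE2card : (E2.card : ℝ) ≤ C2 * (B : ℝ) ^ ((n : ℝ) + 1 - δ / 64) := by
    have h1 := card_le_sum_pairs E2 ND T (by
      intro x hx
      rw [hE2, Finset.mem_filter] at hx
      obtain ⟨hxE, hxn⟩ := hx
      obtain ⟨⟨u, v, ξ, η, hu, hv, -, h1, h2, h3, h4⟩, hne, s, σ, w, h5, h6, h7, h8⟩ := hE x hxE
      refine ⟨(u, v), ?_, (ξ, η), ?_, h1⟩
      · rw [hND, Finset.mem_filter, Finset.mem_product]
        refine ⟨⟨hu, hv⟩, fun hdg => hxn ⟨(u, v), ?_, ξ, η, h2, h3, h1⟩⟩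
        rw [hZ, Finset.mem_filter, Finset.mem_product]
        exact ⟨⟨hu, hv⟩, hdg⟩
      · have hξX : |ξ| ≤ X := by
          rw [hX]; push_cast
          rw [Int.le_ediv_iff_mul_le (by exact_mod_cast hU)]
          exact h2
        have hηY : |η| ≤ Y := by
          rw [hY]; push_cast
          rw [Int.le_ediv_iff_mul_le (by exact_mod_cast hV)]
          exact h3
        have hxpt : pt u v ξ η = x := by rw [h1]; rfl
        have hσ0 : σ ≠ 0 := by
          rintro rfl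
          rw [h8] at hne
          simp at hne
        have hw0 : w ≠ 0 := by
          rintro rfl
          rw [h8, zero_pow (by omega)] at hne
          simp at hne
        rw [hT, Finset.mem_filter, Finset.mem_product, Finset.mem_Icc, Finset.mem_Icc, ← abs_le,
          ← abs_le]
        refine ⟨⟨hξX, hηY⟩, h4, s, σ, w, h5, Nat.le_floor h6, hσ0, ?_, ?_, ?_⟩
        · rw [Int.abs_eq_natAbs]
          exact_mod_cast Nat.le_floor h7
        · -- the size of `w`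
          have hxbox : x ∈ box (n + 1) (16 * B) := by
            rw [mem_box] at hu hv ⊢
            intro i
            rw [h1]
            have e1 : |ξ * u i| ≤ 8 * B := by
              rw [abs_mul]
              calc |ξ| * |u i| ≤ |ξ| * ((2 * U : ℕ) : ℤ) :=
                    mul_le_mul_of_nonneg_left (hu i) (abs_nonneg _)
                _ = 2 * (|ξ| * U) := by push_cast; ring
                _ ≤ 8 * B := by linarith
            have e2 : |η * v i| ≤ 8 * B := by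
              rw [abs_mul]
              calc |η| * |v i| ≤ |η| * ((2 * V : ℕ) : ℤ) :=
                    mul_le_mul_of_nonneg_left (hv i) (abs_nonneg _)
                _ = 2 * (|η| * V) := by push_cast; ring
                _ ≤ 8 * B := by linarith
            have e3 := abs_add_le (ξ * u i) (η * v i)
            push_cast
            linarith
          have hval := hcF (16 * B) (by omega) x hxbox
          have h9 : w.natAbs ≤ (eval x F).natAbs := by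
            refine Nat.le_of_dvd (Int.natAbs_pos.2 hne) ?_
            rw [Int.natAbs_dvd_natAbs, h8]
            exact (dvd_pow_self w (by omega)).mul_left _
          have h10 : cF * (16 * B) ^ k ≤ B ^ (cF + 2 * k) := by
            calc cF * (16 * B) ^ k ≤ B ^ cF * (B * B) ^ k :=
                  Nat.mul_le_mul (hself _) (Nat.pow_le_pow_left (Nat.mul_le_mul_right _ hB16) _)
              _ = B ^ (cF + 2 * k) := by rw [pow_add, ← sq, ← pow_mul]
          have h11 : w.natAbs ≤ B ^ (2 * A) := (h9.trans (hval.trans h10)).trans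
            (hpow _ _ (by omega))
          -- better bound through the power
          have h12 : w.natAbs ^ 2 ≤ B ^ (2 * A) := by
            have h13 : w.natAbs ^ 2 ≤ w.natAbs ^ e :=
              Nat.pow_le_pow_right (Int.natAbs_pos.2 hw0) he
            have h14 : w.natAbs ^ e ≤ (eval x F).natAbs := by
              refine Nat.le_of_dvd (Int.natAbs_pos.2 hne) ?_
              rw [← Int.natAbs_pow, Int.natAbs_dvd_natAbs, h8]
              exact Dvd.intro_left _ rfl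
            exact (h13.trans h14).trans ((hval.trans h10).trans (hpow _ _ (by omega)))
          have h15 : w.natAbs ≤ B ^ A := by
            have h16 : w.natAbs ^ 2 ≤ (B ^ A) ^ 2 := by
              rw [← pow_mul, mul_comm A 2]; exact h12
            exact (Nat.pow_le_pow_iff_left two_ne_zero).1 h16
          rw [Int.abs_eq_natAbs]
          exact_mod_cast h15
        · simp only
          rw [hxpt]; exact h8)
    have h2 : (E2.card : ℝ) ≤ ∑ uv ∈ ND, ((T uv).card : ℝ) := by exact_mod_cast h1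
    have h3 : (ND.card : ℝ) ≤ 25 ^ (n + 1) * ((U : ℝ) * V) ^ (n + 1) := by
      have h4 : (ND.card : ℝ) ≤ ((((box (n + 1) (2 * U)) ×ˢ (box (n + 1) (2 * V))).card : ℕ) : ℝ) := by
        exact_mod_cast Finset.card_filter_le _ _
      refine h4.trans ?_
      rw [Finset.card_product, card_box, card_box]
      push_cast
      have e1 : (2 * (2 * (U : ℝ)) + 1) ^ (n + 1) ≤ (5 * U) ^ (n + 1) :=
        pow_le_pow_left₀ (by positivity) (by linarith) _
      have e2 : (2 * (2 * (V : ℝ)) + 1) ^ (n + 1) ≤ (5 * V) ^ (n + 1) :=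
        pow_le_pow_left₀ (by positivity) (by linarith) _
      refine (mul_le_mul e1 e2 (by positivity) (by positivity)).trans (le_of_eq ?_)
      rw [← mul_pow, ← mul_pow]
      congr 1
      ring
    have h5 : (X * Y : ℝ) ≤ 16 * (B : ℝ) ^ 2 / (U * V) := by
      calc (X * Y : ℝ) ≤ (4 * B / U) * (4 * B / V) :=
            mul_le_mul hXle hYle (by positivity) (by positivity)
        _ = _ := by field_simp; ring
    calc (E2.card : ℝ) ≤ ∑ uv ∈ ND, ((T uv).card : ℝ) := h2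
      _ ≤ ND.card * (Cp * W * ((X : ℝ) * Y) * (B : ℝ) ^ (-(δ / 2 / 16))) := by
          refine (Finset.sum_le_sum hTcard).trans (le_of_eq ?_)
          rw [Finset.sum_const, nsmul_eq_mul]
      _ ≤ (25 ^ (n + 1) * ((U : ℝ) * V) ^ (n + 1)) * (Cp * (B : ℝ) ^ (δ / 64) *
          (16 * (B : ℝ) ^ 2 / (U * V)) * (B : ℝ) ^ (-(δ / 2 / 16))) := by
          gcongr
      _ = (25 ^ (n + 1) * Cp * 16) * (((U : ℝ) * V) ^ n * (B : ℝ) ^ 2 *
          ((B : ℝ) ^ (δ / 64) * (B : ℝ) ^ (-(δ / 2 / 16)))) := by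
          rw [pow_succ ((U : ℝ) * V)]
          field_simp
      _ ≤ (25 ^ (n + 1) * Cp * 16) * ((8 ^ n * (B : ℝ) ^ ((n : ℝ) - 1)) * (B : ℝ) ^ 2 *
          ((B : ℝ) ^ (δ / 64) * (B : ℝ) ^ (-(δ / 2 / 16)))) := by
          gcongr
      _ = C2 * ((B : ℝ) ^ ((n : ℝ) - 1) * (B : ℝ) ^ 2 *
          ((B : ℝ) ^ (δ / 64) * (B : ℝ) ^ (-(δ / 2 / 16)))) := by
          rw [hC2]; ring
      _ = _ := by
          rw [← Real.rpow_natCast (B : ℝ) 2, ← Real.rpow_add hBpos, ← Real.rpow_add hBpos,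
            ← Real.rpow_add hBpos]
          congr 2
          push_cast
          ring
  have h9 : 0 ≤ (B : ℝ) ^ ((n : ℝ) + 1 - δ / 64) := by positivity
  have h10 : 0 ≤ (B : ℝ) ^ ((n : ℝ) + 1 - 1 / 8) := by positivity
  have hC10 : 0 ≤ C1 := by positivity
  have hC20 : 0 ≤ C2 := by positivity
  rw [hsplit]
  push_cast
  have h11 := mul_nonneg hC10 h9
  have h12 := mul_nonneg hC20 h10
  calc (E1.card : ℝ) + E2.card ≤ C1 * (B : ℝ) ^ ((n : ℝ) + 1 - 1 / 8) +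
        C2 * (B : ℝ) ^ ((n : ℝ) + 1 - δ / 64) := add_le_add hE1card hE2card
    _ ≤ _ := by
        rw [add_mul, mul_add, mul_add]
        linarith

end Pool.Agent.N445.VW
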