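import Mathlib
import Pool.Agent.N445.VW.PlD

/-! # Multiples of powers, with a cofactor up to `B ^ (1 + 1 / n)`, are sparse -/

set_option autoImplicit false

namespace Pool.Agent.N445.VW

open MvPolynomial Pool.Agent.TH910.Voj Pool.Agent.H813R3.Voj

/-- **Multiples of powers.** -/
theorem sparse_mul {n : ℕ} (hn : 2 ≤ n) (F : MvPolynomial (Fin (n + 1)) ℤ) {k : ℕ}
    (hk : F.IsHomogeneous k) (hk2 : 2 ≤ k) (hirr : Irreducible (toQ F)) (e : ℕ) (he : 2 ≤ e)
    (δ : ℝ) (hδ : 0 < δ) :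
    Sparse (n + 1) (fun B x => (∃ c : Fin (n + 1) → ℤ, ∑ i, c i * x i = 1) ∧
      Mul F e ((B : ℝ) ^ (1 + 1 / (n : ℝ) - δ)) ((B : ℝ) ^ (δ / 64)) x) := by
  classical
  obtain ⟨C, hC0, B₀, hcase⟩ := card_case_D hn F hk hk2 hirr e he δ hδ
  set c0 : ℝ := min (1 / 8) (δ / 64) with hc0
  have hc0pos : 0 < c0 := lt_min (by norm_num) (by positivity)
  obtain ⟨CL, hCL0, hCL⟩ := log_bound (c0 / 4) (by positivity)
  set C' : ℝ := (1024 * 25 ^ (n + 1)) + (1024 * (3 * (n + 1)) * 25 ^ (n + 1) * 8 ^ n) + 2 * C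
    with hC'
  have hC'0 : 0 < C' := by positivity
  have hmain : Sparse (n + 1) (fun B x => B₀ ≤ B ∧ ((∃ c : Fin (n + 1) → ℤ, ∑ i, c i * x i = 1) ∧
      Mul F e ((B : ℝ) ^ (1 + 1 / (n : ℝ) - δ)) ((B : ℝ) ^ (δ / 64)) x)) := by
    refine ⟨c0 / 2, by positivity, CL ^ 2 * C', by positivity, fun B hB => ?_⟩
    have hB1 : (1 : ℝ) ≤ B := by exact_mod_cast hB
    have hBpos : (0 : ℝ) < B := by linarith
    set E := (box (n + 1) B).filter (fun x => B₀ ≤ B ∧
      ((∃ c : Fin (n + 1) → ℤ, ∑ i, c i * x i = 1) ∧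
      Mul F e ((B : ℝ) ^ (1 + 1 / (n : ℝ) - δ)) ((B : ℝ) ^ (δ / 64)) x)) with hE
    have hEcard : (Set.ncard {x | x ∈ box (n + 1) B ∧ (B₀ ≤ B ∧
      ((∃ c : Fin (n + 1) → ℤ, ∑ i, c i * x i = 1) ∧
      Mul F e ((B : ℝ) ^ (1 + 1 / (n : ℝ) - δ)) ((B : ℝ) ^ (δ / 64)) x))} : ℝ) = E.card := by
      rw [← Set.ncard_coe_finset]
      congr 2
      ext x; simp [hE]
    rw [hEcard]
    by_cases hBB : B₀ ≤ B
    swap
    · have : E = ∅ := by
        rw [hE]
        exact Finset.filter_eq_empty_iff.2 fun x _ hx => hBB hx.1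
      rw [this, Finset.card_empty, Nat.cast_zero]
      positivity
    set L := Nat.log 2 (8 * B) + 1 with hL
    set good : ℕ × ℕ → Prop := fun ij => 2 ^ ij.1 ≤ 2 * 2 ^ ij.2 ∧
      (2 ^ ij.1 * 2 ^ ij.2) ^ n ≤ 8 ^ n * B ^ (n - 1) with hgood
    set Eij : ℕ × ℕ → Finset (Fin (n + 1) → ℤ) := fun ij => E.filter fun x => good ij ∧
      RepX B (2 ^ ij.1) (2 ^ ij.2) x with hEij
    have hsub : E ⊆ ((Finset.range L) ×ˢ (Finset.range L)).biUnion Eij := by
      intro x hx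
      have hx' := hx
      rw [hE, Finset.mem_filter] at hx
      obtain ⟨hxb, -, ⟨c, hc⟩, -⟩ := hx
      obtain ⟨u, v, ξ, η, M, N, hM1, hMN, hu, hv, ⟨l, hl⟩, hprod, hxuv, hξ, hη⟩ :=
        exists_reduced (by omega) x c hc B hB hxb
      set i := Nat.log 2 M with hi
      set j := Nat.log 2 N with hj
      have hi1 : 2 ^ i ≤ M := Nat.pow_log_le_self 2 (by omega)
      have hi2 : M < 2 ^ (i + 1) := Nat.lt_pow_succ_log_self (by norm_num) M
      have hj1 : 2 ^ j ≤ N := Nat.pow_log_le_self 2 (by omega)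
      have hj2 : N < 2 ^ (j + 1) := Nat.lt_pow_succ_log_self (by norm_num) N
      rw [pow_succ] at hi2 hj2
      have hg1 : 2 ^ i ≤ 2 * 2 ^ j := by omega
      have hg2 : (2 ^ i * 2 ^ j) ^ n ≤ 8 ^ n * B ^ (n - 1) :=
        (Nat.pow_le_pow_left (Nat.mul_le_mul hi1 hj1) n).trans hprod
      have hi0 : 1 ≤ 2 ^ i := Nat.one_le_two_pow
      obtain ⟨-, -, hU8, hV8⟩ := size_bounds n B (2 ^ i) (2 ^ j) hn hB hi0 hg1 hg2
      rw [Finset.mem_biUnion]
      refine ⟨(i, j), ?_, ?_⟩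
      · rw [Finset.mem_product, Finset.mem_range, Finset.mem_range]
        have h4 := Nat.le_log_of_pow_le (by norm_num) hU8
        have h5 := Nat.le_log_of_pow_le (by norm_num) hV8
        exact ⟨by omega, by omega⟩
      · rw [hEij, Finset.mem_filter]
        refine ⟨hx', ⟨hg1, hg2⟩, u, v, ξ, η, ?_, ?_, ⟨l, ?_⟩, hxuv, ?_, ?_, ?_⟩
        · rw [mem_box] at hu ⊢
          intro a
          refine (hu a).trans ?_
          exact_mod_cast (by omega : M ≤ 2 * 2 ^ i)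
        · rw [mem_box] at hv ⊢
          intro a
          refine (hv a).trans ?_
          exact_mod_cast (by omega : N ≤ 2 * 2 ^ j)
        · have h4 : (M : ℤ) < 2 * ((2 ^ i : ℕ) : ℤ) := by exact_mod_cast (by omega : M < 2 * 2 ^ i)
          simp only
          omega
        · refine le_trans ?_ hξ
          refine mul_le_mul_of_nonneg_left ?_ (abs_nonneg _)
          exact_mod_cast hi1
        · refine le_trans ?_ hη
          refine mul_le_mul_of_nonneg_left ?_ (abs_nonneg _)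
          exact_mod_cast hj1
        · refine ⟨∑ a, c a * u a, ∑ a, c a * v a, ?_⟩
          rw [← hc, Finset.sum_mul, Finset.sum_mul, ← Finset.sum_add_distrib]
          refine Finset.sum_congr rfl fun a _ => ?_
          rw [hxuv]; ring
    have hbound : ∀ ij ∈ (Finset.range L) ×ˢ (Finset.range L),
        ((Eij ij).card : ℝ) ≤ C' * (B : ℝ) ^ ((n : ℝ) + 1 - c0) := by
      rintro ⟨i, j⟩ -
      by_cases hg : good (i, j)
      swap
      · have : Eij (i, j) = ∅ := by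
          rw [hEij]
          exact Finset.filter_eq_empty_iff.2 fun x _ hx => hg hx.1
        rw [this, Finset.card_empty, Nat.cast_zero]
        positivity
      obtain ⟨hg1, hg2⟩ := hg
      simp only at hg1 hg2
      have hi0 : 1 ≤ 2 ^ i := Nat.one_le_two_pow
      have hrep : ∀ x ∈ Eij (i, j), Rep (0 : MvPolynomial (Fin (n + 1)) ℤ) B (2 ^ i) (2 ^ j) 1 2
          x := by
        intro x hx
        rw [hEij, Finset.mem_filter] at hx
        exact hx.2.2.rep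
      have hle : ∀ t : ℝ, c0 ≤ t → (B : ℝ) ^ ((n : ℝ) + 1 - t) ≤ (B : ℝ) ^ ((n : ℝ) + 1 - c0) :=
        fun t ht => Real.rpow_le_rpow_of_exponent_le hB1 (by linarith)
      have hle1 := hle (1 / 8) (min_le_left _ _)
      have hle2 := hle (δ / 64) (min_le_right _ _)
      have hpos : 0 ≤ (B : ℝ) ^ ((n : ℝ) + 1 - c0) := by positivity
      have hCA : (0 : ℝ) ≤ 1024 * 25 ^ (n + 1) := by positivity
      have hCB : (0 : ℝ) ≤ 1024 * (3 * (n + 1)) * 25 ^ (n + 1) * 8 ^ n := by positivity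
      by_cases hA : ((2 ^ i : ℕ) : ℝ) * ((2 ^ j : ℕ) : ℝ) ≤ (B : ℝ) ^ (1 - 1 / (n : ℝ) - 1 / 8)
      · refine (card_case_A hn _ B (2 ^ i) (2 ^ j) _ _ hB hi0 hg1 hg2 hA _ hrep).trans ?_
        refine (mul_le_mul_of_nonneg_left hle1 hCA).trans ?_
        refine mul_le_mul_of_nonneg_right ?_ hpos
        rw [hC']; linarith
      by_cases hBc : ((2 ^ i : ℕ) : ℝ) * (B : ℝ) ^ ((1 : ℝ) / 8) ≤ ((2 ^ j : ℕ) : ℝ)
      · refine (card_case_B hn _ B (2 ^ i) (2 ^ j) _ _ hB hi0 hg1 hg2 hBc _ hrep).trans ?_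
        refine (mul_le_mul_of_nonneg_left hle1 hCB).trans ?_
        refine mul_le_mul_of_nonneg_right ?_ hpos
        rw [hC']; linarith
      · push Not at hA hBc
        refine (hcase B (2 ^ i) (2 ^ j) hBB hB hi0 hg1 hg2 hA hBc _ ?_).trans ?_
        · intro x hx
          rw [hEij, Finset.mem_filter] at hx
          obtain ⟨hxE, -, hxr⟩ := hx
          rw [hE, Finset.mem_filter] at hxE
          exact ⟨hxr, hxE.2.2.2⟩
        calc C * ((B : ℝ) ^ ((n : ℝ) + 1 - 1 / 8) + (B : ℝ) ^ ((n : ℝ) + 1 - δ / 64)) ≤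
              C * ((B : ℝ) ^ ((n : ℝ) + 1 - c0) + (B : ℝ) ^ ((n : ℝ) + 1 - c0)) := by
              gcongr
          _ = (2 * C) * (B : ℝ) ^ ((n : ℝ) + 1 - c0) := by ring
          _ ≤ _ := by
              refine mul_le_mul_of_nonneg_right ?_ hpos
              rw [hC']; linarith
    have h1 : (E.card : ℝ) ≤ ∑ ij ∈ (Finset.range L) ×ˢ (Finset.range L), ((Eij ij).card : ℝ) := by
      exact_mod_cast (Finset.card_le_card hsub).trans Finset.card_biUnion_le
    refine h1.trans ((Finset.sum_le_sum hbound).trans ?_)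
    rw [Finset.sum_const, Finset.card_product, Finset.card_range, nsmul_eq_mul]
    push_cast
    have hLB := hCL B hB
    rw [← hL] at hLB
    calc ((L : ℝ) * L) * (C' * (B : ℝ) ^ ((n : ℝ) + 1 - c0)) ≤
          ((CL * (B : ℝ) ^ (c0 / 4)) * (CL * (B : ℝ) ^ (c0 / 4))) *
            (C' * (B : ℝ) ^ ((n : ℝ) + 1 - c0)) := by
          gcongr
      _ = CL ^ 2 * C' * ((B : ℝ) ^ (c0 / 4) * (B : ℝ) ^ (c0 / 4) *
            (B : ℝ) ^ ((n : ℝ) + 1 - c0)) := by ring
      _ = _ := by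
          rw [← Real.rpow_add hBpos, ← Real.rpow_add hBpos]
          congr 2
          ring
  exact hmain.of_eventually B₀ fun B x hBB _ _ hx => ⟨hBB, hx⟩

end Pool.Agent.N445.VW
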