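import Mathlib
import Pool.Agent.N445.VW.PlC

/-! # The radical of the values of a form at almost all primitive points -/

set_option autoImplicit false

namespace Pool.Agent.N445.VW

open MvPolynomial Pool.Agent.TH910.Voj Pool.Agent.H813R3.Voj

theorem exists_split (M : ℕ) (hM : M ≠ 0) (P : ℕ → Prop) :
    ∃ M1 M2 : ℕ, M1 * M2 = M ∧ (∀ p : ℕ, p.Prime → p ∣ M1 → P p) ∧
      (∀ p : ℕ, p.Prime → p ∣ M2 → ¬ P p) := by
  induction M using induction_on_primes with
  | zero => exact absurd rfl hM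
  | one =>
    refine ⟨1, 1, by simp, ?_, ?_⟩
    · intro p hp h; exact absurd (Nat.dvd_one.1 h) hp.one_lt.ne'
    · intro p hp h; exact absurd (Nat.dvd_one.1 h) hp.one_lt.ne'
  | prime_mul p a hp ih =>
    have ha : a ≠ 0 := by rintro rfl; simp at hM
    obtain ⟨M1, M2, h1, h2, h3⟩ := ih ha
    by_cases hP : P p
    · refine ⟨p * M1, M2, by rw [mul_assoc, h1], ?_, h3⟩
      intro q hq hqd
      rcases (hq.dvd_mul).1 hqd with h | h
      · rwa [(Nat.prime_dvd_prime_iff_eq hq hp).1 h]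
      · exact h2 q hq h
    · refine ⟨M1, p * M2, by rw [mul_left_comm, h1], h2, ?_⟩
      intro q hq hqd
      rcases (hq.dvd_mul).1 hqd with h | h
      · rwa [(Nat.prime_dvd_prime_iff_eq hq hp).1 h]
      · exact h3 q hq h

theorem exists_divisor (M : ℕ) (T Z : ℝ) (hT : 1 ≤ T) (hM : T < M)
    (hZ : ∀ p : ℕ, p.Prime → p ∣ M → (p : ℝ) ≤ Z) :
    ∃ m : ℕ, m ∣ M ∧ T < m ∧ (m : ℝ) ≤ T * Z := by
  classical
  have hex : ∃ m : ℕ, m ∣ M ∧ T < m := ⟨M, dvd_rfl, hM⟩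
  set m := Nat.find hex with hm
  obtain ⟨h1, h2⟩ := Nat.find_spec hex
  rw [← hm] at h1 h2
  refine ⟨m, h1, h2, ?_⟩
  have hm1 : m ≠ 1 := by
    intro h
    rw [h] at h2
    push_cast at h2
    linarith
  have hm0 : 0 < m := by
    have : (0 : ℝ) < m := by linarith
    exact_mod_cast this
  obtain ⟨p, hp, hpm⟩ := Nat.exists_prime_and_dvd hm1
  obtain ⟨c, hc⟩ := hpm
  have hcm : c < m := by
    rw [hc]
    have hc0 : 0 < c := by
      rcases Nat.eq_zero_or_pos c with h | h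
      · rw [h, mul_zero] at hc; omega
      · exact h
    have := hp.one_lt
    nlinarith
  have hcT : (c : ℝ) ≤ T := by
    by_contra hcon
    push Not at hcon
    have := Nat.find_min hex hcm
    exact this ⟨(Dvd.intro_left p hc.symm).trans h1, hcon⟩
  have hpZ := hZ p hp ((Dvd.intro c hc.symm).trans h1)
  rw [hc]
  push_cast
  rw [mul_comm T Z]
  exact mul_le_mul hpZ hcT (Nat.cast_nonneg _) ((Nat.cast_nonneg _).trans hpZ)

theorem squarefree_le_rd (t N : ℕ) (hN : N ≠ 0) (ht : Squarefree t) (htN : t ∣ N) : t ≤ rd N := by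
  have h1 : t = ∏ p ∈ t.primeFactors, p := (Nat.prod_primeFactors_of_squarefree ht).symm
  rw [h1]
  unfold rd
  refine Finset.prod_le_prod_of_subset_of_one_le' (Nat.primeFactors_mono htN hN) ?_
  intro p hp _
  exact (Nat.prime_of_mem_primeFactors hp).one_le

theorem rd_le_mul (t a b : ℕ) (ha : a ≠ 0) (hb : b ≠ 0)
    (h : ∀ p : ℕ, p.Prime → p ∣ t → p ∣ a ∨ p ∣ b) : rd t ≤ a * rd b := by
  classical
  have hsub : t.primeFactors ⊆ a.primeFactors ∪ b.primeFactors := by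
    intro p hp
    rw [Nat.mem_primeFactors] at hp
    rw [Finset.mem_union, Nat.mem_primeFactors, Nat.mem_primeFactors]
    rcases h p hp.1 hp.2.1 with h1 | h1
    · exact Or.inl ⟨hp.1, h1, ha⟩
    · exact Or.inr ⟨hp.1, h1, hb⟩
  have h1 : rd t ≤ ∏ p ∈ a.primeFactors ∪ b.primeFactors, p := by
    unfold rd
    refine Finset.prod_le_prod_of_subset_of_one_le' hsub ?_
    intro p hp _
    rw [Finset.mem_union] at hp
    rcases hp with hp | hp
    · exact (Nat.prime_of_mem_primeFactors hp).one_le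
    · exact (Nat.prime_of_mem_primeFactors hp).one_le
  have h2 := Finset.prod_union_inter (s₁ := a.primeFactors) (s₂ := b.primeFactors)
    (f := fun p : ℕ => p)
  have h3 : 1 ≤ ∏ p ∈ a.primeFactors ∩ b.primeFactors, p :=
    Finset.prod_pos fun p hp =>
      (Nat.prime_of_mem_primeFactors (Finset.mem_inter.1 hp).1).pos
  have h4 : ∏ p ∈ a.primeFactors, p ≤ a :=
    Nat.le_of_dvd (Nat.pos_of_ne_zero ha) (Nat.prod_primeFactors_dvd a)
  calc rd t ≤ ∏ p ∈ a.primeFactors ∪ b.primeFactors, p := h1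
    _ ≤ (∏ p ∈ a.primeFactors ∪ b.primeFactors, p) * ∏ p ∈ a.primeFactors ∩ b.primeFactors, p :=
        Nat.le_mul_of_pos_right _ h3
    _ = (∏ p ∈ a.primeFactors, p) * ∏ p ∈ b.primeFactors, p := h2
    _ ≤ a * rd b := Nat.mul_le_mul_right _ h4

/-- the small parameter -/
theorem exists_gamma (n k : ℕ) (hn : 1 ≤ n) (η : ℝ) (hη : 0 < η) :
    ∃ γ : ℝ, 0 < γ ∧ γ ≤ η / 4 ∧ γ ≤ 1 / 8 ∧ γ ≤ 1 / n ∧
      (∀ e ∈ Finset.Icc 2 k, (k : ℝ) - 1 + 1 / (e : ℝ) < e * (1 + 1 / (n : ℝ)) →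
        (k : ℝ) - e * (1 + 1 / (n : ℝ) - γ) + 2 * γ ≤ 1 - 1 / (e : ℝ)) ∧
      ((k : ℝ) < 4 * (1 + 1 / (n : ℝ)) → (k : ℝ) + γ ≤ 4 * (1 + 1 / (n : ℝ) - γ)) := by
  have hn0 : (0 : ℝ) < n := by exact_mod_cast hn
  have hle : ∀ c : ℝ, 0 < c → ∀ᶠ γ in nhdsWithin (0 : ℝ) (Set.Ioi 0), γ ≤ c := fun c hc =>
    (eventually_le_nhds hc).filter_mono nhdsWithin_le_nhds
  have h1 : ∀ᶠ γ in nhdsWithin (0 : ℝ) (Set.Ioi 0), 0 < γ := self_mem_nhdsWithin
  have h5 : ∀ᶠ γ in nhdsWithin (0 : ℝ) (Set.Ioi 0), ∀ e ∈ Finset.Icc 2 k,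
      (k : ℝ) - 1 + 1 / (e : ℝ) < e * (1 + 1 / (n : ℝ)) →
        (k : ℝ) - e * (1 + 1 / (n : ℝ) - γ) + 2 * γ ≤ 1 - 1 / (e : ℝ) := by
    rw [Filter.eventually_all_finset]
    intro e _
    by_cases hgap : (k : ℝ) - 1 + 1 / (e : ℝ) < e * (1 + 1 / (n : ℝ))
    · have he0 : (0 : ℝ) < (e : ℝ) + 2 := by positivity
      filter_upwards [hle ((e * (1 + 1 / (n : ℝ)) - ((k : ℝ) - 1 + 1 / (e : ℝ))) / (e + 2))
        (div_pos (by linarith) he0)] with γ hγ _
      rw [le_div_iff₀ he0] at hγ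
      linarith
    · exact Filter.Eventually.of_forall fun γ h => absurd h hgap
  have h6 : ∀ᶠ γ in nhdsWithin (0 : ℝ) (Set.Ioi 0), ((k : ℝ) < 4 * (1 + 1 / (n : ℝ)) →
      (k : ℝ) + γ ≤ 4 * (1 + 1 / (n : ℝ) - γ)) := by
    by_cases hgap : (k : ℝ) < 4 * (1 + 1 / (n : ℝ))
    · filter_upwards [hle ((4 * (1 + 1 / (n : ℝ)) - k) / 5) (div_pos (by linarith) (by norm_num))]
        with γ hγ _
      rw [le_div_iff₀ (by norm_num)] at hγ
      linarith
    · exact Filter.Eventually.of_forall fun γ h => absurd h hgap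
  obtain ⟨γ, g1, g2, g3, g4, g5, g6⟩ := (h1.and ((hle (η / 4) (by positivity)).and
    ((hle (1 / 8) (by norm_num)).and ((hle (1 / n) (by positivity)).and (h5.and h6))))).exists
  exact ⟨γ, g1, g2, g3, g4, g5, g6⟩

/-- the exponent of the cofactor -/
theorem cofactor_le (b p N' k γ ε θ β : ℝ) (e : ℕ) (he : 2 ≤ e) (hb : 1 ≤ b) (hp : 0 < p)
    (hN' : 0 < N') (hβ : b ^ β ≤ p) (hup : p ^ e * N' ≤ b ^ (k + γ)) (hlow : b ^ (k - ε) ≤ p ^ e * N')
    (hrad : p * N' ≤ b ^ (θ + 4 * ε))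
    (h : k - e * β + 2 * γ ≤ 1 - 1 / (e : ℝ) ∨
      k - e * ((k - θ - 5 * ε) / (e - 1)) + 2 * γ ≤ 1 - 1 / (e : ℝ)) :
    N' ≤ b ^ (1 - 1 / (e : ℝ) - γ) := by
  have hb0 : 0 < b := by linarith
  have he1 : (0 : ℝ) < (e : ℝ) - 1 := by
    have : (2 : ℝ) ≤ e := by exact_mod_cast he
    linarith
  -- general step
  have key : ∀ κ : ℝ, b ^ κ ≤ p → k - e * κ + 2 * γ ≤ 1 - 1 / (e : ℝ) →
      N' ≤ b ^ (1 - 1 / (e : ℝ) - γ) := by
    intro κ hκ hle
    have h1 : b ^ (κ * e) ≤ p ^ e := by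
      rw [Real.rpow_mul hb0.le, Real.rpow_natCast]
      exact pow_le_pow_left₀ (by positivity) hκ e
    have h2 : b ^ (κ * e) * N' ≤ b ^ (k + γ) := (mul_le_mul_of_nonneg_right h1 hN'.le).trans hup
    have h3 : N' ≤ b ^ (k + γ - κ * e) := by
      rw [Real.rpow_sub hb0, le_div_iff₀ (by positivity)]
      linarith
    refine h3.trans (Real.rpow_le_rpow_of_exponent_le hb ?_)
    linarith
  rcases h with h | h
  · exact key β hβ h
  · refine key _ ?_ h
    have h1 : b ^ (k - θ - 5 * ε) ≤ p ^ (e - 1) := by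
      have h2 : p ^ e * N' = p ^ (e - 1) * (p * N') := by
        have : p ^ e = p ^ (e - 1) * p := by rw [← pow_succ]; congr 1; omega
        rw [this]; ring
      have h3 : b ^ (k - ε) ≤ p ^ (e - 1) * b ^ (θ + 4 * ε) := by
        rw [h2] at hlow
        exact hlow.trans (mul_le_mul_of_nonneg_left hrad (by positivity))
      have h4 : b ^ (k - θ - 5 * ε) = b ^ (k - ε) / b ^ (θ + 4 * ε) := by
        rw [← Real.rpow_sub hb0]; congr 1; ring
      rw [h4, div_le_iff₀ (by positivity)]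
      exact h3
    have h5 : (b ^ ((k - θ - 5 * ε) / (e - 1))) ^ (e - 1) = b ^ (k - θ - 5 * ε) := by
      rw [← Real.rpow_natCast, ← Real.rpow_mul hb0.le]
      congr 1
      rw [Nat.cast_sub (by omega)]
      push_cast
      field_simp
    rw [← h5] at h1
    exact (pow_le_pow_iff_left₀ (by positivity) hp.le (by omega)).1 h1

theorem adm_exponent (k m η ε γ : ℝ) (e : ℕ) (he : 2 ≤ e) (hε : ε ≤ η / 40) (hη : 0 < η)
    (hγ : γ ≤ η / 4) (hm : m ≤ k / e + (1 - 1 / (e : ℝ)) ^ 2) :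
    k - e * ((k - (m - η) - 5 * ε) / (e - 1)) + 2 * γ ≤ 1 - 1 / (e : ℝ) := by
  have he2 : (2 : ℝ) ≤ e := by exact_mod_cast he
  have he1 : (0 : ℝ) < (e : ℝ) - 1 := by linarith
  have he0 : (0 : ℝ) < e := by linarith
  have h1 : k - 1 + 1 / (e : ℝ) + (η - 5 * ε) ≤ e * ((k - (m - η) - 5 * ε) / (e - 1)) := by
    rw [← mul_div_assoc, le_div_iff₀ he1]
    have h2 : (e : ℝ) * m ≤ k + e * (1 - 1 / (e : ℝ)) ^ 2 := by
      have := mul_le_mul_of_nonneg_left hm he0.le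
      have h3 : (e : ℝ) * (k / e + (1 - 1 / (e : ℝ)) ^ 2) = k + e * (1 - 1 / (e : ℝ)) ^ 2 := by
        field_simp
      linarith
    have h3 : (e : ℝ) * (1 - 1 / (e : ℝ)) ^ 2 = (1 - 1 / (e : ℝ)) * (e - 1) := by
      field_simp
    have h4 : 0 ≤ η - 5 * ε := by linarith
    rw [h3] at h2
    nlinarith
  linarith

/-- **The radical of the values of a form at almost all primitive points.** -/
theorem sparse_rad {n : ℕ} (hn : 2 ≤ n) (F : MvPolynomial (Fin (n + 1)) ℤ) {k : ℕ}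
    (hk : F.IsHomogeneous k) (hk1 : 1 ≤ k) (hirr : Irreducible (toQ F)) (m η : ℝ) (hη : 0 < η)
    (hmk : m ≤ k)
    (hadm : ∀ e : ℕ, 2 ≤ e → (k : ℝ) - 1 + 1 / (e : ℝ) < e * (1 + 1 / (n : ℝ)) ∨
      m ≤ k / e + (1 - 1 / (e : ℝ)) ^ 2)
    (htwo : (k : ℝ) < 4 * (1 + 1 / (n : ℝ)) ∨ m ≤ 2 * (1 + 1 / (n : ℝ))) :
    Sparse (n + 1) (fun B x => (∃ c : Fin (n + 1) → ℤ, ∑ i, c i * x i = 1) ∧ eval x F ≠ 0 ∧
      (rd (eval x F).natAbs : ℝ) ≤ (B : ℝ) ^ (m - η)) := by
  classical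
  obtain ⟨a, i₀, hFa, ha⟩ := exists_direction F hk hirr
  have hF0 : F ≠ 0 := by rintro rfl; simp at hFa
  have hG := not_dvd_dder a F hk hk1 hFa
  obtain ⟨c, hc1, hc⟩ := exists_eval_bound F (hk.totalDegree_le)
  set K : ℤ := a i₀ * eval a F with hK
  have hK0 : K ≠ 0 := mul_ne_zero ha hFa
  set ε : ℝ := min (η / 40) (1 / 16) with hε
  have hε0 : 0 < ε := lt_min (by positivity) (by norm_num)
  have hε1 : ε ≤ η / 40 := min_le_left _ _
  have hε2 : ε ≤ 1 / 16 := min_le_right _ _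
  obtain ⟨γ, hγ0, hγη, hγ8, hγn, hγe, hγ4⟩ := exists_gamma n k (by omega) η hη
  set θ := m - η with hθ
  set β := 1 + 1 / (n : ℝ) - γ with hβ
  have hβ1 : 1 ≤ β := by rw [hβ]; linarith
  obtain ⟨η1, hη1, S1⟩ := sparse_sing F hk hk1 hirr hε0 (by linarith)
  have S2 := sparse_gcd F (dder a F) hk hirr hG (η := η1 / 2) (by positivity)
  have S3 := sparse_square F hk hk1 a i₀ hFa ha hε0 (show (0 : ℝ) < 1 / 8 by norm_num)
    (by norm_num)
  have S4 := sparse_planes hn F hk hk1 hirr γ hγ0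
  have S0 := sparse_small_value F hk hF0 hε0 (by linarith)
  have S5 : Sparse (n + 1) (fun B x => ∃ j : Fin (k + 1), 2 ≤ (j : ℕ) ∧ (eval x F ≠ 0 ∧
      ∃ s z : ℤ, eval x F = s * z ^ (j : ℕ) ∧
        (s.natAbs : ℝ) ≤ (B : ℝ) ^ (1 - 1 / ((j : ℕ) : ℝ) - γ))) := by
    refine Sparse.exists_fin fun j => ?_
    by_cases hj : 2 ≤ (j : ℕ)
    · have hj1 : 1 / ((j : ℕ) : ℝ) ≤ 1 / 2 := by
        have : (2 : ℝ) ≤ (j : ℕ) := by exact_mod_cast hj
        rw [div_le_div_iff₀ (by linarith) (by norm_num)]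
        linarith
      exact (sparse_power F hk hk1 hirr j (by omega) (1 - 1 / ((j : ℕ) : ℝ) - γ) (by linarith)
        (by linarith)).mono fun B x _ _ h => h.2
    · exact (Sparse.false (n + 1)).mono fun B x _ _ h => hj h.1
  -- large `B`
  have hev : ∀ (t : ℝ), 0 < t → ∀ C : ℝ, ∃ B₀ : ℕ, ∀ B : ℕ, B₀ ≤ B → C ≤ (B : ℝ) ^ t := by
    intro t ht C
    have h1 : Filter.Tendsto (fun B : ℕ => (B : ℝ) ^ t) Filter.atTop Filter.atTop :=
      (tendsto_rpow_atTop ht).comp tendsto_natCast_atTop_atTop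
    exact Filter.eventually_atTop.mp (h1.eventually_ge_atTop C)
  obtain ⟨B1, hB1⟩ := hev (η1 / 2) (by positivity) (K.natAbs : ℝ)
  obtain ⟨B2, hB2⟩ := hev γ hγ0 (c : ℝ)
  refine ((((S0.or S1).or (S2.or S3)).or (S4.or S5)).of_eventually (B1 + B2) ?_)
  rintro B x hBB hB hx ⟨hprim, hne, hrad⟩
  by_contra hcon
  rw [not_or, not_or, not_or, not_or, not_or] at hcon
  obtain ⟨⟨⟨n0, n1⟩, n2, n3⟩, n4, n5⟩ := hcon
  have hBr : (1 : ℝ) ≤ B := by exact_mod_cast hB
  have hBpos : (0 : ℝ) < B := by linarith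
  have hKB := hB1 B (by omega)
  have hcB := hB2 B (by omega)
  set N := (eval x F).natAbs with hN
  have hN0 : N ≠ 0 := Int.natAbs_ne_zero.2 hne
  have hNpos : 0 < N := Nat.pos_of_ne_zero hN0
  have hNup : (N : ℝ) ≤ (B : ℝ) ^ ((k : ℝ) + γ) := by
    have h1 : (N : ℝ) ≤ c * (B : ℝ) ^ k := by exact_mod_cast hc B hB x hx
    refine h1.trans ?_
    rw [add_comm, Real.rpow_add hBpos, Real.rpow_natCast]
    exact mul_le_mul_of_nonneg_right hcB (by positivity)
  have hNlow : (B : ℝ) ^ ((k : ℝ) - ε) < N := by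
    by_contra h
    push Not at h
    exact n0 ⟨hne, h⟩
  have hdvdN : ∀ d : ℕ, d ∣ N → (d : ℤ) ∣ eval x F := fun d hd => Int.natCast_dvd.2 hd
  obtain ⟨s0, M, hMN, hsq⟩ := Nat.sq_mul_squarefree N
  have hM0 : M ≠ 0 := by
    rintro rfl
    simp at hMN
    omega
  have hs00 : s0 ≠ 0 := by
    rintro rfl
    simp at hMN
    omega
  obtain ⟨ML, M1, hML, hMLp, hM1p⟩ := exists_split M hM0 (fun p => (B : ℝ) ^ β < p)
  have hML0 : ML ≠ 0 := by rintro rfl; simp at hML; exact hM0 hML.symm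
  have hM10 : M1 ≠ 0 := by rintro rfl; simp at hML; exact hM0 hML.symm
  obtain ⟨Ms, Mn, hMs, hMsp, hMnp⟩ := exists_split M1 hM10
    (fun p => (p : ℤ) ∣ K * eval x (dder a F))
  have hMs0 : Ms ≠ 0 := by rintro rfl; simp at hMs; exact hM10 hMs.symm
  have hMn0 : Mn ≠ 0 := by rintro rfl; simp at hMs; exact hM10 hMs.symm
  have hMdvd : M ^ 2 ∣ N := ⟨s0, hMN.symm⟩
  have hM1M : M1 ∣ M := ⟨ML, by rw [mul_comm]; exact hML.symm⟩
  have hMsM : Ms ∣ M := (Dvd.intro _ hMs).trans hM1M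
  have hMnM : Mn ∣ M := (Dvd.intro_left _ hMs).trans hM1M
  have hMLM : ML ∣ M := Dvd.intro _ hML
  have hMN1 : M ∣ N := (dvd_pow_self M two_ne_zero).trans hMdvd
  -- the singular part
  have bMs : (Ms : ℝ) ≤ (B : ℝ) ^ ε := by
    by_contra h
    push Not at h
    refine n1 ⟨hne, Ms, hdvdN Ms (hMsM.trans hMN1), h, ?_⟩
    have hg0 : Int.gcd (eval x F) (eval x (dder a F)) ≠ 0 := fun h =>
      hne (Int.gcd_eq_zero_iff.mp h).1
    have h1 : rd Ms ≤ K.natAbs * rd (Int.gcd (eval x F) (eval x (dder a F))) := by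
      refine rd_le_mul Ms _ _ (Int.natAbs_ne_zero.2 hK0) hg0 ?_
      intro p hp hpM
      have hpZ : Prime (p : ℤ) := Nat.prime_iff_prime_int.1 hp
      rcases hpZ.dvd_or_dvd (hMsp p hp hpM) with h2 | h2
      · left; exact Int.natCast_dvd.1 h2
      · right
        have h3 : (p : ℤ) ∣ eval x F := hdvdN p (hpM.trans (hMsM.trans hMN1))
        exact Nat.dvd_gcd (Int.natCast_dvd.1 h3) (Int.natCast_dvd.1 h2)
    have h2 : (rd (Int.gcd (eval x F) (eval x (dder a F))) : ℝ) ≤ (B : ℝ) ^ (η1 / 2) := by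
      by_contra h3
      push Not at h3
      exact n2 ⟨hne, h3⟩
    calc (rd Ms : ℝ) ≤ K.natAbs * rd (Int.gcd (eval x F) (eval x (dder a F))) := by
          exact_mod_cast h1
      _ ≤ (B : ℝ) ^ (η1 / 2) * (B : ℝ) ^ (η1 / 2) :=
          mul_le_mul hKB h2 (Nat.cast_nonneg _) (by positivity)
      _ = (B : ℝ) ^ η1 := by rw [← Real.rpow_add hBpos]; congr 1; ring
  -- the non-singular part
  have hBε : 1 ≤ (B : ℝ) ^ ε := Real.one_le_rpow hBr hε0.le
  have bMn : (Mn : ℝ) ≤ (B : ℝ) ^ ε := by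
    by_contra h
    push Not at h
    have hsmall : ∀ p : ℕ, p.Prime → p ∣ Mn → (p : ℝ) ≤ (B : ℝ) ^ ((3 : ℝ) / 4) := by
      intro p hp hpM
      by_contra h1
      push Not at h1
      refine n4 ⟨hprim, p, hp, h1, ?_, ?_⟩
      · have h2 := hM1p p hp (hpM.trans (Dvd.intro_left _ hMs))
        push Not at h2
        exact h2
      · have h3 : p ^ 2 ∣ N := (pow_dvd_pow_of_dvd (hpM.trans hMnM) 2).trans hMdvd
        exact_mod_cast hdvdN _ h3
    obtain ⟨d, hd1, hd2, hd3⟩ := exists_divisor Mn _ _ hBε h hsmall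
    refine n3 ⟨d, hd2, ?_, ?_, ?_⟩
    · refine hd3.trans ?_
      rw [← Real.rpow_add hBpos]
      refine Real.rpow_le_rpow_of_exponent_le hBr ?_
      linarith
    · have h3 : d ^ 2 ∣ N := (pow_dvd_pow_of_dvd (hd1.trans hMnM) 2).trans hMdvd
      exact_mod_cast hdvdN _ h3
    · intro p hp hpd
      exact hMnp p hp (hpd.trans hd1)
  have bM1 : (M1 : ℝ) ^ 2 ≤ (B : ℝ) ^ (4 * ε) := by
    have h1 : (M1 : ℝ) = Ms * Mn := by rw [← hMs]; push_cast; rfl
    have h2 : (M1 : ℝ) ≤ (B : ℝ) ^ ε * (B : ℝ) ^ ε := by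
      rw [h1]; exact mul_le_mul bMs bMn (Nat.cast_nonneg _) (by positivity)
    calc (M1 : ℝ) ^ 2 ≤ ((B : ℝ) ^ ε * (B : ℝ) ^ ε) ^ 2 := pow_le_pow_left₀ (Nat.cast_nonneg _) h2 2
      _ = (B : ℝ) ^ (4 * ε) := by
          rw [← Real.rpow_add hBpos, ← Real.rpow_natCast, ← Real.rpow_mul hBpos.le]
          congr 1
          push_cast
          ring
  have hs0rd : s0 ≤ rd N := squarefree_le_rd s0 N hN0 hsq (Dvd.intro_left _ hMN)
  by_cases hML1 : ML = 1
  · -- no large prime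
    have h1 : M = M1 := by rw [← hML, hML1, one_mul]
    have h2 : (N : ℝ) ≤ (B : ℝ) ^ (4 * ε) * (B : ℝ) ^ θ := by
      have h3 : (N : ℝ) = (M1 : ℝ) ^ 2 * s0 := by rw [← hMN, h1]; push_cast; rfl
      rw [h3]
      refine mul_le_mul bM1 ?_ (Nat.cast_nonneg _) (by positivity)
      exact le_trans (by exact_mod_cast hs0rd) hrad
    have h3 : (B : ℝ) ^ (4 * ε) * (B : ℝ) ^ θ ≤ (B : ℝ) ^ ((k : ℝ) - ε) := by
      rw [← Real.rpow_add hBpos]
      refine Real.rpow_le_rpow_of_exponent_le hBr ?_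
      rw [hθ]; linarith
    linarith
  · set p := ML.minFac with hp
    have hpp : p.Prime := Nat.minFac_prime hML1
    have hpML : p ∣ ML := Nat.minFac_dvd ML
    have hpB : (B : ℝ) ^ β < p := hMLp p hpp hpML
    have hp0 : (0 : ℝ) < p := by exact_mod_cast hpp.pos
    by_cases hq : ∃ q : ℕ, q.Prime ∧ q ∣ ML ∧ q ≠ p
    · -- two large primes
      obtain ⟨q, hqp, hqML, hqne⟩ := hq
      have hqB : (B : ℝ) ^ β < q := hMLp q hqp hqML
      have hcop : Nat.Coprime p q := (Nat.coprime_primes hpp hqp).2 hqne.symm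
      have hpq : p * q ∣ M := (hcop.mul_dvd_of_dvd_of_dvd hpML hqML).trans hMLM
      have h1 : (B : ℝ) ^ (2 * β) < (p * q : ℕ) := by
        have h2 : (B : ℝ) ^ (2 * β) = (B : ℝ) ^ β * (B : ℝ) ^ β := by
          rw [← Real.rpow_add hBpos]; congr 1; ring
        rw [h2]
        push_cast
        exact mul_lt_mul'' hpB hqB (by positivity) (by positivity)
      rcases htwo with h2 | h2
      · have h3 := hγ4 h2
        have h4 : ((p * q : ℕ) : ℝ) ^ 2 ≤ N := by
          have : (p * q) ^ 2 ≤ N := Nat.le_of_dvd hNpos ((pow_dvd_pow_of_dvd hpq 2).trans hMdvd)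
          exact_mod_cast this
        have h5 : (B : ℝ) ^ ((k : ℝ) + γ) < ((p * q : ℕ) : ℝ) ^ 2 := by
          calc (B : ℝ) ^ ((k : ℝ) + γ) ≤ (B : ℝ) ^ (4 * β) :=
                Real.rpow_le_rpow_of_exponent_le hBr h3
            _ = ((B : ℝ) ^ (2 * β)) ^ 2 := by
                rw [← Real.rpow_natCast, ← Real.rpow_mul hBpos.le]
                congr 1
                push_cast
                ring
            _ < ((p * q : ℕ) : ℝ) ^ 2 := pow_lt_pow_left₀ h1 (by positivity) two_ne_zero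
        linarith
      · have h3 : p * q ≤ rd N := by
          refine squarefree_le_rd _ N hN0 ?_ (hpq.trans hMN1)
          exact (Nat.squarefree_mul hcop).2 ⟨hpp.squarefree, hqp.squarefree⟩
        have h4 : ((p * q : ℕ) : ℝ) ≤ (B : ℝ) ^ θ := le_trans (by exact_mod_cast h3) hrad
        have h5 : (B : ℝ) ^ θ ≤ (B : ℝ) ^ (2 * β) := by
          refine Real.rpow_le_rpow_of_exponent_le hBr ?_
          rw [hθ, hβ]; linarith
        linarith
    · -- one large prime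
      push Not at hq
      have hMLpow : ML = p ^ ML.primeFactorsList.length :=
        Nat.eq_prime_pow_of_unique_prime_dvd hML0 fun {d} hd hdM => hq d hd hdM
      set j := ML.primeFactorsList.length with hj
      have hj1 : 1 ≤ j := by
        by_contra h
        have : j = 0 := by omega
        rw [this, pow_zero] at hMLpow
        exact hML1 hMLpow
      obtain ⟨s', e, he2, hes, hs'⟩ : ∃ s' e : ℕ, 2 ≤ e ∧ N = p ^ e * (s' * M1 ^ 2) ∧
          Squarefree (p * s') := by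
        by_cases hps : p ∣ s0
        · obtain ⟨s', hs'⟩ := hps
          refine ⟨s', 2 * j + 1, by omega, ?_, by rw [← hs']; exact hsq⟩
          rw [← hMN, ← hML, hMLpow, hs', mul_pow, ← pow_mul]
          ring
        · refine ⟨s0, 2 * j, by omega, ?_, ?_⟩
          · rw [← hMN, ← hML, hMLpow, mul_pow, ← pow_mul]
            ring
          · exact (Nat.squarefree_mul ((Nat.Prime.coprime_iff_not_dvd hpp).2 hps)).2
              ⟨hpp.squarefree, hsq⟩
      set N' := s' * M1 ^ 2 with hN'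
      have hN'0 : 0 < N' := by
        rcases Nat.eq_zero_or_pos N' with h | h
        · rw [h, mul_zero] at hes; omega
        · exact h
      have hps' : p * s' ≤ rd N := by
        refine squarefree_le_rd _ N hN0 hs' ?_
        have h1 : p ∣ p ^ e := dvd_pow_self p (by omega)
        rw [hes]
        exact mul_dvd_mul h1 (Dvd.intro _ rfl)
      have hradN : (p : ℝ) * N' ≤ (B : ℝ) ^ (θ + 4 * ε) := by
        have h1 : (p : ℝ) * N' = (p * s' : ℕ) * (M1 : ℝ) ^ 2 := by rw [hN']; push_cast; ring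
        rw [h1, Real.rpow_add hBpos]
        refine mul_le_mul ?_ bM1 (by positivity) (by positivity)
        exact le_trans (by exact_mod_cast hps') hrad
      have hup : (p : ℝ) ^ e * N' ≤ (B : ℝ) ^ ((k : ℝ) + γ) := by
        have h1 : (N : ℝ) = (p : ℝ) ^ e * N' := by rw [hes]; push_cast; ring
        rw [← h1]; exact hNup
      have hlow : (B : ℝ) ^ ((k : ℝ) - ε) ≤ (p : ℝ) ^ e * N' := by
        have h1 : (N : ℝ) = (p : ℝ) ^ e * N' := by rw [hes]; push_cast; ring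
        rw [← h1]; exact hNlow.le
      have hek : e ≤ k := by
        by_contra h
        push Not at h
        have hB' : (B : ℝ) < p := by
          refine lt_of_le_of_lt ?_ hpB
          calc (B : ℝ) = (B : ℝ) ^ (1 : ℝ) := (Real.rpow_one _).symm
            _ ≤ (B : ℝ) ^ β := Real.rpow_le_rpow_of_exponent_le hBr hβ1
        have h1 : (B : ℝ) ^ (k + 1) < (p : ℝ) ^ (k + 1) :=
          pow_lt_pow_left₀ hB' hBpos.le (by omega)
        have h2 : (p : ℝ) ^ (k + 1) ≤ (p : ℝ) ^ e :=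
          pow_le_pow_right₀ (by exact_mod_cast hpp.one_lt.le) (by omega)
        have h3 : (1 : ℝ) ≤ N' := by exact_mod_cast hN'0
        have h4 : (p : ℝ) ^ e ≤ (p : ℝ) ^ e * N' := le_mul_of_one_le_right (by positivity) h3
        have h5 : (B : ℝ) ^ ((k : ℝ) + γ) ≤ (B : ℝ) ^ (k + 1) := by
          rw [← Real.rpow_natCast]
          refine Real.rpow_le_rpow_of_exponent_le hBr ?_
          push_cast
          linarith
        linarith
      have hcof := cofactor_le (B : ℝ) p N' k γ ε θ β e he2 hBr hp0 (by exact_mod_cast hN'0)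
        hpB.le hup hlow hradN (by
          rcases hadm e he2 with h | h
          · left
            exact hγe e (Finset.mem_Icc.2 ⟨he2, hek⟩) h
          · right
            exact adm_exponent k m η ε γ e he2 hε1 hη hγη h)
      -- the sign
      refine n5 ⟨⟨e, by omega⟩, he2, hne, ?_⟩
      rcases Int.natAbs_eq (eval x F) with h | h
      · refine ⟨(N' : ℤ), (p : ℤ), ?_, ?_⟩
        · rw [h, ← hN, hes]; push_cast; ring
        · rw [Int.natAbs_natCast]; exact hcof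
      · refine ⟨-(N' : ℤ), (p : ℤ), ?_, ?_⟩
        · rw [h, ← hN, hes]; push_cast; ring
        · rw [Int.natAbs_neg, Int.natAbs_natCast]; exact hcof

end Pool.Agent.N445.VW
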