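import Mathlib
import Pool.Agent.N445.VW.Rad
import Pool.Agent.N445.VW.PlE

/-! # The radical of the values of a form at almost all primitive points: cofactors up to
`B ^ (1 + 1 / n)` -/

set_option autoImplicit false

namespace Pool.Agent.N445.VW

open MvPolynomial Pool.Agent.TH910.Voj Pool.Agent.H813R3.Voj

/-- the small parameter -/
theorem exists_gamma2 (n k : ℕ) (hn : 1 ≤ n) (η : ℝ) (hη : 0 < η) :
    ∃ γ : ℝ, 0 < γ ∧ γ ≤ η / 4 ∧ γ ≤ 1 / 8 ∧ γ ≤ 1 / n ∧
      (∀ e ∈ Finset.Icc 2 k, (k : ℝ) < (e + 1) * (1 + 1 / (n : ℝ)) →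
        (k : ℝ) + (e + 2) * γ ≤ (e + 1) * (1 + 1 / (n : ℝ))) ∧
      ((k : ℝ) < 4 * (1 + 1 / (n : ℝ)) → (k : ℝ) + γ ≤ 4 * (1 + 1 / (n : ℝ) - γ)) := by
  have hn0 : (0 : ℝ) < n := by exact_mod_cast hn
  have hle : ∀ c : ℝ, 0 < c → ∀ᶠ γ in nhdsWithin (0 : ℝ) (Set.Ioi 0), γ ≤ c := fun c hc =>
    (eventually_le_nhds hc).filter_mono nhdsWithin_le_nhds
  have h1 : ∀ᶠ γ in nhdsWithin (0 : ℝ) (Set.Ioi 0), 0 < γ := self_mem_nhdsWithin
  have h5 : ∀ᶠ γ in nhdsWithin (0 : ℝ) (Set.Ioi 0), ∀ e ∈ Finset.Icc 2 k,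
      (k : ℝ) < (e + 1) * (1 + 1 / (n : ℝ)) →
        (k : ℝ) + (e + 2) * γ ≤ (e + 1) * (1 + 1 / (n : ℝ)) := by
    rw [Filter.eventually_all_finset]
    intro e _
    by_cases hgap : (k : ℝ) < (e + 1) * (1 + 1 / (n : ℝ))
    · have he0 : (0 : ℝ) < (e : ℝ) + 2 := by positivity
      filter_upwards [hle (((e + 1) * (1 + 1 / (n : ℝ)) - k) / (e + 2))
        (div_pos (by linarith) he0)] with γ hγ _
      rw [le_div_iff₀ he0] at hγ
      linarith
    · exact Filter.Eventually.of_forall fun γ h => absurd h hgap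
  have h6 : ∀ᶠ γ in nhdsWithin (0 : ℝ) (Set.Ioi 0), ((k : ℝ) < 4 * (1 + 1 / (n : ℝ)) →
      (k : ℝ) + γ ≤ 4 * (1 + 1 / (n : ℝ) - γ)) := by
    by_cases hgap : (k : ℝ) < 4 * (1 + 1 / (n : ℝ))
    · filter_upwards [hle ((4 * (1 + 1 / (n : ℝ)) - k) / 5) (div_pos (by linarith) (by norm_num))]
        with γ hγ _
      rw [le_div_iff₀ (by norm_num)] at hγ
      linarith
    · exact Filter.Eventually.of_forall fun γ h => absurd h hgap
  obtain ⟨γ, g1, g2, g3, g4, g5, g6⟩ := (h1.and ((hle (η / 4) (by positivity)).and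
    ((hle (1 / 8) (by norm_num)).and ((hle (1 / n) (by positivity)).and (h5.and h6))))).exists
  exact ⟨γ, g1, g2, g3, g4, g5, g6⟩

/-- the cofactor is moderate -/
theorem cofactor2 (b p s M k γ ε θ a : ℝ) (e : ℕ) (he : 2 ≤ e) (hb : 1 ≤ b) (hp : 0 < p)
    (hs : 0 < s) (hM1 : 1 ≤ M) (hM : M ≤ b ^ (4 * ε)) (hβ : b ^ (a - γ) ≤ p)
    (hup : p ^ e * (s * M) ≤ b ^ (k + γ)) (hlow : b ^ (k - ε) ≤ p ^ e * (s * M))
    (hrad : p * s ≤ b ^ θ)
    (h : k + (e + 2) * γ ≤ (e + 1) * a ∨ e * θ ≤ k + (e - 1) * (a - γ) - 5 * ε) :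
    s ≤ b ^ (a - γ) := by
  have hb0 : 0 < b := by linarith
  rcases h with h | h
  · have h1 : b ^ ((a - γ) * e) ≤ p ^ e := by
      rw [Real.rpow_mul hb0.le, Real.rpow_natCast]
      exact pow_le_pow_left₀ (by positivity) hβ e
    have h2 : b ^ ((a - γ) * e) * s ≤ b ^ (k + γ) := by
      refine le_trans ?_ hup
      refine mul_le_mul h1 (le_mul_of_one_le_right hs.le hM1) hs.le (by positivity)
    have h3 : s ≤ b ^ (k + γ - (a - γ) * e) := by
      rw [Real.rpow_sub hb0, le_div_iff₀ (by positivity)]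
      linarith
    refine h3.trans (Real.rpow_le_rpow_of_exponent_le hb ?_)
    linarith
  · by_contra hcon
    push Not at hcon
    have h1 : (b ^ (a - γ)) ^ (e - 1) < s ^ (e - 1) :=
      pow_lt_pow_left₀ hcon (by positivity) (by omega)
    have h2 : b ^ (k - 5 * ε) ≤ p ^ e * s := by
      have h3 : b ^ (k - ε) ≤ (p ^ e * s) * b ^ (4 * ε) := by
        refine hlow.trans ?_
        rw [← mul_assoc]
        exact mul_le_mul_of_nonneg_left hM (by positivity)
      have h4 : b ^ (k - 5 * ε) = b ^ (k - ε) / b ^ (4 * ε) := by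
        rw [← Real.rpow_sub hb0]; congr 1; ring
      rw [h4, div_le_iff₀ (by positivity)]
      exact h3
    have h3 : (b ^ (a - γ)) ^ (e - 1) * b ^ (k - 5 * ε) < (p * s) ^ e := by
      calc (b ^ (a - γ)) ^ (e - 1) * b ^ (k - 5 * ε) < s ^ (e - 1) * b ^ (k - 5 * ε) :=
            mul_lt_mul_of_pos_right h1 (by positivity)
        _ ≤ s ^ (e - 1) * (p ^ e * s) := mul_le_mul_of_nonneg_left h2 (by positivity)
        _ = (p * s) ^ e := by
            have : s ^ e = s ^ (e - 1) * s := by rw [← pow_succ]; congr 1; omega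
            rw [mul_pow, this]; ring
    have h4 : (p * s) ^ e ≤ b ^ (e * θ) := by
      calc (p * s) ^ e ≤ (b ^ θ) ^ e := pow_le_pow_left₀ (by positivity) hrad e
        _ = _ := by rw [← Real.rpow_natCast, ← Real.rpow_mul hb0.le, mul_comm]
    have h5 : b ^ (e * θ) ≤ (b ^ (a - γ)) ^ (e - 1) * b ^ (k - 5 * ε) := by
      rw [← Real.rpow_natCast (b ^ (a - γ)), ← Real.rpow_mul hb0.le, ← Real.rpow_add hb0]
      refine Real.rpow_le_rpow_of_exponent_le hb (h.trans (le_of_eq ?_))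
      rw [Nat.cast_sub (by omega)]
      push_cast
      ring
    linarith

/-- **The radical of the values of a form at almost all primitive points.** -/
theorem sparse_rad2 {n : ℕ} (hn : 2 ≤ n) (F : MvPolynomial (Fin (n + 1)) ℤ) {k : ℕ}
    (hk : F.IsHomogeneous k) (hk2 : 2 ≤ k) (hirr : Irreducible (toQ F)) (m η : ℝ) (hη : 0 < η)
    (hmk : m ≤ k)
    (hadm : ∀ e : ℕ, 2 ≤ e → (k : ℝ) < (e + 1) * (1 + 1 / (n : ℝ)) ∨
      m ≤ k / e + (1 - 1 / (e : ℝ)) * (1 + 1 / (n : ℝ)))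
    (htwo : (k : ℝ) < 4 * (1 + 1 / (n : ℝ)) ∨ m ≤ 2 * (1 + 1 / (n : ℝ))) :
    Sparse (n + 1) (fun B x => (∃ c : Fin (n + 1) → ℤ, ∑ i, c i * x i = 1) ∧ eval x F ≠ 0 ∧
      (rd (eval x F).natAbs : ℝ) ≤ (B : ℝ) ^ (m - η)) := by
  classical
  have hk1 : 1 ≤ k := by omega
  obtain ⟨a, i₀, hFa, ha⟩ := exists_direction F hk hirr
  have hF0 : F ≠ 0 := by rintro rfl; simp at hFa
  have hG := not_dvd_dder a F hk hk1 hFa
  obtain ⟨c, hc1, hc⟩ := exists_eval_bound F (hk.totalDegree_le)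
  set K : ℤ := a i₀ * eval a F with hK
  have hK0 : K ≠ 0 := mul_ne_zero ha hFa
  obtain ⟨γ, hγ0, hγη, hγ8, hγn, hγe, hγ4⟩ := exists_gamma2 n k (by omega) η hη
  set ε : ℝ := min (min (η / 40) (1 / 16)) (γ / 256) with hε
  have hε0 : 0 < ε := lt_min (lt_min (by positivity) (by norm_num)) (by positivity)
  have hε1 : ε ≤ η / 40 := (min_le_left _ _).trans (min_le_left _ _)
  have hε2 : ε ≤ 1 / 16 := (min_le_left _ _).trans (min_le_right _ _)
  have hε3 : ε ≤ γ / 256 := min_le_right _ _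
  set θ := m - η with hθ
  set β := 1 + 1 / (n : ℝ) - γ with hβ
  have hβ1 : 1 ≤ β := by rw [hβ]; linarith
  obtain ⟨η1, hη1, S1⟩ := sparse_sing F hk hk1 hirr hε0 (by linarith)
  have S2 := sparse_gcd F (dder a F) hk hirr hG (η := η1 / 2) (by positivity)
  have S3 := sparse_square F hk hk1 a i₀ hFa ha hε0 (show (0 : ℝ) < 1 / 8 by norm_num)
    (by norm_num)
  have S4 := sparse_planes hn F hk hk1 hirr γ hγ0
  have S0 := sparse_small_value F hk hF0 hε0 (by linarith)
  have S5 : Sparse (n + 1) (fun B x => ∃ j : Fin (k + 1), 2 ≤ (j : ℕ) ∧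
      ((∃ c : Fin (n + 1) → ℤ, ∑ i, c i * x i = 1) ∧
        Mul F (j : ℕ) ((B : ℝ) ^ (1 + 1 / (n : ℝ) - γ)) ((B : ℝ) ^ (γ / 64)) x)) := by
    refine Sparse.exists_fin fun j => ?_
    by_cases hj : 2 ≤ (j : ℕ)
    · exact (sparse_mul hn F hk hk2 hirr j hj γ hγ0).mono fun B x _ _ h => h.2
    · exact (Sparse.false (n + 1)).mono fun B x _ _ h => hj h.1
  -- large `B`
  have hev : ∀ (t : ℝ), 0 < t → ∀ C : ℝ, ∃ B₀ : ℕ, ∀ B : ℕ, B₀ ≤ B → C ≤ (B : ℝ) ^ t := by
    intro t ht C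
    have h1 : Filter.Tendsto (fun B : ℕ => (B : ℝ) ^ t) Filter.atTop Filter.atTop :=
      (tendsto_rpow_atTop ht).comp tendsto_natCast_atTop_atTop
    exact Filter.eventually_atTop.mp (h1.eventually_ge_atTop C)
  obtain ⟨B1, hB1⟩ := hev (η1 / 2) (by positivity) (K.natAbs : ℝ)
  obtain ⟨B2, hB2⟩ := hev γ hγ0 (c : ℝ)
  refine ((((S0.or S1).or (S2.or S3)).or (S4.or S5)).of_eventually (B1 + B2) ?_)
  rintro B x hBB hB hx ⟨hprim, hne, hrad⟩
  by_contra hcon
  rw [not_or, not_or, not_or, not_or, not_or] at hcon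
  obtain ⟨⟨⟨n0, n1⟩, n2, n3⟩, n4, n5⟩ := hcon
  have hBr : (1 : ℝ) ≤ B := by exact_mod_cast hB
  have hBpos : (0 : ℝ) < B := by linarith
  have hKB := hB1 B (by omega)
  have hcB := hB2 B (by omega)
  set N := (eval x F).natAbs with hN
  have hN0 : N ≠ 0 := Int.natAbs_ne_zero.2 hne
  have hNpos : 0 < N := Nat.pos_of_ne_zero hN0
  have hNup : (N : ℝ) ≤ (B : ℝ) ^ ((k : ℝ) + γ) := by
    have h1 : (N : ℝ) ≤ c * (B : ℝ) ^ k := by exact_mod_cast hc B hB x hx
    refine h1.trans ?_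
    rw [add_comm, Real.rpow_add hBpos, Real.rpow_natCast]
    exact mul_le_mul_of_nonneg_right hcB (by positivity)
  have hNlow : (B : ℝ) ^ ((k : ℝ) - ε) < N := by
    by_contra h
    push Not at h
    exact n0 ⟨hne, h⟩
  have hdvdN : ∀ d : ℕ, d ∣ N → (d : ℤ) ∣ eval x F := fun d hd => Int.natCast_dvd.2 hd
  obtain ⟨s0, M, hMN, hsq⟩ := Nat.sq_mul_squarefree N
  have hM0 : M ≠ 0 := by
    rintro rfl
    simp at hMN
    omega
  have hs00 : s0 ≠ 0 := by
    rintro rfl
    simp at hMN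
    omega
  obtain ⟨ML, M1, hML, hMLp, hM1p⟩ := exists_split M hM0 (fun p => (B : ℝ) ^ β < p)
  have hML0 : ML ≠ 0 := by rintro rfl; simp at hML; exact hM0 hML.symm
  have hM10 : M1 ≠ 0 := by rintro rfl; simp at hML; exact hM0 hML.symm
  obtain ⟨Ms, Mn, hMs, hMsp, hMnp⟩ := exists_split M1 hM10
    (fun p => (p : ℤ) ∣ K * eval x (dder a F))
  have hMs0 : Ms ≠ 0 := by rintro rfl; simp at hMs; exact hM10 hMs.symm
  have hMn0 : Mn ≠ 0 := by rintro rfl; simp at hMs; exact hM10 hMs.symm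
  have hMdvd : M ^ 2 ∣ N := ⟨s0, hMN.symm⟩
  have hM1M : M1 ∣ M := ⟨ML, by rw [mul_comm]; exact hML.symm⟩
  have hMsM : Ms ∣ M := (Dvd.intro _ hMs).trans hM1M
  have hMnM : Mn ∣ M := (Dvd.intro_left _ hMs).trans hM1M
  have hMLM : ML ∣ M := Dvd.intro _ hML
  have hMN1 : M ∣ N := (dvd_pow_self M two_ne_zero).trans hMdvd
  -- the singular part
  have bMs : (Ms : ℝ) ≤ (B : ℝ) ^ ε := by
    by_contra h
    push Not at h
    refine n1 ⟨hne, Ms, hdvdN Ms (hMsM.trans hMN1), h, ?_⟩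
    have hg0 : Int.gcd (eval x F) (eval x (dder a F)) ≠ 0 := fun h =>
      hne (Int.gcd_eq_zero_iff.mp h).1
    have h1 : rd Ms ≤ K.natAbs * rd (Int.gcd (eval x F) (eval x (dder a F))) := by
      refine rd_le_mul Ms _ _ (Int.natAbs_ne_zero.2 hK0) hg0 ?_
      intro p hp hpM
      have hpZ : Prime (p : ℤ) := Nat.prime_iff_prime_int.1 hp
      rcases hpZ.dvd_or_dvd (hMsp p hp hpM) with h2 | h2
      · left; exact Int.natCast_dvd.1 h2
      · right
        have h3 : (p : ℤ) ∣ eval x F := hdvdN p (hpM.trans (hMsM.trans hMN1))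
        exact Nat.dvd_gcd (Int.natCast_dvd.1 h3) (Int.natCast_dvd.1 h2)
    have h2 : (rd (Int.gcd (eval x F) (eval x (dder a F))) : ℝ) ≤ (B : ℝ) ^ (η1 / 2) := by
      by_contra h3
      push Not at h3
      exact n2 ⟨hne, h3⟩
    calc (rd Ms : ℝ) ≤ K.natAbs * rd (Int.gcd (eval x F) (eval x (dder a F))) := by
          exact_mod_cast h1
      _ ≤ (B : ℝ) ^ (η1 / 2) * (B : ℝ) ^ (η1 / 2) :=
          mul_le_mul hKB h2 (Nat.cast_nonneg _) (by positivity)
      _ = (B : ℝ) ^ η1 := by rw [← Real.rpow_add hBpos]; congr 1; ring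
  -- the non-singular part
  have hBε : 1 ≤ (B : ℝ) ^ ε := Real.one_le_rpow hBr hε0.le
  have bMn : (Mn : ℝ) ≤ (B : ℝ) ^ ε := by
    by_contra h
    push Not at h
    have hsmall : ∀ p : ℕ, p.Prime → p ∣ Mn → (p : ℝ) ≤ (B : ℝ) ^ ((3 : ℝ) / 4) := by
      intro p hp hpM
      by_contra h1
      push Not at h1
      refine n4 ⟨hprim, p, hp, h1, ?_, ?_⟩
      · have h2 := hM1p p hp (hpM.trans (Dvd.intro_left _ hMs))
        push Not at h2
        exact h2
      · have h3 : p ^ 2 ∣ N := (pow_dvd_pow_of_dvd (hpM.trans hMnM) 2).trans hMdvd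
        exact_mod_cast hdvdN _ h3
    obtain ⟨d, hd1, hd2, hd3⟩ := exists_divisor Mn _ _ hBε h hsmall
    refine n3 ⟨d, hd2, ?_, ?_, ?_⟩
    · refine hd3.trans ?_
      rw [← Real.rpow_add hBpos]
      refine Real.rpow_le_rpow_of_exponent_le hBr ?_
      linarith
    · have h3 : d ^ 2 ∣ N := (pow_dvd_pow_of_dvd (hd1.trans hMnM) 2).trans hMdvd
      exact_mod_cast hdvdN _ h3
    · intro p hp hpd
      exact hMnp p hp (hpd.trans hd1)
  have bM1 : (M1 : ℝ) ^ 2 ≤ (B : ℝ) ^ (4 * ε) := by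
    have h1 : (M1 : ℝ) = Ms * Mn := by rw [← hMs]; push_cast; rfl
    have h2 : (M1 : ℝ) ≤ (B : ℝ) ^ ε * (B : ℝ) ^ ε := by
      rw [h1]; exact mul_le_mul bMs bMn (Nat.cast_nonneg _) (by positivity)
    calc (M1 : ℝ) ^ 2 ≤ ((B : ℝ) ^ ε * (B : ℝ) ^ ε) ^ 2 := pow_le_pow_left₀ (Nat.cast_nonneg _) h2 2
      _ = (B : ℝ) ^ (4 * ε) := by
          rw [← Real.rpow_add hBpos, ← Real.rpow_natCast, ← Real.rpow_mul hBpos.le]
          congr 1
          push_cast
          ring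
  have hs0rd : s0 ≤ rd N := squarefree_le_rd s0 N hN0 hsq (Dvd.intro_left _ hMN)
  by_cases hML1 : ML = 1
  · -- no large prime
    have h1 : M = M1 := by rw [← hML, hML1, one_mul]
    have h2 : (N : ℝ) ≤ (B : ℝ) ^ (4 * ε) * (B : ℝ) ^ θ := by
      have h3 : (N : ℝ) = (M1 : ℝ) ^ 2 * s0 := by rw [← hMN, h1]; push_cast; rfl
      rw [h3]
      refine mul_le_mul bM1 ?_ (Nat.cast_nonneg _) (by positivity)
      exact le_trans (by exact_mod_cast hs0rd) hrad
    have h3 : (B : ℝ) ^ (4 * ε) * (B : ℝ) ^ θ ≤ (B : ℝ) ^ ((k : ℝ) - ε) := by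
      rw [← Real.rpow_add hBpos]
      refine Real.rpow_le_rpow_of_exponent_le hBr ?_
      rw [hθ]; linarith
    linarith
  · set p := ML.minFac with hp
    have hpp : p.Prime := Nat.minFac_prime hML1
    have hpML : p ∣ ML := Nat.minFac_dvd ML
    have hpB : (B : ℝ) ^ β < p := hMLp p hpp hpML
    have hp0 : (0 : ℝ) < p := by exact_mod_cast hpp.pos
    by_cases hq : ∃ q : ℕ, q.Prime ∧ q ∣ ML ∧ q ≠ p
    · -- two large primes
      obtain ⟨q, hqp, hqML, hqne⟩ := hq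
      have hqB : (B : ℝ) ^ β < q := hMLp q hqp hqML
      have hcop : Nat.Coprime p q := (Nat.coprime_primes hpp hqp).2 hqne.symm
      have hpq : p * q ∣ M := (hcop.mul_dvd_of_dvd_of_dvd hpML hqML).trans hMLM
      have h1 : (B : ℝ) ^ (2 * β) < (p * q : ℕ) := by
        have h2 : (B : ℝ) ^ (2 * β) = (B : ℝ) ^ β * (B : ℝ) ^ β := by
          rw [← Real.rpow_add hBpos]; congr 1; ring
        rw [h2]
        push_cast
        exact mul_lt_mul'' hpB hqB (by positivity) (by positivity)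
      rcases htwo with h2 | h2
      · have h3 := hγ4 h2
        have h4 : ((p * q : ℕ) : ℝ) ^ 2 ≤ N := by
          have : (p * q) ^ 2 ≤ N := Nat.le_of_dvd hNpos ((pow_dvd_pow_of_dvd hpq 2).trans hMdvd)
          exact_mod_cast this
        have h5 : (B : ℝ) ^ ((k : ℝ) + γ) < ((p * q : ℕ) : ℝ) ^ 2 := by
          calc (B : ℝ) ^ ((k : ℝ) + γ) ≤ (B : ℝ) ^ (4 * β) :=
                Real.rpow_le_rpow_of_exponent_le hBr h3
            _ = ((B : ℝ) ^ (2 * β)) ^ 2 := by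
                rw [← Real.rpow_natCast, ← Real.rpow_mul hBpos.le]
                congr 1
                push_cast
                ring
            _ < ((p * q : ℕ) : ℝ) ^ 2 := pow_lt_pow_left₀ h1 (by positivity) two_ne_zero
        linarith
      · have h3 : p * q ≤ rd N := by
          refine squarefree_le_rd _ N hN0 ?_ (hpq.trans hMN1)
          exact (Nat.squarefree_mul hcop).2 ⟨hpp.squarefree, hqp.squarefree⟩
        have h4 : ((p * q : ℕ) : ℝ) ≤ (B : ℝ) ^ θ := le_trans (by exact_mod_cast h3) hrad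
        have h5 : (B : ℝ) ^ θ ≤ (B : ℝ) ^ (2 * β) := by
          refine Real.rpow_le_rpow_of_exponent_le hBr ?_
          rw [hθ, hβ]; linarith
        linarith
    · -- one large prime
      push Not at hq
      have hMLpow : ML = p ^ ML.primeFactorsList.length :=
        Nat.eq_prime_pow_of_unique_prime_dvd hML0 fun {d} hd hdM => hq d hd hdM
      set j := ML.primeFactorsList.length with hj
      have hj1 : 1 ≤ j := by
        by_contra h
        have : j = 0 := by omega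
        rw [this, pow_zero] at hMLpow
        exact hML1 hMLpow
      obtain ⟨s', e, he2, hes, hs'⟩ : ∃ s' e : ℕ, 2 ≤ e ∧ N = p ^ e * (s' * M1 ^ 2) ∧
          Squarefree (p * s') := by
        by_cases hps : p ∣ s0
        · obtain ⟨s', hs'⟩ := hps
          refine ⟨s', 2 * j + 1, by omega, ?_, by rw [← hs']; exact hsq⟩
          rw [← hMN, ← hML, hMLpow, hs', mul_pow, ← pow_mul]
          ring
        · refine ⟨s0, 2 * j, by omega, ?_, ?_⟩
          · rw [← hMN, ← hML, hMLpow, mul_pow, ← pow_mul]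
            ring
          · exact (Nat.squarefree_mul ((Nat.Prime.coprime_iff_not_dvd hpp).2 hps)).2
              ⟨hpp.squarefree, hsq⟩
      set N' := s' * M1 ^ 2 with hN'
      have hN'0 : 0 < N' := by
        rcases Nat.eq_zero_or_pos N' with h | h
        · rw [h, mul_zero] at hes; omega
        · exact h
      have hps' : p * s' ≤ rd N := by
        refine squarefree_le_rd _ N hN0 hs' ?_
        have h1 : p ∣ p ^ e := dvd_pow_self p (by omega)
        rw [hes]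
        exact mul_dvd_mul h1 (Dvd.intro _ rfl)
      have hup : (p : ℝ) ^ e * N' ≤ (B : ℝ) ^ ((k : ℝ) + γ) := by
        have h1 : (N : ℝ) = (p : ℝ) ^ e * N' := by rw [hes]; push_cast; ring
        rw [← h1]; exact hNup
      have hlow : (B : ℝ) ^ ((k : ℝ) - ε) ≤ (p : ℝ) ^ e * N' := by
        have h1 : (N : ℝ) = (p : ℝ) ^ e * N' := by rw [hes]; push_cast; ring
        rw [← h1]; exact hNlow.le
      have hek : e ≤ k := by
        by_contra h
        push Not at h
        have hB' : (B : ℝ) < p := by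
          refine lt_of_le_of_lt ?_ hpB
          calc (B : ℝ) = (B : ℝ) ^ (1 : ℝ) := (Real.rpow_one _).symm
            _ ≤ (B : ℝ) ^ β := Real.rpow_le_rpow_of_exponent_le hBr hβ1
        have h1 : (B : ℝ) ^ (k + 1) < (p : ℝ) ^ (k + 1) :=
          pow_lt_pow_left₀ hB' hBpos.le (by omega)
        have h2 : (p : ℝ) ^ (k + 1) ≤ (p : ℝ) ^ e :=
          pow_le_pow_right₀ (by exact_mod_cast hpp.one_lt.le) (by omega)
        have h3 : (1 : ℝ) ≤ N' := by exact_mod_cast hN'0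
        have h4 : (p : ℝ) ^ e ≤ (p : ℝ) ^ e * N' := le_mul_of_one_le_right (by positivity) h3
        have h5 : (B : ℝ) ^ ((k : ℝ) + γ) ≤ (B : ℝ) ^ (k + 1) := by
          rw [← Real.rpow_natCast]
          refine Real.rpow_le_rpow_of_exponent_le hBr ?_
          push_cast
          linarith
        linarith
      have hM10' : (1 : ℝ) ≤ (M1 : ℝ) ^ 2 := by
        have : (1 : ℝ) ≤ M1 := by exact_mod_cast Nat.one_le_iff_ne_zero.2 hM10
        exact one_le_pow₀ this
      have hs'0 : (0 : ℝ) < s' := by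
        have : s' ≠ 0 := by
          rintro rfl
          simp at hs'
        exact_mod_cast Nat.pos_of_ne_zero this
      have hN'M : (N' : ℝ) = s' * (M1 : ℝ) ^ 2 := by rw [hN']; push_cast; rfl
      rw [hN'M] at hup hlow
      have hrads : (p : ℝ) * s' ≤ (B : ℝ) ^ θ := by
        refine le_trans ?_ hrad
        exact_mod_cast hps'
      have hcof := cofactor2 (B : ℝ) p s' ((M1 : ℝ) ^ 2) k γ ε θ (1 + 1 / (n : ℝ)) e he2 hBr hp0
        hs'0 hM10' bM1 hpB.le hup hlow hrads (by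
          rcases hadm e he2 with h | h
          · left
            exact hγe e (Finset.mem_Icc.2 ⟨he2, hek⟩) h
          · right
            have he2r : (2 : ℝ) ≤ e := by exact_mod_cast he2
            have he0 : (0 : ℝ) < e := by linarith
            have h3 : (e : ℝ) * m ≤ k + (e - 1) * (1 + 1 / (n : ℝ)) := by
              have h4 := mul_le_mul_of_nonneg_left h he0.le
              have h5 : (e : ℝ) * (k / e + (1 - 1 / (e : ℝ)) * (1 + 1 / (n : ℝ))) =
                  k + (e - 1) * (1 + 1 / (n : ℝ)) := by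
                field_simp
              linarith
            rw [hθ]
            nlinarith)
      -- the sign
      have hsqs : Squarefree s' := hs'.of_mul_right
      have hM1B : ((M1 ^ 2 : ℕ) : ℝ) ≤ (B : ℝ) ^ (γ / 64) := by
        push_cast
        refine bM1.trans (Real.rpow_le_rpow_of_exponent_le hBr ?_)
        linarith
      refine n5 ⟨⟨e, by omega⟩, he2, hprim, hne, ?_⟩
      rcases Int.natAbs_eq (eval x F) with h | h
      · refine ⟨s', (M1 ^ 2 : ℕ), (p : ℤ), hsqs, hcof, ?_, ?_⟩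
        · rw [Int.natAbs_natCast]; exact hM1B
        · rw [h, ← hN, hes, hN']; push_cast; ring
      · refine ⟨s', -((M1 ^ 2 : ℕ) : ℤ), (p : ℤ), hsqs, hcof, ?_, ?_⟩
        · rw [Int.natAbs_neg, Int.natAbs_natCast]; exact hM1B
        · rw [h, ← hN, hes, hN']; push_cast; ring

end Pool.Agent.N445.VW
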