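import Mathlib
import Pool.Agent.N445.VW.Main
import Pool.Agent.N445.VW.Rad2

/-! # The truncated counting function of a reduced divisor of `ℙⁿ` over `ℚ` with real weights -/

set_option autoImplicit false

namespace Pool.Agent.N445.VW

open MvPolynomial Pool.Agent.TH910.Voj Pool.Agent.H813R3.Voj

theorem sparse_rad3 {n : ℕ} (hn : 2 ≤ n) (F : MvPolynomial (Fin (n + 1)) ℤ) {k : ℕ}
    (hk : F.IsHomogeneous k) (hk1 : 1 ≤ k) (hirr : Irreducible (toQ F)) (m η : ℝ) (hη : 0 < η)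
    (hmk : m ≤ k)
    (hadm : ∀ e : ℕ, 2 ≤ e → (k : ℝ) < (e + 1) * (1 + 1 / (n : ℝ)) ∨
      m ≤ k / e + (1 - 1 / (e : ℝ)) * (1 + 1 / (n : ℝ)))
    (htwo : (k : ℝ) < 4 * (1 + 1 / (n : ℝ)) ∨ m ≤ 2 * (1 + 1 / (n : ℝ))) :
    Sparse (n + 1) (fun B x => (∃ c : Fin (n + 1) → ℤ, ∑ i, c i * x i = 1) ∧ eval x F ≠ 0 ∧
      (rd (eval x F).natAbs : ℝ) ≤ (B : ℝ) ^ (m - η)) := by
  rcases Nat.eq_or_lt_of_le hk1 with h | h
  · subst h
    have hn0 : (0 : ℝ) < n := by exact_mod_cast (by omega : 0 < n)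
    have h1 : (0 : ℝ) < 1 / (n : ℝ) := by positivity
    refine sparse_rad hn F hk le_rfl hirr m η hη hmk (fun e he => Or.inl ?_) (Or.inl ?_)
    · have he' : (2 : ℝ) ≤ e := by exact_mod_cast he
      have h3 : 1 / (e : ℝ) ≤ 1 / 2 := one_div_le_one_div_of_le (by norm_num) he'
      push_cast
      nlinarith
    · push_cast
      linarith
  · exact sparse_rad2 hn F hk h hirr m η hη hmk hadm htwo

theorem main_weights2 {n r : ℕ} (hn : 2 ≤ n) (S : Finset ℕ)
    (F : Fin r → MvPolynomial (Fin (n + 1)) ℤ)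
    (k : Fin r → ℕ) (m : Fin r → ℝ) (hhom : ∀ j, (F j).IsHomogeneous (k j))
    (hirr : ∀ j, Irreducible (toQ (F j)))
    (hdist : ∀ i j, i ≠ j → ¬ Associated (toQ (F i)) (toQ (F j)))
    (hmk : ∀ j, m j ≤ k j)
    (hadm : ∀ j, ∀ e : ℕ, 2 ≤ e → (k j : ℝ) < (e + 1) * (1 + 1 / (n : ℝ)) ∨
      m j ≤ k j / e + (1 - 1 / (e : ℝ)) * (1 + 1 / (n : ℝ)))
    (htwo : ∀ j, (k j : ℝ) < 4 * (1 + 1 / (n : ℝ)) ∨ m j ≤ 2 * (1 + 1 / (n : ℝ)))
    (θ : ℝ) (hθ : θ < ∑ j, m j) :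
    Sparse (n + 1) (fun B x => (∃ c : Fin (n + 1) → ℤ, ∑ i, c i * x i = 1) ∧
      ((∃ j, eval x (F j) = 0) ∨ logRad S (∏ j, eval x (F j)) < θ * Real.log B)) := by
  classical
  set G : Fin r → MvPolynomial (Fin (n + 1)) ℤ := fun j => ∏ i ∈ Finset.univ.erase j, F i with hG
  have hGdvd : ∀ j, ¬ toQ (F j) ∣ toQ (G j) := by
    intro j hdvd
    rw [hG, map_prod] at hdvd
    obtain ⟨i, hi, h2⟩ := ((hirr j).prime.dvd_finsetProd_iff _).mp hdvd
    exact hdist j i (Finset.ne_of_mem_erase hi).symm ((hirr j).associated_of_dvd (hirr i) h2)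
  have hF0 : ∀ j, F j ≠ 0 := by
    intro j h0
    exact (hirr j).ne_zero (by rw [h0, map_zero])
  set Δ : ℝ := (∑ j, m j) - θ with hΔ
  have hΔ0 : 0 < Δ := by rw [hΔ]; linarith
  set η : ℝ := Δ / (4 * (r + 1)) with hη
  have hη0 : 0 < η := by positivity
  obtain ⟨B₀, hB₀⟩ : ∃ B₀ : ℕ, ∀ B : ℕ, B₀ ≤ B →
      ∑ p ∈ S, Real.log (p : ℝ) ≤ Δ / 2 * Real.log B := by
    have h1 : Filter.Tendsto (fun B : ℕ => Δ / 2 * Real.log B) Filter.atTop Filter.atTop :=
      (Real.tendsto_log_atTop.comp tendsto_natCast_atTop_atTop).const_mul_atTop (by positivity)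
    exact Filter.eventually_atTop.mp (h1.eventually_ge_atTop (∑ p ∈ S, Real.log (p : ℝ)))
  have hsp : ∀ j, Sparse (n + 1) (fun B x => eval x (F j) = 0 ∨
      (((∃ c : Fin (n + 1) → ℤ, ∑ i, c i * x i = 1) ∧ eval x (F j) ≠ 0 ∧
          (rd (eval x (F j)).natAbs : ℝ) ≤ (B : ℝ) ^ (m j - η)) ∨
        (eval x (F j) ≠ 0 ∧ (B : ℝ) ^ η < rd (Int.gcd (eval x (F j)) (eval x (G j)))))) :=
    fun j => (sparse_zeros (F j) (hF0 j)).or
      ((sparse_rad3 hn (F j) (hhom j) (one_le_of_irr (F j) (hhom j) (hirr j)) (hirr j) (m j) η hη0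
        (hmk j) (hadm j) (htwo j)).or
        (sparse_gcd (F j) (G j) (hhom j) (hirr j) (hGdvd j) hη0))
  refine (Sparse.exists_fin hsp).of_eventually B₀ ?_
  rintro B x hBB hB hx ⟨hprim, hbad⟩
  by_contra hcon
  push Not at hcon
  have hB1 : (1 : ℝ) ≤ B := by exact_mod_cast hB
  have hBpos : (0 : ℝ) < B := by linarith
  have hlogB : 0 ≤ Real.log B := Real.log_nonneg hB1
  have ha : ∀ j, eval x (F j) ≠ 0 := fun j => (hcon j).1
  have hlt : logRad S (∏ j, eval x (F j)) < θ * Real.log B := by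
    rcases hbad with ⟨j, hj⟩ | h
    · exact absurd hj (ha j)
    · exact h
  have hab : ∀ i j, i ≠ j → eval x (F i) ∣ eval x (G j) := by
    intro i j hij
    rw [hG]
    simp only [map_prod]
    exact Finset.dvd_prod_of_mem (fun i => eval x (F i))
      (Finset.mem_erase.mpr ⟨hij, Finset.mem_univ i⟩)
  have h1 := logRad_prod_ge S (fun j => eval x (F j)) ha (fun j => eval x (G j)) hab
  have hj : ∀ j, (m j - 2 * η) * Real.log B ≤
      Real.log (rd (eval x (F j)).natAbs) -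
        Real.log (rd (Int.gcd (eval x (F j)) (eval x (G j)))) := by
    intro j
    obtain ⟨-, h1, h2⟩ := hcon j
    have h3 := h1 hprim (ha j)
    have h4 := h2 (ha j)
    have e1 : (m j - η) * Real.log B ≤ Real.log (rd (eval x (F j)).natAbs) := by
      rw [← Real.log_rpow hBpos]
      exact Real.log_le_log (by positivity) h3.le
    have e2 : Real.log (rd (Int.gcd (eval x (F j)) (eval x (G j)))) ≤ η * Real.log B := by
      rw [← Real.log_rpow hBpos]
      exact Real.log_le_log (by exact_mod_cast rd_pos _) h4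
    linarith
  have h2 := Finset.sum_le_sum fun j (_ : j ∈ Finset.univ) => hj j
  rw [← Finset.sum_mul, Finset.sum_sub_distrib, Finset.sum_const, Finset.card_univ,
    Fintype.card_fin, nsmul_eq_mul] at h2
  have h8 : (r : ℝ) * (2 * η) ≤ Δ / 2 := by
    rw [hη]
    have hq : (0 : ℝ) ≤ r := Nat.cast_nonneg r
    rw [← mul_div_assoc, ← mul_div_assoc, div_le_div_iff₀ (by positivity) (by norm_num)]
    nlinarith
  have h9 := hB₀ B hBB
  have h10 : (r : ℝ) * (2 * η) * Real.log B ≤ Δ / 2 * Real.log B :=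
    mul_le_mul_of_nonneg_right h8 hlogB
  have h11 : (∑ j, m j) = θ + Δ := by rw [hΔ]; ring
  rw [h11] at h2
  have h12 : (θ + Δ - r * (2 * η)) * Real.log B = θ * Real.log B + Δ * Real.log B -
    r * (2 * η) * Real.log B := by ring
  linarith

end Pool.Agent.N445.VW
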