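import Mathlib
import Pool.Agent.N445.VW.Main2

/-! # The final form: explicit weights, and heights relative to ideals of codimension two -/

set_option autoImplicit false

namespace Pool.Agent.N445.VW

open MvPolynomial Pool.Agent.TH910.Voj Pool.Agent.H813R3.Voj

/-- The greatest common divisor of the values is seldom large. -/
theorem sparse_gcd_full {n : ℕ} (F G : MvPolynomial (Fin (n + 1)) ℤ) {k : ℕ}
    (hk : F.IsHomogeneous k) (hirr : Irreducible (toQ F)) (hG : ¬ toQ F ∣ toQ G) {ε : ℝ}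
    (hε : 0 < ε) :
    Sparse (n + 1) (fun B x => eval x F ≠ 0 ∧
      (B : ℝ) ^ ε < (Int.gcd (eval x F) (eval x G) : ℝ)) := by
  have hk1 := one_le_of_irr F hk hirr
  obtain ⟨η, hη, S1⟩ := sparse_sing F hk hk1 hirr (lt_min hε one_pos) (min_le_right ε 1)
  have S2 := sparse_gcd F G hk hirr hG hη
  refine (S1.or S2).mono ?_
  rintro B x hB - ⟨h1, h2⟩
  have hB1 : (1 : ℝ) ≤ B := by exact_mod_cast hB
  by_cases h3 : (B : ℝ) ^ η < rd (Int.gcd (eval x F) (eval x G))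
  · exact Or.inr ⟨h1, h3⟩
  · left
    push Not at h3
    refine ⟨h1, _, Int.gcd_dvd_left _ _, lt_of_le_of_lt ?_ h2, h3⟩
    exact Real.rpow_le_rpow_of_exponent_le hB1 (min_le_left _ _)

/-- the height of a point with coprime integer coordinates, not logarithmic -/
def ht {n : ℕ} (x : Fin (n + 1) → ℤ) : ℕ := Finset.univ.sup fun i => (x i).natAbs

/-- the height relative to the ideal `(F, G)` -/
noncomputable def ih {n : ℕ} (F G : MvPolynomial (Fin (n + 1)) ℤ) (k e : ℕ)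
    (x : Fin (n + 1) → ℤ) : ℝ :=
  Real.log (Int.gcd (eval x F) (eval x G)) -
    Real.log (max (|(eval x F : ℝ)| / (ht x : ℝ) ^ k) (|(eval x G : ℝ)| / (ht x : ℝ) ^ e))

theorem ih_le {n : ℕ} (F G : MvPolynomial (Fin (n + 1)) ℤ) (k e B : ℕ) (x : Fin (n + 1) → ℤ)
    (hB : 1 ≤ B) (hx : x ∈ box (n + 1) B) (hprim : ∃ c : Fin (n + 1) → ℤ, ∑ i, c i * x i = 1)
    (hF : eval x F ≠ 0) (ε : ℝ) (h1 : (B : ℝ) ^ ((k : ℝ) - ε) ≤ (eval x F).natAbs)
    (h2 : (Int.gcd (eval x F) (eval x G) : ℝ) ≤ (B : ℝ) ^ ε) :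
    ih F G k e x ≤ 2 * ε * Real.log B := by
  have hB1 : (1 : ℝ) ≤ B := by exact_mod_cast hB
  have hBpos : (0 : ℝ) < B := by linarith
  have hg0 : 0 < Int.gcd (eval x F) (eval x G) := Int.gcd_pos_of_ne_zero_left _ hF
  have e1 : Real.log (Int.gcd (eval x F) (eval x G)) ≤ ε * Real.log B := by
    rw [← Real.log_rpow hBpos]
    exact Real.log_le_log (by exact_mod_cast hg0) h2
  have hht : 1 ≤ ht x := by
    by_contra hcon
    have h0 : ht x = 0 := by omega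
    obtain ⟨c, hc⟩ := hprim
    have hx0 : ∀ i, x i = 0 := by
      intro i
      have h3 : (x i).natAbs ≤ ht x := Finset.le_sup (f := fun i => (x i).natAbs) (Finset.mem_univ i)
      rw [h0] at h3
      exact Int.natAbs_eq_zero.1 (by omega)
    simp [hx0] at hc
  have hhtB : ht x ≤ B := by
    refine Finset.sup_le fun i _ => ?_
    have := mem_box.1 hx i
    rw [Int.abs_eq_natAbs] at this
    exact_mod_cast this
  have hht0 : (0 : ℝ) < ht x := by exact_mod_cast hht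
  have hval : |(eval x F : ℝ)| = ((eval x F).natAbs : ℝ) := by
    rw [Nat.cast_natAbs, Int.cast_abs]
  have e2 : (B : ℝ) ^ (-ε) ≤ |(eval x F : ℝ)| / (ht x : ℝ) ^ k := by
    rw [le_div_iff₀ (by positivity), hval]
    refine le_trans ?_ h1
    have h3 : (ht x : ℝ) ^ k ≤ (B : ℝ) ^ k :=
      pow_le_pow_left₀ hht0.le (by exact_mod_cast hhtB) k
    calc (B : ℝ) ^ (-ε) * (ht x : ℝ) ^ k ≤ (B : ℝ) ^ (-ε) * (B : ℝ) ^ k :=
          mul_le_mul_of_nonneg_left h3 (by positivity)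
      _ = (B : ℝ) ^ ((k : ℝ) - ε) := by
          rw [← Real.rpow_natCast, ← Real.rpow_add hBpos]
          congr 1
          ring
  have e3 : -ε * Real.log B ≤ Real.log (max (|(eval x F : ℝ)| / (ht x : ℝ) ^ k)
      (|(eval x G : ℝ)| / (ht x : ℝ) ^ e)) := by
    rw [← Real.log_rpow hBpos]
    exact Real.log_le_log (by positivity) (e2.trans (le_max_left _ _))
  unfold ih
  linarith

theorem main3 {n r t : ℕ} (hn : 2 ≤ n) (S : Finset ℕ)
    (F : Fin r → MvPolynomial (Fin (n + 1)) ℤ)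
    (k : Fin r → ℕ) (m : Fin r → ℝ) (hhom : ∀ j, (F j).IsHomogeneous (k j))
    (hirr : ∀ j, Irreducible (toQ (F j)))
    (hdist : ∀ i j, i ≠ j → ¬ Associated (toQ (F i)) (toQ (F j)))
    (hmk : ∀ j, m j ≤ k j)
    (hadm : ∀ j, ∀ e : ℕ, 2 ≤ e → (k j : ℝ) < (e + 1) * (1 + 1 / (n : ℝ)) ∨
      m j ≤ k j / e + (1 - 1 / (e : ℝ)) * (1 + 1 / (n : ℝ)))
    (htwo : ∀ j, (k j : ℝ) < 4 * (1 + 1 / (n : ℝ)) ∨ m j ≤ 2 * (1 + 1 / (n : ℝ)))
    (F' G' : Fin t → MvPolynomial (Fin (n + 1)) ℤ) (k' e' : Fin t → ℕ)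
    (hhom' : ∀ l, (F' l).IsHomogeneous (k' l)) (hirr' : ∀ l, Irreducible (toQ (F' l)))
    (hcop : ∀ l, ¬ toQ (F' l) ∣ toQ (G' l)) (Λ : ℝ) (hΛ : 0 ≤ Λ)
    (θ : ℝ) (hθ : θ < ∑ j, m j) :
    Sparse (n + 1) (fun B x => (∃ c : Fin (n + 1) → ℤ, ∑ i, c i * x i = 1) ∧
      ((∃ j, eval x (F j) = 0) ∨ (∃ l, eval x (F' l) = 0) ∨
        logRad S (∏ j, eval x (F j)) <
          θ * Real.log B + Λ * ∑ l, ih (F' l) (G' l) (k' l) (e' l) x)) := by
  classical
  set Δ : ℝ := (∑ j, m j) - θ with hΔ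
  have hΔ0 : 0 < Δ := by rw [hΔ]; linarith
  have M0 := main_weights2 hn S F k m hhom hirr hdist hmk hadm htwo (θ + Δ / 2) (by
    rw [hΔ]; linarith)
  set ε : ℝ := min 1 (Δ / (4 * (Λ + 1) * (t + 1))) with hε
  have hε0 : 0 < ε := lt_min one_pos (by positivity)
  have hε1 : ε ≤ 1 := min_le_left _ _
  have hF0 : ∀ l, F' l ≠ 0 := by
    intro l h0
    exact (hirr' l).ne_zero (by rw [h0, map_zero])
  have hsp : ∀ l, Sparse (n + 1) (fun B x => eval x (F' l) = 0 ∨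
      ((eval x (F' l) ≠ 0 ∧ ((eval x (F' l)).natAbs : ℝ) ≤ (B : ℝ) ^ ((k' l : ℝ) - ε)) ∨
        (eval x (F' l) ≠ 0 ∧
          (B : ℝ) ^ ε < (Int.gcd (eval x (F' l)) (eval x (G' l)) : ℝ)))) := fun l =>
    (sparse_zeros (F' l) (hF0 l)).or ((sparse_small_value (F' l) (hhom' l) (hF0 l) hε0 hε1).or
      (sparse_gcd_full (F' l) (G' l) (hhom' l) (hirr' l) (hcop l) hε0))
  refine (M0.or (Sparse.exists_fin hsp)).mono ?_
  rintro B x hB hx ⟨hprim, hbad⟩
  by_contra hcon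
  rw [not_or] at hcon
  obtain ⟨c1, c2⟩ := hcon
  have hB1 : (1 : ℝ) ≤ B := by exact_mod_cast hB
  have hlogB : 0 ≤ Real.log B := Real.log_nonneg hB1
  push Not at c2
  have c1' : ∀ j, eval x (F j) ≠ 0 := fun j h => c1 ⟨hprim, Or.inl ⟨j, h⟩⟩
  have c1'' : (θ + Δ / 2) * Real.log B ≤ logRad S (∏ j, eval x (F j)) := by
    by_contra h
    push Not at h
    exact c1 ⟨hprim, Or.inr h⟩
  rcases hbad with ⟨j, hj⟩ | ⟨l, hl⟩ | hlt
  · exact c1' j hj
  · exact (c2 l).1 hl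
  · have h1 : ∀ l, ih (F' l) (G' l) (k' l) (e' l) x ≤ 2 * ε * Real.log B := by
      intro l
      obtain ⟨a1, a2, a3⟩ := c2 l
      exact ih_le _ _ _ _ B x hB hx hprim a1 ε (a2 a1).le (a3 a1)
    have h2 : ∑ l, ih (F' l) (G' l) (k' l) (e' l) x ≤ t * (2 * ε * Real.log B) := by
      refine (Finset.sum_le_sum fun l _ => h1 l).trans (le_of_eq ?_)
      rw [Finset.sum_const, Finset.card_univ, Fintype.card_fin, nsmul_eq_mul]
    have h3 : Λ * ∑ l, ih (F' l) (G' l) (k' l) (e' l) x ≤ Λ * (t * (2 * ε * Real.log B)) :=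
      mul_le_mul_of_nonneg_left h2 hΛ
    have h4 : Λ * (t * (2 * ε)) ≤ Δ / 2 := by
      have h5 : ε ≤ Δ / (4 * (Λ + 1) * (t + 1)) := min_le_right _ _
      rw [le_div_iff₀ (by positivity)] at h5
      have ht0 : (0 : ℝ) ≤ t := Nat.cast_nonneg t
      have h6 : Λ * t ≤ (Λ + 1) * (t + 1) := by nlinarith
      nlinarith
    have h7 : Λ * (t * (2 * ε * Real.log B)) = Λ * (t * (2 * ε)) * Real.log B := by ring
    rw [h7] at h3
    have h8 := mul_le_mul_of_nonneg_right h4 hlogB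
    have h9 : (θ + Δ / 2) * Real.log B = θ * Real.log B + Δ / 2 * Real.log B := by ring
    linarith

/-! ### the weights -/

/-- the weight of a component of degree `k` -/
noncomputable def wt (n k : ℕ) : ℝ :=
  if n * k < 3 * (n + 1) then k
  else if n * k < 4 * (n + 1) then ((k : ℝ) + (1 + 1 / (n : ℝ))) / 2
  else 2 * (1 + 1 / (n : ℝ))

theorem lt_iff (n k c : ℕ) (hn : 1 ≤ n) :
    (k : ℝ) < c * (1 + 1 / (n : ℝ)) ↔ n * k < c * (n + 1) := by
  have hn0 : (0 : ℝ) < n := by exact_mod_cast hn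
  have h1 : (c : ℝ) * (1 + 1 / (n : ℝ)) = (c * (n + 1)) / n := by field_simp
  rw [h1, lt_div_iff₀ hn0]
  constructor
  · intro h
    have h2 : ((n * k : ℕ) : ℝ) < ((c * (n + 1) : ℕ) : ℝ) := by push_cast; linarith
    exact_mod_cast h2
  · intro h
    have h2 : ((n * k : ℕ) : ℝ) < ((c * (n + 1) : ℕ) : ℝ) := by exact_mod_cast h
    push_cast at h2
    linarith

theorem wt_adm (n k : ℕ) (hn : 2 ≤ n) : wt n k ≤ k ∧
    (∀ e : ℕ, 2 ≤ e → (k : ℝ) < (e + 1) * (1 + 1 / (n : ℝ)) ∨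
      wt n k ≤ k / e + (1 - 1 / (e : ℝ)) * (1 + 1 / (n : ℝ))) ∧
    ((k : ℝ) < 4 * (1 + 1 / (n : ℝ)) ∨ wt n k ≤ 2 * (1 + 1 / (n : ℝ))) := by
  have hn0 : (0 : ℝ) < n := by exact_mod_cast (by omega : 0 < n)
  have hnn : (0 : ℝ) < 1 / (n : ℝ) := by positivity
  set a : ℝ := 1 + 1 / (n : ℝ) with ha
  have ha1 : 1 < a := by rw [ha]; linarith
  have hl3 := lt_iff n k 3 (by omega)
  have hl4 := lt_iff n k 4 (by omega)
  rw [← ha] at hl3 hl4
  push_cast at hl3 hl4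
  unfold wt
  rw [← ha]
  split_ifs with h3 h4
  · have hk3 : (k : ℝ) < 3 * a := hl3.2 h3
    refine ⟨le_rfl, fun e he => Or.inl ?_, Or.inl (by linarith)⟩
    have he' : (2 : ℝ) ≤ e := by exact_mod_cast he
    nlinarith
  · have hk3 : 3 * a ≤ (k : ℝ) := not_lt.1 fun h => h3 (hl3.1 h)
    have hk4 : (k : ℝ) < 4 * a := hl4.2 h4
    refine ⟨by linarith, fun e he => ?_, Or.inl hk4⟩
    rcases Nat.eq_or_lt_of_le he with h | h
    · right
      rw [← h]
      push_cast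
      linarith
    · left
      have he' : (3 : ℝ) ≤ e := by exact_mod_cast h
      nlinarith
  · have hk4 : 4 * a ≤ (k : ℝ) := not_lt.1 fun h => h4 (hl4.1 h)
    refine ⟨by linarith, fun e he => ?_, Or.inr le_rfl⟩
    have he0 : (0 : ℝ) < e := by exact_mod_cast (by omega : 0 < e)
    by_cases h : (k : ℝ) < (e + 1) * a
    · exact Or.inl h
    · right
      push Not at h
      have h5 : (k : ℝ) / e + (1 - 1 / (e : ℝ)) * a - 2 * a = (k - (e + 1) * a) / e := by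
        field_simp
        ring
      have h6 : 0 ≤ ((k : ℝ) - (e + 1) * a) / e := div_nonneg (by linarith) he0.le
      linarith

theorem wt_three (n k : ℕ) (hk : k ≤ 3) : wt n k = k := by
  unfold wt
  rw [if_pos]
  nlinarith

theorem wt_four : wt 2 4 = 4 := by
  unfold wt
  rw [if_pos (by norm_num)]
  norm_num

theorem wt_two (n k : ℕ) (hn : 2 ≤ n) (hk : 4 ≤ k) : 2 * (1 + 1 / (n : ℝ)) ≤ wt n k := by
  have hn0 : (0 : ℝ) < n := by exact_mod_cast (by omega : 0 < n)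
  have hnn : 1 / (n : ℝ) ≤ 1 / 2 := one_div_le_one_div_of_le (by norm_num) (by exact_mod_cast hn)
  have hk4 : (4 : ℝ) ≤ k := by exact_mod_cast hk
  have hl3 := lt_iff n k 3 (by omega)
  push_cast at hl3
  unfold wt
  split_ifs with h3 h4
  · linarith
  · have hk3 : 3 * (1 + 1 / (n : ℝ)) ≤ (k : ℝ) := not_lt.1 fun h => h3 (hl3.1 h)
    linarith
  · exact le_rfl

theorem wt_sub (n k : ℕ) (hn : 2 ≤ n) (hk : n * k ≤ (n + 1) * (n + 2)) :
    (k : ℝ) - wt n k ≤ n + 1 := by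
  have hn0 : (0 : ℝ) < n := by exact_mod_cast (by omega : 0 < n)
  have hn2 : (2 : ℝ) ≤ n := by exact_mod_cast hn
  have hnn : 0 < 1 / (n : ℝ) := by positivity
  have hnn2 : 1 / (n : ℝ) ≤ 1 / 2 := one_div_le_one_div_of_le (by norm_num) hn2
  have hl4 := lt_iff n k 4 (by omega)
  push_cast at hl4
  unfold wt
  split_ifs with h3 h4
  · linarith
  · have hk4 : (k : ℝ) < 4 * (1 + 1 / (n : ℝ)) := hl4.2 h4
    linarith
  · have h1 : ((n * k : ℕ) : ℝ) ≤ (((n + 1) * (n + 2) : ℕ) : ℝ) := by exact_mod_cast hk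
    push_cast at h1
    have h2 : (k : ℝ) ≤ ((n : ℝ) + 1) * (n + 2) / n := by
      rw [le_div_iff₀ hn0]; linarith
    have h3 : ((n : ℝ) + 1) * (n + 2) / n = n + 3 + 2 * (1 / (n : ℝ)) := by
      field_simp
      ring
    linarith

end Pool.Agent.N445.VW
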