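import Mathlib
import Pool.Agent.N445.VW.Main

/-! # Explicit admissible weights -/

set_option autoImplicit false

namespace Pool.Agent.N445.VW

/-- admissible weights -/
def Adm (n k : ℕ) (m : ℝ) : Prop :=
  m ≤ k ∧
  (∀ e : ℕ, 2 ≤ e → (k : ℝ) - 1 + 1 / (e : ℝ) < e * (1 + 1 / (n : ℝ)) ∨
    m ≤ k / e + (1 - 1 / (e : ℝ)) ^ 2) ∧
  ((k : ℝ) < 4 * (1 + 1 / (n : ℝ)) ∨ m ≤ 2 * (1 + 1 / (n : ℝ)))

theorem adm_low (n k : ℕ) (hn : 2 ≤ n) (hk : k ≤ 2) : Adm n k k := by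
  have hn0 : (0 : ℝ) < n := by exact_mod_cast (by omega : 0 < n)
  have h1 : (0 : ℝ) < 1 / (n : ℝ) := by positivity
  have h2 : (k : ℝ) ≤ 2 := by exact_mod_cast hk
  refine ⟨le_rfl, fun e he => Or.inl ?_, Or.inl (by linarith)⟩
  have he' : (2 : ℝ) ≤ e := by exact_mod_cast he
  have h3 : 1 / (e : ℝ) ≤ 1 / 2 := one_div_le_one_div_of_le (by norm_num) he'
  have h4 : (0 : ℝ) < e * (1 / (n : ℝ)) := by positivity
  nlinarith

theorem adm_three (n : ℕ) (hn : 2 ≤ n) (hn3 : n ≤ 3) : Adm n 3 (3 : ℕ) := by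
  have hn0 : (0 : ℝ) < n := by exact_mod_cast (by omega : 0 < n)
  have h1 : (1 : ℝ) / 3 ≤ 1 / (n : ℝ) :=
    one_div_le_one_div_of_le hn0 (by exact_mod_cast hn3)
  refine ⟨le_rfl, fun e he => Or.inl ?_, Or.inl (by push_cast; linarith)⟩
  have he' : (2 : ℝ) ≤ e := by exact_mod_cast he
  have h3 : 1 / (e : ℝ) ≤ 1 / 2 := one_div_le_one_div_of_le (by norm_num) he'
  push_cast
  nlinarith

theorem low_ineq (k e : ℕ) (he : 2 ≤ e) (hek : e + 2 ≤ k) :
    (2 : ℝ) + 1 / e ^ 2 ≤ k / e + (1 - 1 / (e : ℝ)) ^ 2 := by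
  have he0 : (0 : ℝ) < e := by exact_mod_cast (by omega : 0 < e)
  have h1 : (e : ℝ) + 2 ≤ k := by exact_mod_cast hek
  have h2 : (k : ℝ) / e + (1 - 1 / (e : ℝ)) ^ 2 - (2 + 1 / e ^ 2) = (k - (e + 2)) / e := by
    field_simp
    ring
  have h3 : 0 ≤ ((k : ℝ) - (e + 2)) / e := div_nonneg (by linarith) he0.le
  linarith

theorem adm_two (n k : ℕ) (hn : 2 ≤ n) (hk : 3 ≤ k) (hnk : n < (k - 1) ^ 2) : Adm n k 2 := by
  have hn0 : (0 : ℝ) < n := by exact_mod_cast (by omega : 0 < n)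
  have h1 : (0 : ℝ) < 1 / (n : ℝ) := by positivity
  have hk3 : (3 : ℝ) ≤ k := by exact_mod_cast hk
  refine ⟨by linarith, fun e he => ?_, Or.inr (by linarith)⟩
  have he0 : (0 : ℝ) < e := by exact_mod_cast (by omega : 0 < e)
  have he' : (2 : ℝ) ≤ e := by exact_mod_cast he
  have h3 : 1 / (e : ℝ) ≤ 1 / 2 := one_div_le_one_div_of_le (by norm_num) he'
  have h4 : (0 : ℝ) < e * (1 / (n : ℝ)) := by positivity
  rcases Nat.lt_or_ge e (k - 1) with h | h
  · right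
    have h5 := low_ineq k e he (by omega)
    have h6 : (0 : ℝ) ≤ 1 / (e : ℝ) ^ 2 := by positivity
    linarith
  · left
    rcases Nat.eq_or_lt_of_le h with h | h
    · obtain ⟨l, rfl⟩ : ∃ l, k = l + 1 := ⟨k - 1, by omega⟩
      have h5 : e = l := by omega
      subst h5
      have h6 : (n : ℝ) < (e : ℝ) ^ 2 := by
        have : n < e ^ 2 := by simpa using hnk
        exact_mod_cast this
      push_cast
      have h7 : 1 / (e : ℝ) < e * (1 / (n : ℝ)) := by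
        rw [mul_one_div, div_lt_div_iff₀ he0 hn0]
        nlinarith
      linarith
    · have h5 : (k : ℝ) ≤ e := by exact_mod_cast (by omega : k ≤ e)
      nlinarith

theorem adm_gen (n k : ℕ) (hn : 2 ≤ n) (hk : 3 ≤ k) : Adm n k (7 / 4) := by
  have hn0 : (0 : ℝ) < n := by exact_mod_cast (by omega : 0 < n)
  have h1 : (0 : ℝ) < 1 / (n : ℝ) := by positivity
  have hk3 : (3 : ℝ) ≤ k := by exact_mod_cast hk
  refine ⟨by linarith, fun e he => ?_, Or.inr (by linarith)⟩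
  have he0 : (0 : ℝ) < e := by exact_mod_cast (by omega : 0 < e)
  have he' : (2 : ℝ) ≤ e := by exact_mod_cast he
  have h3 : 1 / (e : ℝ) ≤ 1 / 2 := one_div_le_one_div_of_le (by norm_num) he'
  have h4 : (0 : ℝ) < e * (1 / (n : ℝ)) := by positivity
  rcases Nat.lt_or_ge e k with h | h
  · right
    have h5 : (e : ℝ) + 1 ≤ k := by exact_mod_cast h
    have h6 : (k : ℝ) / e + (1 - 1 / (e : ℝ)) ^ 2 - 7 / 4 =
        (k - (e + 1)) / e + (1 / 2 - 1 / (e : ℝ)) ^ 2 := by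
      field_simp
      ring
    have h7 : 0 ≤ ((k : ℝ) - (e + 1)) / e := div_nonneg (by linarith) he0.le
    have h8 := sq_nonneg (1 / 2 - 1 / (e : ℝ))
    linarith
  · left
    have h5 : (k : ℝ) ≤ e := by exact_mod_cast h
    nlinarith

theorem adm_plane (k : ℕ) (hk : 4 ≤ k) : Adm 2 k (9 / 4) := by
  have hk4 : (4 : ℝ) ≤ k := by exact_mod_cast hk
  refine ⟨by linarith, fun e he => ?_, Or.inr (by norm_num)⟩
  have he0 : (0 : ℝ) < e := by exact_mod_cast (by omega : 0 < e)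
  have he' : (2 : ℝ) ≤ e := by exact_mod_cast he
  by_cases h : (k : ℝ) - 1 + 1 / (e : ℝ) < e * (1 + 1 / ((2 : ℕ) : ℝ))
  · exact Or.inl h
  · right
    push Not at h
    push_cast at h
    have h6 : (k : ℝ) / e + (1 - 1 / (e : ℝ)) ^ 2 - (5 / 2 - 1 / (e : ℝ)) =
        (k - 1 + 1 / (e : ℝ) - e * (1 + 1 / 2)) / e := by
      field_simp
      ring
    have h7 : 0 ≤ ((k : ℝ) - 1 + 1 / (e : ℝ) - e * (1 + 1 / 2)) / e :=
      div_nonneg (by linarith) he0.le
    rcases Nat.lt_or_ge e 4 with h4 | h4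
    · interval_cases e
      · push_cast
        norm_num
        linarith
      · push_cast at h ⊢
        norm_num at h ⊢
        have h9 : 6 ≤ k := by
          by_contra h10
          have h11 : (k : ℝ) ≤ 5 := by exact_mod_cast (by omega : k ≤ 5)
          linarith
        have h12 : (6 : ℝ) ≤ k := by exact_mod_cast h9
        linarith
    · have h4' : (4 : ℝ) ≤ e := by exact_mod_cast h4
      have h8 : 1 / (e : ℝ) ≤ 1 / 4 := one_div_le_one_div_of_le (by norm_num) h4'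
      linarith

end Pool.Agent.N445.VW
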